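import Pool.Agent.StarkU.Stmts
import Pool.Agent.Stark.RBasic

/-!
# UREAL: realisation of the local function attached to `(w, B, ψ)`
-/

open NumberField IsDedekindDomain
open scoped TensorProduct Classical Pointwise

namespace StarkC

namespace UREAL

set_option linter.unusedSectionVars false

/-! ### Group elements and powers -/

section Fn

variable {N : Type} [Field N] [NumberField N] [IsGalois ℚ N]

theorem pow_mem_iff (H : Subgroup (N ≃ₐ[ℚ] N)) (g : N ≃ₐ[ℚ] N) (a : ℕ)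
    (ha : a.Coprime (orderOf g)) : g ^ a ∈ H ↔ g ∈ H := by
  constructor
  · intro h
    obtain ⟨m, hm⟩ := exists_pow_eq_self_of_coprime ha
    rw [← hm]
    exact H.pow_mem h m
  · intro h
    exact H.pow_mem h a

theorem fix_pow (g : N ≃ₐ[ℚ] N) (κ : N) (h : g κ = κ) (n : ℕ) : (g ^ n) κ = κ := by
  induction n with
  | zero => rfl
  | succ n ih =>
    rw [pow_succ]
    show (g ^ n) (g κ) = κ
    rw [h, ih]

theorem fix_pow_iff (g : N ≃ₐ[ℚ] N) (κ : N) (a : ℕ) (ha : a.Coprime (orderOf g)) :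
    (g ^ a) κ = κ ↔ g κ = κ := by
  constructor
  · intro h
    obtain ⟨m, hm⟩ := exists_pow_eq_self_of_coprime ha
    have h1 := fix_pow _ κ h m
    rwa [hm] at h1
  · intro h
    exact fix_pow g κ h a

/-- The function `ψ₀ π`, extended by zero. -/
noncomputable def F {H₀ : Subgroup (N ≃ₐ[ℚ] N)} (ψ₀ : H₀ →* ℂˣ) (Z : Finset N)
    (g : N ≃ₐ[ℚ] N) : ℂ :=
  extZ ψ₀ g * ((Z.filter (fun κ => g κ = κ)).card : ℂ)

variable {H₀ : Subgroup (N ≃ₐ[ℚ] N)} (ψ₀ : H₀ →* ℂˣ) (Z : Finset N)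

theorem extZ_not {G : Type} [Group G] {H : Subgroup G} (ψ : H →* ℂˣ) {g : G} (hg : g ∉ H) :
    extZ ψ g = 0 := by
  unfold extZ
  rw [dif_neg hg]

theorem extZ_mem {G : Type} [Group G] {H : Subgroup G} (ψ : H →* ℂˣ) {g : G} (hg : g ∈ H) :
    extZ ψ g = ((ψ ⟨g, hg⟩ : ℂˣ) : ℂ) := by
  unfold extZ
  rw [dif_pos hg]

theorem F_not {g : N ≃ₐ[ℚ] N} (hg : g ∉ H₀) : F ψ₀ Z g = 0 := by
  unfold F
  rw [extZ_not ψ₀ hg, zero_mul]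

theorem F_all {g : N ≃ₐ[ℚ] N} (hg : g ∈ H₀ → ∀ κ ∈ Z, g κ = κ) :
    F ψ₀ Z g = (Z.card : ℂ) * extZ ψ₀ g := by
  by_cases h : g ∈ H₀
  · unfold F
    rw [Finset.filter_true_of_mem (hg h), mul_comm]
  · rw [F_not ψ₀ Z h, extZ_not ψ₀ h, mul_zero]

theorem F_none {g : N ≃ₐ[ℚ] N} (hg : ¬ (g ∈ H₀ ∧ ∃ κ ∈ Z, g κ = κ)) : F ψ₀ Z g = 0 := by
  by_cases h : g ∈ H₀
  · unfold F
    have h1 : Z.filter (fun κ => g κ = κ) = ∅ := by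
      rw [Finset.filter_eq_empty_iff]
      intro κ hκ h2
      exact hg ⟨h, κ, hκ, h2⟩
    rw [h1, Finset.card_empty, Nat.cast_zero, mul_zero]
  · exact F_not ψ₀ Z h

theorem F_pow_A (W : HeightOneSpectrum (𝓞 N))
    (hQ : ∀ h : H₀, Dec W (h : N ≃ₐ[ℚ] N) → ∀ κ ∈ Z, (h : N ≃ₐ[ℚ] N) κ = κ →
      ψ₀ h = 1 ∧ ∀ κ' ∈ Z, (h : N ≃ₐ[ℚ] N) κ' = κ')
    (g : N ≃ₐ[ℚ] N) (hg : Dec W g) (a : ℕ) (ha : a.Coprime (orderOf g)) :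
    F ψ₀ Z (g ^ a) = F ψ₀ Z g := by
  have key : ∀ g : N ≃ₐ[ℚ] N, Dec W g → g ∈ H₀ → (∃ κ ∈ Z, g κ = κ) →
      F ψ₀ Z g = (Z.card : ℂ) := by
    rintro g hd hH ⟨κ, hκ, hf⟩
    obtain ⟨h1, h2⟩ := hQ ⟨g, hH⟩ hd κ hκ hf
    rw [F_all ψ₀ Z (fun _ => h2), extZ_mem ψ₀ hH, h1, Units.val_one, mul_one]
  by_cases hc : g ∈ H₀ ∧ ∃ κ ∈ Z, g κ = κ
  · obtain ⟨hH, κ, hκ, hf⟩ := hc
    rw [key g hg hH ⟨κ, hκ, hf⟩, key (g ^ a) (RB.dec_pow hg a) (H₀.pow_mem hH a)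
      ⟨κ, hκ, fix_pow g κ hf a⟩]
  · rw [F_none ψ₀ Z hc, F_none]
    rintro ⟨hH, κ, hκ, hf⟩
    exact hc ⟨(pow_mem_iff H₀ g a ha).1 hH, κ, hκ, (fix_pow_iff g κ a ha).1 hf⟩

theorem F_pow_B (W : HeightOneSpectrum (𝓞 N))
    (hQ : ∀ h : H₀, FrobPow N W 1 (h : N ≃ₐ[ℚ] N) → ψ₀ h = 1)
    (g : N ≃ₐ[ℚ] N) (a : ℕ) (ha : a.Coprime (orderOf g))
    (hI : FrobPow N W 1 (g ^ a * g⁻¹ : N ≃ₐ[ℚ] N)) :
    F ψ₀ Z (g ^ a) = F ψ₀ Z g := by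
  by_cases h : g ∈ H₀
  · unfold F
    have h1 : Z.filter (fun κ => (g ^ a) κ = κ) = Z.filter (fun κ => g κ = κ) := by
      refine Finset.filter_congr fun κ _ => ?_
      exact fix_pow_iff g κ a ha
    have h2 : g ^ a ∈ H₀ := H₀.pow_mem h a
    have h3 : ψ₀ ⟨g ^ a, h2⟩ = ψ₀ ⟨g, h⟩ := by
      have h4 := hQ ⟨g ^ a * g⁻¹, H₀.mul_mem h2 (H₀.inv_mem h)⟩ hI
      have h5 : (⟨g ^ a, h2⟩ : H₀) =
          ⟨g ^ a * g⁻¹, H₀.mul_mem h2 (H₀.inv_mem h)⟩ * ⟨g, h⟩ := by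
        apply Subtype.ext
        show g ^ a = g ^ a * g⁻¹ * g
        rw [inv_mul_cancel_right]
      rw [h5, map_mul, h4, one_mul]
    rw [h1, extZ_mem ψ₀ h2, extZ_mem ψ₀ h, h3]
  · rw [F_not ψ₀ Z h, F_not ψ₀ Z (fun h2 => h ((pow_mem_iff H₀ g a ha).1 h2))]

/-! ### The function is of type (B) -/

/-- The subgroup of `H₀` fixing `κ`. -/
def Sk (H₀ : Subgroup (N ≃ₐ[ℚ] N)) (κ : N) : Subgroup (N ≃ₐ[ℚ] N) :=
  H₀ ⊓ MulAction.stabilizer (N ≃ₐ[ℚ] N) κ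

theorem mem_Sk (H₀ : Subgroup (N ≃ₐ[ℚ] N)) (κ : N) (g : N ≃ₐ[ℚ] N) :
    g ∈ Sk H₀ κ ↔ g ∈ H₀ ∧ g κ = κ := Iff.rfl

theorem Sk_le (H₀ : Subgroup (N ≃ₐ[ℚ] N)) (κ : N) : Sk H₀ κ ≤ H₀ := inf_le_left

noncomputable def psik (κ : N) : Sk H₀ κ →* ℂˣ := ψ₀.comp (Subgroup.inclusion (Sk_le H₀ κ))

theorem indFun_k (κ : N) (x : N ≃ₐ[ℚ] N) :
    (∑ y : N ≃ₐ[ℚ] N, extZ ψ₀ (y⁻¹ * x * y) * (if (y⁻¹ * x * y) κ = κ then (1 : ℂ) else 0)) =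
      (Nat.card (Sk H₀ κ) : ℂ) * indFun (Sk H₀ κ) (extZ (psik ψ₀ κ)) x := by
  unfold indFun
  have h0 : (Nat.card (Sk H₀ κ) : ℂ) ≠ 0 := Nat.cast_ne_zero.2 Nat.card_pos.ne'
  rw [mul_div_cancel₀ _ h0]
  refine Finset.sum_congr rfl fun y _ => ?_
  by_cases h1 : y⁻¹ * x * y ∈ H₀
  · by_cases h2 : (y⁻¹ * x * y) κ = κ
    · have h3 : y⁻¹ * x * y ∈ Sk H₀ κ := ⟨h1, h2⟩
      rw [if_pos h2, if_pos h3, extZ_mem ψ₀ h1, extZ_mem _ h3, mul_one]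
      rfl
    · have h3 : y⁻¹ * x * y ∉ Sk H₀ κ := fun h => h2 h.2
      rw [if_neg h2, if_neg h3, mul_zero]
  · have h3 : y⁻¹ * x * y ∉ Sk H₀ κ := fun h => h1 h.1
    rw [extZ_not ψ₀ h1, if_neg h3, zero_mul]

/-- The function `Ψ`. -/
noncomputable def Psi (x : N ≃ₐ[ℚ] N) : ℂ :=
  (∑ y : N ≃ₐ[ℚ] N, F ψ₀ Z (y⁻¹ * x * y)) / ((Z.card : ℂ) * (Nat.card H₀ : ℂ))

theorem Psi_mem
    (hcc : ∀ c : N ≃ₐ[ℚ] N, IsCC c →
        (∃ h : c ∈ H₀, ((ψ₀ ⟨c, h⟩ : ℂˣ) : ℂ) = -1) ∧ ∀ κ ∈ Z, c κ = κ) :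
    Psi ψ₀ Z ∈ SpanQ (G := N ≃ₐ[ℚ] N) (fun H ψ => TypeB H ψ) := by
  have h1 : Psi ψ₀ Z = ∑ κ ∈ Z, (((Nat.card (Sk H₀ κ) : ℚ)) / ((Z.card : ℚ) *
      (Nat.card H₀ : ℚ))) • indFun (Sk H₀ κ) (extZ (psik ψ₀ κ)) := by
    funext x
    rw [Finset.sum_apply]
    unfold Psi
    have h2 : ∀ y : N ≃ₐ[ℚ] N, F ψ₀ Z (y⁻¹ * x * y) = ∑ κ ∈ Z, extZ ψ₀ (y⁻¹ * x * y) *
        (if (y⁻¹ * x * y) κ = κ then (1 : ℂ) else 0) := by
      intro y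
      unfold F
      rw [← Finset.mul_sum, Finset.sum_boole]
    simp only [h2]
    rw [Finset.sum_comm, Finset.sum_div]
    refine Finset.sum_congr rfl fun κ _ => ?_
    rw [indFun_k, Pi.smul_apply, Rat.smul_def]
    push_cast
    ring
  rw [h1]
  refine Submodule.sum_mem _ fun κ hκ => Submodule.smul_mem _ _ (Submodule.subset_span ?_)
  refine ⟨Sk H₀ κ, psik ψ₀ κ, ?_, rfl⟩
  intro c hc
  obtain ⟨⟨h, h2⟩, h3⟩ := hcc c hc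
  exact ⟨⟨h, h3 κ hκ⟩, h2⟩

end Fn

/-! ### Primes -/

section Primes

theorem trans {L N : Type} [Field L] [NumberField L] [Field N] [NumberField N] [Algebra L N]
    [IsGalois L N] (P Q : HeightOneSpectrum (𝓞 N)) (h : P.under (𝓞 L) = Q.under (𝓞 L)) :
    ∃ τ : N ≃ₐ[L] N, STB.mv (τ : N ≃+* N) P = Q := by
  have hu : P.asIdeal.under (𝓞 L) = Q.asIdeal.under (𝓞 L) := by
    have := congrArg HeightOneSpectrum.asIdeal h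
    simpa using this
  have := P.isPrime
  have := Q.isPrime
  obtain ⟨σ, hσ⟩ := Algebra.IsInvariant.exists_smul_of_under_eq (𝓞 L) (𝓞 N) (N ≃ₐ[L] N)
    P.asIdeal Q.asIdeal hu
  refine ⟨σ, ?_⟩
  apply HeightOneSpectrum.ext
  rw [hσ]
  ext x
  rw [STB.mem_mv, Ideal.mem_pointwise_smul_iff_inv_smul_mem]
  have h1 : (STB.oMap (σ : N ≃+* N)).symm x = σ⁻¹ • x := RingOfIntegers.ext rfl
  rw [h1]

variable {L N : Type} [Field L] [NumberField L] [IsGalois ℚ L] [Field N] [NumberField N]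
  [Algebra L N] [IsGalois ℚ N]

theorem lift (W₀ W : HeightOneSpectrum (𝓞 N)) (g' : L ≃ₐ[ℚ] L)
    (h : STB.mv (g' : L ≃+* L) (W₀.under (𝓞 L)) = W.under (𝓞 L)) :
    ∃ g : N ≃ₐ[ℚ] N, AlgEquiv.restrictNormalHom L g = g' ∧ STB.mv (g : N ≃+* N) W₀ = W := by
  obtain ⟨g1, hg1⟩ := AlgEquiv.restrictNormalHom_surjective (F := ℚ) (K₁ := L) N g'
  have hgal : IsGalois L N := IsGalois.tower_top_of_isGalois ℚ L N
  obtain ⟨τ, hτ⟩ := trans (L := L) (STB.mv (g1 : N ≃+* N) W₀) W (by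
    rw [RB.mv_under, hg1, h])
  refine ⟨τ.restrictScalars ℚ * g1, ?_, ?_⟩
  · rw [map_mul, hg1]
    have h1 : AlgEquiv.restrictNormalHom L (τ.restrictScalars ℚ) = (1 : L ≃ₐ[ℚ] L) := by
      ext x
      apply (algebraMap L N).injective
      have h2 := AlgEquiv.restrictNormal_commutes (τ.restrictScalars ℚ) L x
      show algebraMap L N ((τ.restrictScalars ℚ).restrictNormal L x) = algebraMap L N x
      rw [h2]
      exact τ.commutes x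
    rw [h1, one_mul]
  · rw [RB.mv_mul]
    exact hτ

/-- The decomposition group. -/
def D (W₀ : HeightOneSpectrum (𝓞 N)) : Subgroup (N ≃ₐ[ℚ] N) where
  carrier := {g | Dec W₀ g}
  mul_mem' := fun ha hb => RB.dec_mul ha hb
  one_mem' := RB.dec_one W₀
  inv_mem' := fun ha => RB.dec_inv ha

theorem mem_D (W₀ : HeightOneSpectrum (𝓞 N)) (g : N ≃ₐ[ℚ] N) :
    g ∈ D W₀ ↔ STB.mv (g : N ≃+* N) W₀ = W₀ := RB.dec_iff W₀ g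

theorem mv_inv_eq (g : N ≃ₐ[ℚ] N) (P Q : HeightOneSpectrum (𝓞 N)) :
    STB.mv ((g⁻¹ : N ≃ₐ[ℚ] N) : N ≃+* N) P = Q ↔ P = STB.mv (g : N ≃+* N) Q := by
  constructor
  · rintro rfl
    rw [← RB.mv_mul, mul_inv_cancel, RB.mv_one]
  · rintro rfl
    rw [← RB.mv_mul, inv_mul_cancel, RB.mv_one]

theorem key1 (W₀ : HeightOneSpectrum (𝓞 N)) (H₀ : Subgroup (N ≃ₐ[ℚ] N)) (z₀ y : N ≃ₐ[ℚ] N) :
    (∃ s ∈ H₀, STB.mv (s : N ≃+* N) W₀ =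
        STB.mv ((y⁻¹ : N ≃ₐ[ℚ] N) : N ≃+* N) (STB.mv (z₀ : N ≃+* N) W₀)) ↔
      ∃ d ∈ D W₀, ∃ s ∈ H₀, y = z₀ * d * s := by
  constructor
  · rintro ⟨s, hs, h⟩
    refine ⟨z₀⁻¹ * y * s, ?_, s⁻¹, H₀.inv_mem hs, by group⟩
    rw [mem_D, RB.mv_mul, h, ← RB.mv_mul, ← RB.mv_mul]
    have h1 : z₀⁻¹ * y * y⁻¹ * z₀ = 1 := by group
    rw [h1, RB.mv_one]
  · rintro ⟨d, hd, s, hs, rfl⟩
    refine ⟨s⁻¹, H₀.inv_mem hs, ?_⟩
    rw [← RB.mv_mul]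
    have h1 : (z₀ * d * s)⁻¹ * z₀ = s⁻¹ * d⁻¹ := by group
    rw [h1, RB.mv_mul, (mem_D W₀ d⁻¹).1 ((D W₀).inv_mem hd)]

theorem key2 (W₀ : HeightOneSpectrum (𝓞 N)) (z₀ : N ≃ₐ[ℚ] N) (y : L ≃ₐ[ℚ] L) :
    STB.mv (y : L ≃+* L) (W₀.under (𝓞 L)) = (STB.mv (z₀ : N ≃+* N) W₀).under (𝓞 L) ↔
      (AlgEquiv.restrictNormalHom L z₀)⁻¹ * y ∈
        (D W₀).map (AlgEquiv.restrictNormalHom L : (N ≃ₐ[ℚ] N) →* (L ≃ₐ[ℚ] L)) := by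
  constructor
  · intro h
    obtain ⟨g, hg, hgW⟩ := lift W₀ (STB.mv (z₀ : N ≃+* N) W₀) y h
    refine ⟨z₀⁻¹ * g, ?_, ?_⟩
    · show z₀⁻¹ * g ∈ D W₀
      rw [mem_D, RB.mv_mul, hgW, ← RB.mv_mul, inv_mul_cancel, RB.mv_one]
    · rw [map_mul, map_inv, hg]
  · rintro ⟨d, hd, h⟩
    have hd' : STB.mv (d : N ≃+* N) W₀ = W₀ := (mem_D W₀ d).1 hd
    have h1 : y = AlgEquiv.restrictNormalHom L (z₀ * d) := by
      rw [map_mul, h, mul_inv_cancel_left]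
    rw [h1, ← RB.mv_under, RB.mv_mul, hd']

theorem aboveT_mv (T : Finset ℕ) (g : N ≃ₐ[ℚ] N) (W : HeightOneSpectrum (𝓞 N)) :
    AboveT T (STB.mv (g : N ≃+* N) W) ↔ AboveT T W := by
  unfold AboveT
  have h1 : ∀ p : ℕ, (p : 𝓞 N) ∈ (STB.mv (g : N ≃+* N) W).asIdeal ↔ (p : 𝓞 N) ∈ W.asIdeal := by
    intro p
    rw [STB.mem_mv, map_natCast]
  simp only [h1]

theorem dec_conj' (W : HeightOneSpectrum (𝓞 N)) (x y : N ≃ₐ[ℚ] N) (h : Dec W x) :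
    Dec (STB.mv ((y⁻¹ : N ≃ₐ[ℚ] N) : N ≃+* N) W) (y⁻¹ * x * y : N ≃ₐ[ℚ] N) := by
  have h1 := RB.dec_conj h y⁻¹
  rwa [inv_inv] at h1

theorem frob_conj' (W : HeightOneSpectrum (𝓞 N)) (x y : N ≃ₐ[ℚ] N) (h : FrobPow N W 1 x) :
    FrobPow N (STB.mv ((y⁻¹ : N ≃ₐ[ℚ] N) : N ≃+* N) W) 1 (y⁻¹ * x * y : N ≃ₐ[ℚ] N) := by
  intro u v huv
  rw [STB.mem_mv, map_sub, map_pow]
  refine h _ _ ?_
  rw [STB.oMap_symm_coe, STB.oMap_symm_coe, huv]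
  show (y⁻¹).symm ((y⁻¹ * x * y) (u : N)) = x ((y⁻¹).symm (u : N))
  show y (y⁻¹ (x (y (u : N)))) = x (y (u : N))
  exact y.apply_symm_apply _

theorem conj_pow' (x y : N ≃ₐ[ℚ] N) (a : ℕ) : y⁻¹ * x ^ a * y = (y⁻¹ * x * y) ^ a := by
  have h1 := conj_pow (i := a) (a := y⁻¹) (b := x)
  rw [inv_inv] at h1
  exact h1.symm

theorem orderOf_conj' (x y : N ≃ₐ[ℚ] N) : orderOf (y⁻¹ * x * y) = orderOf x := by
  have h1 := (MulAut.conj y⁻¹).orderOf_eq x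
  rw [MulAut.conj_apply, inv_inv] at h1
  exact h1

end Primes

end UREAL

open UREAL in
theorem UREAL_thm (hD : Stmt_UDATA) (hL : Stmt_ULOCG) : Stmt_UREAL := by
  intro L _ _ _ T w B ψ hw hB
  obtain ⟨N, _, _, _, _, H₀, ψ₀, Z, W₀, hW₀, hHB, hψψ, hZ, -, hcc, hT, hnT⟩ :=
    hD L T w B ψ hw hB
  refine ⟨N, inferInstance, inferInstance, inferInstance, inferInstance, Psi ψ₀ Z,
    Psi_mem ψ₀ Z hcc, ?_⟩
  have hZ0 : (Z.card : ℂ) ≠ 0 := Nat.cast_ne_zero.2 (Finset.card_pos.2 hZ).ne'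
  have hH0 : (Nat.card H₀ : ℂ) ≠ 0 := Nat.cast_ne_zero.2 Nat.card_pos.ne'
  intro W x a hx ha
  have hcop : ∀ y : N ≃ₐ[ℚ] N, a.Coprime (orderOf (y⁻¹ * x * y)) := by
    intro y
    rw [orderOf_conj']
    exact ha
  constructor
  · intro hWT
    -- the function of `x`
    have hdiff : Psi ψ₀ Z (x ^ a) - Psi ψ₀ Z x =
        (∑ y : N ≃ₐ[ℚ] N, if ∃ s ∈ H₀, STB.mv (s : N ≃+* N) W₀ =
          STB.mv ((y⁻¹ : N ≃ₐ[ℚ] N) : N ≃+* N) W then extZ ψ₀ (y⁻¹ * x ^ a * y) else 0) /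
            (Nat.card H₀ : ℂ) -
        (∑ y : N ≃ₐ[ℚ] N, if ∃ s ∈ H₀, STB.mv (s : N ≃+* N) W₀ =
          STB.mv ((y⁻¹ : N ≃ₐ[ℚ] N) : N ≃+* N) W then extZ ψ₀ (y⁻¹ * x * y) else 0) /
            (Nat.card H₀ : ℂ) := by
      unfold Psi
      rw [← sub_div, ← sub_div, ← Finset.sum_sub_distrib, ← Finset.sum_sub_distrib]
      have h1 : ∑ y : N ≃ₐ[ℚ] N, (F ψ₀ Z (y⁻¹ * x ^ a * y) - F ψ₀ Z (y⁻¹ * x * y)) =
          (Z.card : ℂ) * ∑ y : N ≃ₐ[ℚ] N,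
            ((if ∃ s ∈ H₀, STB.mv (s : N ≃+* N) W₀ =
              STB.mv ((y⁻¹ : N ≃ₐ[ℚ] N) : N ≃+* N) W then extZ ψ₀ (y⁻¹ * x ^ a * y) else 0) -
            (if ∃ s ∈ H₀, STB.mv (s : N ≃+* N) W₀ =
              STB.mv ((y⁻¹ : N ≃ₐ[ℚ] N) : N ≃+* N) W then extZ ψ₀ (y⁻¹ * x * y) else 0)) := by
        rw [Finset.mul_sum]
        refine Finset.sum_congr rfl fun y _ => ?_
        have hWy : AboveT T (STB.mv ((y⁻¹ : N ≃ₐ[ℚ] N) : N ≃+* N) W) :=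
          (aboveT_mv T y⁻¹ W).2 hWT
        by_cases hc : ∃ s ∈ H₀, STB.mv (s : N ≃+* N) W₀ =
            STB.mv ((y⁻¹ : N ≃ₐ[ℚ] N) : N ≃+* N) W
        · rw [if_pos hc, if_pos hc,
            F_all ψ₀ Z (fun h => (hT _ ⟨_, h⟩ (dec_conj' W (x ^ a) y (RB.dec_pow hx a)) hWy).1 hc),
            F_all ψ₀ Z (fun h => (hT _ ⟨_, h⟩ (dec_conj' W x y hx) hWy).1 hc)]
          ring
        · rw [if_neg hc, if_neg hc, conj_pow',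
            F_pow_A ψ₀ Z _ (fun h hh κ hκ hf => (hT _ h hh hWy).2 hc κ hκ hf) _
              (dec_conj' W x y hx) a (hcop y)]
          ring
      rw [h1, mul_div_mul_left _ _ hZ0]
    rw [hdiff]
    by_cases hz : ∃ z₀ : N ≃ₐ[ℚ] N, STB.mv (z₀ : N ≃+* N) W₀ = W
    · obtain ⟨z₀, rfl⟩ := hz
      simp only [key1]
      have hz0 : ∀ x : N ≃ₐ[ℚ] N, Dec (STB.mv (z₀ : N ≃+* N) W₀) x → z₀⁻¹ * x * z₀ ∈ D W₀ := by
        intro x hx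
        have h1 := dec_conj' _ x z₀ hx
        rw [← RB.mv_mul, inv_mul_cancel, RB.mv_one] at h1
        exact h1
      have hBD : B ≤ (D W₀).map
          (AlgEquiv.restrictNormalHom L : (N ≃ₐ[ℚ] N) →* (L ≃ₐ[ℚ] L)) := by
        intro b hb
        have h1 := (RB.dec_iff w b).1 (hB b hb)
        rw [← hW₀] at h1
        have h2 := (key2 W₀ (1 : N ≃ₐ[ℚ] N) b).1 (by rw [h1, RB.mv_one])
        rwa [map_one, inv_one, one_mul] at h2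
      have hloc : ∀ x : N ≃ₐ[ℚ] N, Dec (STB.mv (z₀ : N ≃+* N) W₀) x →
          (∑ y : N ≃ₐ[ℚ] N, if ∃ d ∈ D W₀, ∃ s ∈ H₀, y = z₀ * d * s then
            extZ ψ₀ (y⁻¹ * x * y) else 0) / (Nat.card H₀ : ℂ) =
          locInd w B ψ ((STB.mv (z₀ : N ≃+* N) W₀).under (𝓞 L))
            (AlgEquiv.restrictNormalHom L x) := by
        intro x hx
        have h1 := hL (N ≃ₐ[ℚ] N) (L ≃ₐ[ℚ] L) (AlgEquiv.restrictNormalHom L) H₀ (D W₀) B ψ₀ ψ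
          z₀ x hBD (fun d hd => hHB d hd) (fun h b hh hb => hψψ h b hh hb) (hz0 x hx)
        rw [h1]
        unfold locInd
        congr 1
        refine Finset.sum_congr rfl fun y _ => ?_
        have h2 := key2 W₀ z₀ y
        rw [hW₀] at h2
        by_cases hc : STB.mv (y : L ≃+* L) w = (STB.mv (z₀ : N ≃+* N) W₀).under (𝓞 L)
        · rw [if_pos hc, if_pos (h2.1 hc)]
        · rw [if_neg hc, if_neg (fun h => hc (h2.2 h))]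
      rw [hloc _ (RB.dec_pow hx a), hloc _ hx]
    · have h1 : ∀ y : N ≃ₐ[ℚ] N, ¬ ∃ s ∈ H₀, STB.mv (s : N ≃+* N) W₀ =
          STB.mv ((y⁻¹ : N ≃ₐ[ℚ] N) : N ≃+* N) W := by
        rintro y ⟨s, -, hs⟩
        apply hz
        refine ⟨y * s, ?_⟩
        rw [RB.mv_mul, hs, ← RB.mv_mul, mul_inv_cancel, RB.mv_one]
      have h2 : ∀ d : L ≃ₐ[ℚ] L, locInd w B ψ (W.under (𝓞 L)) d = 0 := by
        intro d
        unfold locInd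
        rw [Finset.sum_eq_zero, zero_div]
        intro y _
        rw [if_neg]
        intro hy
        rw [← hW₀] at hy
        obtain ⟨g, -, hg⟩ := lift W₀ W y hy
        exact hz ⟨g, hg⟩
      simp only [h1, if_false, Finset.sum_const_zero, zero_div, sub_self, h2]
  · intro hWT hI
    unfold Psi
    congr 1
    refine Finset.sum_congr rfl fun y _ => ?_
    have hWy : ¬ AboveT T (STB.mv ((y⁻¹ : N ≃ₐ[ℚ] N) : N ≃+* N) W) := fun h =>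
      hWT ((aboveT_mv T y⁻¹ W).1 h)
    rw [conj_pow']
    rcases hnT _ hWy with h | h
    · exact F_pow_A ψ₀ Z _ h _ (dec_conj' W x y hx) a (hcop y)
    · refine F_pow_B ψ₀ Z _ h _ a (hcop y) ?_
      have h1 := frob_conj' W (x ^ a * x⁻¹) y hI
      have h2 : (y⁻¹ * (x ^ a * x⁻¹) * y : N ≃ₐ[ℚ] N) =
          (y⁻¹ * x * y) ^ a * (y⁻¹ * x * y)⁻¹ := by
        rw [← conj_pow']
        group
      rw [h2] at h1
      exact h1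

end StarkC
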