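import Pool.Agent.StarkT.StmtsI
import Pool.Agent.StarkT.BASEQ
import Pool.Agent.Stark.LINF
import Pool.Agent.Stark.CMB
import Pool.Agent.StarkU.UREAL

/-!
# Reduction to faithful characters, `S = ∅` (slot C)
-/

open NumberField IsDedekindDomain
open scoped TensorProduct Classical

namespace StarkC

/-- Stark's assertion for a multiple of the linear character `ψ`, all `φ`, `σ`, with `S = ∅`. -/
def StarkRat0 (K L : Type) [Field K] [NumberField K] [Field L] [NumberField L] [Algebra K L]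
    (ψ : (L ≃ₐ[K] L) →* ℂˣ) : Prop :=
  ∀ (φ : XQ L (aboveSet K L (∅ : Finset (HeightOneSpectrum (𝓞 K)))) ≃ₗ[ℚ]
      QU L (aboveSet K L (∅ : Finset (HeightOneSpectrum (𝓞 K)))))
    (Θ : XC L (aboveSet K L (∅ : Finset (HeightOneSpectrum (𝓞 K)))) →ₗ[ℂ]
      XC L (aboveSet K L (∅ : Finset (HeightOneSpectrum (𝓞 K))))) (σ : ℂ ≃+* ℂ),
    IsPhiTheta K (aboveSet K L (∅ : Finset (HeightOneSpectrum (𝓞 K)))) φ Θ →
    ∃ M : ℕ, 0 < M ∧ StarkMulAt M
      ((∅ : Finset (HeightOneSpectrum (𝓞 K))) : Set (HeightOneSpectrum (𝓞 K)))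
      (aboveSet K L (∅ : Finset (HeightOneSpectrum (𝓞 K)))) Θ (linRep ψ) (linRep (twist σ ψ)) σ

/-- class (A): everywhere unramified extensions of totally complex fields in which the primes
above `T` split completely, faithful characters -/
def ClassA (T : Finset ℕ) (K L : Type) [Field K] [NumberField K] [Field L] [NumberField L]
    [Algebra K L] : Prop :=
  IsTotallyComplex K →
    (∀ (w : HeightOneSpectrum (𝓞 L)) (g : L ≃ₐ[K] L), FrobPow L w 1 g → g = 1) →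
    (∀ (w : HeightOneSpectrum (𝓞 L)), (∃ p ∈ T, p.Prime ∧ (p : 𝓞 L) ∈ w.asIdeal) →
      ∀ g : L ≃ₐ[K] L, Dec w g → g = 1) →
    ∀ ψ : (L ≃ₐ[K] L) →* ℂˣ, Function.Injective ψ → StarkRat0 K L ψ

/-- class (B): totally odd faithful characters of totally real fields -/
def ClassB (K L : Type) [Field K] [NumberField K] [Field L] [NumberField L]
    [Algebra K L] : Prop :=
  IsTotallyReal K → ∀ ψ : (L ≃ₐ[K] L) →* ℂˣ, Function.Injective ψ →
    (∀ (Φ : L →+* ℂ) (c : L ≃ₐ[K] L), ComplexEmbedding.IsConj Φ c → (ψ c : ℂ) = -1) →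
    StarkRat0 K L ψ

namespace FAITH

/-- the field cut out by `ψ` -/
theorem exists_field (F N : Type) [Field F] [NumberField F] [Field N] [NumberField N]
    [Algebra F N] [IsGalois F N] (ψ : (N ≃ₐ[F] N) →* ℂˣ) :
    ∃ (L : Type) (_ : Field L) (_ : NumberField L) (_ : Algebra F L) (_ : Algebra L N)
      (_ : IsScalarTower F L N) (_ : IsGalois F L) (ψ' : (L ≃ₐ[F] L) →* ℂˣ),
      Function.Injective ψ' ∧
        ∀ g : N ≃ₐ[F] N, ψ' (AlgEquiv.restrictNormalHom L g : L ≃ₐ[F] L) = ψ g := by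
  let L : IntermediateField F N := IntermediateField.fixedField ψ.ker
  have hgal : IsGalois F L := IsGalois.of_fixedField_normal_subgroup ψ.ker
  have hfix : L.fixingSubgroup = ψ.ker := IntermediateField.fixingSubgroup_fixedField ψ.ker
  have hker : (AlgEquiv.restrictNormalHom L : (N ≃ₐ[F] N) →* (L ≃ₐ[F] L)).ker = ψ.ker := by
    rw [← hfix]
    exact IntermediateField.restrictNormalHom_ker L
  have hsurj : Function.Surjective
      (AlgEquiv.restrictNormalHom L : (N ≃ₐ[F] N) →* (L ≃ₐ[F] L)) :=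
    AlgEquiv.restrictNormalHom_surjective N
  let ψ' : (L ≃ₐ[F] L) →* ℂˣ := MonoidHom.liftOfSurjective
    (AlgEquiv.restrictNormalHom L : (N ≃ₐ[F] N) →* (L ≃ₐ[F] L)) hsurj ⟨ψ, hker.le⟩
  have hψ' : ∀ g : N ≃ₐ[F] N, ψ' (AlgEquiv.restrictNormalHom L g : L ≃ₐ[F] L) = ψ g :=
    fun g => MonoidHom.liftOfRightInverse_comp_apply _ _ _ ⟨ψ, hker.le⟩ g
  refine ⟨L, inferInstance, inferInstance, inferInstance, inferInstance, inferInstance, hgal,
    ψ', ?_, hψ'⟩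
  rw [injective_iff_map_eq_one]
  intro a ha
  obtain ⟨g, rfl⟩ := hsurj a
  rw [hψ'] at ha
  have h1 : g ∈ (AlgEquiv.restrictNormalHom L : (N ≃ₐ[F] N) →* (L ≃ₐ[F] L)).ker := by
    rw [hker]
    exact ha
  exact h1

/-- from the field cut out by `ψ` and `S = ∅` to `N` and any `S` -/
theorem up (hI : Stmt_INFL) (hE : Stmt_EXPH) (hS : Stmt_SINDP) (hL : Stmt_LINF)
    (F L N : Type) [Field F] [NumberField F] [Field L] [NumberField L] [Field N] [NumberField N]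
    [Algebra F L] [Algebra F N] [Algebra L N] [IsScalarTower F L N] [IsGalois F L] [IsGalois F N]
    (ψ' : (L ≃ₐ[F] L) →* ℂˣ) (h : StarkRat0 F L ψ') (ψ : (N ≃ₐ[F] N) →* ℂˣ)
    (hψ : ∀ g : N ≃ₐ[F] N, ψ' (AlgEquiv.restrictNormalHom L g : L ≃ₐ[F] L) = ψ g)
    (σ : ℂ ≃+* ℂ) (S : Finset (HeightOneSpectrum (𝓞 F))) (T : Set (HeightOneSpectrum (𝓞 N)))
    (hT : aboveSet F N (S : Set (HeightOneSpectrum (𝓞 F))) = T)
    (φ : XQ N T ≃ₗ[ℚ] QU N T) (Θ : XC N T →ₗ[ℂ] XC N T) (hφ : IsPhiTheta F T φ Θ) :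
    ∃ M : ℕ, 0 < M ∧ StarkMulAt M (S : Set (HeightOneSpectrum (𝓞 F))) T Θ
      (linRep ψ) (linRep (twist σ ψ)) σ := by
  subst hT
  have hψ2 : ψ = ψ'.comp (AlgEquiv.restrictNormalHom L) := by
    refine MonoidHom.ext fun g => ?_
    exact (hψ g).symm
  subst hψ2
  obtain ⟨φ₀, Θ₀, h₀⟩ := hE F L ∅
  obtain ⟨M, hM, hst⟩ := h φ₀ Θ₀ σ h₀
  refine ⟨M, hM, ?_⟩
  obtain ⟨φ₁, Θ₁, h₁, hReg⟩ := hI F L N ∅ φ₀ Θ₀ h₀
  obtain ⟨f, f', hf, hf', hEq⟩ := hst
  have h2 : StarkMulAt M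
      ((∅ : Finset (HeightOneSpectrum (𝓞 F))) : Set (HeightOneSpectrum (𝓞 F)))
      (aboveSet F N (∅ : Finset (HeightOneSpectrum (𝓞 F)))) Θ₁
      (linRep (ψ'.comp (AlgEquiv.restrictNormalHom L)))
      (linRep (twist σ (ψ'.comp (AlgEquiv.restrictNormalHom L)))) σ := by
    refine ⟨f, f', ⟨hf.1, fun s hs => ?_⟩, ⟨hf'.1, fun s hs => ?_⟩, ?_⟩
    · rw [hf.2 s hs, BASEQ.linRep_comp, MAIN.logL_infl hL]
    · rw [hf'.2 s hs]
      have h1 := MAIN.logL_infl hL F L N ℂ (linRep (twist σ ψ'))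
        ((∅ : Finset (HeightOneSpectrum (𝓞 F))) : Set (HeightOneSpectrum (𝓞 F))) s
      rw [← h1]
      rfl
    · have h1 := hReg ℂ (linRep ψ')
      have h2 := hReg ℂ (linRep (twist σ ψ'))
      rw [← h1, ← h2] at hEq
      exact hEq
  exact hS F N (ψ'.comp (AlgEquiv.restrictNormalHom L)) σ M ∅ S φ₁ Θ₁ φ Θ h₁ hφ h2

theorem exists_above {L N : Type} [Field L] [NumberField L] [Field N] [NumberField N]
    [Algebra L N] (w : HeightOneSpectrum (𝓞 L)) :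
    ∃ W : HeightOneSpectrum (𝓞 N), W.under (𝓞 L) = w := by
  have := w.isMaximal
  obtain ⟨Q, hQ1, hQ2⟩ := Ideal.exists_maximal_ideal_liesOver_of_isIntegral (S := 𝓞 N) w.asIdeal
  have hQ0 : Q ≠ ⊥ := by
    rintro rfl
    apply w.ne_bot
    rw [hQ2.over, Ideal.under, Ideal.comap_bot_of_injective]
    exact FaithfulSMul.algebraMap_injective (𝓞 L) (𝓞 N)
  refine ⟨⟨Q, hQ1.isPrime, hQ0⟩, ?_⟩
  apply HeightOneSpectrum.ext
  rw [HeightOneSpectrum.under_asIdeal]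
  exact hQ2.over.symm

/-- from the class (A) to unramified characters of `Gal(N/F)` -/
theorem ofA (hI : Stmt_INFL) (hE : Stmt_EXPH) (hS : Stmt_SINDP) (hL : Stmt_LINF)
    (T : Finset ℕ)
    (hA : ∀ (K L : Type) [Field K] [NumberField K] [Field L] [NumberField L] [Algebra K L]
      [IsGalois K L], ClassA T K L)
    (F N : Type) [Field F] [NumberField F] [Field N] [NumberField N] [Algebra F N]
    [IsGalois F N] (ψ : (N ≃ₐ[F] N) →* ℂˣ) (hF : IsTotallyComplex F)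
    (h1 : ∀ (w : HeightOneSpectrum (𝓞 N)) (g : N ≃ₐ[F] N), FrobPow N w 1 g → ψ g = 1)
    (h2 : ∀ (w : HeightOneSpectrum (𝓞 N)), (∃ p ∈ T, p.Prime ∧ (p : 𝓞 N) ∈ w.asIdeal) →
      ∀ g : N ≃ₐ[F] N, Dec w g → ψ g = 1)
    (σ : ℂ ≃+* ℂ) (S : Finset (HeightOneSpectrum (𝓞 F))) (T' : Set (HeightOneSpectrum (𝓞 N)))
    (hT : aboveSet F N (S : Set (HeightOneSpectrum (𝓞 F))) = T')
    (φ : XQ N T' ≃ₗ[ℚ] QU N T') (Θ : XC N T' →ₗ[ℂ] XC N T') (hφ : IsPhiTheta F T' φ Θ) :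
    ∃ M : ℕ, 0 < M ∧ StarkMulAt M (S : Set (HeightOneSpectrum (𝓞 F))) T' Θ
      (linRep ψ) (linRep (twist σ ψ)) σ := by
  obtain ⟨L, _, _, _, _, _, _, ψ', hinj, hψ'⟩ := exists_field F N ψ
  have hgal : IsGalois L N := IsGalois.tower_top_of_isGalois F L N
  refine up hI hE hS hL F L N ψ' (hA F L hF ?_ ?_ ψ' hinj) ψ hψ' σ S T' hT φ Θ hφ
  · intro w g hg
    obtain ⟨W, rfl⟩ := exists_above (N := N) w
    obtain ⟨g', hg', hF'⟩ := LINF.lift_frobPow (K := F) W 0 g (by rwa [pow_zero])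
    rw [pow_zero] at hF'
    apply hinj
    rw [map_one, ← hg', hψ']
    exact h1 W g' hF'
  · intro w hw g hg
    obtain ⟨W, rfl⟩ := exists_above (N := N) w
    obtain ⟨g₁, hg₁⟩ := AlgEquiv.restrictNormalHom_surjective (F := F) (K₁ := L) N g
    obtain ⟨τ, hτ⟩ := UREAL.trans (L := L) (STB.mv (g₁ : N ≃+* N) W) W (by
      rw [RB.mv_under, hg₁]
      exact (RB.dec_iff _ _).1 hg)
    have h3 : AlgEquiv.restrictNormalHom L (τ.restrictScalars F) = (1 : L ≃ₐ[F] L) := by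
      ext x
      apply (algebraMap L N).injective
      have h2 := AlgEquiv.restrictNormal_commutes (τ.restrictScalars F) L x
      show algebraMap L N ((τ.restrictScalars F).restrictNormal L x) = algebraMap L N x
      rw [h2]
      exact τ.commutes x
    have h4 : Dec W (τ.restrictScalars F * g₁ : N ≃ₐ[F] N) := by
      rw [RB.dec_iff, RB.mv_mul]
      exact hτ
    obtain ⟨p, hp, hpp, hpw⟩ := hw
    have h5 := h2 W ⟨p, hp, hpp, by rwa [RB.natCast_mem_under] at hpw⟩ _ h4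
    apply hinj
    rw [map_one, ← hg₁]
    have h6 : (AlgEquiv.restrictNormalHom L g₁ : L ≃ₐ[F] L) =
        AlgEquiv.restrictNormalHom L (τ.restrictScalars F * g₁) := by
      rw [map_mul, h3, one_mul]
    rw [h6, hψ']
    exact h5

/-- from the class (B) to totally odd characters of `Gal(N/F)` -/
theorem ofB (hI : Stmt_INFL) (hE : Stmt_EXPH) (hS : Stmt_SINDP) (hL : Stmt_LINF)
    (hB : ∀ (K L : Type) [Field K] [NumberField K] [Field L] [NumberField L] [Algebra K L]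
      [IsGalois K L], ClassB K L)
    (F N : Type) [Field F] [NumberField F] [Field N] [NumberField N] [Algebra F N]
    [IsGalois F N] (ψ : (N ≃ₐ[F] N) →* ℂˣ) (hF : IsTotallyReal F)
    (h1 : ∀ (Φ : N →+* ℂ) (c : N ≃ₐ[F] N), ComplexEmbedding.IsConj Φ c → (ψ c : ℂ) = -1)
    (σ : ℂ ≃+* ℂ) (S : Finset (HeightOneSpectrum (𝓞 F))) (T' : Set (HeightOneSpectrum (𝓞 N)))
    (hT : aboveSet F N (S : Set (HeightOneSpectrum (𝓞 F))) = T')
    (φ : XQ N T' ≃ₗ[ℚ] QU N T') (Θ : XC N T' →ₗ[ℂ] XC N T') (hφ : IsPhiTheta F T' φ Θ) :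
    ∃ M : ℕ, 0 < M ∧ StarkMulAt M (S : Set (HeightOneSpectrum (𝓞 F))) T' Θ
      (linRep ψ) (linRep (twist σ ψ)) σ := by
  obtain ⟨L, _, _, _, _, _, _, ψ', hinj, hψ'⟩ := exists_field F N ψ
  refine up hI hE hS hL F L N ψ' (hB F L hF ψ' hinj ?_) ψ hψ' σ S T' hT φ Θ hφ
  intro Φ' c' hc'
  -- extend `Φ'` to `N`
  let Φ : N →+* ℂ := ComplexEmbedding.lift N Φ'
  have hΦ : Φ.comp (algebraMap L N) = Φ' := ComplexEmbedding.lift_comp_algebraMap N Φ'
  have hreal : (ComplexEmbedding.conjugate Φ).comp (algebraMap F N) =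
      Φ.comp (algebraMap F N) := by
    have h2 := hF.isReal (InfinitePlace.mk (Φ.comp (algebraMap F N)))
    rw [InfinitePlace.isReal_mk_iff] at h2
    exact h2
  obtain ⟨ν, hν⟩ := NumberField.ComplexEmbedding.exists_comp_symm_eq_of_comp_eq (k := F) Φ
    (ComplexEmbedding.conjugate Φ) hreal.symm
  have hc : ComplexEmbedding.IsConj Φ ν.symm := hν.symm
  have h3 := CMB.isConj_restrict (L := L) hc
  rw [hΦ] at h3
  have h4 : c' = AlgEquiv.restrictNormalHom L ν.symm := hc'.ext h3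
  rw [h4, hψ']
  exact h1 Φ ν.symm hc

end FAITH

end StarkC
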