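import Pool.Agent.StarkU.UVAL
import Pool.Agent.StarkU.UALGC

/-!
# The algebraic part, characters with values in the field of `n`-th roots of unity
-/

open NumberField IsDedekindDomain
open scoped TensorProduct Classical

namespace StarkC

/-- Type (A) with a cyclic group and a character of order dividing `n`. -/
def TypeAn {N : Type} [Field N] [NumberField N] (T : Finset ℕ) (n : ℕ)
    (H : Subgroup (N ≃ₐ[ℚ] N)) (ψ : H →* ℂˣ) : Prop :=
  IsCyclic H ∧ TypeA T H ψ ∧ ψ ^ n = 1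

/-- Type (B) with a character with values in the field of `n`-th roots of unity. -/
def TypeBn {N : Type} [Field N] [NumberField N] (n : ℕ)
    (H : Subgroup (N ≃ₐ[ℚ] N)) (ψ : H →* ℂˣ) : Prop :=
  TypeB H ψ ∧ ∀ h : H, ((ψ h : ℂˣ) : ℂ) ∈ Cyc n

/-- The algebraic part, characters with values in the field of `n`-th roots of unity. -/
def Stmt_UALGN : Prop :=
  ∀ (L : Type) [Field L] [NumberField L] [IsGalois ℚ L] (T : Finset ℕ) (n : ℕ), 0 < n →
    ∀ χ : (L ≃ₐ[ℚ] L) → ℂ, χ ∈ SpanQ (G := L ≃ₐ[ℚ] L) (fun _ _ => True) →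
    (∀ g, χ g ∈ Cyc n) →
    ∃ (N : Type) (_ : Field N) (_ : NumberField N) (_ : Algebra L N) (_ : IsGalois ℚ N),
      (fun g : N ≃ₐ[ℚ] N => χ (AlgEquiv.restrictNormalHom L g)) ∈
        SpanQ (G := N ≃ₐ[ℚ] N) (fun H ψ => TypeAn T n H ψ ∨ TypeBn n H ψ)

namespace UNTH

section grp

variable {G : Type} [Group G] [Fintype G]

theorem spanQ_le {P P' : ∀ H : Subgroup G, (H →* ℂˣ) → Prop}
    (h : ∀ H ψ, P H ψ → indFun H (extZ ψ) ∈ SpanQ (G := G) P') :
    SpanQ (G := G) P ≤ SpanQ (G := G) P' := by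
  refine Submodule.span_le.2 ?_
  rintro _ ⟨H, ψ, hP, rfl⟩
  exact h H ψ hP

/-- Removal of the 2-part, `n` odd. -/
theorem odd_red (n : ℕ) (hn : Odd n) (H : Subgroup G) (ψ : H →* ℂˣ) (hψ : ψ ^ (2 * n) = 1) :
    indFun H (extZ ψ) ∈ SpanQ (G := G) (fun B ν => ∃ (hle : B ≤ H) (t : ℕ),
      ν = (ψ ^ t).comp (Subgroup.inclusion hle) ∧ ν ^ n = 1) := by
  have h1 : indFun H (extZ ψ) = (2 : ℚ) • indFun H (UAVG.W H ψ n 1) -
      indFun H (extZ (ψ ^ (n + 1))) := by
    funext g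
    rw [Pi.sub_apply, Pi.smul_apply, Rat.smul_def]
    unfold indFun
    rw [mul_div_assoc', ← sub_div, Finset.mul_sum, ← Finset.sum_sub_distrib]
    congr 1
    refine Finset.sum_congr rfl fun x _ => ?_
    by_cases hx : x⁻¹ * g * x ∈ H
    · rw [if_pos hx, if_pos hx, if_pos hx]
      have h2 := CMB.extZ_apply ψ (⟨_, hx⟩ : H)
      have h3 := CMB.extZ_apply (ψ ^ (n + 1)) (⟨_, hx⟩ : H)
      have h4 : UAVG.W H ψ n 1 (x⁻¹ * g * x) = (if ((ψ ⟨_, hx⟩ : ℂˣ) : ℂ) ^ n = 1 then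
          ((ψ ⟨_, hx⟩ : ℂˣ) : ℂ) ^ 1 else 0) := by
        unfold UAVG.W
        rw [dif_pos hx]
      have h5 : extZ ψ (x⁻¹ * g * x) = ((ψ ⟨_, hx⟩ : ℂˣ) : ℂ) := h2
      have h6 : extZ (ψ ^ (n + 1)) (x⁻¹ * g * x) = ((ψ ⟨_, hx⟩ : ℂˣ) : ℂ) ^ (n + 1) := by
        rw [MonoidHom.pow_apply, Units.val_pow_eq_pow_val] at h3
        exact h3
      rw [h4, h5, h6]
      set z := ((ψ ⟨x⁻¹ * g * x, hx⟩ : ℂˣ) : ℂ) with hz
      have h7 : z ^ (2 * n) = 1 := by
        rw [hz, ← Units.val_pow_eq_pow_val, ← MonoidHom.pow_apply, hψ]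
        rfl
      have h8 : z ^ n * z ^ n = 1 := by
        rw [← pow_add, ← two_mul, h7]
      rcases mul_self_eq_one_iff.1 h8 with h9 | h9
      · rw [if_pos h9, pow_one, pow_succ, h9]
        push_cast
        ring
      · have h10 : z ^ n ≠ 1 := by
          rw [h9]
          norm_num
        rw [if_neg h10, pow_succ, h9]
        ring
    · rw [if_neg hx, if_neg hx, if_neg hx]
      ring
  rw [h1]
  refine Submodule.sub_mem _ (Submodule.smul_mem _ _ ?_) (Submodule.subset_span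
    ⟨H, ψ ^ (n + 1), ⟨le_rfl, n + 1, ?_, ?_⟩, rfl⟩)
  · rw [UAVG.indFun_W]
    refine Submodule.smul_mem _ _ (Submodule.subset_span ⟨_, _, ⟨UAVG.sub_le H ψ n, 1, rfl, ?_⟩,
      rfl⟩)
    refine MonoidHom.ext fun b => ?_
    rw [MonoidHom.pow_apply, MonoidHom.one_apply, MonoidHom.comp_apply, MonoidHom.pow_apply,
      pow_one]
    exact (UAVG.mem_sub H ψ n (Subgroup.inclusion (UAVG.sub_le H ψ n) b)).1 b.2
  · refine MonoidHom.ext fun b => ?_
    rfl
  · obtain ⟨k, hk⟩ := hn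
    have h2 : (n + 1) * n = (2 * n) * (k + 1) := by rw [hk]; ring
    refine MonoidHom.ext fun b => ?_
    have h3 := DFunLike.congr_fun hψ b
    rw [MonoidHom.pow_apply, MonoidHom.one_apply] at h3
    rw [MonoidHom.pow_apply, MonoidHom.pow_apply, MonoidHom.one_apply, ← pow_mul, h2, pow_mul,
      h3, one_pow]

end grp

/-- `n` if `n` is even, `2n` otherwise. -/
def ev (n : ℕ) : ℕ := if Even n then n else 2 * n

theorem ev_even (n : ℕ) : Even (ev n) := by
  unfold ev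
  split_ifs with h
  · exact h
  · exact even_two_mul n

theorem dvd_ev (n : ℕ) : n ∣ ev n := by
  unfold ev
  split_ifs with h
  · exact dvd_rfl
  · exact dvd_mul_left n 2

theorem mem_cyc_of (n : ℕ) (z : ℂ) (hz : z ^ (ev n) = 1) : z ∈ Cyc n := by
  unfold ev at hz
  split_ifs at hz with h
  · exact IntermediateField.subset_adjoin ℚ _ hz
  · have h8 : z ^ n * z ^ n = 1 := by
      rw [← pow_add, ← two_mul, hz]
    rcases mul_self_eq_one_iff.1 h8 with h9 | h9
    · exact IntermediateField.subset_adjoin ℚ _ h9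
    · have hn : Odd n := Nat.not_even_iff_odd.1 h
      have h10 : (-z) ^ n = 1 := by
        rw [hn.neg_pow, h9, neg_neg]
      have h11 : -z ∈ Cyc n := IntermediateField.subset_adjoin ℚ _ h10
      have h12 := (Cyc n).neg_mem h11
      rwa [neg_neg] at h12

section arith

variable {N : Type} [Field N] [NumberField N]

theorem typeA_sub (T : Finset ℕ) (H B : Subgroup (N ≃ₐ[ℚ] N)) (ψ : H →* ℂˣ) (hle : B ≤ H)
    (t : ℕ) (h : TypeA T H ψ) : TypeA T B ((ψ ^ t).comp (Subgroup.inclusion hle)) := by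
  obtain ⟨h1, h2, h3⟩ := h
  refine ⟨fun c hc => h1 c (hle hc), fun W b hb => ?_, fun W b hT hb => ?_⟩
  · rw [MonoidHom.comp_apply, MonoidHom.pow_apply, h2 W (Subgroup.inclusion hle b) hb, one_pow]
  · rw [MonoidHom.comp_apply, MonoidHom.pow_apply, h3 W (Subgroup.inclusion hle b) hT hb,
      one_pow]

theorem cyc_sub {G : Type} [Group G] {B H : Subgroup G} (hle : B ≤ H) (h : IsCyclic H) :
    IsCyclic B :=
  isCyclic_of_injective (Subgroup.inclusion hle) (Subgroup.inclusion_injective hle)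

end arith

end UNTH

theorem UALGN_thm (hC : Stmt_UALGC) : Stmt_UALGN := by
  intro L _ _ _ T n hn χ hχ hval
  obtain ⟨N, _, _, _, _, hN⟩ := hC L T χ hχ
  refine ⟨N, inferInstance, inferInstance, inferInstance, inferInstance, ?_⟩
  have h1 : (fun g : N ≃ₐ[ℚ] N => χ (AlgEquiv.restrictNormalHom L g)) ∈
      SpanQ (G := N ≃ₐ[ℚ] N) (UAVG.Avg
        (fun H ψ => (IsCyclic H ∧ TypeA T H ψ) ∨ TypeB H ψ) (UNTH.ev n)) := by
    refine UAVG.main (UNTH.ev n) hN fun a g ha han => ?_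
    exact UVAL.inv_of_values n hn hN (fun g => hval _) a g ha
      (Nat.ModEq.of_dvd (UNTH.dvd_ev n) han)
  refine UNTH.spanQ_le ?_ h1
  rintro B ν ⟨H, ψ, hle, t, hP, ht, hν, hνn, hker⟩
  rcases hP with ⟨hcyc, hA⟩ | hB
  · have hA' : TypeA T B ν := by
      rw [hν]
      exact UNTH.typeA_sub T H B ψ hle t hA
    have hcyc' : IsCyclic B := UNTH.cyc_sub hle hcyc
    by_cases hev : Even n
    · have h2 : UNTH.ev n = n := if_pos hev
      rw [h2] at hνn
      exact Submodule.subset_span ⟨B, ν, Or.inl ⟨hcyc', hA', hνn⟩, rfl⟩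
    · have h2 : UNTH.ev n = 2 * n := if_neg hev
      rw [h2] at hνn
      refine UNTH.spanQ_le ?_ (UNTH.odd_red n (Nat.not_even_iff_odd.1 hev) B ν hνn)
      rintro C μ ⟨hle', s, rfl, hμ⟩
      exact Submodule.subset_span ⟨C, _, Or.inl ⟨UNTH.cyc_sub hle' hcyc',
        UNTH.typeA_sub T B C ν hle' s hA', hμ⟩, rfl⟩
  · refine Submodule.subset_span ⟨B, ν, Or.inr ⟨?_, ?_⟩, rfl⟩
    · intro c hc
      obtain ⟨h2, h3⟩ := hB c hc
      have h4 : c ∈ B := by
        refine hker ⟨c, h2⟩ ?_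
        apply Units.ext
        rw [Units.val_pow_eq_pow_val, h3, (UNTH.ev_even n).neg_one_pow, Units.val_one]
      refine ⟨h4, ?_⟩
      have h5 : Odd t := by
        obtain ⟨k, hk⟩ := UNTH.ev_even n
        rw [hk, ← two_mul] at ht
        have h6 : t ≡ 1 [MOD 2] := Nat.ModEq.of_dvd (dvd_mul_right 2 k) ht
        exact Nat.odd_iff.2 h6
      have h7 : ν ⟨c, h4⟩ = (ψ ⟨c, h2⟩) ^ t := by
        rw [hν]
        rfl
      rw [h7, Units.val_pow_eq_pow_val, h3, h5.neg_one_pow]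
    · intro h
      refine UNTH.mem_cyc_of n _ ?_
      rw [← Units.val_pow_eq_pow_val, ← MonoidHom.pow_apply, hνn]
      rfl

end StarkC
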