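import Pool.Agent.StarkU.ALLU
import Pool.Agent.StarkU.UALGC
import Pool.Agent.StarkU.UNTH

/-!
# The character decomposition for Theorem C_n (values in a cyclotomic field)
-/

namespace StarkC.ALLV

open StarkC

theorem ualgc : Stmt_UALGC :=
  UALGC_thm UART_thm UCYC_thm UMACK_thm UIND_thm UINFL_thm UEXT_thm URAM_thm ALLU.ufk
    (UFKI_thm UEXT_thm) (UCEN_thm UEXT_thm) ALLU.uglob

theorem ualgn : Stmt_UALGN := UALGN_thm ualgc

end StarkC.ALLV
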