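import Pool.Agent.StarkU.StmtsS
import Pool.Agent.StarkU.UREAL

/-!
# SDATA: the fields and groups used in SREAL
-/

open NumberField IsDedekindDomain
open scoped TensorProduct Classical Pointwise

namespace StarkC

namespace SDATA

set_option linter.unusedSectionVars false

/-! ### The comparison of decomposition groups -/

section Rho

variable {L E N : Type} [Field L] [NumberField L] [IsGalois ℚ L] [Field E] [NumberField E]
  [IsGalois ℚ E] [Field N] [NumberField N] [IsGalois ℚ N] [Algebra L N] [Algebra E N]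

/-- The restriction of decomposition groups. -/
noncomputable def pr (L : Type) [Field L] [NumberField L] [IsGalois ℚ L] [Algebra L N]
    (W : HeightOneSpectrum (𝓞 N)) : decGrp ℚ W →* decGrp ℚ (W.under (𝓞 L)) where
  toFun h := ⟨AlgEquiv.restrictNormalHom L (h : N ≃ₐ[ℚ] N), RB.dec_restrict h.2⟩
  map_one' := by
    apply Subtype.ext
    show AlgEquiv.restrictNormalHom L (1 : N ≃ₐ[ℚ] N) = 1
    exact map_one _
  map_mul' a b := by
    apply Subtype.ext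
    show AlgEquiv.restrictNormalHom L ((a : N ≃ₐ[ℚ] N) * (b : N ≃ₐ[ℚ] N)) = _
    exact map_mul _ _ _

theorem pr_coe (W : HeightOneSpectrum (𝓞 N)) (h : decGrp ℚ W) :
    ((pr L W h : decGrp ℚ (W.under (𝓞 L))) : L ≃ₐ[ℚ] L) =
      AlgEquiv.restrictNormalHom L (h : N ≃ₐ[ℚ] N) := rfl

theorem pr_surj (W : HeightOneSpectrum (𝓞 N)) : Function.Surjective (pr L W) := by
  rintro ⟨g, hg⟩
  obtain ⟨x, hx1, hx2⟩ := UREAL.lift W W g ((RB.dec_iff _ _).1 hg)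
  exact ⟨⟨x, (RB.dec_iff _ _).2 hx2⟩, Subtype.ext hx1⟩

theorem rho (W : HeightOneSpectrum (𝓞 N))
    (hb : ∀ h : N ≃ₐ[ℚ] N, Dec W h →
      (AlgEquiv.restrictNormalHom L h = 1 ↔ AlgEquiv.restrictNormalHom E h = 1)) :
    ∃ ρ : decGrp ℚ (W.under (𝓞 E)) →* decGrp ℚ (W.under (𝓞 L)), Function.Bijective ρ ∧
      ∀ h : decGrp ℚ W, ρ (pr E W h) = pr L W h := by
  have hker : (pr E W).ker ≤ (pr L W).ker := by
    intro h hh
    rw [MonoidHom.mem_ker] at hh ⊢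
    have h1 := congrArg Subtype.val hh
    exact Subtype.ext ((hb h h.2).2 h1)
  have hcomp : ∀ h : decGrp ℚ W,
      (MonoidHom.liftOfSurjective (pr E W) (pr_surj W) ⟨pr L W, hker⟩) (pr E W h) = pr L W h :=
    fun h => MonoidHom.liftOfRightInverse_comp_apply _ _ _ _ h
  refine ⟨MonoidHom.liftOfSurjective (pr E W) (pr_surj W) ⟨pr L W, hker⟩, ⟨?_, ?_⟩, hcomp⟩
  · rw [injective_iff_map_eq_one]
    intro x hx
    obtain ⟨h, rfl⟩ := pr_surj (L := E) W x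
    rw [hcomp] at hx
    have h1 := congrArg Subtype.val hx
    exact Subtype.ext ((hb h h.2).1 h1)
  · intro y
    obtain ⟨h, rfl⟩ := pr_surj (L := L) W y
    exact ⟨_, hcomp h⟩

end Rho

/-! ### The fixed field of the decomposition group -/

section Fix

variable {E : Type} [Field E] [NumberField E] [IsGalois ℚ E]

/-- The decomposition field. -/
noncomputable abbrev FF (v : HeightOneSpectrum (𝓞 E)) : IntermediateField ℚ E :=
  IntermediateField.fixedField (decGrp ℚ v)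

theorem mem_decGrp_iff (v : HeightOneSpectrum (𝓞 E)) (g : E ≃ₐ[ℚ] E) :
    g ∈ decGrp ℚ v ↔ ∀ x ∈ FF v, g x = x := by
  rw [← IntermediateField.mem_fixingSubgroup_iff, IntermediateField.fixingSubgroup_fixedField]

/-- The Galois group over the decomposition field. -/
noncomputable def al (v : HeightOneSpectrum (𝓞 E)) : (E ≃ₐ[FF v] E) →* decGrp ℚ v where
  toFun g := ⟨g.restrictScalars ℚ, (mem_decGrp_iff v _).2 fun x hx => g.commutes ⟨x, hx⟩⟩
  map_one' := rfl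
  map_mul' _ _ := rfl

theorem al_coe (v : HeightOneSpectrum (𝓞 E)) (g : E ≃ₐ[FF v] E) (x : E) :
    ((al v g : decGrp ℚ v) : E ≃ₐ[ℚ] E) x = g x := rfl

theorem al_surj (v : HeightOneSpectrum (𝓞 E)) : Function.Surjective (al v) := by
  rintro ⟨g, hg⟩
  refine ⟨AlgEquiv.ofRingEquiv (f := (g : E ≃+* E)) (fun x => ?_), ?_⟩
  · exact (mem_decGrp_iff v g).1 hg x x.2
  · apply Subtype.ext
    ext x
    rfl

theorem real_FF (hE : ∀ v : InfinitePlace E, v.IsReal) (w : HeightOneSpectrum (𝓞 E))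
    (v : InfinitePlace (FF w)) : v.IsReal := by
  obtain ⟨v', rfl⟩ := InfinitePlace.comap_surjective (K := E) v
  exact (hE v').comap _

variable {N : Type} [Field N] [NumberField N] [IsGalois ℚ N] [Algebra E N]

theorem res_apply (g : N ≃ₐ[ℚ] N) (x : E) :
    algebraMap E N (AlgEquiv.restrictNormalHom E g x) = g (algebraMap E N x) :=
  AlgEquiv.restrictNormal_commutes g E x

/-- `H₀` -/
noncomputable def H0 (N : Type) [Field N] [NumberField N] [Algebra E N]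
    (v : HeightOneSpectrum (𝓞 E)) : Subgroup (N ≃ₐ[ℚ] N) :=
  (decGrp ℚ v).comap (AlgEquiv.restrictNormalHom E : (N ≃ₐ[ℚ] N) →* (E ≃ₐ[ℚ] E))

theorem mem_H0 (v : HeightOneSpectrum (𝓞 E)) (g : N ≃ₐ[ℚ] N) :
    g ∈ H0 N v ↔ AlgEquiv.restrictNormalHom E g ∈ decGrp ℚ v := Iff.rfl

theorem H0_fix (v : HeightOneSpectrum (𝓞 E)) {g : N ≃ₐ[ℚ] N} (hg : g ∈ H0 N v) (x : FF v) :
    g (algebraMap (FF v) N x) = algebraMap (FF v) N x := by
  have h1 : algebraMap (FF v) N x = algebraMap E N (x : E) := rfl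
  rw [h1, ← res_apply, (mem_decGrp_iff v _).1 hg x x.2]

/-- The elements of `H₀` as automorphisms over the decomposition field. -/
noncomputable def bt (v : HeightOneSpectrum (𝓞 E)) (g : N ≃ₐ[ℚ] N) (hg : g ∈ H0 N v) :
    N ≃ₐ[FF v] N :=
  AlgEquiv.ofRingEquiv (f := (g : N ≃+* N)) (H0_fix v hg)

theorem bt_coe (v : HeightOneSpectrum (𝓞 E)) (g : N ≃ₐ[ℚ] N) (hg : g ∈ H0 N v) :
    ((bt v g hg : N ≃ₐ[FF v] N) : N → N) = g := rfl

theorem al_res (v : HeightOneSpectrum (𝓞 E)) (g : N ≃ₐ[ℚ] N) (hg : g ∈ H0 N v) :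
    al v (AlgEquiv.restrictNormalHom E (bt v g hg)) =
      (⟨AlgEquiv.restrictNormalHom E g, hg⟩ : decGrp ℚ v) := by
  apply Subtype.ext
  ext x
  rw [al_coe]
  apply (algebraMap E N).injective
  rw [res_apply]
  exact AlgEquiv.restrictNormal_commutes (bt v g hg) E x

theorem restrictScalars_mem (v : HeightOneSpectrum (𝓞 E)) (τ : N ≃ₐ[FF v] N) :
    τ.restrictScalars ℚ ∈ H0 N v := by
  rw [mem_H0, mem_decGrp_iff]
  intro x hx
  apply (algebraMap E N).injective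
  rw [res_apply]
  exact τ.commutes ⟨x, hx⟩

end Fix

/-! ### The quadratic character -/

section Eta

variable {N : Type} [Field N] [NumberField N]

theorem om_cases {l : ℕ} {ω : N} (hω : ω ^ 2 - ω + (l : N) = 0) (g : N ≃ₐ[ℚ] N) :
    g ω = ω ∨ g ω = 1 - ω := by
  have h1 : (g ω) ^ 2 - g ω + (l : N) = 0 := by
    have h2 := congrArg g hω
    rw [map_add, map_sub, map_pow, map_natCast, map_zero] at h2
    exact h2
  have h3 : (g ω - ω) * (g ω - (1 - ω)) = 0 := by linear_combination h1 - hω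
  rcases mul_eq_zero.1 h3 with h | h
  · exact Or.inl (sub_eq_zero.1 h)
  · exact Or.inr (sub_eq_zero.1 h)

theorem om_ne {l : ℕ} (_hl : l.Prime) {ω : N} (hω : ω ^ 2 - ω + (l : N) = 0) : 1 - ω ≠ ω := by
  intro h
  have h1 : (1 : N) = 4 * (l : N) := by linear_combination (-4) * hω - (2 * ω - 1) * h
  have h2 : ((1 : ℕ) : N) = ((4 * l : ℕ) : N) := by push_cast; exact h1
  have h3 : 1 = 4 * l := Nat.cast_injective h2
  omega

/-- The quadratic character. -/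
noncomputable def eta {l : ℕ} (hl : l.Prime) {ω : N} (hω : ω ^ 2 - ω + (l : N) = 0) :
    (N ≃ₐ[ℚ] N) →* ℂˣ where
  toFun g := if g ω = ω then 1 else -1
  map_one' := by
    rw [if_pos]
    rfl
  map_mul' a b := by
    have hab : (a * b) ω = a (b ω) := rfl
    have hne := om_ne hl hω
    rw [hab]
    rcases om_cases hω b with hb | hb <;> rcases om_cases hω a with ha | ha
    · rw [hb, ha, if_pos rfl, mul_one]
    · rw [hb, ha, if_neg hne, if_pos rfl, mul_one]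
    · rw [hb, map_sub, map_one, ha, if_neg hne, if_pos rfl, one_mul]
    · rw [hb, map_sub, map_one, ha, if_neg hne, sub_sub_cancel, if_pos rfl, neg_mul_neg, one_mul]

theorem eta_one {l : ℕ} (hl : l.Prime) {ω : N} (hω : ω ^ 2 - ω + (l : N) = 0) {g : N ≃ₐ[ℚ] N}
    (hg : g ω = ω) : eta hl hω g = 1 := by
  show (if g ω = ω then (1 : ℂˣ) else -1) = 1
  rw [if_pos hg]

theorem eta_neg {l : ℕ} (hl : l.Prime) {ω : N} (hω : ω ^ 2 - ω + (l : N) = 0) {g : N ≃ₐ[ℚ] N}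
    (hg : g ω ≠ ω) : eta hl hω g = -1 := by
  show (if g ω = ω then (1 : ℂˣ) else -1) = -1
  rw [if_neg hg]

/-- `l` splits in `ℚ(ω)`. -/
theorem om_dec {l : ℕ} {ω : N} (hω : ω ^ 2 - ω + (l : N) = 0)
    {W : HeightOneSpectrum (𝓞 N)} (hW : (l : 𝓞 N) ∈ W.asIdeal) {g : N ≃ₐ[ℚ] N} (hg : Dec W g) :
    g ω = ω := by
  have hint : IsIntegral ℤ ω := by
    refine ⟨Polynomial.X ^ 2 - Polynomial.X + Polynomial.C (l : ℤ), ?_, ?_⟩
    · monicity!
    · simp only [Polynomial.eval₂_add, Polynomial.eval₂_sub, Polynomial.eval₂_pow,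
        Polynomial.eval₂_X, Polynomial.eval₂_C]
      rw [← hω]
      push_cast
      simp
  obtain ⟨o, ho⟩ : ∃ o : 𝓞 N, (o : N) = ω := ⟨⟨ω, hint⟩, rfl⟩
  rcases om_cases hω g with h | h
  · exact h
  exfalso
  have hprod : o * (1 - o) = (l : 𝓞 N) := by
    apply RingOfIntegers.ext
    have e1 : ((o * (1 - o) : 𝓞 N) : N) = (o : N) * (1 - (o : N)) := rfl
    have e2 : (((l : ℕ) : 𝓞 N) : N) = (l : N) := map_natCast (algebraMap (𝓞 N) N) l
    rw [e1, e2, ho]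
    linear_combination -hω
  have h1 : o ∈ W.asIdeal ↔ 1 - o ∈ W.asIdeal := by
    have e0 : ((1 - o : 𝓞 N) : N) = 1 - (o : N) := rfl
    have e1 : ((1 - o : 𝓞 N) : N) = g (o : N) := by
      rw [e0, ho, h]
    have e2 : (o : N) = g ((1 - o : 𝓞 N) : N) := by
      rw [e0, ho, map_sub, map_one, h, sub_sub_cancel]
    exact ⟨fun hx => hg o (1 - o) e1 hx, fun hx => hg (1 - o) o e2 hx⟩
  have h2 : o ∈ W.asIdeal ∨ 1 - o ∈ W.asIdeal := by
    apply W.isPrime.mem_or_mem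
    rw [hprod]
    exact hW
  have h3 : o ∈ W.asIdeal ∧ 1 - o ∈ W.asIdeal := by
    rcases h2 with h2 | h2
    · exact ⟨h2, h1.1 h2⟩
    · exact ⟨h1.2 h2, h2⟩
  apply W.isPrime.ne_top
  rw [Ideal.eq_top_iff_one]
  have := W.asIdeal.add_mem h3.1 h3.2
  rwa [add_sub_cancel] at this

theorem om_cc {l : ℕ} (hl : l.Prime) {ω : N} (hω : ω ^ 2 - ω + (l : N) = 0) {c : N ≃ₐ[ℚ] N}
    (hc : IsCC c) : c ω ≠ ω := by
  intro h
  obtain ⟨Φ, hΦ⟩ := hc
  have h1 : star (Φ ω) = Φ ω := by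
    rw [← hΦ.eq, h]
  have h2 : (Φ ω).im = 0 := Complex.conj_eq_iff_im.1 h1
  have h3 : (Φ ω) ^ 2 - Φ ω + (l : ℂ) = 0 := by
    have h4 := congrArg Φ hω
    rw [map_add, map_sub, map_pow, map_natCast, map_zero] at h4
    exact h4
  have h5 : (Φ ω) = (((Φ ω).re : ℝ) : ℂ) := by
    apply Complex.ext
    · rw [Complex.ofReal_re]
    · rw [Complex.ofReal_im, h2]
  rw [h5] at h3
  have h6 : ((Φ ω).re) ^ 2 - (Φ ω).re + (l : ℝ) = 0 := by exact_mod_cast h3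
  have h7 : (2 : ℝ) ≤ (l : ℝ) := by exact_mod_cast hl.two_le
  nlinarith [sq_nonneg ((Φ ω).re - 1 / 2)]

end Eta

/-! ### Complex conjugations -/

section CC

variable {E N : Type} [Field E] [NumberField E]
  [IsGalois ℚ E] [Field N] [NumberField N] [IsGalois ℚ N] [Algebra E N]

theorem cc_res (hE : ∀ v : InfinitePlace E, v.IsReal) {c : N ≃ₐ[ℚ] N} (hc : IsCC c) :
    AlgEquiv.restrictNormalHom E c = (1 : E ≃ₐ[ℚ] E) := by
  obtain ⟨Φ, hΦ⟩ := hc
  have h1 : ComplexEmbedding.IsReal (Φ.comp (algebraMap E N)) :=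
    InfinitePlace.isReal_of_mk_isReal (hE _)
  ext x
  apply (algebraMap E N).injective
  apply Φ.injective
  rw [res_apply, hΦ.eq]
  exact RingHom.congr_fun (ComplexEmbedding.isReal_iff.1 h1) x

theorem cc_root {F : Type} [Field F] [Algebra F N] (P : Polynomial F)
    (hP : ∀ (Φ : F →+* ℂ) (z : ℂ), Polynomial.eval₂ Φ z P = 0 → z.im = 0)
    {c : N ≃ₐ[ℚ] N} (hc : IsCC c) {κ : N} (hκ : Polynomial.aeval κ P = 0) : c κ = κ := by
  obtain ⟨Φ, hΦ⟩ := hc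
  have h1 : (Φ κ).im = 0 := by
    apply hP (Φ.comp (algebraMap F N))
    rw [← Polynomial.hom_eval₂]
    rw [Polynomial.aeval_def] at hκ
    rw [hκ, map_zero]
  apply Φ.injective
  rw [hΦ.eq]
  exact Complex.conj_eq_iff_im.2 h1

end CC

/-! ### Roots -/

section Roots

variable {F N : Type} [Field F] [Field N] [Algebra F N]

/-- The roots in `N` of a polynomial over `F`. -/
noncomputable def rts (N : Type) [Field N] [Algebra F N] (P : Polynomial F) : Finset N :=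
  (P.map (algebraMap F N)).roots.toFinset

theorem mem_rts {P : Polynomial F} (hP : P.Monic) (κ : N) :
    κ ∈ rts N P ↔ Polynomial.aeval κ P = 0 := by
  unfold rts
  rw [Multiset.mem_toFinset, Polynomial.mem_roots_map hP.ne_zero, Polynomial.aeval_def]

theorem card_rts {P : Polynomial F} (h1 : P.Separable)
    (h2 : (P.map (algebraMap F N)).Splits) : (rts N P).card = P.natDegree := by
  unfold rts
  rw [Multiset.toFinset_card_of_nodup (Polynomial.nodup_roots h1.map),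
    ← h2.natDegree_eq_card_roots, Polynomial.natDegree_map]

theorem map_root {P : Polynomial F} {κ : N} (h : Polynomial.aeval κ P = 0) (τ : N ≃ₐ[F] N) :
    Polynomial.aeval (τ κ) P = 0 := by
  have h1 : Polynomial.aeval (τ κ) P = τ (Polynomial.aeval κ P) :=
    (Polynomial.aeval_algHom_apply (τ : N →ₐ[F] N) κ P)
  rw [h1, h, map_zero]

end Roots

/-! ### The main construction -/

section Core

variable {L E N : Type} [Field L] [NumberField L] [IsGalois ℚ L] [Field E] [NumberField E]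
  [IsGalois ℚ E] [Field N] [NumberField N] [IsGalois ℚ N] [Algebra L N] [Algebra E N]

/-- `H₀ → D_w` -/
noncomputable def th (v : HeightOneSpectrum (𝓞 E)) {w : HeightOneSpectrum (𝓞 L)}
    (ρ : decGrp ℚ v →* decGrp ℚ w) : H0 N v →* decGrp ℚ w :=
  ρ.comp ((AlgEquiv.restrictNormalHom E : (N ≃ₐ[ℚ] N) →* (E ≃ₐ[ℚ] E)).subgroupComap
    (decGrp ℚ v))

theorem th_apply (v : HeightOneSpectrum (𝓞 E)) {w : HeightOneSpectrum (𝓞 L)}
    (ρ : decGrp ℚ v →* decGrp ℚ w) (g : N ≃ₐ[ℚ] N) (hg : g ∈ H0 N v) :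
    th v ρ ⟨g, hg⟩ = ρ ⟨AlgEquiv.restrictNormalHom E g, hg⟩ := rfl

theorem core (l : ℕ) (hl : l.Prime) (T T' : Finset ℕ) (hT : T ⊆ T') (hlT : l ∈ T)
    (hreal : ∀ v : InfinitePlace E, v.IsReal)
    (hE : ∀ (W : HeightOneSpectrum (𝓞 E)) (h : E ≃ₐ[ℚ] E), AboveT T W → (l : 𝓞 E) ∉ W.asIdeal →
      Dec W h → h = 1)
    (hb : ∀ (W : HeightOneSpectrum (𝓞 N)) (h : N ≃ₐ[ℚ] N), (l : 𝓞 N) ∈ W.asIdeal → Dec W h →
      (AlgEquiv.restrictNormalHom L h = 1 ↔ AlgEquiv.restrictNormalHom E h = 1))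
    (w : HeightOneSpectrum (𝓞 L)) (hlw : (l : 𝓞 L) ∈ w.asIdeal)
    (W₀ : HeightOneSpectrum (𝓞 N)) (hW : W₀.under (𝓞 L) = w)
    (v : HeightOneSpectrum (𝓞 E)) (hv : W₀.under (𝓞 E) = v)
    (R : Subgroup (E ≃ₐ[FF v] E) → Polynomial (FF v))
    (hRm : ∀ Q, (R Q).Monic) (hRd : ∀ Q, (R Q).natDegree = Q.index)
    (hRs : ∀ Q, (R Q).Separable)
    (hRr : ∀ Q, ∀ (Φ : FF v →+* ℂ) (z : ℂ), Polynomial.eval₂ Φ z (R Q) = 0 → z.im = 0)
    (hRsp : ∀ Q, ((R Q).map (algebraMap (FF v) N)).Splits)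
    (hR : ∀ Q, ∀ (W : HeightOneSpectrum (𝓞 N)) (h : N ≃ₐ[FF v] N), Dec W h → AboveT T' W →
      (W.under (𝓞 (FF v)) = v.under (𝓞 (FF v)) →
        ∀ κ : N, Polynomial.aeval κ (R Q) = 0 → h κ = κ) ∧
      (W.under (𝓞 (FF v)) ≠ v.under (𝓞 (FF v)) →
        (Nat.card {κ : N // Polynomial.aeval κ (R Q) = 0 ∧ h κ = κ} : ℂ) =
          indFun Q (fun _ => 1) (AlgEquiv.restrictNormalHom E h)))
    (ω : N) (hω : ω ^ 2 - ω + (l : N) = 0)
    (hram : ∀ (W : HeightOneSpectrum (𝓞 N)) (h : N ≃ₐ[ℚ] N), ¬ AboveT T' W →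
      FrobPow N W 1 h → AlgEquiv.restrictNormalHom E h = 1 ∧ h ω = ω) :
    ∃ (H₀ : Subgroup (N ≃ₐ[ℚ] N)) (θ : H₀ →* decGrp ℚ w) (η : H₀ →* ℂˣ)
      (Z : Subgroup (decGrp ℚ w) → Finset N),
      (∀ Q, (Z Q).card = Q.index) ∧
      (∀ Q, ∀ h ∈ H₀, ∀ κ ∈ Z Q, h κ ∈ Z Q) ∧
      (∀ c : N ≃ₐ[ℚ] N, IsCC c → ∃ h : c ∈ H₀, θ ⟨c, h⟩ = 1 ∧ ((η ⟨c, h⟩ : ℂˣ) : ℂ) = -1 ∧
        ∀ Q, ∀ κ ∈ Z Q, c κ = κ) ∧
      (∀ (W : HeightOneSpectrum (𝓞 N)) (g : N ≃ₐ[ℚ] N), Dec W g →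
        (∃ s ∈ H₀, STB.mv (s : N ≃+* N) W₀ = W) → ∃ h : g ∈ H₀, η ⟨g, h⟩ = 1 ∧
          (∀ Q, ∀ κ ∈ Z Q, g κ = κ) ∧
          ∃ y : L ≃ₐ[ℚ] L, ((θ ⟨g, h⟩ : decGrp ℚ w) : L ≃ₐ[ℚ] L) =
            y * AlgEquiv.restrictNormalHom L g * y⁻¹) ∧
      (∀ (W : HeightOneSpectrum (𝓞 N)) (h : H₀), Dec W (h : N ≃ₐ[ℚ] N) → AboveT T W →
        (l : 𝓞 N) ∉ W.asIdeal → θ h = 1) ∧
      (∀ (W : HeightOneSpectrum (𝓞 N)) (h : H₀), Dec W (h : N ≃ₐ[ℚ] N) → AboveT T' W →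
        (¬ ∃ s ∈ H₀, STB.mv (s : N ≃+* N) W₀ = W) →
        ∀ Q, (((Z Q).filter fun κ => (h : N ≃ₐ[ℚ] N) κ = κ).card : ℂ) =
          indFun Q (fun _ => 1) (θ h)) ∧
      (∀ (W : HeightOneSpectrum (𝓞 N)) (h : H₀), ¬ AboveT T' W →
        FrobPow N W 1 (h : N ≃ₐ[ℚ] N) → θ h = 1 ∧ η h = 1) := by
  subst hW
  have hlW₀ : (l : 𝓞 N) ∈ W₀.asIdeal := (RB.natCast_mem_under (L := L) W₀ l).1 hlw
  obtain ⟨ρ, hρ, hρc⟩ : ∃ ρ : decGrp ℚ v →* decGrp ℚ (W₀.under (𝓞 L)), Function.Bijective ρ ∧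
      ∀ (h : N ≃ₐ[ℚ] N) (hm : AlgEquiv.restrictNormalHom E h ∈ decGrp ℚ v), Dec W₀ h →
        ((ρ ⟨AlgEquiv.restrictNormalHom E h, hm⟩ : decGrp ℚ (W₀.under (𝓞 L))) : L ≃ₐ[ℚ] L) =
          AlgEquiv.restrictNormalHom L h := by
    subst hv
    obtain ⟨ρ, hρ, hρc⟩ := rho (L := L) (E := E) W₀ (fun h hh => hb W₀ h hlW₀ hh)
    exact ⟨ρ, hρ, fun h _ hd => congrArg Subtype.val (hρc ⟨h, hd⟩)⟩
  have hgalE : IsGalois E N := IsGalois.tower_top_of_isGalois ℚ E N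
  have hgalF : IsGalois (FF v) N := IsGalois.tower_top_of_isGalois ℚ (FF v) N
  have hr : Function.Surjective (ρ.comp (al v)) := by
    intro y
    obtain ⟨x, rfl⟩ := hρ.2 y
    obtain ⟨z, rfl⟩ := al_surj v x
    exact ⟨z, rfl⟩
  -- invariance of the roots
  have hroot : ∀ Q : Subgroup (decGrp ℚ (W₀.under (𝓞 L))), ∀ h ∈ H0 N v,
      ∀ κ ∈ rts N (R (Q.comap (ρ.comp (al v)))), h κ ∈ rts N (R (Q.comap (ρ.comp (al v)))) := by
    intro Q h hh κ hκ
    rw [mem_rts (hRm _)] at hκ ⊢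
    exact map_root hκ (bt v h hh)
  have hTw : ∀ g ∈ H0 N v, ∀ W : HeightOneSpectrum (𝓞 N),
      (STB.mv (g : N ≃+* N) W).under (𝓞 (FF v)) = W.under (𝓞 (FF v)) := by
    intro g hg W
    exact STB.under_mv (bt v g hg) W
  have hu0 : W₀.under (𝓞 (FF v)) = v.under (𝓞 (FF v)) := by
    rw [← RB.under_under (L := FF v) (L₁ := E) W₀, hv]
  refine ⟨H0 N v, th v ρ, (eta hl hω).comp (H0 N v).subtype,
    fun Q => rts N (R (Q.comap (ρ.comp (al v)))), ?_, hroot, ?_, ?_, ?_, ?_, ?_⟩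
  · intro Q
    rw [card_rts (hRs _) (hRsp _), hRd, Subgroup.index_comap_of_surjective _ hr]
  · intro c hc
    have h1 : AlgEquiv.restrictNormalHom E c = (1 : E ≃ₐ[ℚ] E) := cc_res hreal hc
    have hmem : c ∈ H0 N v := by
      rw [mem_H0, h1]
      exact Subgroup.one_mem _
    refine ⟨hmem, ?_, ?_, ?_⟩
    · rw [th_apply]
      have h2 : (⟨AlgEquiv.restrictNormalHom E c, hmem⟩ : decGrp ℚ v) = 1 := Subtype.ext h1
      rw [h2, map_one]
    · show ((eta hl hω c : ℂˣ) : ℂ) = -1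
      rw [eta_neg hl hω (om_cc hl hω hc), Units.val_neg, Units.val_one]
    · intro Q κ hκ
      rw [mem_rts (hRm _)] at hκ
      exact cc_root _ (hRr _) hc hκ
  · rintro W g hg ⟨s, hs, rfl⟩
    -- g' = s⁻¹ g s
    have hg' : Dec W₀ (s⁻¹ * g * s : N ≃ₐ[ℚ] N) := by
      rw [RB.dec_iff] at hg ⊢
      rw [RB.mv_mul, RB.mv_mul, hg, ← RB.mv_mul, inv_mul_cancel, RB.mv_one]
    have hg'H : s⁻¹ * g * s ∈ H0 N v := by
      rw [← hv]
      exact RB.dec_restrict hg'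
    have hgH : g ∈ H0 N v := by
      have h1 := (H0 N v).mul_mem ((H0 N v).mul_mem hs hg'H) ((H0 N v).inv_mem hs)
      have h2 : s * (s⁻¹ * g * s) * s⁻¹ = g := by group
      rwa [h2] at h1
    have hlW : (l : 𝓞 N) ∈ (STB.mv (s : N ≃+* N) W₀).asIdeal := by
      rw [STB.mem_mv, map_natCast]
      exact hlW₀
    refine ⟨hgH, ?_, ?_, ?_⟩
    · show eta hl hω g = 1
      exact eta_one hl hω (om_dec hω hlW hg)
    · intro Q κ hκ
      rw [mem_rts (hRm _)] at hκ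
      refine (hR _ (STB.mv (s : N ≃+* N) W₀) (bt v g hgH) hg ⟨l, hT hlT, hl, hlW⟩).1 ?_ κ hκ
      rw [hTw s hs, hu0]
    · have e1 : ((th v ρ ⟨s⁻¹ * g * s, hg'H⟩ : decGrp ℚ (W₀.under (𝓞 L))) : L ≃ₐ[ℚ] L) =
          AlgEquiv.restrictNormalHom L (s⁻¹ * g * s) := by
        rw [th_apply]
        exact hρc _ hg'H hg'
      refine ⟨((th v ρ ⟨s, hs⟩ : decGrp ℚ (W₀.under (𝓞 L))) : L ≃ₐ[ℚ] L) *
        (AlgEquiv.restrictNormalHom L s)⁻¹, ?_⟩
      have e2 : (⟨g, hgH⟩ : H0 N v) = ⟨s, hs⟩ * ⟨s⁻¹ * g * s, hg'H⟩ * ⟨s, hs⟩⁻¹ := by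
        apply Subtype.ext
        show g = s * (s⁻¹ * g * s) * s⁻¹
        group
      rw [e2, map_mul, map_mul, map_inv]
      rw [Subgroup.coe_mul, Subgroup.coe_mul, Subgroup.coe_inv, e1, map_mul, map_mul, map_inv]
      group
  · intro W h hd hTW hlW
    have h1 : AlgEquiv.restrictNormalHom E (h : N ≃ₐ[ℚ] N) = (1 : E ≃ₐ[ℚ] E) := by
      apply hE (W.under (𝓞 E))
      · obtain ⟨q, hq, hqp, hqW⟩ := hTW
        exact ⟨q, hq, hqp, (RB.natCast_mem_under (L := E) W q).2 hqW⟩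
      · intro h2
        exact hlW ((RB.natCast_mem_under (L := E) W l).1 h2)
      · exact RB.dec_restrict hd
    have h2 : (⟨AlgEquiv.restrictNormalHom E (h : N ≃ₐ[ℚ] N), h.2⟩ : decGrp ℚ v) = 1 :=
      Subtype.ext h1
    show ρ ⟨AlgEquiv.restrictNormalHom E (h : N ≃ₐ[ℚ] N), h.2⟩ = 1
    rw [h2, map_one]
  · intro W h hd hTW hns Q
    have hne : W.under (𝓞 (FF v)) ≠ v.under (𝓞 (FF v)) := by
      intro he
      obtain ⟨τ, hτ⟩ := UREAL.trans (L := FF v) W₀ W (by rw [he, hu0])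
      exact hns ⟨τ.restrictScalars ℚ, restrictScalars_mem v τ, hτ⟩
    have h1 := (hR (Q.comap (ρ.comp (al v))) W (bt v h h.2) hd hTW).2 hne
    have h2 : (Nat.card {κ : N // Polynomial.aeval κ (R (Q.comap (ρ.comp (al v)))) = 0 ∧
        bt v (h : N ≃ₐ[ℚ] N) h.2 κ = κ}) =
        ((rts N (R (Q.comap (ρ.comp (al v))))).filter
          fun κ => (h : N ≃ₐ[ℚ] N) κ = κ).card := by
      refine Nat.subtype_card _ fun κ => ?_
      rw [Finset.mem_filter, mem_rts (hRm _)]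
      rfl
    have h3 : (ρ.comp (al v)) (AlgEquiv.restrictNormalHom E (bt v (h : N ≃ₐ[ℚ] N) h.2)) =
        th (N := N) v ρ h :=
      congrArg ρ (al_res v (h : N ≃ₐ[ℚ] N) h.2)
    rw [← h2, h1, ← CMB.indFun_infl (ρ.comp (al v)) hr Q (fun _ => 1), h3]
  · intro W h hTW hf
    obtain ⟨h1, h2⟩ := hram W h hTW hf
    constructor
    · have h3 : (⟨AlgEquiv.restrictNormalHom E (h : N ≃ₐ[ℚ] N), h.2⟩ : decGrp ℚ v) = 1 :=
        Subtype.ext h1
      show ρ ⟨AlgEquiv.restrictNormalHom E (h : N ≃ₐ[ℚ] N), h.2⟩ = 1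
      rw [h3, map_one]
    · show eta hl hω h = 1
      exact eta_one hl hω h2

end Core

/-! ### The fields -/

section Fields

theorem exists_over {L N : Type} [Field L] [NumberField L] [Field N] [NumberField N] [Algebra L N]
    (v : HeightOneSpectrum (𝓞 L)) : ∃ w : HeightOneSpectrum (𝓞 N), w.under (𝓞 L) = v := by
  obtain ⟨P, hP, hPv⟩ := v.asIdeal.exists_ideal_over_prime_of_isIntegral_of_isDomain (S := 𝓞 N)
    (by simp)
  refine ⟨⟨P, hP, ?_⟩, HeightOneSpectrum.ext hPv⟩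
  rintro rfl
  exact v.ne_bot (by rw [← hPv]; simp)

theorem lvl0 (hC : Stmt_UCOMP) (hX : Stmt_UEXT) (L E : Type) [Field L] [NumberField L] [Field E]
    [NumberField E] (l : ℕ) : ∃ (M : Type) (_ : Field M) (_ : NumberField M) (_ : Algebra L M)
      (_ : Algebra E M) (_ : IsGalois ℚ M), ∃ ω : M, ω ^ 2 - ω + (l : M) = 0 := by
  obtain ⟨N₁, _, _, aQ, aL, aE, _, t1, t2⟩ := hC ℚ L E
  clear t1 t2 aQ
  have hm : (Polynomial.X ^ 2 - Polynomial.X + Polynomial.C (l : N₁)).Monic := by monicity!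
  have hd : (Polynomial.X ^ 2 - Polynomial.X + Polynomial.C (l : N₁)).degree = 2 := by
    compute_degree!
  obtain ⟨M, fM, nM, aM, gM, hs⟩ := hX N₁ _ hm.ne_zero
  obtain ⟨ω, hω⟩ := hs.exists_eval_eq_zero (by
    rw [Polynomial.degree_map, hd]
    norm_num)
  refine ⟨M, fM, nM, ((algebraMap N₁ M).comp (algebraMap L N₁)).toAlgebra,
    ((algebraMap N₁ M).comp (algebraMap E N₁)).toAlgebra, gM, ω, ?_⟩
  rw [Polynomial.eval_map] at hω
  simpa using hω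

theorem lvl1 (hX : Stmt_UEXT) (L E M : Type) [Field L] [NumberField L] [Field E]
    [NumberField E] [IsGalois ℚ E] [Field M] [NumberField M] [Algebra L M] [Algebra E M]
    (v : HeightOneSpectrum (𝓞 E)) (R : Subgroup (E ≃ₐ[FF v] E) → Polynomial (FF v))
    (hR : ∀ Q, (R Q).Monic) :
    ∃ (N : Type) (_ : Field N) (_ : NumberField N) (_ : Algebra L N)
      (_ : Algebra E N) (_ : Algebra M N) (_ : IsGalois ℚ N) (_ : IsScalarTower L M N)
      (_ : IsScalarTower E M N), ∀ Q, ((R Q).map (algebraMap (FF v) N)).Splits := by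
  have hP : (∏ Q, (R Q).map (algebraMap (FF v) M)) ≠ 0 :=
    Finset.prod_ne_zero_iff.2 fun Q _ => ((hR Q).map _).ne_zero
  obtain ⟨N, fN, nN, aN, gN, hs⟩ := hX M _ hP
  let aL : Algebra L N := ((algebraMap M N).comp (algebraMap L M)).toAlgebra
  let aE : Algebra E N := ((algebraMap M N).comp (algebraMap E M)).toAlgebra
  refine ⟨N, fN, nN, aL, aE, aN, gN, IsScalarTower.of_algebraMap_eq' rfl,
    IsScalarTower.of_algebraMap_eq' rfl, fun Q => ?_⟩
  have h1 : ((R Q).map (algebraMap (FF v) M)).map (algebraMap M N) =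
      (R Q).map (algebraMap (FF v) N) := by
    rw [Polynomial.map_map]
    rfl
  rw [← h1]
  refine Polynomial.Splits.of_dvd hs ?_ (Polynomial.map_dvd _ (Finset.dvd_prod_of_mem _
    (Finset.mem_univ Q)))
  exact (Polynomial.map_ne_zero_iff (algebraMap M N).injective).2 hP

theorem res_of_res {E M N : Type} [Field E] [NumberField E] [IsGalois ℚ E] [Field M]
    [NumberField M] [IsGalois ℚ M] [Field N] [NumberField N] [Algebra E M]
    [Algebra E N] [Algebra M N] [IsScalarTower E M N] {h : N ≃ₐ[ℚ] N}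
    (hh : AlgEquiv.restrictNormalHom M h = (1 : M ≃ₐ[ℚ] M)) :
    (∀ x : M, h (algebraMap M N x) = algebraMap M N x) ∧
      AlgEquiv.restrictNormalHom E h = (1 : E ≃ₐ[ℚ] E) := by
  have h1 : ∀ x : M, h (algebraMap M N x) = algebraMap M N x := by
    intro x
    have h2 : algebraMap M N (AlgEquiv.restrictNormalHom M h x) = h (algebraMap M N x) :=
      AlgEquiv.restrictNormal_commutes h M x
    rw [hh] at h2
    exact h2.symm
  refine ⟨h1, ?_⟩
  ext x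
  apply (algebraMap E N).injective
  have h2 : algebraMap E N (AlgEquiv.restrictNormalHom E h x) = h (algebraMap E N x) :=
    AlgEquiv.restrictNormal_commutes h E x
  rw [h2, IsScalarTower.algebraMap_apply E M N, h1, AlgEquiv.one_apply,
    IsScalarTower.algebraMap_apply E M N]

end Fields

end SDATA

/-- MODULE SDATA. -/
theorem SDATA_thm (hH : Stmt_UHATS) (hK : Stmt_UKILQ) (hC : Stmt_UCOMP) (hX : Stmt_UEXT)
    (hR : Stmt_URAM) : Stmt_SDATA := by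
  intro L _ _ _ T l hlT hl w hlw
  obtain ⟨E, _, _, _, hreal, hE1, hE2⟩ := hH L l T hl
  obtain ⟨M, _, _, _, _, _, ω, hω⟩ := SDATA.lvl0 hC hX L E l
  obtain ⟨W₁, hW₁⟩ := SDATA.exists_over (L := L) (N := M) w
  obtain ⟨T₀, hT₀⟩ := hR M
  obtain ⟨v, hv⟩ : ∃ v : HeightOneSpectrum (𝓞 E), v = W₁.under (𝓞 E) := ⟨_, rfl⟩
  choose R hR1 hR2 hR3 hR4 hR5 using fun Q : Subgroup (E ≃ₐ[SDATA.FF v] E) =>
    hK (SDATA.FF v) E Q (v.under (𝓞 (SDATA.FF v))) (T ∪ T₀) (SDATA.real_FF hreal v)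
  obtain ⟨N, fN, nN, aLN, aEN, aMN, gN, sL, sE, hsp⟩ := SDATA.lvl1 hX L E M v R hR1
  obtain ⟨W₀, hW₀⟩ := SDATA.exists_over (L := M) (N := N) W₁
  have hgF : IsGalois (SDATA.FF v) N := IsGalois.tower_top_of_isGalois ℚ (SDATA.FF v) N
  have hWL : W₀.under (𝓞 L) = w := by
    rw [← RB.under_under (L := L) (L₁ := M) W₀, hW₀, hW₁]
  have hWE : W₀.under (𝓞 E) = v := by
    rw [← RB.under_under (L := E) (L₁ := M) W₀, hW₀, hv]
  obtain ⟨H₀, θ, η, Z, h1, h2, h3, h4, h5, h6, h7⟩ := SDATA.core (L := L) (E := E) (N := N) l hl T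
    (T ∪ T₀) Finset.subset_union_left hlT hreal hE1 (fun W h h1 h2 => hE2 N W h h1 h2) w hlw W₀
    hWL v hWE R hR1 hR2 hR3 hR4 hsp (fun Q W h hd hT => hR5 Q N (hsp Q) W h hd hT)
    (algebraMap M N ω) (by
      rw [← map_pow, ← map_natCast (algebraMap M N) l, ← map_sub, ← map_add, hω, map_zero])
    (by
      intro W h hW hf
      have h1 : AlgEquiv.restrictNormalHom M h = (1 : M ≃ₐ[ℚ] M) := by
        apply hT₀ (W.under (𝓞 M)) _ _ (RB.frob_restrict hf)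
        rintro ⟨p, hp, hpp, hpW⟩
        exact hW ⟨p, Finset.mem_union_right _ hp, hpp,
          (RB.natCast_mem_under (L := M) W p).1 hpW⟩
      obtain ⟨h2, h3⟩ := SDATA.res_of_res (E := E) h1
      exact ⟨h3, h2 ω⟩)
  exact ⟨N, fN, nN, aLN, gN, T ∪ T₀, H₀, θ, η, Z, W₀, Finset.subset_union_left, hWL, h1, h2, h3,
    h4, h5, h6, h7⟩

end StarkC
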