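import Pool.Agent.StarkU.Stmts
import Pool.Agent.Stark.RBasic
import Pool.Agent.Stark.CMB

/-!
# UGLOB: realisation of the restrictions of a character to the decomposition groups
-/

open NumberField IsDedekindDomain
open scoped TensorProduct Classical

namespace StarkC

namespace UGLOB

section infl

variable {L M N : Type} [Field L] [NumberField L] [IsGalois ℚ L] [Field M] [NumberField M]
  [IsGalois ℚ M] [Field N] [NumberField N] [IsGalois ℚ N] [Algebra L M] [Algebra M N] [Algebra L N]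
  [IsScalarTower L M N]

theorem res_res (x : N ≃ₐ[ℚ] N) :
    AlgEquiv.restrictNormalHom L (AlgEquiv.restrictNormalHom M x) =
      AlgEquiv.restrictNormalHom L x := by
  ext y
  apply (algebraMap L N).injective
  have h1 : algebraMap L N (AlgEquiv.restrictNormalHom L x y) = x (algebraMap L N y) :=
    AlgEquiv.restrictNormal_commutes x L y
  have h2 : algebraMap L M (AlgEquiv.restrictNormalHom L (AlgEquiv.restrictNormalHom M x) y) =
      AlgEquiv.restrictNormalHom M x (algebraMap L M y) :=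
    AlgEquiv.restrictNormal_commutes (AlgEquiv.restrictNormalHom M x) L y
  have h3 : algebraMap M N (AlgEquiv.restrictNormalHom M x (algebraMap L M y)) =
      x (algebraMap M N (algebraMap L M y)) :=
    AlgEquiv.restrictNormal_commutes x M _
  rw [h1, IsScalarTower.algebraMap_apply L M N, h2, h3, ← IsScalarTower.algebraMap_apply L M N]

theorem aboveT_under (T : Finset ℕ) (W : HeightOneSpectrum (𝓞 N)) :
    AboveT T (W.under (𝓞 M)) ↔ AboveT T W := by
  unfold AboveT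
  simp only [RB.natCast_mem_under]

theorem locRel_infl {T : Finset ℕ} {Ψ : (M ≃ₐ[ℚ] M) → ℂ}
    {τ : HeightOneSpectrum (𝓞 L) → (L ≃ₐ[ℚ] L) → ℂ} (h : LocRel T Ψ τ) :
    LocRel (N := N) T (fun x => Ψ (AlgEquiv.restrictNormalHom M x)) τ := by
  intro W x a hx ha
  have h1 := h (W.under (𝓞 M)) (AlgEquiv.restrictNormalHom M x) a (RB.dec_restrict hx)
    (ha.coprime_dvd_right (orderOf_map_dvd _ _))
  constructor
  · intro hW
    have h2 := h1.1 ((aboveT_under T W).2 hW)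
    rw [RB.under_under, ← map_pow, res_res, res_res] at h2
    exact h2
  · intro hW hf
    have h2 := h1.2 (fun h => hW ((aboveT_under T W).1 h)) (by
      have := RB.frob_restrict (L := M) hf
      rw [map_mul, map_pow, map_inv] at this
      exact this)
    rw [← map_pow] at h2
    exact h2

theorem typeB_infl (hI : Stmt_UINFL) {Ψ : (M ≃ₐ[ℚ] M) → ℂ}
    (h : Ψ ∈ SpanQ (G := M ≃ₐ[ℚ] M) (fun H ψ => TypeB H ψ)) :
    (fun x => Ψ (AlgEquiv.restrictNormalHom M x)) ∈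
      SpanQ (G := N ≃ₐ[ℚ] N) (fun H ψ => TypeB H ψ) := by
  have h1 := hI (N ≃ₐ[ℚ] N) (M ≃ₐ[ℚ] M) (AlgEquiv.restrictNormalHom M) Ψ _
    (AlgEquiv.restrictNormalHom_surjective N) h
  refine Submodule.span_mono ?_ h1
  rintro f ⟨H', ψ', ⟨H, ψ, hB, rfl, hψ⟩, rfl⟩
  refine ⟨_, ψ', ?_, rfl⟩
  intro c hc
  have hc' : IsCC (AlgEquiv.restrictNormalHom M c : M ≃ₐ[ℚ] M) := CMB.isCC_restrict hc
  obtain ⟨hm, hv⟩ := hB _ hc'
  refine ⟨hm, ?_⟩
  rw [hψ ⟨c, hm⟩ ⟨_, hm⟩ rfl]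
  exact hv

end infl

section real

variable {L : Type} [Field L] [NumberField L] [IsGalois ℚ L]

/-- `τ` is realised. -/
def Real (T : Finset ℕ) (τ : HeightOneSpectrum (𝓞 L) → (L ≃ₐ[ℚ] L) → ℂ) : Prop :=
  ∃ (N : Type) (_ : Field N) (_ : NumberField N) (_ : Algebra L N) (_ : IsGalois ℚ N)
      (Ψ : (N ≃ₐ[ℚ] N) → ℂ), Ψ ∈ SpanQ (G := N ≃ₐ[ℚ] N) (fun H ψ => TypeB H ψ) ∧
        LocRel T Ψ τ

theorem real_zero (T : Finset ℕ) :
    Real T (0 : HeightOneSpectrum (𝓞 L) → (L ≃ₐ[ℚ] L) → ℂ) := by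
  refine ⟨L, inferInstance, inferInstance, inferInstance, inferInstance, 0,
    Submodule.zero_mem _, ?_⟩
  intro W x a _ _
  exact ⟨fun _ => rfl, fun _ _ => rfl⟩

theorem real_smul {T : Finset ℕ} (q : ℚ) {τ : HeightOneSpectrum (𝓞 L) → (L ≃ₐ[ℚ] L) → ℂ}
    (h : Real T τ) : Real T (q • τ) := by
  obtain ⟨N, _, _, _, _, Ψ, h1, h2⟩ := h
  refine ⟨N, inferInstance, inferInstance, inferInstance, inferInstance, q • Ψ,
    Submodule.smul_mem _ q h1, ?_⟩
  intro W x a hx ha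
  have h3 := h2 W x a hx ha
  constructor
  · intro hW
    have h4 := h3.1 hW
    simp only [Pi.smul_apply, Rat.smul_def]
    rw [← mul_sub, h4, mul_sub]
  · intro hW hf
    have h4 := h3.2 hW hf
    simp only [Pi.smul_apply, Rat.smul_def]
    rw [h4]

theorem real_add (hC : Stmt_UCOMP) (hI : Stmt_UINFL) {T : Finset ℕ}
    {τ τ' : HeightOneSpectrum (𝓞 L) → (L ≃ₐ[ℚ] L) → ℂ}
    (h : Real T τ) (h' : Real T τ') : Real T (τ + τ') := by
  obtain ⟨M₁, _, _, _, _, Ψ₁, h1, h2⟩ := h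
  obtain ⟨M₂, _, _, _, _, Ψ₂, h1', h2'⟩ := h'
  obtain ⟨N, _, _, _, _, _, _, _, _⟩ := hC L M₁ M₂
  refine ⟨N, inferInstance, inferInstance, inferInstance, inferInstance,
    (fun x => Ψ₁ (AlgEquiv.restrictNormalHom M₁ x)) +
      (fun x => Ψ₂ (AlgEquiv.restrictNormalHom M₂ x)),
    Submodule.add_mem _ (typeB_infl hI h1) (typeB_infl hI h1'), ?_⟩
  intro W x a hx ha
  have h3 := locRel_infl (N := N) h2 W x a hx ha
  have h4 := locRel_infl (N := N) h2' W x a hx ha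
  constructor
  · intro hW
    have h5 := h3.1 hW
    have h6 := h4.1 hW
    simp only [Pi.add_apply] at h5 h6 ⊢
    linear_combination h5 + h6
  · intro hW hf
    have h5 := h3.2 hW hf
    have h6 := h4.2 hW hf
    simp only [Pi.add_apply] at h5 h6 ⊢
    rw [h5, h6]

theorem real_congr {T : Finset ℕ} {τ τ' : HeightOneSpectrum (𝓞 L) → (L ≃ₐ[ℚ] L) → ℂ}
    (h : Real T τ) (he : ∀ w (d : L ≃ₐ[ℚ] L), AboveT T w → Dec w d → τ w d = τ' w d) :
    Real T τ' := by
  obtain ⟨N, _, _, _, _, Ψ, h1, h2⟩ := h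
  refine ⟨N, inferInstance, inferInstance, inferInstance, inferInstance, Ψ, h1, ?_⟩
  intro W x a hx ha
  have h3 := h2 W x a hx ha
  refine ⟨fun hW => ?_, h3.2⟩
  have h4 := h3.1 hW
  have h5 : AboveT T (W.under (𝓞 L)) := (aboveT_under T W).2 hW
  rw [he _ _ h5 (RB.dec_restrict (RB.dec_pow hx a)), he _ _ h5 (RB.dec_restrict hx)] at h4
  exact h4

end real


section avg

variable {L : Type} [Field L] [NumberField L] [IsGalois ℚ L]

/-- The decomposition group. -/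
def decS (w : HeightOneSpectrum (𝓞 L)) : Subgroup (L ≃ₐ[ℚ] L) where
  carrier := {g | Dec w g}
  mul_mem' := RB.dec_mul
  one_mem' := RB.dec_one w
  inv_mem' := RB.dec_inv

theorem mem_decS (w : HeightOneSpectrum (𝓞 L)) (g : L ≃ₐ[ℚ] L) : g ∈ decS w ↔ Dec w g := Iff.rfl

/-- The local function attached to a function on the decomposition group. -/
noncomputable def avg (w : HeightOneSpectrum (𝓞 L)) (f : decS w → ℂ)
    (w' : HeightOneSpectrum (𝓞 L)) (d : L ≃ₐ[ℚ] L) : ℂ :=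
  (∑ y : L ≃ₐ[ℚ] L, if STB.mv (y : L ≃+* L) w = w' then
    (if h : y⁻¹ * d * y ∈ decS w then f ⟨_, h⟩ else 0) else 0) / (Nat.card (decS w) : ℂ)

theorem avg_zero (w : HeightOneSpectrum (𝓞 L)) : avg w 0 = 0 := by
  funext w' d
  simp [avg]

theorem avg_add (w : HeightOneSpectrum (𝓞 L)) (f f' : decS w → ℂ) :
    avg w (f + f') = avg w f + avg w f' := by
  funext w' d
  simp only [avg, Pi.add_apply]
  rw [← add_div, ← Finset.sum_add_distrib]
  congr 1
  refine Finset.sum_congr rfl fun y _ => ?_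
  split_ifs <;> simp

theorem avg_smul (w : HeightOneSpectrum (𝓞 L)) (q : ℚ) (f : decS w → ℂ) :
    avg w (q • f) = q • avg w f := by
  funext w' d
  simp only [avg, Pi.smul_apply, Rat.smul_def]
  rw [mul_div_assoc', Finset.mul_sum]
  congr 1
  refine Finset.sum_congr rfl fun y _ => ?_
  split_ifs <;> simp

theorem avg_ind (w : HeightOneSpectrum (𝓞 L)) (B : Subgroup (decS w)) (ψ : B →* ℂˣ) :
    avg w (indFun B (extZ ψ)) = locInd w (B.map (decS w).subtype)
      (ψ.comp (B.equivMapOfInjective (decS w).subtype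
        (decS w).subtype_injective).symm.toMonoidHom) := by
  funext w' d
  set B' := B.map (decS w).subtype with hB'
  set e := B.equivMapOfInjective (decS w).subtype (decS w).subtype_injective with he
  set ψ' : B' →* ℂˣ := ψ.comp e.symm.toMonoidHom with hψ'
  have hg : ∀ z : decS w, extZ ψ' (z : L ≃ₐ[ℚ] L) = extZ ψ z := by
    intro z
    unfold extZ
    by_cases hz : z ∈ B
    · have hz' : (z : L ≃ₐ[ℚ] L) ∈ B' := ⟨z, hz, rfl⟩
      rw [dif_pos hz, dif_pos hz']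
      have : e.symm ⟨(z : L ≃ₐ[ℚ] L), hz'⟩ = ⟨z, hz⟩ := by
        rw [MulEquiv.symm_apply_eq]
        rfl
      show ((ψ (e.symm ⟨(z : L ≃ₐ[ℚ] L), hz'⟩) : ℂˣ) : ℂ) = _
      rw [this]
    · have hz' : (z : L ≃ₐ[ℚ] L) ∉ B' := by
        rintro ⟨y, hy, hyz⟩
        exact hz (Subtype.ext hyz ▸ hy)
      rw [dif_neg hz, dif_neg hz']
  have hg0 : ∀ z : L ≃ₐ[ℚ] L, z ∉ decS w → extZ ψ' z = 0 := by
    intro z hz
    unfold extZ
    rw [dif_neg]
    rintro ⟨y, hy, hyz⟩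
    exact hz (hyz ▸ y.2)
  have hcard : (Nat.card B' : ℂ) = (Nat.card B : ℂ) := by
    rw [Nat.card_congr e.toEquiv]
  have hD : (Nat.card (decS w) : ℂ) ≠ 0 := by
    exact_mod_cast Nat.card_pos.ne'
  have hB : (Nat.card B : ℂ) ≠ 0 := by
    exact_mod_cast Nat.card_pos.ne'
  have h1 : ∀ y : L ≃ₐ[ℚ] L, (if STB.mv (y : L ≃+* L) w = w' then
      (if h : y⁻¹ * d * y ∈ decS w then indFun B (extZ ψ) ⟨_, h⟩ else 0) else 0) =
      (∑ x : decS w, if STB.mv ((y * x : L ≃ₐ[ℚ] L) : L ≃+* L) w = w' then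
        extZ ψ' ((y * x)⁻¹ * d * (y * x)) else 0) / (Nat.card B : ℂ) := by
    intro y
    have h2 : ∀ x : decS w, STB.mv ((y * x : L ≃ₐ[ℚ] L) : L ≃+* L) w =
        STB.mv (y : L ≃+* L) w := by
      intro x
      rw [RB.mv_mul, (RB.dec_iff w (x : L ≃ₐ[ℚ] L)).1 x.2]
    simp only [h2]
    split_ifs with h3 h4
    · unfold indFun
      congr 1
      refine Finset.sum_congr rfl fun x _ => ?_
      have h5 : (((x⁻¹ * ⟨y⁻¹ * d * y, h4⟩ * x : decS w)) : L ≃ₐ[ℚ] L) =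
          (y * x)⁻¹ * d * (y * x) := by
        simp [mul_assoc]
      rw [← h5, hg]
      split_ifs with h6
      · rfl
      · unfold extZ
        rw [dif_neg h6]
    · rw [Finset.sum_eq_zero, zero_div]
      intro x _
      apply hg0
      intro h5
      apply h4
      have h6 : y⁻¹ * d * y = (x : L ≃ₐ[ℚ] L) * ((y * x)⁻¹ * d * (y * x)) *
          (x : L ≃ₐ[ℚ] L)⁻¹ := by group
      rw [h6]
      exact (decS w).mul_mem ((decS w).mul_mem x.2 h5) ((decS w).inv_mem x.2)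
    · simp
  unfold avg locInd
  rw [Finset.sum_congr rfl fun y _ => h1 y, ← Finset.sum_div, Finset.sum_comm]
  have h7 : ∀ x : decS w, (∑ y : L ≃ₐ[ℚ] L,
      if STB.mv ((y * x : L ≃ₐ[ℚ] L) : L ≃+* L) w = w' then
        extZ ψ' ((y * x)⁻¹ * d * (y * x)) else 0) =
      ∑ y : L ≃ₐ[ℚ] L, if STB.mv (y : L ≃+* L) w = w' then extZ ψ' (y⁻¹ * d * y) else 0 := by
    intro x
    exact Fintype.sum_equiv (Equiv.mulRight (x : L ≃ₐ[ℚ] L)) _ _ fun y => rfl
  rw [Finset.sum_congr rfl fun x _ => h7 x, Finset.sum_const, Finset.card_univ, nsmul_eq_mul,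
    ← Nat.card_eq_fintype_card, hcard]
  field_simp

theorem avg_real (hR : Stmt_UREAL) (hC : Stmt_UCOMP) (hI : Stmt_UINFL) (T : Finset ℕ)
    (w : HeightOneSpectrum (𝓞 L)) (hw : AboveT T w) (f : decS w → ℂ)
    (hf : f ∈ SpanQ (G := decS w) (fun _ _ => True)) : Real T (avg w f) := by
  induction hf using Submodule.span_induction with
  | mem f hf =>
    obtain ⟨B, ψ, -, rfl⟩ := hf
    rw [avg_ind]
    refine hR L T w _ _ hw ?_
    rintro _ ⟨b, hb, rfl⟩
    exact b.2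
  | zero =>
    rw [avg_zero]
    exact real_zero T
  | add f f' _ _ h h' =>
    rw [avg_add]
    exact real_add hC hI h h'
  | smul q f _ h =>
    rw [avg_smul]
    exact real_smul q h

theorem class_of_span {G : Type} [Group G] [Fintype G] {χ : G → ℂ}
    (h : χ ∈ SpanQ (G := G) (fun _ _ => True)) (x g : G) : χ (x⁻¹ * g * x) = χ g := by
  induction h using Submodule.span_induction with
  | mem f hf =>
    obtain ⟨B, ψ, -, rfl⟩ := hf
    unfold indFun
    congr 1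
    refine Fintype.sum_equiv (Equiv.mulLeft x) _ _ fun y => ?_
    have : y⁻¹ * (x⁻¹ * g * x) * y = (x * y)⁻¹ * g * (x * y) := by group
    show (if y⁻¹ * (x⁻¹ * g * x) * y ∈ B then extZ ψ (y⁻¹ * (x⁻¹ * g * x) * y) else 0) =
      if (x * y)⁻¹ * g * (x * y) ∈ B then extZ ψ ((x * y)⁻¹ * g * (x * y)) else 0
    rw [this]
  | zero => rfl
  | add f f' _ _ h h' => rw [Pi.add_apply, Pi.add_apply, h, h']
  | smul q f _ h => rw [Pi.smul_apply, Pi.smul_apply, h]

theorem natCast_mem_mv (y : L ≃ₐ[ℚ] L) (w : HeightOneSpectrum (𝓞 L)) (p : ℕ) :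
    (p : 𝓞 L) ∈ (STB.mv (y : L ≃+* L) w).asIdeal ↔ (p : 𝓞 L) ∈ w.asIdeal := by
  rw [STB.mem_mv, map_natCast]

theorem under_eq {p : ℕ} (hp : p.Prime) (w w' : HeightOneSpectrum (𝓞 L))
    (hw : (p : 𝓞 L) ∈ w.asIdeal) (hw' : (p : 𝓞 L) ∈ w'.asIdeal) :
    w.asIdeal.under (𝓞 ℚ) = w'.asIdeal.under (𝓞 ℚ) := by
  have key : ∀ I : Ideal (𝓞 ℚ), I ≠ ⊤ → (p : 𝓞 ℚ) ∈ I → ∀ x : 𝓞 ℚ, x ∈ I ↔
      (p : ℤ) ∣ Rat.ringOfIntegersEquiv x := by
    intro I hI hpI x
    constructor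
    · intro hx
      by_contra hnd
      have hcop : IsCoprime (p : ℤ) (Rat.ringOfIntegersEquiv x) :=
        ((Nat.prime_iff_prime_int.1 hp).coprime_iff_not_dvd).2 hnd
      obtain ⟨a, b, hab⟩ := hcop
      apply hI
      rw [Ideal.eq_top_iff_one]
      have h1 : Rat.ringOfIntegersEquiv.symm a * (p : 𝓞 ℚ) +
          Rat.ringOfIntegersEquiv.symm b * x = 1 := by
        apply Rat.ringOfIntegersEquiv.injective
        simp only [map_add, map_mul, RingEquiv.apply_symm_apply, map_natCast, map_one]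
        exact hab
      rw [← h1]
      exact I.add_mem (I.mul_mem_left _ hpI) (I.mul_mem_left _ hx)
    · rintro ⟨k, hk⟩
      have h1 : x = Rat.ringOfIntegersEquiv.symm k * (p : 𝓞 ℚ) := by
        apply Rat.ringOfIntegersEquiv.injective
        simp only [map_mul, RingEquiv.apply_symm_apply, map_natCast]
        rw [hk, mul_comm]
      rw [h1]
      exact I.mul_mem_left _ hpI
  have hu : ∀ w : HeightOneSpectrum (𝓞 L), (p : 𝓞 L) ∈ w.asIdeal →
      (w.asIdeal.under (𝓞 ℚ) ≠ ⊤ ∧ (p : 𝓞 ℚ) ∈ w.asIdeal.under (𝓞 ℚ)) := by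
    intro w hw
    constructor
    · have := w.isPrime
      exact (inferInstance : (w.asIdeal.under (𝓞 ℚ)).IsPrime).ne_top
    · rw [Ideal.mem_comap, map_natCast]
      exact hw
  ext x
  rw [key _ (hu w hw).1 (hu w hw).2, key _ (hu w' hw').1 (hu w' hw').2]

theorem exists_mv {p : ℕ} (hp : p.Prime) (w w' : HeightOneSpectrum (𝓞 L))
    (hw : (p : 𝓞 L) ∈ w.asIdeal) (hw' : (p : 𝓞 L) ∈ w'.asIdeal) :
    ∃ y : L ≃ₐ[ℚ] L, STB.mv (y : L ≃+* L) w = w' := by
  have hu := under_eq hp w w' hw hw'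
  have := w.isPrime
  have := w'.isPrime
  obtain ⟨σ, hσ⟩ := Algebra.IsInvariant.exists_smul_of_under_eq (𝓞 ℚ) (𝓞 L) (L ≃ₐ[ℚ] L)
    w.asIdeal w'.asIdeal hu
  refine ⟨σ, ?_⟩
  rw [RB.mv_eq_iff]
  intro x hx
  rw [hσ]
  have h1 : STB.oMap (σ : L ≃+* L) x = σ • x := rfl
  rw [h1, Ideal.mem_pointwise_smul_iff_inv_smul_mem, inv_smul_smul]
  exact hx

theorem exists_above {p : ℕ} (hp : p.Prime) :
    ∃ w : HeightOneSpectrum (𝓞 L), (p : 𝓞 L) ∈ w.asIdeal := by
  have hmax : (Ideal.span {(p : ℤ)}).IsMaximal := by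
    have : Fact p.Prime := ⟨hp⟩
    exact Int.ideal_span_isMaximal_of_prime p
  obtain ⟨Q, hQ1, hQ2⟩ := Ideal.exists_maximal_ideal_liesOver_of_isIntegral (S := 𝓞 L)
    (Ideal.span {(p : ℤ)})
  have hpQ : (p : 𝓞 L) ∈ Q := by
    have h1 : (p : ℤ) ∈ Q.under ℤ := by
      rw [← hQ2.over]
      exact Ideal.mem_span_singleton_self _
    rw [Ideal.mem_comap] at h1
    simpa using h1
  refine ⟨⟨Q, hQ1.isPrime, ?_⟩, hpQ⟩
  rintro rfl
  have : (p : 𝓞 L) = 0 := by simpa using hpQ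
  exact hp.ne_zero (by exact_mod_cast this)

theorem avg_class (w : HeightOneSpectrum (𝓞 L)) (χ : (L ≃ₐ[ℚ] L) → ℂ)
    (hχ : ∀ x g, χ (x⁻¹ * g * x) = χ g) (w' : HeightOneSpectrum (𝓞 L)) (d : L ≃ₐ[ℚ] L)
    (hd : Dec w' d) (y₀ : L ≃ₐ[ℚ] L) (hy : STB.mv (y₀ : L ≃+* L) w = w') :
    avg w (fun d : decS w => χ d) w' d = χ d := by
  have hD : (Nat.card (decS w) : ℂ) ≠ 0 := by
    exact_mod_cast Nat.card_pos.ne'
  have h1 : ∀ y : L ≃ₐ[ℚ] L, (if STB.mv (y : L ≃+* L) w = w' then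
      (if h : y⁻¹ * d * y ∈ decS w then χ (y⁻¹ * d * y) else 0) else 0) =
      if STB.mv (y : L ≃+* L) w = w' then χ d else 0 := by
    intro y
    split_ifs with h2 h3
    · exact hχ y d
    · exfalso
      apply h3
      rw [mem_decS, RB.dec_iff, RB.mv_mul, RB.mv_mul, h2, (RB.dec_iff w' d).1 hd, ← h2,
        ← RB.mv_mul, inv_mul_cancel, RB.mv_one]
    · rfl
  have h2 : (Finset.univ.filter (fun y : L ≃ₐ[ℚ] L => STB.mv (y : L ≃+* L) w = w')).card =
      Nat.card (decS w) := by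
    rw [Nat.card_eq_fintype_card, ← Finset.card_univ]
    symm
    refine Finset.card_bij (fun (x : decS w) _ => y₀ * (x : L ≃ₐ[ℚ] L)) ?_ ?_ ?_
    · intro x _
      rw [Finset.mem_filter]
      refine ⟨Finset.mem_univ _, ?_⟩
      rw [RB.mv_mul, (RB.dec_iff w (x : L ≃ₐ[ℚ] L)).1 x.2, hy]
    · intro x _ x' _ hxx
      exact Subtype.ext (mul_left_cancel hxx)
    · intro y hy'
      rw [Finset.mem_filter] at hy'
      refine ⟨⟨y₀⁻¹ * y, ?_⟩, Finset.mem_univ _, by simp⟩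
      rw [mem_decS, RB.dec_iff, RB.mv_mul, hy'.2, ← hy, ← RB.mv_mul, inv_mul_cancel, RB.mv_one]
  unfold avg
  rw [Finset.sum_congr rfl fun y _ => h1 y, ← Finset.sum_filter, Finset.sum_const, h2,
    nsmul_eq_mul]
  field_simp

theorem real_sum (hC : Stmt_UCOMP) (hI : Stmt_UINFL) {T : Finset ℕ} (S : Finset ℕ)
    (τ : ℕ → HeightOneSpectrum (𝓞 L) → (L ≃ₐ[ℚ] L) → ℂ) (h : ∀ p ∈ S, Real T (τ p)) :
    Real T (∑ p ∈ S, τ p) := by
  induction S using Finset.induction_on with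
  | empty =>
    rw [Finset.sum_empty]
    exact real_zero T
  | insert a S ha ih =>
    rw [Finset.sum_insert ha]
    exact real_add hC hI (h a (Finset.mem_insert_self a S))
      (ih fun p hp => h p (Finset.mem_insert_of_mem hp))

end avg

end UGLOB

open UGLOB in
theorem UGLOB_thm (hR : Stmt_UREAL) (hC : Stmt_UCOMP) (hM : Stmt_UMACK) (hI : Stmt_UINFL) :
    Stmt_UGLOB := by
  intro L _ _ _ T χ hχ
  have hcl := class_of_span hχ
  have hex : ∀ p : ℕ, ∃ w : HeightOneSpectrum (𝓞 L), p.Prime → (p : 𝓞 L) ∈ w.asIdeal := by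
    intro p
    by_cases hp : p.Prime
    · obtain ⟨w, hw⟩ := exists_above (L := L) hp
      exact ⟨w, fun _ => hw⟩
    · obtain ⟨w, -⟩ := exists_above (L := L) Nat.prime_two
      exact ⟨w, fun h => absurd h hp⟩
  choose w hw using hex
  set τ : ℕ → HeightOneSpectrum (𝓞 L) → (L ≃ₐ[ℚ] L) → ℂ := fun p =>
    if p.Prime then avg (w p) (fun d : decS (w p) => χ d) else 0 with hτ
  have h1 : Real T (∑ p ∈ T, τ p) := by
    refine real_sum hC hI T τ fun p hp => ?_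
    simp only [hτ]
    split_ifs with hpp
    · exact avg_real hR hC hI T (w p) ⟨p, hp, hpp, hw p hpp⟩ _ (hM _ _ χ hχ)
    · exact real_zero T
  refine real_congr h1 ?_
  rintro w' d ⟨p, hpT, hp, hpw⟩ hd
  rw [Finset.sum_apply, Finset.sum_apply, Finset.sum_eq_single p]
  · simp only [hτ, if_pos hp]
    obtain ⟨y₀, hy⟩ := exists_mv hp (w p) w' (hw p hp) hpw
    exact avg_class (w p) χ hcl w' d hd y₀ hy
  · intro q hq hqp
    simp only [hτ]
    split_ifs with hqq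
    · unfold avg
      rw [Finset.sum_eq_zero, zero_div]
      intro y _
      rw [if_neg]
      intro hy
      have h2 : (q : 𝓞 L) ∈ w'.asIdeal := by
        rw [← hy, natCast_mem_mv]
        exact hw q hqq
      have hcop : IsCoprime (q : ℤ) (p : ℤ) :=
        Nat.isCoprime_iff_coprime.2 ((Nat.coprime_primes hqq hp).2 hqp)
      obtain ⟨a, b, hab⟩ := hcop
      have h3 : (a : 𝓞 L) * (q : 𝓞 L) + (b : 𝓞 L) * (p : 𝓞 L) = 1 := by
        exact_mod_cast congrArg (fun z : ℤ => (z : 𝓞 L)) hab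
      apply w'.isPrime.ne_top
      rw [Ideal.eq_top_iff_one, ← h3]
      exact w'.asIdeal.add_mem (w'.asIdeal.mul_mem_left _ h2) (w'.asIdeal.mul_mem_left _ hpw)
    · rfl
  · intro h
    exact absurd hpT h

end StarkC
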