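import Pool.Agent.StarkU.StmtsS
import Pool.Agent.StarkU.UREAL
import Pool.Agent.StarkU.UGLOB
import Pool.Agent.StarkI.SLOCa
import Pool.Agent.StarkI.PULL

/-!
# SREAL: realisation with totally odd characters at one prime number (module SSTEP)
-/

open NumberField IsDedekindDomain
open scoped TensorProduct Classical

namespace StarkC

namespace SREAL

set_option linter.unusedSectionVars false

/-! ### Product with a permutation character and a linear character -/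

section grp

variable {G : Type} [Group G] [Fintype G]

/-- The subgroup of `B` fixing `x`. -/
def Sx {X : Type} [MulAction G X] (B : Subgroup G) (x : X) : Subgroup G :=
  B ⊓ MulAction.stabilizer G x

theorem mem_Sx {X : Type} [MulAction G X] (B : Subgroup G) (x : X) (g : G) :
    g ∈ Sx B x ↔ g ∈ B ∧ g • x = x := Iff.rfl

theorem Sx_le {X : Type} [MulAction G X] (B : Subgroup G) (x : X) : Sx B x ≤ B := inf_le_left

/-- The product of `ν` and `η` on `Sx`. -/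
noncomputable def chx {X : Type} [MulAction G X] (B : Subgroup G) (ν : B →* ℂˣ) (η : G →* ℂˣ)
    (x : X) : Sx B x →* ℂˣ :=
  (ν.comp (Subgroup.inclusion (Sx_le B x))) * (η.comp (Sx B x).subtype)

theorem chx_apply {X : Type} [MulAction G X] (B : Subgroup G) (ν : B →* ℂˣ) (η : G →* ℂˣ)
    (x : X) (s : Sx B x) (hb : (s : G) ∈ B) :
    chx B ν η x s = ν ⟨s, hb⟩ * η (s : G) := rfl

theorem extZ_mem {H : Subgroup G} (ψ : H →* ℂˣ) {g : G} (hg : g ∈ H) :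
    extZ ψ g = ((ψ ⟨g, hg⟩ : ℂˣ) : ℂ) := by
  unfold extZ
  rw [dif_pos hg]

theorem extZ_not {H : Subgroup G} (ψ : H →* ℂˣ) {g : G} (hg : g ∉ H) : extZ ψ g = 0 := by
  unfold extZ
  rw [dif_neg hg]

/-- The value of `extZ (chx ..)`. -/
theorem extZ_chx {X : Type} [MulAction G X] (B : Subgroup G) (ν : B →* ℂˣ) (η : G →* ℂˣ)
    (x : X) (g : G) :
    extZ (chx B ν η x) g = extZ ν g * ((η g : ℂˣ) : ℂ) * (if g • x = x then (1 : ℂ) else 0) := by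
  by_cases h1 : g ∈ B
  · by_cases h2 : g • x = x
    · have h3 : g ∈ Sx B x := ⟨h1, h2⟩
      rw [extZ_mem _ h3, extZ_mem _ h1, if_pos h2, mul_one, chx_apply B ν η x ⟨g, h3⟩ h1,
        Units.val_mul]
    · have h3 : g ∉ Sx B x := fun h => h2 h.2
      rw [extZ_not _ h3, if_neg h2, mul_zero]
  · have h3 : g ∉ Sx B x := fun h => h1 h.1
    rw [extZ_not _ h3, extZ_not _ h1, zero_mul, zero_mul]

/-- The number of fixed points. -/
noncomputable def fixc {G : Type} [Group G] (X : Type) [MulAction G X] [Fintype X] (h : G) : ℂ :=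
  ((Finset.univ.filter (fun x : X => h • x = x)).card : ℂ)

theorem indFun_extZ {H : Subgroup G} (ψ : H →* ℂˣ) (g : G) :
    (Nat.card H : ℂ) * indFun H (extZ ψ) g = ∑ y : G, extZ ψ (y⁻¹ * g * y) := by
  unfold indFun
  have h0 : (Nat.card H : ℂ) ≠ 0 := Nat.cast_ne_zero.2 Nat.card_pos.ne'
  rw [mul_div_cancel₀ _ h0]
  refine Finset.sum_congr rfl fun y _ => ?_
  split_ifs with h
  · rfl
  · rw [extZ_not _ h]

/-- Conjugation invariance of `ν`, extended by zero. -/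
theorem extZ_conj {B : Subgroup G} (ν : B →* ℂˣ) {b : G} (hb : b ∈ B) (g : G) :
    extZ ν (b⁻¹ * g * b) = extZ ν g := by
  by_cases hg : g ∈ B
  · exact CMB.extZ_class ν b g hb hg
  · rw [extZ_not _ hg, extZ_not]
    intro h
    apply hg
    have := B.mul_mem (B.mul_mem hb h) (B.inv_mem hb)
    have e : b * (b⁻¹ * g * b) * b⁻¹ = g := by group
    rwa [e] at this

theorem eta_conj (η : G →* ℂˣ) (y g : G) : η (y⁻¹ * g * y) = η g := by
  rw [map_mul, map_mul, map_inv, mul_comm (η y)⁻¹, mul_assoc, inv_mul_cancel, mul_one]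

theorem smul_conj_iff {X : Type} [MulAction G X] (y g : G) (x : X) :
    (y⁻¹ * g * y) • x = x ↔ g • (y • x) = y • x := by
  rw [mul_smul, mul_smul, inv_smul_eq_iff]

/-- The first formula. -/
theorem formula1 {X : Type} [MulAction G X] [Fintype X] (B : Subgroup G) (ν : B →* ℂˣ)
    (η : G →* ℂˣ) (h : G) :
    (Nat.card B : ℂ) * (indFun B (extZ ν) h * (((η h : ℂˣ) : ℂ) *
      fixc X h)) =
    ∑ x : X, (Nat.card (Sx B x) : ℂ) * indFun (Sx B x) (extZ (chx B ν η x)) h := by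
  rw [← mul_assoc, indFun_extZ, Finset.sum_mul]
  simp only [indFun_extZ]
  rw [Finset.sum_comm]
  refine Finset.sum_congr rfl fun y _ => ?_
  have h1 : fixc X h =
      ∑ x : X, (if (y⁻¹ * h * y) • x = x then (1 : ℂ) else 0) := by
    unfold fixc
    rw [← Finset.sum_boole]
    refine Fintype.sum_equiv (MulAction.toPerm y⁻¹) _ _ fun x => ?_
    have e : (y⁻¹ * h * y) • (MulAction.toPerm y⁻¹ x) = MulAction.toPerm y⁻¹ x ↔ h • x = x := by
      show (y⁻¹ * h * y) • (y⁻¹ • x) = y⁻¹ • x ↔ h • x = x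
      rw [smul_conj_iff, smul_inv_smul]
    by_cases hx : h • x = x
    · rw [if_pos hx, if_pos (e.2 hx)]
    · rw [if_neg hx, if_neg (fun hh => hx (e.1 hh))]
  rw [h1, Finset.mul_sum, Finset.mul_sum]
  refine Finset.sum_congr rfl fun x _ => ?_
  rw [extZ_chx, eta_conj]
  ring

/-- Invariance under `B`. -/
theorem invar {X : Type} [MulAction G X] (B : Subgroup G) (ν : B →* ℂˣ)
    (η : G →* ℂˣ) (h : G) (b : G) (hb : b ∈ B) (x : X) :
    (Nat.card (Sx B (b • x)) : ℂ) * indFun (Sx B (b • x)) (extZ (chx B ν η (b • x))) h =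
      (Nat.card (Sx B x) : ℂ) * indFun (Sx B x) (extZ (chx B ν η x)) h := by
  rw [indFun_extZ, indFun_extZ]
  refine Fintype.sum_equiv (Equiv.mulRight b) _ _ fun y => ?_
  rw [extZ_chx, extZ_chx]
  have e : ((Equiv.mulRight b) y)⁻¹ * h * (Equiv.mulRight b) y = b⁻¹ * (y⁻¹ * h * y) * b := by
    simp [mul_assoc]
  rw [e, extZ_conj ν hb, eta_conj η b]
  congr 1
  have e2 := smul_conj_iff b (y⁻¹ * h * y) x
  by_cases hx : (y⁻¹ * h * y) • b • x = b • x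
  · rw [if_pos hx, if_pos (e2.2 hx)]
  · rw [if_neg hx, if_neg (fun hh => hx (e2.1 hh))]

theorem card_Sx {X : Type} [MulAction G X] (B : Subgroup G) (x : X) :
    Nat.card (Sx B x) = Nat.card (MulAction.stabilizer B x) := by
  refine Nat.card_congr
    { toFun := fun g => ⟨⟨g.1, g.2.1⟩, ?_⟩
      invFun := fun g => ⟨g.1.1, g.1.2, ?_⟩
      left_inv := fun g => rfl
      right_inv := fun g => rfl }
  · rw [MulAction.mem_stabilizer_iff]
    exact g.2.2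
  · have := g.2
    rw [MulAction.mem_stabilizer_iff] at this
    exact this

/-- Sums over orbits. -/
theorem sum_orbits {B X : Type} [Group B] [Fintype B] [MulAction B X] [Fintype X]
    (F : X → ℂ) (hF : ∀ (b : B) (x : X), F (b • x) = F x) :
    ∑ x : X, F x = ∑ ω : MulAction.orbitRel.Quotient B X,
      ((Finset.univ.filter (fun y : X => y ∈ MulAction.orbit B ω.out)).card : ℂ) * F ω.out := by
  rw [← Finset.sum_fiberwise (Finset.univ : Finset X)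
    (fun x => (Quotient.mk'' x : MulAction.orbitRel.Quotient B X)) F]
  refine Finset.sum_congr rfl fun ω _ => ?_
  have h1 : ∀ y : X, (Quotient.mk'' y : MulAction.orbitRel.Quotient B X) = ω ↔
      y ∈ MulAction.orbit B ω.out := by
    intro y
    constructor
    · rintro rfl
      have h2 := Quotient.exact (Quotient.out_eq (Quotient.mk'' y :
        MulAction.orbitRel.Quotient B X))
      exact (MulAction.orbitRel B X).symm h2
    · intro h2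
      have h3 : (Quotient.mk'' y : MulAction.orbitRel.Quotient B X) = Quotient.mk'' ω.out :=
        Quotient.sound h2
      rw [h3]
      exact Quotient.out_eq ω
  have h2 : (Finset.univ.filter fun y : X =>
      (Quotient.mk'' y : MulAction.orbitRel.Quotient B X) = ω) =
      Finset.univ.filter (fun y : X => y ∈ MulAction.orbit B ω.out) :=
    Finset.filter_congr fun y _ => h1 y
  rw [h2, ← nsmul_eq_mul, ← Finset.sum_const]
  refine Finset.sum_congr rfl fun y hy => ?_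
  obtain ⟨b, hb⟩ := (Finset.mem_filter.1 hy).2
  rw [← hb]
  exact hF b _

theorem formula2 {X : Type} [MulAction G X] [Fintype X] (B : Subgroup G) (ν : B →* ℂˣ)
    (η : G →* ℂˣ) (h : G) :
    indFun B (extZ ν) h * (((η h : ℂˣ) : ℂ) * fixc X h) =
    ∑ ω : MulAction.orbitRel.Quotient B X,
      indFun (Sx B ω.out) (extZ (chx B ν η ω.out)) h := by
  have h0 : (Nat.card B : ℂ) ≠ 0 := Nat.cast_ne_zero.2 Nat.card_pos.ne'
  have h1 := formula1 (X := X) B ν η h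
  rw [sum_orbits (B := B) (X := X) _ (fun b x => invar B ν η h b b.2 x)] at h1
  apply mul_left_cancel₀ h0
  rw [h1, Finset.mul_sum]
  refine Finset.sum_congr rfl fun ω _ => ?_
  rw [← mul_assoc]
  congr 1
  have h2 := IPULL.sum_orbit (G := B) (X := X) (fun _ => (1 : ℂ)) ω.out
  rw [Finset.sum_const, Finset.sum_const, nsmul_eq_mul, nsmul_eq_mul, mul_one, mul_one,
    Finset.card_univ, ← Nat.card_eq_fintype_card] at h2
  rw [h2, card_Sx, mul_comm]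

/-- The product is in the span. -/
theorem prod_mem {X : Type} [MulAction G X] [Fintype X] (B : Subgroup G) (ν : B →* ℂˣ)
    (η : G →* ℂˣ) (P : ∀ S : Subgroup G, (S →* ℂˣ) → Prop)
    (hP : ∀ x : X, P (Sx B x) (chx B ν η x)) :
    (fun h => indFun B (extZ ν) h * (((η h : ℂˣ) : ℂ) * fixc X h)) ∈ CMB.GS (G := G) P := by
  have e : (fun h => indFun B (extZ ν) h * (((η h : ℂˣ) : ℂ) * fixc X h)) =
      ∑ ω : MulAction.orbitRel.Quotient B X,
        indFun (Sx B ω.out) (extZ (chx B ν η ω.out)) := by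
    funext h
    rw [formula2, Finset.sum_apply]
  rw [e]
  exact Submodule.sum_mem _ fun ω _ => CMB.mem_GS_of _ _ (hP _)

end grp

/-! ### The function `Ψ` -/

section fn

variable {N : Type} [Field N] [NumberField N] [IsGalois ℚ N]

/-- The action of `H₀` on a stable finite set. -/
@[instance_reducible]
def actZ (H₀ : Subgroup (N ≃ₐ[ℚ] N)) (Z : Finset N) (hst : ∀ h ∈ H₀, ∀ κ ∈ Z, h κ ∈ Z) :
    MulAction H₀ {κ : N // κ ∈ Z} where
  smul h κ := ⟨(h : N ≃ₐ[ℚ] N) κ.1, hst h h.2 κ.1 κ.2⟩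
  one_smul _ := Subtype.ext rfl
  mul_smul _ _ _ := Subtype.ext rfl

/-- The number of fixed points. -/
noncomputable def fx (Z : Finset N) (g : N ≃ₐ[ℚ] N) : ℂ :=
  ((Z.filter fun κ => g κ = κ).card : ℂ)

theorem fx_eq (H₀ : Subgroup (N ≃ₐ[ℚ] N)) (Z : Finset N) (hst : ∀ h ∈ H₀, ∀ κ ∈ Z, h κ ∈ Z)
    (h : H₀) :
    @fixc H₀ _ {κ : N // κ ∈ Z} (actZ H₀ Z hst) _ h = fx Z (h : N ≃ₐ[ℚ] N) := by
  let _ := actZ H₀ Z hst
  unfold fx fixc
  congr 1
  refine Finset.card_bij (fun x _ => x.1) ?_ ?_ ?_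
  · intro x hx
    simp only [Finset.mem_filter, Finset.mem_univ, true_and] at hx
    exact Finset.mem_filter.2 ⟨x.2, congrArg Subtype.val hx⟩
  · intro x _ y _ hxy
    exact Subtype.ext hxy
  · intro κ hκ
    obtain ⟨h1, h2⟩ := Finset.mem_filter.1 hκ
    refine ⟨⟨κ, h1⟩, ?_, rfl⟩
    simp only [Finset.mem_filter, Finset.mem_univ, true_and]
    exact Subtype.ext h2

/-- The property of the pairs `(B, ν)`: the kernel of `r` is in the kernel of `ν`. -/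
def P0 {H D : Type} [Group H] [Group D] (r : H →* D) (B : Subgroup H) (ν : B →* ℂˣ) : Prop :=
  ∀ h : H, r h = 1 → ∃ hb : h ∈ B, ν ⟨h, hb⟩ = 1

/-- The property of the pairs `(S, χ)`. -/
def P1 (H₀ : Subgroup (N ≃ₐ[ℚ] N)) (T' : Finset ℕ) (S : Subgroup H₀) (χ : S →* ℂˣ) : Prop :=
  (∀ c : H₀, IsCC (c : N ≃ₐ[ℚ] N) → ∃ hc : c ∈ S, ((χ ⟨c, hc⟩ : ℂˣ) : ℂ) = -1) ∧
  ∀ W : HeightOneSpectrum (𝓞 N), ¬ AboveT T' W → ∀ b : S,
    FrobPow N W 1 (((b : H₀) : N ≃ₐ[ℚ] N)) → χ b = 1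

/-- The same for subgroups of the Galois group. -/
def P2 (T' : Finset ℕ) (S : Subgroup (N ≃ₐ[ℚ] N)) (χ : S →* ℂˣ) : Prop :=
  Ty3 S χ ∧ ∀ W : HeightOneSpectrum (𝓞 N), ¬ AboveT T' W → ∀ b : S,
    FrobPow N W 1 ((b : N ≃ₐ[ℚ] N)) → χ b = 1

theorem comp_mem (hPull : Stmt_IPULL) {H D : Type} [Group H] [Fintype H] [Group D]
    [Fintype D] (r : H →* D) {f : D → ℂ} (hf : IsMonComb f) :
    (fun h : H => f (r h)) ∈ CMB.GS (G := H) (fun B ν => P0 r B ν) := by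
  obtain ⟨m, B, ν, n, h⟩ := hf
  have e1 : (fun h : H => f (r h)) = ∑ i, n i • (fun h : H => indFun (B i) (extZ (ν i)) (r h)) := by
    funext x
    rw [h, Finset.sum_apply]
    refine Finset.sum_congr rfl fun i _ => ?_
    rw [Pi.smul_apply, zsmul_eq_mul]
  rw [e1]
  refine Submodule.sum_mem _ fun i _ => Submodule.smul_mem _ _ ?_
  refine (Submodule.span_le.2 ?_) (hPull H D r (B i) (ν i))
  rintro _ ⟨x, rfl⟩
  refine CMB.mem_GS_of _ _ ?_
  intro h hh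
  have e2 : cj r x h = 1 := by
    rw [SLOC.cj_apply, hh]; group
  have hb : h ∈ (B i).comap (cj r x) := by
    show cj r x h ∈ B i
    rw [e2]; exact (B i).one_mem
  refine ⟨hb, ?_⟩
  show ν i ((cj r x).subgroupComap (B i) ⟨h, hb⟩) = 1
  have e3 : (cj r x).subgroupComap (B i) ⟨h, hb⟩ = 1 := Subtype.ext e2
  rw [e3, map_one]

variable (H₀ : Subgroup (N ≃ₐ[ℚ] N)) (T' : Finset ℕ)

theorem prodZ_mem {D : Type} [Group D] (r : H₀ →* D) (η : H₀ →* ℂˣ) (Z : Finset N)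
    (hst : ∀ h ∈ H₀, ∀ κ ∈ Z, h κ ∈ Z)
    (hcc : ∀ c : H₀, IsCC (c : N ≃ₐ[ℚ] N) → r c = 1 ∧ ((η c : ℂˣ) : ℂ) = -1 ∧
      ∀ κ ∈ Z, (c : N ≃ₐ[ℚ] N) κ = κ)
    (hin : ∀ W : HeightOneSpectrum (𝓞 N), ¬ AboveT T' W → ∀ b : H₀,
      FrobPow N W 1 ((b : N ≃ₐ[ℚ] N)) → r b = 1 ∧ η b = 1)
    (B : Subgroup H₀) (ν : B →* ℂˣ) (hB : P0 r B ν) :
    (fun h : H₀ => indFun B (extZ ν) h * (((η h : ℂˣ) : ℂ) * fx Z (h : N ≃ₐ[ℚ] N))) ∈
      CMB.GS (G := H₀) (fun S χ => P1 H₀ T' S χ) := by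
  let _ := actZ H₀ Z hst
  have h1 := prod_mem (G := H₀) (X := {κ : N // κ ∈ Z}) B ν η (fun S χ => P1 H₀ T' S χ) ?_
  · have e : (fun h : H₀ => indFun B (extZ ν) h * (((η h : ℂˣ) : ℂ) *
        fx Z (h : N ≃ₐ[ℚ] N))) = fun h : H₀ => indFun B (extZ ν) h * (((η h : ℂˣ) : ℂ) *
        fixc {κ : N // κ ∈ Z} h) := by
      funext h
      rw [fx_eq H₀ Z hst h]
    rw [e]
    exact h1
  · intro x
    constructor
    · intro c hc
      obtain ⟨h2, h3, h4⟩ := hcc c hc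
      obtain ⟨hb, hν⟩ := hB c h2
      have hS : c ∈ Sx B x := ⟨hb, Subtype.ext (h4 x.1 x.2)⟩
      refine ⟨hS, ?_⟩
      rw [chx_apply B ν η x ⟨c, hS⟩ hb]
      show (((ν ⟨c, hb⟩ * η c : ℂˣ)) : ℂ) = -1
      rw [hν, one_mul, h3]
    · intro W hW b hb
      obtain ⟨h2, h3⟩ := hin W hW b hb
      have hbB : (b : H₀) ∈ B := b.2.1
      obtain ⟨hb', hν⟩ := hB _ h2
      rw [chx_apply B ν η x b hbB, hν, h3, one_mul]

theorem FH_mem (hPull : Stmt_IPULL) {D : Type} [Group D] [Fintype D] (r : H₀ →* D)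
    (η : H₀ →* ℂˣ) {m : ℕ} (Z : Fin m → Finset N) (n : Fin m → ℤ)
    (hst : ∀ i, ∀ h ∈ H₀, ∀ κ ∈ Z i, h κ ∈ Z i)
    (hcc : ∀ c : H₀, IsCC (c : N ≃ₐ[ℚ] N) → r c = 1 ∧ ((η c : ℂˣ) : ℂ) = -1 ∧
      ∀ i, ∀ κ ∈ Z i, (c : N ≃ₐ[ℚ] N) κ = κ)
    (hin : ∀ W : HeightOneSpectrum (𝓞 N), ¬ AboveT T' W → ∀ b : H₀,
      FrobPow N W 1 ((b : N ≃ₐ[ℚ] N)) → r b = 1 ∧ η b = 1)
    (f : D → ℂ) (hf : IsMonComb f) :
    (fun h : H₀ => f (r h) * (((η h : ℂˣ) : ℂ) * ∑ i, (n i : ℂ) * fx (Z i) (h : N ≃ₐ[ℚ] N))) ∈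
      CMB.GS (G := H₀) (fun S χ => P1 H₀ T' S χ) := by
  have h1 := comp_mem hPull r hf
  obtain ⟨k, B, ν, a, hB, ha⟩ := CMB.of_mem_GS h1
  have e : (fun h : H₀ => f (r h) * (((η h : ℂˣ) : ℂ) *
      ∑ i, (n i : ℂ) * fx (Z i) (h : N ≃ₐ[ℚ] N))) =
      ∑ j, ∑ i, (a j * n i) • (fun h : H₀ => indFun (B j) (extZ (ν j)) h *
        (((η h : ℂˣ) : ℂ) * fx (Z i) (h : N ≃ₐ[ℚ] N))) := by
    funext h
    have h2 := ha h
    rw [h2, Finset.sum_apply, Finset.sum_mul]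
    refine Finset.sum_congr rfl fun j _ => ?_
    rw [Finset.sum_apply, Finset.mul_sum, Finset.mul_sum]
    refine Finset.sum_congr rfl fun i _ => ?_
    rw [Pi.smul_apply, zsmul_eq_mul]
    push_cast
    ring
  rw [e]
  refine Submodule.sum_mem _ fun j _ => Submodule.sum_mem _ fun i _ => Submodule.smul_mem _ _ ?_
  exact prodZ_mem H₀ T' r η (Z i) (hst i) (fun c hc => ⟨(hcc c hc).1, (hcc c hc).2.1,
    (hcc c hc).2.2 i⟩) hin (B j) (ν j) (hB j)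

theorem Psi_mem (F : (N ≃ₐ[ℚ] N) → ℂ)
    (hH : ∀ c : N ≃ₐ[ℚ] N, IsCC c → c ∈ H₀)
    (hF : (fun h : H₀ => F h) ∈ CMB.GS (G := H₀) (fun S χ => P1 H₀ T' S χ)) :
    indFun H₀ F ∈ CMB.GS (G := N ≃ₐ[ℚ] N) (fun S χ => P2 T' S χ) := by
  refine SLOC.ind_mem H₀ _ (fun S χ => P1 H₀ T' S χ) ?_ F hF
  rintro J μ ⟨hJ1, hJ2⟩ μ' hμ'
  constructor
  · intro c hc
    obtain ⟨h1, h2⟩ := hJ1 ⟨c, hH c hc⟩ hc
    refine ⟨⟨⟨c, hH c hc⟩, h1, rfl⟩, ?_⟩
    exact (congrArg Units.val (hμ' ⟨c, hH c hc⟩ h1 ⟨⟨c, hH c hc⟩, h1, rfl⟩)).trans h2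
  · rintro W hW ⟨b, hb⟩ hf
    obtain ⟨z, hz, rfl⟩ := hb
    have h3 := hμ' z hz ⟨z, hz, rfl⟩
    have h4 := hJ2 W hW ⟨z, hz⟩ hf
    rw [← h4]
    exact h3

theorem restr_mem (hPull : Stmt_IPULL) (W : HeightOneSpectrum (𝓞 N)) (hW : ¬ AboveT T' W)
    (Ψ : (N ≃ₐ[ℚ] N) → ℂ) (hΨ : Ψ ∈ CMB.GS (G := N ≃ₐ[ℚ] N) (fun S χ => P2 T' S χ)) :
    (fun g : decGrp ℚ W => Ψ g) ∈ CMB.GS (G := decGrp ℚ W) fun B ν =>
      ∀ b : B, FrobPow N W 1 ((b : decGrp ℚ W) : N ≃ₐ[ℚ] N) → ν b = 1 := by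
  obtain ⟨m, B, ν, n, hB, h⟩ := CMB.of_mem_GS hΨ
  have e1 : (fun g : decGrp ℚ W => Ψ g) =
      ∑ i, n i • (fun g : decGrp ℚ W => indFun (B i) (extZ (ν i)) ((decGrp ℚ W).subtype g)) := by
    funext x
    rw [h, Finset.sum_apply]
    refine Finset.sum_congr rfl fun i _ => ?_
    rw [Pi.smul_apply, zsmul_eq_mul]
    rfl
  rw [e1]
  refine Submodule.sum_mem _ fun i _ => Submodule.smul_mem _ _ ?_
  refine (Submodule.span_le.2 ?_) (hPull _ _ (decGrp ℚ W).subtype (B i) (ν i))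
  rintro _ ⟨x, rfl⟩
  refine CMB.mem_GS_of _ _ ?_
  rintro ⟨b, hb⟩ hf
  have h1 := UREAL.frob_conj' W (b : N ≃ₐ[ℚ] N) x hf
  have hW' : ¬ AboveT T' (STB.mv ((x⁻¹ : N ≃ₐ[ℚ] N) : N ≃+* N) W) := fun hh =>
    hW ((UREAL.aboveT_mv T' x⁻¹ W).1 hh)
  have e2 : cj (decGrp ℚ W).subtype x b = x⁻¹ * (b : N ≃ₐ[ℚ] N) * x := SLOC.cj_apply _ _ _
  have hmem : x⁻¹ * (b : N ≃ₐ[ℚ] N) * x ∈ B i := by
    rw [← e2]
    exact hb
  have h2 := (hB i).2 _ hW' ⟨_, hmem⟩ h1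
  show ν i ((cj (decGrp ℚ W).subtype x).subgroupComap (B i) ⟨b, hb⟩) = 1
  rw [← h2]
  congr 1

end fn

/-! ### The values at the decomposition groups -/

section vals

variable {L N : Type} [Field L] [NumberField L] [IsGalois ℚ L] [Field N] [NumberField N]
  [Algebra L N] [IsGalois ℚ N]

/-- The function `F`. -/
noncomputable def Fn (H₀ : Subgroup (N ≃ₐ[ℚ] N)) {w : HeightOneSpectrum (𝓞 L)}
    (θ : H₀ →* decGrp ℚ w) (η : H₀ →* ℂˣ) {m : ℕ} (Z : Fin m → Finset N) (n : Fin m → ℤ)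
    (f : (L ≃ₐ[ℚ] L) → ℂ) (g : N ≃ₐ[ℚ] N) : ℂ :=
  if hg : g ∈ H₀ then f ((θ ⟨g, hg⟩ : decGrp ℚ w) : L ≃ₐ[ℚ] L) * (((η ⟨g, hg⟩ : ℂˣ) : ℂ) *
    ∑ i, (n i : ℂ) * fx (Z i) g) else 0

theorem Fn_mem {H₀ : Subgroup (N ≃ₐ[ℚ] N)} {w : HeightOneSpectrum (𝓞 L)}
    (θ : H₀ →* decGrp ℚ w) (η : H₀ →* ℂˣ) {m : ℕ} (Z : Fin m → Finset N) (n : Fin m → ℤ)
    (f : (L ≃ₐ[ℚ] L) → ℂ) {g : N ≃ₐ[ℚ] N} (hg : g ∈ H₀) :
    Fn H₀ θ η Z n f g = f ((θ ⟨g, hg⟩ : decGrp ℚ w) : L ≃ₐ[ℚ] L) * (((η ⟨g, hg⟩ : ℂˣ) : ℂ) *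
      ∑ i, (n i : ℂ) * fx (Z i) g) := by
  unfold Fn
  rw [dif_pos hg]

theorem Fn_not {H₀ : Subgroup (N ≃ₐ[ℚ] N)} {w : HeightOneSpectrum (𝓞 L)}
    (θ : H₀ →* decGrp ℚ w) (η : H₀ →* ℂˣ) {m : ℕ} (Z : Fin m → Finset N) (n : Fin m → ℤ)
    (f : (L ≃ₐ[ℚ] L) → ℂ) {g : N ≃ₐ[ℚ] N} (hg : g ∉ H₀) : Fn H₀ θ η Z n f g = 0 := by
  unfold Fn
  rw [dif_neg hg]

theorem indFun_Fn (H₀ : Subgroup (N ≃ₐ[ℚ] N)) {w : HeightOneSpectrum (𝓞 L)}
    (θ : H₀ →* decGrp ℚ w) (η : H₀ →* ℂˣ) {m : ℕ} (Z : Fin m → Finset N) (n : Fin m → ℤ)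
    (f : (L ≃ₐ[ℚ] L) → ℂ) (x : N ≃ₐ[ℚ] N) :
    indFun H₀ (Fn H₀ θ η Z n f) x =
      (∑ y : N ≃ₐ[ℚ] N, Fn H₀ θ η Z n f (y⁻¹ * x * y)) / (Nat.card H₀ : ℂ) := by
  unfold indFun
  congr 1
  refine Finset.sum_congr rfl fun y _ => ?_
  split_ifs with h
  · rfl
  · rw [Fn_not _ _ _ _ _ h]

theorem indFun_one_one {G : Type} [Group G] [Fintype G] (Q : Subgroup G) :
    indFun Q (fun _ => 1) (1 : G) = (Q.index : ℂ) := by
  unfold indFun
  have h0 : (Nat.card Q : ℂ) ≠ 0 := Nat.cast_ne_zero.2 Nat.card_pos.ne'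
  rw [div_eq_iff h0]
  simp only [mul_one, inv_mul_cancel, Q.one_mem, if_true, Finset.sum_const, Finset.card_univ,
    nsmul_eq_mul]
  rw [← Nat.card_eq_fintype_card, ← Q.index_mul_card]
  push_cast
  ring

theorem count (H₀ : Subgroup (N ≃ₐ[ℚ] N)) (z : N ≃ₐ[ℚ] N) (a : ℂ) :
    ∑ y : N ≃ₐ[ℚ] N, (if z⁻¹ * y ∈ H₀ then a else 0) = (Nat.card H₀ : ℂ) * a := by
  have h1 : ∑ y : N ≃ₐ[ℚ] N, (if z⁻¹ * y ∈ H₀ then a else 0) =
      ∑ y : N ≃ₐ[ℚ] N, (if y ∈ H₀ then a else 0) :=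
    Fintype.sum_equiv (Equiv.mulLeft z⁻¹) _ _ fun y => rfl
  rw [h1, ← Finset.sum_filter, Finset.sum_const, nsmul_eq_mul]
  congr 2
  rw [Nat.card_eq_fintype_card, Fintype.card_subtype]

end vals

end SREAL

open SREAL in
theorem SREAL_thm (hD : Stmt_SDATA) (hP : Stmt_SP) (hM : Stmt_IPULL) : Stmt_SREAL := by
  intro p hp T l hlT hl L _ _ _ f hf hf0
  obtain ⟨w, hw⟩ := UGLOB.exists_above (L := L) hl
  obtain ⟨N, _, _, _, _, T', H₀, θ, η, Z, W₀, hTT, hW₀, hZc, hZs, hcc, h6, h7, h8, h9⟩ :=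
    hD L T l hlT hl w hw
  obtain ⟨M, m, Q, n, hM0, hMp, -, hQ⟩ := hP p hp (decGrp ℚ w)
  have hH0 : (Nat.card H₀ : ℂ) ≠ 0 := Nat.cast_ne_zero.2 Nat.card_pos.ne'
  set F : (N ≃ₐ[ℚ] N) → ℂ := Fn H₀ θ η (fun i => Z (Q i)) n f with hFdef
  have hfc := SLOC.monComb_conj hf
  -- the element is in the span
  have hmem : indFun H₀ F ∈ CMB.GS (G := N ≃ₐ[ℚ] N) (fun S χ => P2 T' S χ) := by
    refine Psi_mem H₀ T' F (fun c hc => (hcc c hc).choose) ?_
    have h1 := FH_mem H₀ T' hM ((decGrp ℚ w).subtype.comp θ) η (fun i => Z (Q i)) n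
      (fun i => hZs (Q i)) ?_ ?_ f hf
    · have e : (fun h : H₀ => F h) = (fun h : H₀ => f (((decGrp ℚ w).subtype.comp θ) h) *
          (((η h : ℂˣ) : ℂ) * ∑ i, (n i : ℂ) * fx (Z (Q i)) (h : N ≃ₐ[ℚ] N))) := by
        funext h
        exact Fn_mem θ η _ n f h.2
      rw [e]
      exact h1
    · intro c hc
      obtain ⟨h1, h2, h3, h4⟩ := hcc c hc
      refine ⟨?_, h3, fun i => h4 (Q i)⟩
      show ((θ c : decGrp ℚ w) : L ≃ₐ[ℚ] L) = 1
      have : (⟨(c : N ≃ₐ[ℚ] N), h1⟩ : H₀) = c := rfl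
      rw [this] at h2
      rw [h2]
      rfl
    · intro W hW b hb
      obtain ⟨h1, h2⟩ := h9 W b hW hb
      refine ⟨?_, h2⟩
      show ((θ b : decGrp ℚ w) : L ≃ₐ[ℚ] L) = 1
      rw [h1]
      rfl
  have hmono : ∀ (P P' : ∀ S : Subgroup (N ≃ₐ[ℚ] N), (S →* ℂˣ) → Prop),
      (∀ S χ, P S χ → P' S χ) → ∀ u, u ∈ CMB.GS (G := N ≃ₐ[ℚ] N) P →
        u ∈ CMB.GS (G := N ≃ₐ[ℚ] N) P' := by
    intro P P' h u hu
    refine (Submodule.span_le.2 ?_) hu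
    rintro _ ⟨t, rfl⟩
    exact CMB.mem_GS_of _ _ (h _ _ t.2)
  -- the vanishing at the primes above `T'` which are not conjugate to `W₀` under `H₀`
  have hvan : ∀ (W : HeightOneSpectrum (𝓞 N)) (g : N ≃ₐ[ℚ] N), Dec W g → AboveT T' W →
      (¬ ∃ s ∈ H₀, STB.mv (s : N ≃+* N) W₀ = W) → F g = 0 := by
    intro W g hg hW hn
    by_cases hgH : g ∈ H₀
    · rw [hFdef, Fn_mem θ η _ n f hgH]
      have h1 : ∑ i, (n i : ℂ) * fx (Z (Q i)) g =
          if PElt p (θ ⟨g, hgH⟩) then (M : ℂ) else 0 := by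
        rw [hQ]
        refine Finset.sum_congr rfl fun i _ => ?_
        congr 1
        exact h8 W ⟨g, hgH⟩ hg hW hn (Q i)
      rw [h1]
      split_ifs with hpe
      · have h2 : PElt p ((θ ⟨g, hgH⟩ : decGrp ℚ w) : L ≃ₐ[ℚ] L) := by
          obtain ⟨k, hk⟩ := hpe
          refine ⟨k, ?_⟩
          have := congrArg (Subtype.val) hk
          simpa using this
        rw [hf0 _ h2, zero_mul]
      · rw [mul_zero, mul_zero]
    · rw [hFdef, Fn_not θ η _ n f hgH]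
  refine ⟨N, inferInstance, inferInstance, inferInstance, inferInstance, M, indFun H₀ F, hM0, hMp,
    hmono _ _ (fun S χ h => h.1) _ hmem, ?_, ?_⟩
  · intro W x hx
    constructor
    · intro hlW
      have hlW₀ : (l : 𝓞 N) ∈ W₀.asIdeal := by
        rw [← RB.natCast_mem_under (L := L) W₀ l, hW₀]
        exact hw
      obtain ⟨z, hz⟩ := UGLOB.exists_mv hl W₀ W hlW₀ hlW
      have hDH : ∀ d : N ≃ₐ[ℚ] N, Dec W₀ d → d ∈ H₀ := by
        intro d hd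
        obtain ⟨h1, -⟩ := h6 W₀ d hd ⟨1, H₀.one_mem, RB.mv_one W₀⟩
        exact h1
      have key : ∀ y : N ≃ₐ[ℚ] N, F (y⁻¹ * x * y) =
          if z⁻¹ * y ∈ H₀ then (M : ℂ) * f (AlgEquiv.restrictNormalHom L x) else 0 := by
        intro y
        have hdec := UREAL.dec_conj' W x y hx
        split_ifs with hy
        · -- `y⁻¹ W = s W₀`
          have hs : ∃ s ∈ H₀, STB.mv (s : N ≃+* N) W₀ =
              STB.mv ((y⁻¹ : N ≃ₐ[ℚ] N) : N ≃+* N) W := by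
            refine ⟨(z⁻¹ * y)⁻¹, H₀.inv_mem hy, ?_⟩
            have e : (z⁻¹ * y)⁻¹ = y⁻¹ * z := by group
            rw [← hz, ← RB.mv_mul, e]
          obtain ⟨hg, hη, hfix, y', hy'⟩ := h6 _ _ hdec hs
          rw [hFdef, Fn_mem θ η _ n f hg, hη, Units.val_one, one_mul, hy']
          have h1 : ∑ i, (n i : ℂ) * fx (Z (Q i)) (y⁻¹ * x * y) = (M : ℂ) := by
            have h2 := hQ 1
            rw [if_pos ⟨0, by simp⟩] at h2
            rw [h2]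
            refine Finset.sum_congr rfl fun i _ => ?_
            rw [indFun_one_one, ← hZc]
            unfold fx
            rw [Finset.filter_true_of_mem (hfix (Q i))]
          have h3 : f (y' * AlgEquiv.restrictNormalHom L (y⁻¹ * x * y) * y'⁻¹) =
              f (AlgEquiv.restrictNormalHom L x) := by
            have h4 := hfc (y'⁻¹) (AlgEquiv.restrictNormalHom L (y⁻¹ * x * y))
            rw [inv_inv] at h4
            rw [h4, map_mul, map_mul, map_inv]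
            exact hfc _ _
          rw [h1, h3, mul_comm]
        · refine hvan _ _ hdec ?_ ?_
          · refine (UREAL.aboveT_mv T' y⁻¹ W).2 ⟨l, hTT hlT, hl, hlW⟩
          · rintro ⟨s, hs, hsW⟩
            apply hy
            have h1 : Dec W₀ ((z⁻¹ * y * s : N ≃ₐ[ℚ] N)) := by
              rw [RB.dec_iff, RB.mv_mul, hsW, ← RB.mv_mul, ← hz, ← RB.mv_mul]
              have h2 : z⁻¹ * y * y⁻¹ * z = 1 := by group
              rw [h2, RB.mv_one]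
            have h3 := H₀.mul_mem (hDH _ h1) (H₀.inv_mem hs)
            rwa [mul_inv_cancel_right] at h3
      rw [hFdef, indFun_Fn, ← hFdef]
      simp only [key]
      rw [count, mul_div_cancel_left₀ _ hH0]
    · intro hW hlW
      rw [hFdef, indFun_Fn, ← hFdef, Finset.sum_eq_zero, zero_div]
      intro y _
      by_cases hg : y⁻¹ * x * y ∈ H₀
      · rw [hFdef, Fn_mem θ η _ n f hg]
        have h1 := h7 _ ⟨_, hg⟩ (UREAL.dec_conj' W x y hx) ((UREAL.aboveT_mv T y⁻¹ W).2 hW)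
          (fun hh => hlW ((UGLOB.natCast_mem_mv y⁻¹ W l).1 hh))
        rw [h1]
        have h2 : f ((1 : decGrp ℚ w) : L ≃ₐ[ℚ] L) = 0 := hf0 _ ⟨0, by simp⟩
        rw [h2, zero_mul]
      · rw [hFdef, Fn_not θ η _ n f hg]
  · intro W hW
    by_cases hW' : AboveT T' W
    · have e : (fun g : decGrp ℚ W => indFun H₀ F g) = 0 := by
        funext g
        rw [hFdef, indFun_Fn, ← hFdef, Finset.sum_eq_zero, zero_div]
        · rfl
        intro y _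
        refine hvan _ _ (UREAL.dec_conj' W g y g.2) ((UREAL.aboveT_mv T' y⁻¹ W).2 hW') ?_
        rintro ⟨s, hs, hsW⟩
        apply hW
        have hlW₀ : (l : 𝓞 N) ∈ W₀.asIdeal := by
          rw [← RB.natCast_mem_under (L := L) W₀ l, hW₀]
          exact hw
        refine ⟨l, hlT, hl, ?_⟩
        rw [← UGLOB.natCast_mem_mv y⁻¹ W l, ← hsW, UGLOB.natCast_mem_mv]
        exact hlW₀
      rw [e]
      exact Submodule.zero_mem _
    · exact restr_mem T' hM W hW' _ hmem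

end StarkC
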