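import Pool.Agent.StarkU.StmtsS

/-!
# SSTEP: the local characters are removed with totally odd characters
-/

open NumberField IsDedekindDomain
open scoped TensorProduct Classical

namespace StarkC

namespace SSTEP

section gs

variable {G : Type} [Group G] [Fintype G]

theorem nat_mul_mem {P : ∀ H : Subgroup G, (H →* ℂˣ) → Prop} {f : G → ℂ} (hf : f ∈ CMB.GS P)
    (M : ℕ) : (fun g => (M : ℂ) * f g) ∈ CMB.GS P := by
  have e : (fun g => (M : ℂ) * f g) = (M : ℤ) • f := by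
    funext g
    rw [Pi.smul_apply, zsmul_eq_mul, Int.cast_natCast]
  rw [e]
  exact Submodule.smul_mem _ _ hf

theorem add_mem' {P : ∀ H : Subgroup G, (H →* ℂˣ) → Prop} {f f' : G → ℂ} (hf : f ∈ CMB.GS P)
    (hf' : f' ∈ CMB.GS P) : (fun g => f g + f' g) ∈ CMB.GS P := Submodule.add_mem _ hf hf'

theorem sub_mem' {P : ∀ H : Subgroup G, (H →* ℂˣ) → Prop} {f f' : G → ℂ} (hf : f ∈ CMB.GS P)
    (hf' : f' ∈ CMB.GS P) : (fun g => f g - f' g) ∈ CMB.GS P := Submodule.sub_mem _ hf hf'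

theorem isMonComb_iff (f : G → ℂ) : IsMonComb f ↔ f ∈ CMB.GS (G := G) (fun _ _ => True) := by
  constructor
  · rintro ⟨m, H, ψ, n, h⟩
    have e : f = ∑ i, n i • indFun (H i) (extZ (ψ i)) := by
      funext g
      rw [h, Finset.sum_apply]
      refine Finset.sum_congr rfl fun i _ => ?_
      rw [Pi.smul_apply, zsmul_eq_mul]
    rw [e]
    exact Submodule.sum_mem _ fun i _ => Submodule.smul_mem _ _ (CMB.mem_GS_of _ _ trivial)
  · intro h
    obtain ⟨m, H, ψ, n, -, hg⟩ := CMB.of_mem_GS h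
    exact ⟨m, H, ψ, n, hg⟩

theorem GS_mono {P Q : ∀ H : Subgroup G, (H →* ℂˣ) → Prop} (h : ∀ H ψ, P H ψ → Q H ψ)
    {f : G → ℂ} (hf : f ∈ CMB.GS P) : f ∈ CMB.GS Q := by
  have : CMB.GS P ≤ CMB.GS Q := by
    apply Submodule.span_le.2
    rintro _ ⟨⟨⟨H, ψ⟩, hP⟩, rfl⟩
    exact CMB.mem_GS_of H ψ (h _ _ hP)
  exact this hf

theorem GS_comap {G' : Type} [Group G'] [Fintype G'] (r : G' →* G) (hr : Function.Surjective r)
    {P : ∀ H : Subgroup G, (H →* ℂˣ) → Prop} {P' : ∀ H : Subgroup G', (H →* ℂˣ) → Prop}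
    (hP : ∀ H ψ, P H ψ → P' (H.comap r) (ψ.comp (r.subgroupComap H))) {f : G → ℂ}
    (hf : f ∈ CMB.GS P) : (fun g => f (r g)) ∈ CMB.GS P' := by
  obtain ⟨m, H, ψ, n, hH, hg⟩ := CMB.of_mem_GS hf
  have e : (fun g => f (r g)) =
      ∑ i, n i • indFun ((H i).comap r) (extZ ((ψ i).comp (r.subgroupComap (H i)))) := by
    funext g
    rw [hg, Finset.sum_apply]
    refine Finset.sum_congr rfl fun i _ => ?_
    rw [Pi.smul_apply, zsmul_eq_mul, CMB.indFun_infl r hr]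
    rfl
  rw [e]
  exact Submodule.sum_mem _ fun i _ => Submodule.smul_mem _ _
    (CMB.mem_GS_of _ _ (hP _ _ (hH i)))

theorem GS_pull (hM : Stmt_IPULL) {H : Type} [Group H] [Fintype H] (r : H →* G)
    {P : ∀ B : Subgroup G, (B →* ℂˣ) → Prop} {P' : ∀ B : Subgroup H, (B →* ℂˣ) → Prop}
    (hP : ∀ B ν (x : G), P B ν → P' (B.comap (cj r x)) (ν.comp ((cj r x).subgroupComap B)))
    {f : G → ℂ} (hf : f ∈ CMB.GS P) : (fun h => f (r h)) ∈ CMB.GS P' := by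
  obtain ⟨m, B, ν, n, hB, hg⟩ := CMB.of_mem_GS hf
  have e : (fun h => f (r h)) = ∑ i, n i • (fun h : H => indFun (B i) (extZ (ν i)) (r h)) := by
    funext h
    rw [hg, Finset.sum_apply]
    refine Finset.sum_congr rfl fun i _ => ?_
    rw [Pi.smul_apply, zsmul_eq_mul]
  rw [e]
  refine Submodule.sum_mem _ fun i _ => Submodule.smul_mem _ _ ?_
  have h1 := hM H G r (B i) (ν i)
  have h2 : Submodule.span ℤ (Set.range fun x : G =>
      indFun ((B i).comap (cj r x)) (extZ ((ν i).comp ((cj r x).subgroupComap (B i))))) ≤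
      CMB.GS P' := by
    apply Submodule.span_le.2
    rintro _ ⟨x, rfl⟩
    exact CMB.mem_GS_of _ _ (hP _ _ x (hB i))
  exact h2 h1

end gs

section arith

/-- two different primes are not in the same prime ideal -/
theorem prime_unique {N : Type} [Field N] [NumberField N] (w : HeightOneSpectrum (𝓞 N)) {p q : ℕ}
    (hp : p.Prime) (hq : q.Prime) (hpw : (p : 𝓞 N) ∈ w.asIdeal) (hqw : (q : 𝓞 N) ∈ w.asIdeal) :
    p = q := by
  by_contra hne
  have hc : IsCoprime (p : ℤ) (q : ℤ) :=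
    Nat.isCoprime_iff_coprime.2 ((Nat.coprime_primes hp hq).2 hne)
  obtain ⟨a, b, hab⟩ := hc
  have h1 : ((a : 𝓞 N)) * (p : 𝓞 N) + (b : 𝓞 N) * (q : 𝓞 N) = 1 := by
    have := congrArg (fun z : ℤ => (z : 𝓞 N)) hab
    push_cast at this
    exact this
  have h2 : (1 : 𝓞 N) ∈ w.asIdeal := by
    rw [← h1]
    exact w.asIdeal.add_mem (w.asIdeal.mul_mem_left _ hpw) (w.asIdeal.mul_mem_left _ hqw)
  exact w.isPrime.ne_top ((Ideal.eq_top_iff_one _).2 h2)

theorem frob_conj {K N : Type} [Field K] [Field N] [NumberField N] [Algebra K N]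
    {w : HeightOneSpectrum (𝓞 N)} {x g : N ≃ₐ[K] N} (hx : Dec w x) (hg : FrobPow N w 1 g) :
    FrobPow N w 1 (x⁻¹ * g * x : N ≃ₐ[K] N) := by
  intro a b hab
  have h1 : ((STB.oMap (x : N ≃+* N) b : 𝓞 N) : N) =
      g ((STB.oMap (x : N ≃+* N) a : 𝓞 N) : N) := by
    show x (b : N) = g (x (a : N))
    rw [hab]
    show x (x⁻¹ (g (x (a : N)))) = g (x (a : N))
    exact x.apply_symm_apply _
  have h2 := hg _ _ h1
  rw [pow_one] at h2 ⊢
  refine RB.dec_inv hx _ (b - a) ?_ h2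
  show ((b - a : 𝓞 N) : N) = x⁻¹ ((STB.oMap (x : N ≃+* N) b - STB.oMap (x : N ≃+* N) a : 𝓞 N) : N)
  have h3 : ((STB.oMap (x : N ≃+* N) b - STB.oMap (x : N ≃+* N) a : 𝓞 N) : N) =
      x (b : N) - x (a : N) := rfl
  rw [h3, ← map_sub]
  have h4 : ((b - a : 𝓞 N) : N) = (b : N) - (a : N) := rfl
  rw [h4]
  exact (x.symm_apply_apply _).symm

variable {L N : Type} [Field L] [NumberField L] [IsGalois ℚ L] [Field N] [NumberField N]
  [IsGalois ℚ N] [Algebra L N]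

omit [IsGalois ℚ L] [IsGalois ℚ N] in
theorem aboveT_under (T : Finset ℕ) (w : HeightOneSpectrum (𝓞 N)) :
    AboveT T (w.under (𝓞 L)) ↔ AboveT T w := by
  constructor
  · rintro ⟨q, hq, hqp, hqw⟩
    exact ⟨q, hq, hqp, (RB.natCast_mem_under (L := L) w q).1 hqw⟩
  · rintro ⟨q, hq, hqp, hqw⟩
    exact ⟨q, hq, hqp, (RB.natCast_mem_under (L := L) w q).2 hqw⟩

/-- restriction of decomposition groups -/
noncomputable def decRes (L : Type) [Field L] [NumberField L] [IsGalois ℚ L] [Algebra L N]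
    (w : HeightOneSpectrum (𝓞 N)) : decGrp ℚ w →* decGrp ℚ (w.under (𝓞 L)) :=
  ((AlgEquiv.restrictNormalHom L).comp (decGrp ℚ w).subtype).codRestrict _
    (fun g => RB.dec_restrict (L := L) (w := w) g.2)

/-- unramified types -/
def Unr {N : Type} [Field N] [NumberField N] (w : HeightOneSpectrum (𝓞 N))
    (B : Subgroup (decGrp ℚ w)) (ν : B →* ℂˣ) : Prop :=
  ∀ b : B, FrobPow N w 1 ((b : decGrp ℚ w) : N ≃ₐ[ℚ] N) → ν b = 1

theorem unr_infl (hM : Stmt_IPULL) (Ψ : (L ≃ₐ[ℚ] L) → ℂ) (w : HeightOneSpectrum (𝓞 N))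
    (h : (fun g : decGrp ℚ (w.under (𝓞 L)) => Ψ g) ∈
      CMB.GS (G := decGrp ℚ (w.under (𝓞 L))) (Unr (w.under (𝓞 L)))) :
    (fun g : decGrp ℚ w => Ψ (AlgEquiv.restrictNormalHom L (g : N ≃ₐ[ℚ] N))) ∈
      CMB.GS (G := decGrp ℚ w) (Unr w) := by
  refine GS_pull hM (decRes (N := N) L w) (P := Unr (w.under (𝓞 L))) (P' := Unr w) ?_ h
  intro B ν x hB b hb
  have h1 : FrobPow L (w.under (𝓞 L)) 1
      (AlgEquiv.restrictNormalHom L ((b : decGrp ℚ w) : N ≃ₐ[ℚ] N) : L ≃ₐ[ℚ] L) :=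
    RB.frob_restrict hb
  have h2 := frob_conj x.2 h1
  refine hB _ ?_
  show FrobPow L (w.under (𝓞 L)) 1 _
  have e : (((((cj (decRes (N := N) L w) x).subgroupComap B) b : B) :
      decGrp ℚ (w.under (𝓞 L))) : L ≃ₐ[ℚ] L) =
      (x : L ≃ₐ[ℚ] L)⁻¹ *
        AlgEquiv.restrictNormalHom L ((b : decGrp ℚ w) : N ≃ₐ[ℚ] N) * (x : L ≃ₐ[ℚ] L) := by
    show (((x⁻¹ * decRes (N := N) L w b * x⁻¹⁻¹ : decGrp ℚ (w.under (𝓞 L)))) : L ≃ₐ[ℚ] L) = _
    rw [inv_inv]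
    rfl
  rw [e]
  exact h2

theorem unr_of_trivial (hM : Stmt_IPULL) (f : (L ≃ₐ[ℚ] L) → ℂ) (hf : IsMonComb f)
    (w : HeightOneSpectrum (𝓞 N))
    (h : ∀ g : L ≃ₐ[ℚ] L, FrobPow L (w.under (𝓞 L)) 1 g → g = 1) :
    (fun g : decGrp ℚ w => f (AlgEquiv.restrictNormalHom L (g : N ≃ₐ[ℚ] N))) ∈
      CMB.GS (G := decGrp ℚ w) (Unr w) := by
  refine GS_pull hM ((AlgEquiv.restrictNormalHom L).comp (decGrp ℚ w).subtype)
    (P := fun _ _ => True) (P' := Unr w) ?_ ((isMonComb_iff f).1 hf)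
  intro B ν x _ b hb
  have h1 := h _ (RB.frob_restrict hb)
  have e : ((cj ((AlgEquiv.restrictNormalHom L).comp (decGrp ℚ w).subtype) x).subgroupComap B) b =
      1 := by
    apply Subtype.ext
    show x⁻¹ * (AlgEquiv.restrictNormalHom L ((b : decGrp ℚ w) : N ≃ₐ[ℚ] N)) * x⁻¹⁻¹ = 1
    rw [h1, mul_one, inv_inv, inv_mul_cancel]
  show ν (((cj ((AlgEquiv.restrictNormalHom L).comp (decGrp ℚ w).subtype) x).subgroupComap B) b) = 1
  rw [e, map_one]

theorem ty3_infl (Ψ : (L ≃ₐ[ℚ] L) → ℂ)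
    (h : Ψ ∈ CMB.GS (G := L ≃ₐ[ℚ] L) (fun H ψ => Ty3 H ψ)) :
    (fun g : N ≃ₐ[ℚ] N => Ψ (AlgEquiv.restrictNormalHom L g)) ∈
      CMB.GS (G := N ≃ₐ[ℚ] N) (fun H ψ => Ty3 H ψ) := by
  refine GS_comap (AlgEquiv.restrictNormalHom L) (AlgEquiv.restrictNormalHom_surjective N) ?_ h
  intro H ψ hH c hc
  obtain ⟨h1, h2⟩ := hH _ (CMB.isCC_restrict (L := L) hc)
  exact ⟨h1, h2⟩

end arith

/-- The induction statement: `A` is the set of primes treated so far. -/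
def Good (p : ℕ) (T : Finset ℕ) (L : Type) [Field L] [NumberField L] [IsGalois ℚ L]
    (f : (L ≃ₐ[ℚ] L) → ℂ) (A : Finset ℕ) : Prop :=
  ∃ (N : Type) (_ : Field N) (_ : NumberField N) (_ : Algebra L N) (_ : IsGalois ℚ N)
    (M : ℕ) (Ψ : (N ≃ₐ[ℚ] N) → ℂ), 0 < M ∧ Nat.Coprime p M ∧
    Ψ ∈ CMB.GS (G := N ≃ₐ[ℚ] N) (fun H ψ => Ty3 H ψ) ∧
    (∀ (W : HeightOneSpectrum (𝓞 N)) (x : N ≃ₐ[ℚ] N), Dec W x →
      ((∃ l ∈ A, (l : 𝓞 N) ∈ W.asIdeal) →
        Ψ x = (M : ℂ) * f (AlgEquiv.restrictNormalHom L x)) ∧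
      (AboveT T W → (∀ l ∈ A, (l : 𝓞 N) ∉ W.asIdeal) → Ψ x = 0)) ∧
    ∀ W : HeightOneSpectrum (𝓞 N), ¬ AboveT T W →
      (fun g : decGrp ℚ W => Ψ g) ∈ CMB.GS (G := decGrp ℚ W) (Unr W)

theorem good_all (hR : Stmt_SREAL) (hC : Stmt_UCOMP) (hM : Stmt_IPULL) (p : ℕ) (hp : p.Prime)
    (T : Finset ℕ) (L : Type) [Field L] [NumberField L] [IsGalois ℚ L]
    (f : (L ≃ₐ[ℚ] L) → ℂ) (hf : IsMonComb f) (hfp : ∀ g, PElt p g → f g = 0) (A : Finset ℕ)
    (hA : ∀ l ∈ A, l ∈ T ∧ l.Prime) : Good p T L f A := by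
  induction A using Finset.induction_on with
  | empty =>
    refine ⟨L, inferInstance, inferInstance, inferInstance, inferInstance, 1, 0, one_pos,
      Nat.coprime_one_right p, Submodule.zero_mem _, ?_, fun W _ => Submodule.zero_mem _⟩
    intro W x _
    refine ⟨?_, fun _ _ => rfl⟩
    rintro ⟨l, hl, -⟩
    exact absurd hl (Finset.notMem_empty l)
  | insert l A hlA ih =>
    obtain ⟨hlT, hlp⟩ := hA l (Finset.mem_insert_self l A)
    obtain ⟨N₁, _, _, _, _, M₁, Ψ₁, hM₁, hpM₁, h3₁, hv₁, hu₁⟩ :=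
      ih (fun q hq => hA q (Finset.mem_insert_of_mem hq))
    obtain ⟨N₂, _, _, _, _, M₂, Ψ₂, hM₂, hpM₂, h3₂, hv₂, hu₂⟩ :=
      hR p hp T l hlT hlp L f hf hfp
    obtain ⟨N, _, _, _, _, _, _, t1, t2⟩ := hC L N₁ N₂
    refine ⟨N, inferInstance, inferInstance, inferInstance, inferInstance, M₂ * M₁,
      fun g => (M₂ : ℂ) * Ψ₁ (AlgEquiv.restrictNormalHom N₁ g) +
        (M₁ : ℂ) * Ψ₂ (AlgEquiv.restrictNormalHom N₂ g), Nat.mul_pos hM₂ hM₁,
      Nat.Coprime.mul_right hpM₂ hpM₁, ?_, ?_, ?_⟩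
    · exact add_mem' (nat_mul_mem (ty3_infl Ψ₁ h3₁) M₂) (nat_mul_mem (ty3_infl Ψ₂ h3₂) M₁)
    · intro W x hx
      have c1 : AlgEquiv.restrictNormalHom L (AlgEquiv.restrictNormalHom N₁ x : N₁ ≃ₐ[ℚ] N₁) =
          AlgEquiv.restrictNormalHom L x :=
        (IsScalarTower.AlgEquiv.restrictNormalHom_comp_apply L N₁ x).symm
      have c2 : AlgEquiv.restrictNormalHom L (AlgEquiv.restrictNormalHom N₂ x : N₂ ≃ₐ[ℚ] N₂) =
          AlgEquiv.restrictNormalHom L x :=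
        (IsScalarTower.AlgEquiv.restrictNormalHom_comp_apply L N₂ x).symm
      have d1 : Dec (W.under (𝓞 N₁)) (AlgEquiv.restrictNormalHom N₁ x : N₁ ≃ₐ[ℚ] N₁) :=
        RB.dec_restrict hx
      have d2 : Dec (W.under (𝓞 N₂)) (AlgEquiv.restrictNormalHom N₂ x : N₂ ≃ₐ[ℚ] N₂) :=
        RB.dec_restrict hx
      obtain ⟨a1, b1⟩ := hv₁ _ _ d1
      obtain ⟨a2, b2⟩ := hv₂ _ _ d2
      rw [c1] at a1
      rw [c2] at a2
      have u1 : ∀ q : ℕ, (q : 𝓞 N₁) ∈ (W.under (𝓞 N₁)).asIdeal ↔ (q : 𝓞 N) ∈ W.asIdeal :=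
        fun q => RB.natCast_mem_under (L := N₁) W q
      have u2 : ∀ q : ℕ, (q : 𝓞 N₂) ∈ (W.under (𝓞 N₂)).asIdeal ↔ (q : 𝓞 N) ∈ W.asIdeal :=
        fun q => RB.natCast_mem_under (L := N₂) W q
      constructor
      · rintro ⟨q, hq, hqW⟩
        have hab : AboveT T W := ⟨q, (hA q hq).1, (hA q hq).2, hqW⟩
        rcases Finset.mem_insert.1 hq with rfl | hqA
        · have e1 := b1 ((aboveT_under T W).2 hab) (fun q' hq' h => by
            have := prime_unique W (hA q' (Finset.mem_insert_of_mem hq')).2 hlp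
              ((u1 q').1 h) hqW
            exact hlA (this ▸ hq'))
          have e2 := a2 ((u2 q).2 hqW)
          show (M₂ : ℂ) * Ψ₁ _ + (M₁ : ℂ) * Ψ₂ _ = _
          rw [e1, e2]
          push_cast
          ring
        · have hlW : (l : 𝓞 N) ∉ W.asIdeal := by
            intro h
            have := prime_unique W (hA q hq).2 hlp hqW h
            exact hlA (this ▸ hqA)
          have e1 := a1 ⟨q, hqA, (u1 q).2 hqW⟩
          have e2 := b2 ((aboveT_under T W).2 hab) (fun h => hlW ((u2 l).1 h))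
          show (M₂ : ℂ) * Ψ₁ _ + (M₁ : ℂ) * Ψ₂ _ = _
          rw [e1, e2]
          push_cast
          ring
      · intro hab hno
        have e1 := b1 ((aboveT_under T W).2 hab) (fun q hq h =>
          hno q (Finset.mem_insert_of_mem hq) ((u1 q).1 h))
        have e2 := b2 ((aboveT_under T W).2 hab) (fun h =>
          hno l (Finset.mem_insert_self l A) ((u2 l).1 h))
        show (M₂ : ℂ) * Ψ₁ _ + (M₁ : ℂ) * Ψ₂ _ = _
        rw [e1, e2]
        ring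
    · intro W hW
      have v1 := unr_infl hM Ψ₁ W (hu₁ (W.under (𝓞 N₁)) (fun h => hW ((aboveT_under T W).1 h)))
      have v2 := unr_infl hM Ψ₂ W (hu₂ (W.under (𝓞 N₂)) (fun h => hW ((aboveT_under T W).1 h)))
      exact add_mem' (nat_mul_mem v1 M₂) (nat_mul_mem v2 M₁)

end SSTEP

open SSTEP in
theorem SSTEP_thm (hR : Stmt_SREAL) (hC : Stmt_UCOMP) (hE : Stmt_UEXT) (hR2 : Stmt_URAM)
    (hM : Stmt_IPULL) : Stmt_SSTEP := by
  intro p hp T L _ _ _ f hf hfp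
  obtain ⟨T₁, hT₁⟩ := hR2 L
  set T₀ : Finset ℕ := T ∪ T₁ with hT₀
  obtain ⟨N, _, _, _, _, M, Ψ, hM0, hpM, h3, hv, hu⟩ := good_all hR hC hM p hp T₀ L f hf hfp
    (T₀.filter Nat.Prime) (fun l hl => Finset.mem_filter.1 hl)
  obtain ⟨N₁, _, _, _, _, hs⟩ := hE N (Polynomial.X ^ 2 + 1) (by
    intro h
    have := congrArg (Polynomial.eval 0) h
    simp at this)
  let algLN₁ : Algebra L N₁ := ((algebraMap N N₁).comp (algebraMap L N)).toAlgebra
  have t1 : IsScalarTower L N N₁ := IsScalarTower.of_algebraMap_eq fun _ => rfl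
  have c1 : ∀ x : N₁ ≃ₐ[ℚ] N₁,
      AlgEquiv.restrictNormalHom L (AlgEquiv.restrictNormalHom N x : N ≃ₐ[ℚ] N) =
      AlgEquiv.restrictNormalHom L x := fun x =>
    (IsScalarTower.AlgEquiv.restrictNormalHom_comp_apply L N x).symm
  refine ⟨N₁, inferInstance, inferInstance, algLN₁, inferInstance, T₀, M,
    fun g => (M : ℂ) * f (AlgEquiv.restrictNormalHom L g) -
      Ψ (AlgEquiv.restrictNormalHom N g), Finset.subset_union_left, hM0, hpM, ?_, ?_, ?_, ?_⟩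
  · have hdeg : ((Polynomial.X ^ 2 + 1 : Polynomial N).map (algebraMap N N₁)).degree ≠ 0 := by
      have e1 : (Polynomial.X ^ 2 + 1 : Polynomial N).map (algebraMap N N₁) =
          Polynomial.X ^ 2 + Polynomial.C 1 := by simp
      rw [e1, Polynomial.degree_X_pow_add_C two_pos]
      norm_num
    obtain ⟨j, hj⟩ := Polynomial.Splits.exists_eval_eq_zero hs hdeg
    refine ⟨j, ?_⟩
    simp only [Polynomial.map_add, Polynomial.map_pow, Polynomial.map_X, Polynomial.map_one,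
      Polynomial.eval_add, Polynomial.eval_pow, Polynomial.eval_X, Polynomial.eval_one] at hj
    linear_combination hj
  · rw [isMonComb_iff]
    refine sub_mem' (nat_mul_mem ?_ M) ?_
    · exact GS_comap (AlgEquiv.restrictNormalHom L) (AlgEquiv.restrictNormalHom_surjective N₁)
        (fun _ _ _ => trivial) ((isMonComb_iff f).1 hf)
    · exact GS_comap (AlgEquiv.restrictNormalHom N) (AlgEquiv.restrictNormalHom_surjective N₁)
        (fun _ _ _ => trivial) h3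
  · intro W
    constructor
    · intro hab g hg
      obtain ⟨q, hq, hqp, hqW⟩ := hab
      have d1 : Dec (W.under (𝓞 N)) (AlgEquiv.restrictNormalHom N g : N ≃ₐ[ℚ] N) :=
        RB.dec_restrict hg
      have e1 := (hv _ _ d1).1 ⟨q, Finset.mem_filter.2 ⟨hq, hqp⟩,
        (RB.natCast_mem_under (L := N) W q).2 hqW⟩
      show (M : ℂ) * f (AlgEquiv.restrictNormalHom L g) - Ψ (AlgEquiv.restrictNormalHom N g) = 0
      rw [e1, c1, sub_self]
    · intro hab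
      have hab' : ¬ AboveT T₀ (W.under (𝓞 N)) := fun h => hab ((aboveT_under T₀ W).1 h)
      have v1 := unr_infl hM Ψ W (hu _ hab')
      have v2 := unr_of_trivial (L := L) (N := N₁) hM f hf W (hT₁ _ (fun h => hab (by
        have h2 := (aboveT_under (L := L) T₁ W).1 h
        obtain ⟨q, hq, hqp, hqW⟩ := h2
        exact ⟨q, Finset.mem_union_right T hq, hqp, hqW⟩)))
      exact sub_mem' (nat_mul_mem v2 M) v1
  · have e : (fun g : N₁ ≃ₐ[ℚ] N₁ => (M : ℂ) * f (AlgEquiv.restrictNormalHom L g) -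
        ((M : ℂ) * f (AlgEquiv.restrictNormalHom L g) - Ψ (AlgEquiv.restrictNormalHom N g))) =
        fun g : N₁ ≃ₐ[ℚ] N₁ => Ψ (AlgEquiv.restrictNormalHom N g) := by
      funext g
      ring
    rw [e]
    exact ty3_infl Ψ h3

end StarkC
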