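import Pool.Agent.StarkU.Stmts
import Pool.Agent.Stark.RBasic

/-!
UHAT: a totally real field with the same local behaviour above `p`.
-/

open NumberField IsDedekindDomain Polynomial
open scoped TensorProduct Classical IntermediateField

namespace StarkC.UHAT

theorem fin_roots {K : Type} [Field K] {f : K[X]} (hs : f.Splits) (hm : f.Monic) {n : ℕ}
    (hn : f.natDegree = n) : ∃ α : Fin n → K, f = ∏ i, (X - C (α i)) := by
  obtain ⟨l, hl⟩ : ∃ l : List K, (l : Multiset K) = f.roots := Quot.exists_rep _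
  have h1 : l.length = n := by
    rw [← hn, hs.natDegree_eq_card_roots, ← hl, Multiset.coe_card]
  subst h1
  refine ⟨l.get, ?_⟩
  have h2 := hs.eq_prod_roots_of_monic hm
  rw [← hl, Multiset.map_coe, Multiset.prod_coe] at h2
  rw [h2, ← List.prod_ofFn]
  congr 1
  have h3 : (fun i => X - C (l.get i)) = (fun x : K => (X - C x : K[X])) ∘ l.get := rfl
  rw [h3, ← List.map_ofFn, List.ofFn_get]

theorem exE (Q : ℤ[X]) (hmon : Q.Monic) (n : ℕ) (hn : Q.natDegree = n) (t : Fin n → ℝ)
    (hQ : Q.map (Int.castRingHom ℝ) = ∏ i, (X - C (t i))) :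
    ∃ (E : Type) (_ : Field E) (_ : NumberField E) (_ : IsGalois ℚ E),
      (∀ v : InfinitePlace E, v.IsReal) ∧
      ∃ β : Fin n → E, Q.map (Int.castRingHom E) = ∏ i, (X - C (β i)) ∧
        ∀ g : E ≃ₐ[ℚ] E, (∀ i, g (β i) = β i) → g = 1 := by
  obtain ⟨Qrat, hQrat⟩ : ∃ Qrat : ℚ[X], Qrat = Q.map (Int.castRingHom ℚ) := ⟨_, rfl⟩
  obtain ⟨E, fE, aE, hE1, hE2, hE3⟩ : ∃ (E : Type) (_ : Field E) (_ : Algebra ℚ E),
      FiniteDimensional ℚ E ∧ (Qrat.map (algebraMap ℚ E)).Splits ∧
        Algebra.adjoin ℚ (Qrat.rootSet E) = ⊤ :=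
    ⟨Qrat.SplittingField, inferInstance, inferInstance, inferInstance, SplittingField.splits _,
      SplittingField.adjoin_rootSet _⟩
  have : NumberField E := NumberField.of_module_finite ℚ E
  obtain rfl : aE = DivisionRing.toRatAlgebra := Subsingleton.elim _ _
  have hsf : IsSplittingField ℚ E Qrat := ⟨hE2, hE3⟩
  have : Normal ℚ E := Normal.of_isSplittingField Qrat
  have hcomp : ∀ (A : Type) [Field A] [Algebra ℚ A],
      Qrat.map (algebraMap ℚ A) = Q.map (Int.castRingHom A) := by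
    intro A _ _
    rw [hQrat, Polynomial.map_map]
    congr 1
    exact Subsingleton.elim _ _
  refine ⟨E, fE, inferInstance, ⟨⟩, ?_, ?_⟩
  · intro v
    rw [InfinitePlace.isReal_iff, ComplexEmbedding.isReal_iff]
    have h1 : (ComplexEmbedding.conjugate v.embedding).toRatAlgHom =
        v.embedding.toRatAlgHom := by
      refine AlgHom.ext_of_adjoin_eq_top hE3 ?_
      intro x hx
      change ComplexEmbedding.conjugate v.embedding x = v.embedding x
      rw [ComplexEmbedding.conjugate_coe_eq]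
      have h2 := (mem_rootSet.1 hx).2
      have h3 : (Q.map (Int.castRingHom ℂ)).eval (v.embedding x) = 0 := by
        rw [aeval_def, ← eval_map, hcomp] at h2
        have h4 := congrArg v.embedding h2
        rw [map_zero, ← eval_map_apply, Polynomial.map_map] at h4
        rw [← h4]
        congr 2
        exact Subsingleton.elim _ _
      have h5 : Q.map (Int.castRingHom ℂ) = ∏ i, (X - C ((t i : ℝ) : ℂ)) := by
        have h6 : Q.map (Int.castRingHom ℂ) =
            (Q.map (Int.castRingHom ℝ)).map Complex.ofRealHom := by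
          rw [Polynomial.map_map]
          congr 1
        rw [h6, hQ, Polynomial.map_prod]
        refine Finset.prod_congr rfl fun i _ => ?_
        rw [Polynomial.map_sub, map_X, map_C]
        rfl
      rw [h5, eval_prod, Finset.prod_eq_zero_iff] at h3
      obtain ⟨i, _, hi⟩ := h3
      rw [eval_sub, eval_X, eval_C, sub_eq_zero] at hi
      rw [hi, Complex.conj_ofReal]
    ext x
    exact DFunLike.congr_fun h1 x
  · obtain ⟨β, hβ⟩ := fin_roots hE2 (by rw [hcomp]; exact hmon.map _) (n := n)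
      (by rw [hcomp, hmon.natDegree_map, hn])
    refine ⟨β, ?_, ?_⟩
    · rw [← hcomp, hβ]
    · intro g hg
      have h1 : g.toAlgHom = AlgHom.id ℚ E := by
        refine AlgHom.ext_of_adjoin_eq_top hE3 ?_
        intro x hx
        have h2 := (mem_rootSet.1 hx).2
        rw [aeval_def, ← eval_map, hβ, eval_prod, Finset.prod_eq_zero_iff] at h2
        obtain ⟨i, _, hi⟩ := h2
        rw [eval_sub, eval_X, eval_C, sub_eq_zero] at hi
        rw [hi]
        exact hg i
      ext x
      exact DFunLike.congr_fun h1 x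

theorem exL (L : Type) [Field L] [NumberField L] [IsGalois ℚ L] :
    ∃ (n : ℕ) (P : ℤ[X]) (α : Fin n → 𝓞 L), P.Monic ∧ P.natDegree = n ∧
      Function.Injective α ∧ P.map (Int.castRingHom L) = ∏ i, (X - C (α i : L)) ∧
        ∀ g : L ≃ₐ[ℚ] L, (∀ i, g (α i) = α i) → g = 1 := by
  obtain ⟨θ₀, hθ₀⟩ := Field.exists_primitive_element ℚ L
  have halg : IsAlgebraic ℤ θ₀ :=
    (IsFractionRing.isAlgebraic_iff ℤ ℚ L).2 (Algebra.IsAlgebraic.isAlgebraic θ₀)
  obtain ⟨m, hm, hint⟩ := halg.exists_integral_multiple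
  obtain ⟨θ, hθ⟩ : ∃ θ, θ = m • θ₀ := ⟨_, rfl⟩
  rw [← hθ] at hint
  have hmon := minpoly.monic hint
  have hfix : ∀ g : L ≃ₐ[ℚ] L, g θ = θ → g = 1 := by
    intro g hg
    have hg0 : g θ₀ = θ₀ := by
      rw [hθ, zsmul_eq_mul, map_mul, map_intCast] at hg
      exact mul_left_cancel₀ (Int.cast_ne_zero.2 hm) hg
    have h1 : Algebra.adjoin ℚ {θ₀} = ⊤ := by
      rw [← IntermediateField.adjoin_simple_toSubalgebra_of_isAlgebraic
        (Algebra.IsAlgebraic.isAlgebraic θ₀), hθ₀, IntermediateField.top_toSubalgebra]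
    have h2 : g.toAlgHom = AlgHom.id ℚ L := by
      refine AlgHom.ext_of_adjoin_eq_top h1 ?_
      intro x hx
      rw [Set.mem_singleton_iff] at hx
      rw [hx]
      exact hg0
    ext x
    exact DFunLike.congr_fun h2 x
  have hmin : minpoly ℚ θ = (minpoly ℤ θ).map (algebraMap ℤ ℚ) :=
    minpoly.isIntegrallyClosed_eq_field_fractions' ℚ hint
  have hmap : (minpoly ℚ θ).map (algebraMap ℚ L) = (minpoly ℤ θ).map (Int.castRingHom L) := by
    rw [hmin, Polynomial.map_map]
    congr 1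
    exact Subsingleton.elim _ _
  have hspl : ((minpoly ℤ θ).map (Int.castRingHom L)).Splits := by
    rw [← hmap]
    exact Normal.splits inferInstance θ
  obtain ⟨α, hα⟩ := fin_roots hspl (hmon.map _) (n := (minpoly ℤ θ).natDegree)
    (hmon.natDegree_map _)
  have hroot : ∀ i, ((minpoly ℤ θ).map (Int.castRingHom L)).eval (α i) = 0 := by
    intro i
    rw [hα, eval_prod]
    exact Finset.prod_eq_zero (Finset.mem_univ i) (by rw [eval_sub, eval_X, eval_C, sub_self])
  have hαint : ∀ i, IsIntegral ℤ (α i) := by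
    intro i
    refine ⟨minpoly ℤ θ, hmon, ?_⟩
    rw [← eval_map]
    exact hroot i
  refine ⟨(minpoly ℤ θ).natDegree, minpoly ℤ θ, fun i => ⟨α i, hαint i⟩, hmon, rfl, ?_, hα, ?_⟩
  · have hsep : (∏ i, (X - C (α i))).Separable := by
      rw [← hα, ← hmap]
      exact (Polynomial.separable_map _).2
        (minpoly.irreducible (Algebra.IsIntegral.isIntegral θ)).separable
    have hinj := separable_prod_X_sub_C_iff.1 hsep
    intro i j hij
    exact hinj (congrArg Subtype.val hij)
  · intro g hg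
    have h1 : ((minpoly ℤ θ).map (Int.castRingHom L)).eval θ = 0 := by
      rw [← hmap, eval_map, ← aeval_def, minpoly.aeval]
    rw [hα, eval_prod, Finset.prod_eq_zero_iff] at h1
    obtain ⟨i, _, hi⟩ := h1
    rw [eval_sub, eval_X, eval_C, sub_eq_zero] at hi
    refine hfix g ?_
    rw [hi]
    exact hg i

theorem dvd_poly (Y : ℤ) (n : ℕ) :
    C Y ∣ (X : ℤ[X]) ^ n - ∏ j ∈ Finset.range n, (X - C (Y * (j : ℤ))) := by
  induction n with
  | zero => simp
  | succ n ih =>
    obtain ⟨q, hq⟩ := ih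
    refine ⟨X * q + (∏ j ∈ Finset.range n, (X - C (Y * (j : ℤ)))) * C (n : ℤ), ?_⟩
    rw [Finset.prod_range_succ, mul_add, mul_left_comm, ← hq, C_mul]
    ring

/-- an automorphism maps roots to roots -/
theorem perm_root {N : Type} [Field N] [NumberField N] {n : ℕ} {P : ℤ[X]} {α : Fin n → N}
    (hP : P.map (Int.castRingHom N) = ∏ i, (X - C (α i))) (h : N ≃ₐ[ℚ] N) (i : Fin n) :
    ∃ j, h (α i) = α j := by
  have h1 : (P.map (Int.castRingHom N)).eval (α i) = 0 := by
    rw [hP, eval_prod]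
    exact Finset.prod_eq_zero (Finset.mem_univ i) (by rw [eval_sub, eval_X, eval_C, sub_self])
  have h2 : (P.map (Int.castRingHom N)).eval (h (α i)) = 0 := by
    have h4 := congrArg (h : N →+* N) h1
    rw [map_zero, ← eval_map_apply, Polynomial.map_map] at h4
    have h5 : (h : N →+* N).comp (Int.castRingHom N) = Int.castRingHom N :=
      Subsingleton.elim _ _
    rw [h5] at h4
    exact h4
  rw [hP, eval_prod, Finset.prod_eq_zero_iff] at h2
  obtain ⟨j, _, hj⟩ := h2
  rw [eval_sub, eval_X, eval_C, sub_eq_zero] at hj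
  exact ⟨j, hj⟩

/-- restriction is trivial iff generators are fixed -/
theorem res_iff {L N : Type} [Field L] [NumberField L] [IsGalois ℚ L] [Field N] [NumberField N]
    [Algebra L N] {n : ℕ} {α : Fin n → L} (hα : ∀ g : L ≃ₐ[ℚ] L, (∀ i, g (α i) = α i) → g = 1)
    (h : N ≃ₐ[ℚ] N) :
    AlgEquiv.restrictNormalHom L h = 1 ↔
      ∀ i, h (algebraMap L N (α i)) = algebraMap L N (α i) := by
  have hc : ∀ x : L, h (algebraMap L N x) =
      algebraMap L N (AlgEquiv.restrictNormalHom L h x) := fun x =>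
    (AlgEquiv.restrictNormal_commutes h L x).symm
  constructor
  · intro h1 i
    rw [hc, h1]
    rfl
  · intro h1
    refine hα _ fun i => ?_
    have h2 := h1 i
    rw [hc] at h2
    exact (algebraMap L N).injective h2

theorem val_int_le {N : Type} [Field N] [NumberField N] (W : HeightOneSpectrum (𝓞 N))
    (x : 𝓞 N) : W.valuation N (x : N) ≤ 1 := W.valuation_le_one x

theorem val_intCast_le {N : Type} [Field N] [NumberField N] (W : HeightOneSpectrum (𝓞 N))
    (x : ℤ) : W.valuation N (x : N) ≤ 1 := by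
  have h := val_int_le W (x : 𝓞 N)
  simpa using h

/-- a natural number prime to `p` is a unit at the primes above `p` -/
theorem val_coprime {N : Type} [Field N] [NumberField N] (W : HeightOneSpectrum (𝓞 N)) {p m : ℕ}
    (hp : (p : 𝓞 N) ∈ W.asIdeal) (hpm : Nat.Coprime p m) : W.valuation N (m : N) = 1 := by
  refine le_antisymm ?_ ?_
  · have := val_intCast_le W (m : ℤ)
    rwa [Int.cast_natCast] at this
  · by_contra hlt
    rw [not_le] at hlt
    have h1 : (m : 𝓞 N) ∈ W.asIdeal := by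
      rw [← HeightOneSpectrum.valuation_lt_one_iff_mem (K := N)]
      simpa using hlt
    have h2 := Nat.isCoprime_iff_coprime.2 hpm
    obtain ⟨a, b, hab⟩ := h2
    have h3 : (1 : 𝓞 N) ∈ W.asIdeal := by
      have h4 : (1 : 𝓞 N) = (a : 𝓞 N) * (p : 𝓞 N) + (b : 𝓞 N) * (m : 𝓞 N) := by
        have := congrArg (Int.cast : ℤ → 𝓞 N) hab
        push_cast at this
        exact this.symm
      rw [h4]
      exact W.asIdeal.add_mem (W.asIdeal.mul_mem_left _ hp) (W.asIdeal.mul_mem_left _ h1)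
    exact W.isPrime.ne_top ((Ideal.eq_top_iff_one _).2 h3)

theorem exists_d {L : Type} [Field L] [NumberField L] {n : ℕ} {α : Fin n → 𝓞 L}
    (hα : Function.Injective α) :
    ∃ d : ℕ, d ≠ 0 ∧ ∀ i j, i ≠ j → α i - α j ∣ (d : 𝓞 L) := by
  obtain ⟨D, hD⟩ : ∃ D : 𝓞 L, D = ∏ i, ∏ j ∈ Finset.univ.erase i, (α i - α j) := ⟨_, rfl⟩
  have hD0 : D ≠ 0 := by
    rw [hD]
    refine Finset.prod_ne_zero_iff.2 fun i _ => Finset.prod_ne_zero_iff.2 fun j hj => ?_
    rw [Finset.mem_erase] at hj
    exact sub_ne_zero.2 fun h => hj.1 (hα h).symm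
  refine ⟨Ideal.absNorm (Ideal.span {D}), ?_, ?_⟩
  · rw [Ne, Ideal.absNorm_eq_zero_iff, Ideal.span_singleton_eq_bot]
    exact hD0
  · intro i j hij
    have h1 : D ∣ ((Ideal.absNorm (Ideal.span {D}) : ℕ) : 𝓞 L) :=
      Ideal.mem_span_singleton.1 (Ideal.absNorm_mem _)
    refine dvd_trans ?_ h1
    rw [hD]
    refine dvd_trans ?_ (Finset.dvd_prod_of_mem _ (Finset.mem_univ i))
    exact Finset.dvd_prod_of_mem (fun j => α i - α j)
      (Finset.mem_erase.2 ⟨hij.symm, Finset.mem_univ j⟩)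

theorem val_dvd {N : Type} [Field N] [NumberField N] (W : HeightOneSpectrum (𝓞 N))
    {x y : 𝓞 N} (h : x ∣ y) : W.valuation N (y : N) ≤ W.valuation N (x : N) := by
  obtain ⟨z, rfl⟩ := h
  have h1 : ((x * z : 𝓞 N) : N) = (x : N) * (z : N) := rfl
  rw [h1, map_mul]
  exact mul_le_of_le_one_right' (val_int_le W z)

end StarkC.UHAT

namespace StarkC

open StarkC.UHAT in
theorem UHAT_thm (hR : Stmt_UROOT) (hK : Stmt_UKRA) : Stmt_UHAT := by
  intro L _ _ _ p hp
  obtain ⟨n, P, α, hPm, hPn, hαi, hPα, hαg⟩ := exL L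
  obtain ⟨d, hd0, hd⟩ := exists_d hαi
  -- the power of p in d ^ n
  have hdn : d ^ n ≠ 0 := pow_ne_zero _ hd0
  obtain ⟨b, m, hpm, hbm⟩ := Nat.exists_eq_pow_mul_and_not_dvd hdn p hp.ne_one
  have hcop : Nat.Coprime p m := (Nat.Prime.coprime_iff_not_dvd hp).2 hpm
  -- real polynomial
  obtain ⟨g, hg⟩ : ∃ g : ℤ[X], g = P - X ^ n := ⟨_, rfl⟩
  have hgdeg : g.degree < (n : WithBot ℕ) := by
    rw [hg]
    have h1 : P.degree = (n : WithBot ℕ) := by
      rw [degree_eq_natDegree hPm.ne_zero, hPn]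
    rw [← h1]
    refine degree_sub_lt_left ?_ hPm.ne_zero ?_
    · rw [h1, degree_X_pow]
    · rw [hPm.leadingCoeff, (monic_X_pow n).leadingCoeff]
  obtain ⟨Cc, hCc⟩ : ∃ Cc : ℝ, ∀ k, |(g.map (Int.castRingHom ℝ)).coeff k| ≤ Cc := by
    refine ⟨∑ k ∈ g.support, |(g.map (Int.castRingHom ℝ)).coeff k|, fun k => ?_⟩
    by_cases hk : k ∈ g.support
    · exact Finset.single_le_sum (f := fun k => |(g.map (Int.castRingHom ℝ)).coeff k|)
        (fun i _ => abs_nonneg _) hk
    · rw [coeff_map, notMem_support_iff.1 hk, map_zero, abs_zero]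
      exact Finset.sum_nonneg fun i _ => abs_nonneg _
  obtain ⟨Y₀, hY₀⟩ := hR n Cc
  obtain ⟨Y, hY⟩ : ∃ Y : ℕ, Y = p ^ (b + 1) * Y₀ := ⟨_, rfl⟩
  have hYle : Y₀ ≤ Y := by
    rw [hY]
    exact Nat.le_mul_of_pos_left _ (pow_pos hp.pos _)
  obtain ⟨t, -, ht⟩ := hY₀ Y hYle (g.map (Int.castRingHom ℝ))
    (lt_of_le_of_lt (degree_map_le) hgdeg) hCc
  obtain ⟨Q, hQ⟩ : ∃ Q : ℤ[X], Q =
      (∏ j ∈ Finset.range n, (X - C ((Y : ℤ) * (j : ℤ)))) + g := ⟨_, rfl⟩
  have hprodm : (∏ j ∈ Finset.range n, (X - C ((Y : ℤ) * (j : ℤ)))).Monic :=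
    monic_prod_of_monic _ _ fun j _ => monic_X_sub_C _
  have hprodn : (∏ j ∈ Finset.range n, (X - C ((Y : ℤ) * (j : ℤ)))).degree =
      (n : WithBot ℕ) := by
    rw [degree_prod]
    simp_rw [degree_X_sub_C]
    simp
  have hQm : Q.Monic := by
    rw [hQ]
    refine hprodm.add_of_left ?_
    rw [hprodn]
    exact hgdeg
  have hQn : Q.natDegree = n := by
    apply natDegree_eq_of_degree_eq_some
    rw [hQ, degree_add_eq_left_of_degree_lt (by rw [hprodn]; exact hgdeg), hprodn]
  have hQR : Q.map (Int.castRingHom ℝ) = ∏ i, (X - C (t i)) := by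
    rw [← ht, hQ, Polynomial.map_add, Polynomial.map_prod]
    congr 1
    refine Finset.prod_congr rfl fun j _ => ?_
    rw [Polynomial.map_sub, map_X, map_C]
    simp
  obtain ⟨E, fE, nE, gE, hreal, β, hQβ, hβg⟩ := exE Q hQm n hQn t hQR
  refine ⟨E, fE, nE, gE, hreal, ?_⟩
  intro N _ _ _ _ _ W h hpW hdec
  have hval := RB.val_dec hdec
  -- the polynomials over N
  have hPN : P.map (Int.castRingHom N) = ∏ i, (X - C (algebraMap L N (α i))) := by
    have h1 : P.map (Int.castRingHom N) = (P.map (Int.castRingHom L)).map (algebraMap L N) := by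
      rw [Polynomial.map_map]
      congr 1
      exact Subsingleton.elim _ _
    rw [h1, hPα, Polynomial.map_prod]
    refine Finset.prod_congr rfl fun j _ => ?_
    rw [Polynomial.map_sub, map_X, map_C]
  have hQN : Q.map (Int.castRingHom N) = ∏ i, (X - C (algebraMap E N (β i))) := by
    have h1 : Q.map (Int.castRingHom N) = (Q.map (Int.castRingHom E)).map (algebraMap E N) := by
      rw [Polynomial.map_map]
      congr 1
      exact Subsingleton.elim _ _
    rw [h1, hQβ, Polynomial.map_prod]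
    refine Finset.prod_congr rfl fun j _ => ?_
    rw [Polynomial.map_sub, map_X, map_C]
  have hp1 : W.valuation N (p : N) < 1 := by
    have h1 := (HeightOneSpectrum.valuation_lt_one_iff_mem (K := N) W (p : 𝓞 N)).2 hpW
    simpa using h1
  have hp0 : W.valuation N (p : N) ≠ 0 := by
    rw [Ne, map_eq_zero]
    exact_mod_cast hp.ne_zero
  have hdval : W.valuation N (d : N) ^ n = W.valuation N (p : N) ^ b := by
    have h1 : ((d : N)) ^ n = (p : N) ^ b * (m : N) := by
      exact_mod_cast congrArg (Nat.cast : ℕ → N) hbm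
    rw [← map_pow, h1, map_mul, map_pow, val_coprime W hpW hcop, mul_one]
  have key : ∃ s : Equiv.Perm (Fin n), ∀ i j,
      W.valuation N (algebraMap L N (α i) - algebraMap E N (β j)) < W.valuation N (d : N) ↔
        j = s i := by
    refine hK N _ (W.valuation N) n (fun i => algebraMap L N (α i))
      (fun i => algebraMap E N (β i)) (W.valuation N (d : N)) ?_ ?_ ?_
    · intro i
      exact val_int_le W (algebraMap (𝓞 L) (𝓞 N) (α i))
    · intro i j hij
      obtain ⟨z, hz⟩ := hd i j hij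
      have h1 : algebraMap (𝓞 L) (𝓞 N) (α i) - algebraMap (𝓞 L) (𝓞 N) (α j) ∣ (d : 𝓞 N) := by
        refine ⟨algebraMap (𝓞 L) (𝓞 N) z, ?_⟩
        rw [← map_sub, ← map_mul, ← hz, map_natCast]
      have h2 := val_dvd W h1
      have h3 : (((d : 𝓞 N) : 𝓞 N) : N) = (d : N) := map_natCast (algebraMap (𝓞 N) N) d
      rw [h3] at h2
      exact h2
    · intro k
      rw [← hPN, ← hQN, ← Polynomial.map_sub, coeff_map, hdval]
      obtain ⟨q, hq⟩ := dvd_poly (Y : ℤ) n
      have h1 : P - Q = C (Y : ℤ) * q := by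
        rw [← hq, hQ, hg]
        ring
      rw [h1, coeff_C_mul, hY]
      have h2 : ((Int.castRingHom N) (((p ^ (b + 1) * Y₀ : ℕ) : ℤ) * q.coeff k)) =
          (p : N) ^ (b + 1) * (((Y₀ : ℤ) * q.coeff k : ℤ) : N) := by
        push_cast
        simp
        ring
      rw [h2, map_mul, map_pow]
      calc W.valuation N (p : N) ^ (b + 1) * W.valuation N (((Y₀ : ℤ) * q.coeff k : ℤ) : N)
          ≤ W.valuation N (p : N) ^ (b + 1) := mul_le_of_le_one_right' (val_intCast_le W _)
        _ < W.valuation N (p : N) ^ b := by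
          rw [pow_succ]
          exact mul_lt_of_lt_one_right (pow_pos (zero_lt_iff.2 hp0) b) hp1
  obtain ⟨s, hs⟩ := key
  rw [res_iff hαg, res_iff hβg]
  constructor
  · intro hfix j
    obtain ⟨i, rfl⟩ := s.surjective j
    obtain ⟨k, hk⟩ := perm_root hQN h (s i)
    have h1 := (hs i (s i)).2 rfl
    rw [← hval, map_sub, hfix i, hk] at h1
    have h2 := (hs i k).1 h1
    rw [hk, h2]
  · intro hfix i
    obtain ⟨k, hk⟩ := perm_root hPN h i
    have h1 := (hs i (s i)).2 rfl
    rw [← hval, map_sub, hfix (s i), hk] at h1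
    have h2 := (hs k (s i)).1 h1
    rw [hk, s.injective h2]

end StarkC
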