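import Pool.Agent.StarkU.Stmts

/-!
# Continuity of roots for a valuation
-/

open Polynomial

namespace StarkC
namespace UKRA

variable {N Γ₀ : Type} [Field N] [LinearOrderedCommGroupWithZero Γ₀] (v : Valuation N Γ₀)

/-- The value of a polynomial with small coefficients at an integral element is small. -/
lemma eval_lt (P : N[X]) (x : N) (hx : v x ≤ 1) (γ : Γ₀) (hγ : γ ≠ 0)
    (hP : ∀ k, v (P.coeff k) < γ) : v (P.eval x) < γ := by
  rw [Polynomial.eval_eq_sum_range]
  refine v.map_sum_lt hγ fun k _ => ?_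
  rw [map_mul, map_pow]
  calc v (P.coeff k) * v x ^ k ≤ v (P.coeff k) * 1 := by
        gcongr
        exact pow_le_one' hx k
    _ = v (P.coeff k) := mul_one _
    _ < γ := hP k

lemma exists_close (n : ℕ) (α β : Fin n → N) (δ : Γ₀) (hα : ∀ i, v (α i) ≤ 1)
    (hc : ∀ k, v (((∏ i, (X - C (α i))) - ∏ i, (X - C (β i))).coeff k) < δ ^ n) (i : Fin n) :
    ∃ j, v (α i - β j) < δ := by
  by_contra hcon
  push Not at hcon
  have hn : 0 < n := i.pos
  have hδ : δ ^ n ≠ 0 := fun h => by
    have h0 := hc 0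
    rw [h] at h0
    exact not_lt_zero h0
  have h1 := eval_lt v _ (α i) (hα i) (δ ^ n) hδ hc
  have h2 : ((∏ i, (X - C (α i))) - ∏ i, (X - C (β i)) : N[X]).eval (α i) =
      - ∏ j, (α i - β j) := by
    rw [eval_sub, eval_prod, eval_prod]
    have h3 : ∏ j, eval (α i) (X - C (α j)) = 0 :=
      Finset.prod_eq_zero (Finset.mem_univ i) (by simp)
    rw [h3, zero_sub]
    simp
  rw [h2, Valuation.map_neg, map_prod] at h1
  have h4 : δ ^ n ≤ ∏ j, v (α i - β j) := by
    have h5 := Finset.pow_card_le_prod (s := (Finset.univ : Finset (Fin n)))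
      (f := fun j => v (α i - β j)) δ (fun j _ => hcon j)
    simpa using h5
  exact absurd h1 (not_lt.2 h4)

end UKRA

theorem UKRA_thm : Stmt_UKRA := by
  intro N Γ₀ _ _ v n α β δ hα hd hc
  choose s hs using UKRA.exists_close v n α β δ hα hc
  have huniq : ∀ i i' j, v (α i - β j) < δ → v (α i' - β j) < δ → i = i' := by
    intro i i' j h h'
    by_contra hne
    have h1 : v (α i - α i') < δ := by
      have h2 : α i - α i' = (α i - β j) - (α i' - β j) := by ring
      rw [h2]
      exact v.map_sub_lt h h'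
    exact absurd h1 (not_lt.2 (hd i i' hne))
  have hinj : Function.Injective s := fun i i' h => huniq i i' (s i) (hs i) (h ▸ hs i')
  have hbij : Function.Bijective s := Finite.injective_iff_bijective.1 hinj
  refine ⟨Equiv.ofBijective s hbij, fun i j => ⟨fun h => ?_, fun h => ?_⟩⟩
  · obtain ⟨i', rfl⟩ := hbij.2 j
    have := huniq i i' (s i') h (hs i')
    rw [this]
    rfl
  · rw [h]
    exact hs i

end StarkC
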