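import Pool.Agent.StarkU.StmtsS
import Pool.Agent.StarkU.UHAT
import Pool.Agent.StarkU.UKRA
import Pool.Agent.Lib_helper3.RT.RealPoly

/-!
UHATS: a totally real field with the same local behaviour above `l` in which the other primes of
`T` split completely.
-/

open NumberField IsDedekindDomain Polynomial
open scoped TensorProduct Classical IntermediateField

namespace StarkC.UHATS

/-- Correspondence of roots of two integral polynomials which are close at `q`. -/
theorem close {N : Type} [Field N] [NumberField N] (W : HeightOneSpectrum (𝓞 N)) {q : ℕ}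
    (hq : q.Prime) (hqW : (q : 𝓞 N) ∈ W.asIdeal) {D n a : ℕ} (hD : D ≠ 0) (ha : D ^ n < q ^ a)
    {α β : Fin n → N} {P R : ℤ[X]} (hP : P.map (Int.castRingHom N) = ∏ i, (X - C (α i)))
    (hR : R.map (Int.castRingHom N) = ∏ i, (X - C (β i)))
    (hint : ∀ i, W.valuation N (α i) ≤ 1)
    (hdiff : ∀ i j, i ≠ j → W.valuation N (D : N) ≤ W.valuation N (α i - α j))
    (hcong : C ((q : ℤ) ^ a) ∣ P - R) :
    ∃ s : Equiv.Perm (Fin n), ∀ i j,
      W.valuation N (α i - β j) < W.valuation N (D : N) ↔ j = s i := by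
  refine UKRA_thm N _ (W.valuation N) n α β (W.valuation N (D : N)) hint hdiff ?_
  intro k
  have hq1 : W.valuation N (q : N) < 1 := by
    have h1 := (HeightOneSpectrum.valuation_lt_one_iff_mem (K := N) W (q : 𝓞 N)).2 hqW
    simpa using h1
  have hq0 : W.valuation N (q : N) ≠ 0 := by
    rw [Ne, map_eq_zero]
    exact_mod_cast hq.ne_zero
  have hDn : D ^ n ≠ 0 := pow_ne_zero _ hD
  obtain ⟨b, m, hqm, hbm⟩ := Nat.exists_eq_pow_mul_and_not_dvd hDn q hq.ne_one
  have hcop : Nat.Coprime q m := (Nat.Prime.coprime_iff_not_dvd hq).2 hqm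
  have hba : b < a := by
    by_contra hcon
    rw [not_lt] at hcon
    have h1 : q ^ a ≤ q ^ b := Nat.pow_le_pow_right hq.pos hcon
    have h2 : q ^ b ≤ D ^ n := Nat.le_of_dvd (Nat.pos_of_ne_zero hDn) ⟨m, hbm⟩
    omega
  have hdval : W.valuation N (D : N) ^ n = W.valuation N (q : N) ^ b := by
    have h1 : ((D : N)) ^ n = (q : N) ^ b * (m : N) := by
      exact_mod_cast congrArg (Nat.cast : ℕ → N) hbm
    rw [← map_pow, h1, map_mul, map_pow, UHAT.val_coprime W hqW hcop, mul_one]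
  obtain ⟨t, ht⟩ := hcong
  rw [← hP, ← hR, ← Polynomial.map_sub, coeff_map, hdval, ht, coeff_C_mul]
  have h2 : (Int.castRingHom N) ((q : ℤ) ^ a * t.coeff k) = (q : N) ^ a * ((t.coeff k : ℤ) : N) := by
    simp
  rw [h2, map_mul, map_pow]
  calc W.valuation N (q : N) ^ a * W.valuation N ((t.coeff k : ℤ) : N)
      ≤ W.valuation N (q : N) ^ a := mul_le_of_le_one_right' (UHAT.val_intCast_le W _)
    _ < W.valuation N (q : N) ^ b := by
        exact pow_lt_pow_right_of_lt_one₀ (zero_lt_iff.2 hq0) hq1 hba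

/-- A monic integral polynomial with real roots in a given residue class. -/
theorem exists_real (R₀ : ℤ[X]) (hR₀ : R₀.Monic) (M : ℕ) (hM : M ≠ 0) :
    ∃ (R : ℤ[X]) (t : Fin R₀.natDegree → ℝ), R.Monic ∧ R.natDegree = R₀.natDegree ∧
      C (M : ℤ) ∣ R - R₀ ∧ R.map (Int.castRingHom ℝ) = ∏ i, (X - C (t i)) := by
  obtain ⟨e, he⟩ : ∃ e : 𝓞 ℚ ≃+* ℤ, e = Rat.ringOfIntegersEquiv := ⟨_, rfl⟩
  have hI : Ideal.span {((M : ℕ) : 𝓞 ℚ)} ≠ ⊥ := by
    rw [Ne, Ideal.span_singleton_eq_bot]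
    exact_mod_cast hM
  have hm : (R₀.map (e.symm : ℤ →+* 𝓞 ℚ)).Monic := hR₀.map _
  have hdeg : (R₀.map (e.symm : ℤ →+* 𝓞 ℚ)).natDegree = R₀.natDegree := hR₀.natDegree_map _
  obtain ⟨R, hRm, hRd, hRc, hRr⟩ := StarkRT.exists_real_poly _ hI _ hm
  rw [hdeg] at hRd hRr
  have hcard := (hRr (algebraMap ℚ ℝ)).2
  have hmap : (R.map (e : 𝓞 ℚ →+* ℤ)).map (Int.castRingHom ℝ) =
      R.map ((algebraMap ℚ ℝ).comp (algebraMap (𝓞 ℚ) ℚ)) := by
    rw [Polynomial.map_map]
    congr 1
    have h1 : ∀ f g : 𝓞 ℚ →+* ℝ, f = g := by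
      intro f g
      have h2 : f.comp (e.symm : ℤ →+* 𝓞 ℚ) = g.comp (e.symm : ℤ →+* 𝓞 ℚ) :=
        Subsingleton.elim _ _
      ext x
      have h3 : f (e.symm (e x)) = g (e.symm (e x)) := RingHom.congr_fun h2 (e x)
      rwa [e.symm_apply_apply] at h3
    exact h1 _ _
  have hmon : ((R.map (e : 𝓞 ℚ →+* ℤ)).map (Int.castRingHom ℝ)).Monic := (hRm.map _).map _
  have hnd : ((R.map (e : 𝓞 ℚ →+* ℤ)).map (Int.castRingHom ℝ)).natDegree = R₀.natDegree := by
    rw [(hRm.map _).natDegree_map, hRm.natDegree_map, hRd]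
  have hsp : ((R.map (e : 𝓞 ℚ →+* ℤ)).map (Int.castRingHom ℝ)).Splits := by
    rw [Polynomial.splits_iff_card_roots, hnd, hmap]
    exact hcard
  obtain ⟨t, ht⟩ := UHAT.fin_roots hsp hmon hnd
  refine ⟨R.map (e : 𝓞 ℚ →+* ℤ), t, hRm.map _, by rw [hRm.natDegree_map, hRd], ?_, ht⟩
  rw [C_dvd_iff_dvd_coeff]
  intro i
  obtain ⟨c, hc⟩ := Ideal.mem_span_singleton'.1 (hRc i)
  refine ⟨e c, ?_⟩
  have h1 := congrArg e hc
  rw [map_mul, map_natCast] at h1
  rw [mul_comm, h1, coeff_sub, coeff_sub, map_sub, coeff_map, coeff_map]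
  simp

end StarkC.UHATS

namespace StarkC

open StarkC.UHAT in
theorem UHATS_thm : Stmt_UHATS := by
  intro L _ _ _ l T hl
  obtain ⟨n, P, α, hPm, hPn, hαi, hPα, hαg⟩ := exL L
  obtain ⟨d, hd0, hd⟩ := exists_d hαi
  obtain ⟨D, hD⟩ : ∃ D : ℕ, D = d * n.factorial := ⟨_, rfl⟩
  have hD0 : D ≠ 0 := by rw [hD]; exact mul_ne_zero hd0 (Nat.factorial_ne_zero n)
  obtain ⟨a, ha⟩ : ∃ a : ℕ, a = D ^ n := ⟨_, rfl⟩
  have hpow : ∀ q : ℕ, q.Prime → D ^ n < q ^ a := by
    intro q hq
    rw [ha]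
    exact Nat.lt_pow_self hq.one_lt
  -- the other primes
  obtain ⟨m, hm⟩ : ∃ m : ℕ, m = ∏ q ∈ T.filter (fun q => q.Prime ∧ q ≠ l), q := ⟨_, rfl⟩
  have hm0 : m ≠ 0 := by
    rw [hm]
    refine Finset.prod_ne_zero_iff.2 fun q hq => ?_
    rw [Finset.mem_filter] at hq
    exact hq.2.1.ne_zero
  have hlm : Nat.Coprime l m := by
    rw [hm]
    refine Nat.Coprime.prod_right fun q hq => ?_
    rw [Finset.mem_filter] at hq
    exact (Nat.coprime_primes hl hq.2.1).2 (Ne.symm hq.2.2)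
  have hcop : IsCoprime ((l : ℤ) ^ a) ((m : ℤ) ^ a) :=
    (Nat.isCoprime_iff_coprime.2 hlm).pow
  obtain ⟨u, v, huv⟩ := hcop
  -- the polynomial prescribed modulo powers
  obtain ⟨G, hG⟩ : ∃ G : ℤ[X], G = ∏ j : Fin n, (X - C ((j : ℕ) : ℤ)) := ⟨_, rfl⟩
  have hGm : G.Monic := by
    rw [hG]
    exact monic_prod_of_monic _ _ fun j _ => monic_X_sub_C _
  have hGn : G.natDegree = n := by
    rw [hG, natDegree_prod_of_monic _ _ fun i _ => monic_X_sub_C _,
      Finset.sum_congr rfl fun i _ => natDegree_X_sub_C _]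
    simp
  have hPd : P.degree = (n : WithBot ℕ) := by
    rw [degree_eq_natDegree hPm.ne_zero, hPn]
  have hGd : G.degree = (n : WithBot ℕ) := by
    rw [degree_eq_natDegree hGm.ne_zero, hGn]
  have hdiff : (G - P).degree < (n : WithBot ℕ) := by
    rw [← hGd]
    refine degree_sub_lt_left ?_ hGm.ne_zero ?_
    · rw [hGd, hPd]
    · rw [hPm.leadingCoeff, hGm.leadingCoeff]
  obtain ⟨R₀, hR₀⟩ : ∃ R₀ : ℤ[X], R₀ = P + C (u * (l : ℤ) ^ a) * (G - P) := ⟨_, rfl⟩
  have hlow : (C (u * (l : ℤ) ^ a) * (G - P)).degree < (n : WithBot ℕ) := by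
    rw [← smul_eq_C_mul]
    exact lt_of_le_of_lt (degree_smul_le _ _) hdiff
  have hR₀m : R₀.Monic := by
    rw [hR₀]
    exact hPm.add_of_left (by rw [hPd]; exact hlow)
  have hR₀n : R₀.natDegree = n := by
    apply natDegree_eq_of_degree_eq_some
    rw [hR₀, degree_add_eq_left_of_degree_lt (by rw [hPd]; exact hlow), hPd]
  have hM : (l * m) ^ a ≠ 0 := pow_ne_zero _ (mul_ne_zero hl.ne_zero hm0)
  obtain ⟨R, t, hRm, hRn, hRc, hRt⟩ := UHATS.exists_real R₀ hR₀m ((l * m) ^ a) hM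
  rw [hR₀n] at hRn
  have hPR : C ((l : ℤ) ^ a) ∣ P - R := by
    have h1 : P - R = -(R - R₀) - C (u * (l : ℤ) ^ a) * (G - P) := by
      rw [hR₀]
      ring
    rw [h1]
    refine dvd_sub (dvd_neg.2 (dvd_trans ?_ hRc)) ?_
    · refine _root_.map_dvd C ?_
      push_cast
      rw [mul_pow]
      exact Dvd.intro _ rfl
    · rw [C_mul]
      exact Dvd.dvd.mul_right (Dvd.intro_left _ rfl) _
  have hGR : ∀ q ∈ T, q.Prime → q ≠ l → C ((q : ℤ) ^ a) ∣ G - R := by
    intro q hqT hq hql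
    have hqm : q ∣ m := by
      rw [hm]
      exact Finset.dvd_prod_of_mem (fun q => q) (Finset.mem_filter.2 ⟨hqT, hq, hql⟩)
    have hqm' : ((q : ℤ) ^ a) ∣ ((m : ℤ) ^ a) := pow_dvd_pow_of_dvd (by exact_mod_cast hqm) a
    have h1 : G - R = -(R - R₀) + C (v * (m : ℤ) ^ a) * (G - P) := by
      have h2 : (C (v * (m : ℤ) ^ a) : ℤ[X]) = 1 - C (u * (l : ℤ) ^ a) := by
        rw [eq_sub_iff_add_eq, ← C_add, add_comm, huv, C_1]
      rw [h2, hR₀]
      ring
    rw [h1]
    refine dvd_add (dvd_neg.2 (dvd_trans ?_ hRc)) ?_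
    · refine _root_.map_dvd C (dvd_trans hqm' ?_)
      push_cast
      rw [mul_pow]
      exact Dvd.intro_left _ rfl
    · refine Dvd.dvd.mul_right (_root_.map_dvd C (Dvd.dvd.mul_left hqm' _)) _
  obtain ⟨t', ht'⟩ : ∃ t' : Fin n → ℝ, R.map (Int.castRingHom ℝ) = ∏ i, (X - C (t' i)) := by
    subst hR₀n
    exact ⟨t, hRt⟩
  obtain ⟨E, fE, nE, gE, hreal, β, hRβ, hβg⟩ := exE R hRm n hRn t' ht'
  refine ⟨E, fE, nE, gE, hreal, ?_, ?_⟩
  · intro W h hT hlW hdec
    obtain ⟨q, hqT, hq, hqW⟩ := hT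
    have hql : q ≠ l := by
      rintro rfl
      exact hlW hqW
    have hval := RB.val_dec hdec
    have hGE : G.map (Int.castRingHom E) = ∏ j : Fin n, (X - C (((j : ℕ) : E))) := by
      rw [hG, Polynomial.map_prod]
      refine Finset.prod_congr rfl fun j _ => ?_
      rw [Polynomial.map_sub, map_X, map_C]
      simp
    obtain ⟨s, hs⟩ := UHATS.close W hq hqW hD0 (hpow q hq) hGE hRβ
      (fun i => by
        have := val_intCast_le W ((i : ℕ) : ℤ)
        simpa using this)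
      (fun i j hij => by
        have h1 : (((i : ℕ) : ℤ) - ((j : ℕ) : ℤ)) ∣ (D : ℤ) := by
          have h2 : (((i : ℕ) : ℤ) - ((j : ℕ) : ℤ)) ∣ (n.factorial : ℤ) := by
            rw [← Int.natAbs_dvd]
            have h3 : (((i : ℕ) : ℤ) - ((j : ℕ) : ℤ)).natAbs ∣ n.factorial := by
              refine Nat.dvd_factorial ?_ ?_
              · have : (i : ℕ) ≠ (j : ℕ) := fun h => hij (Fin.ext h)
                omega
              · have := i.2
                have := j.2
                omega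
            exact_mod_cast h3
          rw [hD]
          push_cast
          exact Dvd.dvd.mul_left h2 _
        obtain ⟨z, hz⟩ := h1
        have h4 : (D : E) = (((i : ℕ) : E) - ((j : ℕ) : E)) * ((z : ℤ) : E) := by
          have := congrArg (Int.cast : ℤ → E) hz
          push_cast at this
          exact this
        rw [h4, map_mul]
        exact mul_le_of_le_one_right' (val_intCast_le W z))
      (hGR q hqT hq hql)
    refine hβg h fun k => ?_
    obtain ⟨i, rfl⟩ := s.surjective k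
    obtain ⟨k, hk⟩ := perm_root hRβ h (s i)
    have h1 := (hs i (s i)).2 rfl
    rw [← hval, map_sub, map_natCast, hk] at h1
    have h2 := (hs i k).1 h1
    rw [hk, h2]
  · intro N _ _ _ _ _ W h hlW hdec
    have hval := RB.val_dec hdec
    -- the polynomials over N
    have hPN : P.map (Int.castRingHom N) = ∏ i, (X - C (algebraMap L N (α i))) := by
      have h1 : P.map (Int.castRingHom N) = (P.map (Int.castRingHom L)).map (algebraMap L N) := by
        rw [Polynomial.map_map]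
        congr 1
        exact Subsingleton.elim _ _
      rw [h1, hPα, Polynomial.map_prod]
      refine Finset.prod_congr rfl fun j _ => ?_
      rw [Polynomial.map_sub, map_X, map_C]
    have hRN : R.map (Int.castRingHom N) = ∏ i, (X - C (algebraMap E N (β i))) := by
      have h1 : R.map (Int.castRingHom N) = (R.map (Int.castRingHom E)).map (algebraMap E N) := by
        rw [Polynomial.map_map]
        congr 1
        exact Subsingleton.elim _ _
      rw [h1, hRβ, Polynomial.map_prod]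
      refine Finset.prod_congr rfl fun j _ => ?_
      rw [Polynomial.map_sub, map_X, map_C]
    obtain ⟨s, hs⟩ := UHATS.close W hl hlW hD0 (hpow l hl) hPN hRN
      (fun i => val_int_le W (algebraMap (𝓞 L) (𝓞 N) (α i)))
      (fun i j hij => by
        obtain ⟨z, hz⟩ := hd i j hij
        have h1 : algebraMap (𝓞 L) (𝓞 N) (α i) - algebraMap (𝓞 L) (𝓞 N) (α j) ∣ (D : 𝓞 N) := by
          refine ⟨algebraMap (𝓞 L) (𝓞 N) (z * (n.factorial : 𝓞 L)), ?_⟩
          rw [← map_sub, ← map_mul, ← mul_assoc, ← hz, hD]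
          push_cast
          rfl
        have h2 := val_dvd W h1
        have h3 : (((D : 𝓞 N) : 𝓞 N) : N) = (D : N) := map_natCast (algebraMap (𝓞 N) N) D
        rw [h3] at h2
        exact h2)
      hPR
    rw [res_iff hαg, res_iff hβg]
    constructor
    · intro hfix j
      obtain ⟨i, rfl⟩ := s.surjective j
      obtain ⟨k, hk⟩ := perm_root hRN h (s i)
      have h1 := (hs i (s i)).2 rfl
      rw [← hval, map_sub, hfix i, hk] at h1
      have h2 := (hs i k).1 h1
      rw [hk, h2]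
    · intro hfix i
      obtain ⟨k, hk⟩ := perm_root hPN h i
      have h1 := (hs i (s i)).2 rfl
      rw [← hval, map_sub, hfix (s i), hk] at h1
      have h2 := (hs k (s i)).1 h1
      rw [hk, s.injective h2]

end StarkC
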