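import Pool.Agent.StarkU.StmtsS
import Pool.Agent.StarkI.SLAM
import Pool.Agent.Lib_helper3.RT.Crt
import Pool.Agent.Lib_helper3.RT.Uniform

/-!
# UKILQ: a real-rooted polynomial with prescribed local behaviour
-/

open NumberField IsDedekindDomain Polynomial
open scoped TensorProduct Classical

namespace StarkC

namespace UKILQ

/-- The permutation character of `G` on `G ⧸ Q`. -/
theorem ind_one {G : Type} [Group G] [Fintype G] (Q : Subgroup G) (g : G) :
    indFun Q (fun _ => 1) g = (Nat.card {q : G ⧸ Q // g • q = q} : ℂ) := by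
  have hstab : MulAction.stabilizer G ((1 : G) : G ⧸ Q) = Q := by
    ext x
    rw [MulAction.mem_stabilizer_iff]
    show ((x * 1 : G) : G ⧸ Q) = ((1 : G) : G ⧸ Q) ↔ _
    rw [mul_one, eq_comm, QuotientGroup.eq, inv_one, one_mul]
  have h1 := SLAM.sum_orbit (G := G) (I := G ⧸ Q) (fun q => if g • q = q then (1 : ℂ) else 0)
    ((1 : G) : G ⧸ Q)
  have h2 : Finset.univ.filter (fun j : G ⧸ Q =>
      (Quotient.mk'' j : MulAction.orbitRel.Quotient G (G ⧸ Q)) =
        Quotient.mk'' ((1 : G) : G ⧸ Q)) = Finset.univ := by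
    rw [Finset.filter_eq_self]
    intro j _
    rw [Quotient.eq'']
    exact MulAction.exists_smul_eq G _ _
  have h3 : ∀ x : G, (if g • (x • ((1 : G) : G ⧸ Q)) = x • ((1 : G) : G ⧸ Q) then (1 : ℂ) else 0) =
      if x⁻¹ * g * x ∈ Q then 1 else 0 := by
    intro x
    have h4 : g • (x • ((1 : G) : G ⧸ Q)) = x • ((1 : G) : G ⧸ Q) ↔ x⁻¹ * g * x ∈ Q := by
      show (((g * (x * 1) : G)) : G ⧸ Q) = ((x * 1 : G) : G ⧸ Q) ↔ _
      rw [mul_one, eq_comm, QuotientGroup.eq, mul_assoc]
    by_cases h5 : x⁻¹ * g * x ∈ Q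
    · rw [if_pos h5, if_pos (h4.mpr h5)]
    · rw [if_neg h5, if_neg (fun h => h5 (h4.mp h))]
  rw [h2, hstab, Finset.sum_congr rfl fun x _ => h3 x] at h1
  unfold indFun
  have hQ : (Nat.card Q : ℂ) ≠ 0 := by exact_mod_cast Nat.card_pos.ne'
  rw [h1, mul_div_cancel_left₀ _ hQ, Finset.sum_boole, Nat.card_eq_fintype_card,
    Fintype.card_subtype]

variable {F L : Type} [Field F] [NumberField F] [Field L] [NumberField L] [Algebra F L]
  [IsGalois F L]

theorem exists_theta (Q : Subgroup (L ≃ₐ[F] L)) :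
    ∃ θ : 𝓞 L, ∀ τ : L ≃ₐ[F] L, τ (θ : L) = θ ↔ τ ∈ Q := by
  set E := IntermediateField.fixedField Q with hE
  let pb := Field.powerBasisOfFiniteOfSeparable F E
  have hα : ∀ τ : L ≃ₐ[F] L, τ (pb.gen : L) = pb.gen ↔ τ ∈ Q := by
    intro τ
    constructor
    · intro h
      have h1 : (τ : L →ₐ[F] L).comp E.val = E.val := pb.algHom_ext h
      rw [← IntermediateField.fixingSubgroup_fixedField Q]
      rintro ⟨x, hx⟩
      exact DFunLike.congr_fun h1 ⟨x, hx⟩
    · intro h
      exact (pb.gen).2 ⟨τ, h⟩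
  have halg : IsAlgebraic ℤ (pb.gen : L) :=
    (IsFractionRing.isAlgebraic_iff ℤ ℚ L).mpr (Algebra.IsAlgebraic.isAlgebraic (pb.gen : L))
  obtain ⟨y, hy, hint⟩ := halg.exists_integral_multiple
  refine ⟨⟨y • (pb.gen : L), hint⟩, fun τ => ?_⟩
  rw [← hα]
  show τ (y • (pb.gen : L)) = y • (pb.gen : L) ↔ _
  rw [map_zsmul]
  exact smul_right_inj hy

section roots

variable (θ : 𝓞 L) (Q : Subgroup (L ≃ₐ[F] L)) (hθ : ∀ τ : L ≃ₐ[F] L, τ (θ : L) = θ ↔ τ ∈ Q)

omit [IsGalois F L] in
theorem minpoly_map : (minpoly (𝓞 F) θ).map (algebraMap (𝓞 F) F) = minpoly F (θ : L) := by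
  have hint : IsIntegral (𝓞 F) θ := IsIntegral.tower_top (R := ℤ) (RingOfIntegers.isIntegral θ)
  exact (minpoly.isIntegrallyClosed_eq_field_fractions F L hint).symm

omit [IsGalois F L] in
theorem minpoly_monic : (minpoly (𝓞 F) θ).Monic :=
  minpoly.monic (IsIntegral.tower_top (R := ℤ) (RingOfIntegers.isIntegral θ))

variable (N : Type) [Field N] [NumberField N] [Algebra F N] [Algebra L N] [IsScalarTower F L N]

omit [IsGalois F L] in
theorem map_N : (minpoly (𝓞 F) θ).map (algebraMap (𝓞 F) N) =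
    ((minpoly F (θ : L)).map (algebraMap F L)).map (algebraMap L N) := by
  rw [← minpoly_map, Polynomial.map_map, Polynomial.map_map]
  congr 1
  ext x
  show algebraMap (𝓞 F) N x = algebraMap L N (algebraMap F L (algebraMap (𝓞 F) F x))
  rw [← IsScalarTower.algebraMap_apply F L N, ← IsScalarTower.algebraMap_apply (𝓞 F) F N]

theorem splits_L : ((minpoly F (θ : L)).map (algebraMap F L)).Splits :=
  Normal.splits inferInstance _

theorem splits_N : ((minpoly (𝓞 F) θ).map (algebraMap (𝓞 F) N)).Splits := by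
  rw [map_N]
  exact (splits_L θ).map _

theorem mem_roots_N (x : N) : x ∈ ((minpoly (𝓞 F) θ).map (algebraMap (𝓞 F) N)).roots ↔
    ∃ τ : L ≃ₐ[F] L, algebraMap L N (τ (θ : L)) = x := by
  have h0 : (minpoly F (θ : L)).map (algebraMap F L) ≠ 0 :=
    ((minpoly.monic (Algebra.IsIntegral.isIntegral (R := F) (θ : L))).map _).ne_zero
  rw [map_N, (splits_L θ).roots_map, Multiset.mem_map]
  constructor
  · rintro ⟨z, hz, rfl⟩
    have h1 : aeval z (minpoly F (θ : L)) = 0 := by
      have := (Polynomial.mem_roots h0).mp hz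
      rwa [Polynomial.IsRoot, Polynomial.eval_map_algebraMap] at this
    have h2 := isConjRoot_of_aeval_eq_zero (Algebra.IsIntegral.isIntegral (R := F) (θ : L)) h1
    obtain ⟨σ, hσ⟩ := isConjRoot_iff_exists_algEquiv.mp h2.symm
    exact ⟨σ, by rw [hσ]⟩
  · rintro ⟨τ, rfl⟩
    refine ⟨τ (θ : L), (Polynomial.mem_roots h0).mpr ?_, rfl⟩
    rw [Polynomial.IsRoot, Polynomial.eval_map_algebraMap, Polynomial.aeval_algHom_apply,
      minpoly.aeval, map_zero]

include hθ in
theorem out_apply (τ : L ≃ₐ[F] L) : ((τ : (L ≃ₐ[F] L) ⧸ Q).out) (θ : L) = τ (θ : L) := by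
  obtain ⟨u, hu⟩ := QuotientGroup.mk_out_eq_mul Q τ
  rw [hu]
  show τ ((u : L ≃ₐ[F] L) (θ : L)) = _
  rw [(hθ u).mpr u.2]

/-- The map from the cosets to the roots. -/
noncomputable def rho (q : (L ≃ₐ[F] L) ⧸ Q) :
    {x // x ∈ ((minpoly (𝓞 F) θ).map (algebraMap (𝓞 F) N)).roots} :=
  ⟨algebraMap L N (q.out (θ : L)), (mem_roots_N θ N _).mpr ⟨q.out, rfl⟩⟩

include hθ in
theorem rho_bij : Function.Bijective (rho θ Q N) := by
  constructor
  · intro q q' h
    have h1 : q.out (θ : L) = q'.out (θ : L) :=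
      (algebraMap L N).injective (congrArg Subtype.val h)
    have h2 : (q.out⁻¹ * q'.out) (θ : L) = θ := by
      show (q.out).symm (q'.out (θ : L)) = θ
      rw [← h1, AlgEquiv.symm_apply_apply]
    rw [hθ] at h2
    rw [← QuotientGroup.out_eq' q, ← QuotientGroup.out_eq' q']
    exact QuotientGroup.eq.mpr h2
  · rintro ⟨x, hx⟩
    obtain ⟨τ, hτ⟩ := (mem_roots_N θ N x).mp hx
    refine ⟨(τ : (L ≃ₐ[F] L) ⧸ Q), Subtype.ext ?_⟩
    show algebraMap L N _ = x
    rw [out_apply θ Q hθ, hτ]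

include hθ in
theorem rho_smul [IsGalois F N] (h : N ≃ₐ[F] N) (q : (L ≃ₐ[F] L) ⧸ Q) :
    (rho θ Q N ((AlgEquiv.restrictNormalHom L h : L ≃ₐ[F] L) • q) : N) = h (rho θ Q N q) := by
  obtain ⟨τ, rfl⟩ := QuotientGroup.mk_surjective q
  show algebraMap L N ((((AlgEquiv.restrictNormalHom L h * τ : L ≃ₐ[F] L)) :
    (L ≃ₐ[F] L) ⧸ Q).out (θ : L)) = h (algebraMap L N (((τ : (L ≃ₐ[F] L) ⧸ Q).out) (θ : L)))
  rw [out_apply θ Q hθ, out_apply θ Q hθ]
  exact AlgEquiv.restrictNormal_commutes h L (τ (θ : L))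

include hθ in
theorem natDegree_eq : (minpoly (𝓞 F) θ).natDegree = Q.index := by
  have h1 : (minpoly (𝓞 F) θ).natDegree =
      ((minpoly (𝓞 F) θ).map (algebraMap (𝓞 F) L)).roots.card := by
    rw [← (splits_N θ L).natDegree_eq_card_roots, (minpoly_monic θ).natDegree_map]
  have hnd : ((minpoly (𝓞 F) θ).map (algebraMap (𝓞 F) L)).roots.Nodup := by
    rw [map_N]
    have hs : (minpoly F (θ : L)).Separable := Algebra.IsSeparable.isSeparable F (θ : L)
    exact Polynomial.nodup_roots (hs.map.map)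
  have h2 : Nat.card ((L ≃ₐ[F] L) ⧸ Q) =
      Nat.card {x // x ∈ ((minpoly (𝓞 F) θ).map (algebraMap (𝓞 F) L)).roots} :=
    Nat.card_congr (Equiv.ofBijective _ (rho_bij θ Q hθ L))
  rw [h1, ← Multiset.toFinset_card_of_nodup hnd]
  show _ = Nat.card ((L ≃ₐ[F] L) ⧸ Q)
  rw [h2, Nat.card_eq_fintype_card, ← Fintype.card_coe]
  exact Fintype.card_congr (Equiv.subtypeEquivRight (by simp))

end roots

end UKILQ

theorem UKILQ_thm : Stmt_UKILQ := by
  intro F L _ _ _ _ _ _ Q v₀ T hreal
  obtain ⟨θ, hθ⟩ := UKILQ.exists_theta Q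
  set n := Q.index with hn
  set f := minpoly (𝓞 F) θ with hf
  have hfm : f.Monic := UKILQ.minpoly_monic θ
  have hfd : f.natDegree = n := UKILQ.natDegree_eq θ Q hθ
  have hfsep : (f.map (algebraMap (𝓞 F) F)).Separable := by
    rw [hf, UKILQ.minpoly_map]
    exact Algebra.IsSeparable.isSeparable F (θ : L)
  set P : (𝓞 F)[X] := ∏ j ∈ Finset.range n, (X - C (j : 𝓞 F)) with hP
  have hPm : P.Monic := monic_prod_of_monic _ _ fun i _ => monic_X_sub_C _
  have hPd : P.natDegree = n := by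
    rw [hP, natDegree_prod_of_monic _ _ fun i _ => monic_X_sub_C _,
      Finset.sum_congr rfl fun i _ => natDegree_X_sub_C _]
    simp
  have hPsep : (P.map (algebraMap (𝓞 F) F)).Separable := by
    rw [hP, Polynomial.map_prod]
    have e : ∀ j : ℕ, (X - C (j : 𝓞 F)).map (algebraMap (𝓞 F) F) = X - C (j : F) := by
      intro j
      rw [Polynomial.map_sub, map_X, map_C, map_natCast]
    rw [Finset.prod_congr rfl fun j _ => e j]
    refine Polynomial.separable_prod_X_sub_C_iff'.mpr ?_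
    intro i _ j _ hij
    exact_mod_cast hij
  -- the set of primes
  have hfin := StarkRT.finite_above (F := F) T
  set V := hfin.toFinset with hV
  set ff : HeightOneSpectrum (𝓞 F) → (𝓞 F)[X] := fun v => if v = v₀ then P else f with hff
  have hffm : ∀ v, (ff v).Monic := by
    intro v
    simp only [hff]
    split_ifs
    · exact hPm
    · exact hfm
  have hffd : ∀ v, (ff v).natDegree = n := by
    intro v
    simp only [hff]
    split_ifs
    · exact hPd
    · exact hfd
  have hffs : ∀ v, ((ff v).map (algebraMap (𝓞 F) F)).Separable := by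
    intro v
    simp only [hff]
    split_ifs
    · exact hPsep
    · exact hfsep
  have htr := fun v => StarkRT.transfer_uniform (ff v) (hffm v) (hffs v) v
  choose a ha using htr
  obtain ⟨R, hRm, hRd, hRc, hRr⟩ := StarkRT.exists_real_poly_crt V a ff n hffm hffd
  -- real embeddings
  have hrealΦ : ∀ Φ : F →+* ℂ, ∃ φ : F →+* ℝ, Φ = Complex.ofRealHom.comp φ := by
    intro Φ
    have h1 : ComplexEmbedding.IsReal Φ := by
      have := hreal (InfinitePlace.mk Φ)
      rwa [InfinitePlace.isReal_mk_iff] at this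
    refine ⟨h1.embedding, ?_⟩
    ext x
    exact (h1.coe_embedding_apply x).symm
  have hcomp : ∀ φ : F →+* ℝ, ((R.map (algebraMap (𝓞 F) F)).map φ) =
      R.map (φ.comp (algebraMap (𝓞 F) F)) := fun φ => Polynomial.map_map _ _ _
  refine ⟨R.map (algebraMap (𝓞 F) F), hRm.map _, ?_, ?_, ?_, ?_⟩
  · rw [hRm.natDegree_map, hRd]
  · obtain ⟨φ, -⟩ := hrealΦ (Classical.arbitrary _)
    obtain ⟨h1, h2⟩ := hRr φ
    rw [← Polynomial.separable_map φ, hcomp]
    have h3 : (R.map (φ.comp (algebraMap (𝓞 F) F))).Splits := by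
      rw [Polynomial.splits_iff_card_roots, h2, hRm.natDegree_map, hRd]
    exact (Polynomial.nodup_roots_iff_of_splits (hRm.map _).ne_zero h3).mp h1
  · intro Φ z hz
    obtain ⟨φ, rfl⟩ := hrealΦ Φ
    obtain ⟨h1, h2⟩ := hRr φ
    have h3 : (R.map (φ.comp (algebraMap (𝓞 F) F))).Splits := by
      rw [Polynomial.splits_iff_card_roots, h2, hRm.natDegree_map, hRd]
    have h4 : z ∈ ((R.map (φ.comp (algebraMap (𝓞 F) F))).map Complex.ofRealHom).roots := by
      rw [Polynomial.mem_roots ((hRm.map _).map _).ne_zero, Polynomial.IsRoot, ← hcomp,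
        Polynomial.map_map, Polynomial.eval_map]
      exact hz
    rw [h3.roots_map, Multiset.mem_map] at h4
    obtain ⟨r, -, rfl⟩ := h4
    exact Complex.ofReal_im r
  · intro N _ _ _ _ _ _ hRs W h hW hT
    have hmapN : ∀ p : (𝓞 F)[X], (p.map (algebraMap (𝓞 F) F)).map (algebraMap F N) =
        p.map (algebraMap (𝓞 F) N) := by
      intro p
      rw [Polynomial.map_map, ← IsScalarTower.algebraMap_eq]
    have hRs' : (R.map (algebraMap (𝓞 F) N)).Splits := by rwa [hmapN] at hRs
    have hroot : ∀ κ : N, aeval κ (R.map (algebraMap (𝓞 F) F)) = 0 ↔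
        κ ∈ (R.map (algebraMap (𝓞 F) N)).roots := by
      intro κ
      rw [Polynomial.mem_roots (hRm.map _).ne_zero, Polynomial.IsRoot, ← hmapN,
        Polynomial.eval_map_algebraMap]
    have hv : W.under (𝓞 F) ∈ V := by
      rw [hV, Set.Finite.mem_toFinset]
      obtain ⟨p, hp, hpp, hpW⟩ := hT
      refine ⟨p, hp, hpp, ?_⟩
      rw [RB.mem_under, map_natCast]
      exact hpW
    have hdeg : R.natDegree = (ff (W.under (𝓞 F))).natDegree := by rw [hRd, hffd]
    constructor
    · intro hv₀ κ hκ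
      have hffv : ff (W.under (𝓞 F)) = P := by
        simp only [hff]
        rw [if_pos hv₀]
      have hPN : P.map (algebraMap (𝓞 F) N) = ∏ j ∈ Finset.range n, (X - C (j : N)) := by
        rw [hP, Polynomial.map_prod]
        refine Finset.prod_congr rfl fun j _ => ?_
        rw [Polynomial.map_sub, map_X, map_C, map_natCast]
      have hPs : (P.map (algebraMap (𝓞 F) N)).Splits := by
        rw [hPN]
        exact Polynomial.Splits.prod fun i _ => Polynomial.Splits.X_sub_C _
      have key := ha _ _ le_rfl R hRm hdeg (hRc _ hv) N (by rw [hffv]; exact hPs) hRs' W rfl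
      rw [hffv] at key
      obtain ⟨-, e, he⟩ := key
      obtain ⟨α, hα⟩ := e.surjective ⟨κ, (hroot κ).mp hκ⟩
      have h0 : ∀ x : N, x ∈ (P.map (algebraMap (𝓞 F) N)).roots → ∃ j : ℕ, x = j := by
        intro x hx
        have h3 := (Polynomial.mem_roots (hPm.map _).ne_zero).mp hx
        rw [Polynomial.IsRoot, hPN, Polynomial.eval_prod, Finset.prod_eq_zero_iff] at h3
        obtain ⟨j, -, hj⟩ := h3
        rw [eval_sub, eval_X, eval_C, sub_eq_zero] at hj
        exact ⟨j, hj⟩
      have h1 : ∃ j : ℕ, (α : N) = j := h0 _ α.2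
      obtain ⟨j, hj⟩ := h1
      have h3 : h (α : N) = α := by rw [hj, map_natCast]
      have h4 := he h hW α (by rw [h3]; exact α.2)
      have h5 : (⟨h (α : N), by rw [h3]; exact α.2⟩ :
        {x // x ∈ (P.map (algebraMap (𝓞 F) N)).roots}) = α := Subtype.ext h3
      rw [h5, hα] at h4
      exact h4.symm
    · intro hv₀
      have hffv : ff (W.under (𝓞 F)) = f := by
        simp only [hff]
        rw [if_neg hv₀]
      have hfs : (f.map (algebraMap (𝓞 F) N)).Splits := UKILQ.splits_N θ N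
      have key := ha (W.under (𝓞 F)) _ le_rfl R hRm hdeg (hRc _ hv) N
        (by rw [hffv]; exact hfs) hRs' W rfl
      rw [hffv] at key
      obtain ⟨-, e, he⟩ := key
      rw [UKILQ.ind_one]
      congr 1
      symm
      let ρ : ((L ≃ₐ[F] L) ⧸ Q) ≃ {x // x ∈ (f.map (algebraMap (𝓞 F) N)).roots} :=
        Equiv.ofBijective _ (UKILQ.rho_bij θ Q hθ N)
      have hequi : ∀ q : (L ≃ₐ[F] L) ⧸ Q,
          (e (ρ ((AlgEquiv.restrictNormalHom L h : L ≃ₐ[F] L) • q)) : N) = h (e (ρ q)) := by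
        intro q
        have h1 : (ρ ((AlgEquiv.restrictNormalHom L h : L ≃ₐ[F] L) • q) : N) = h (ρ q) :=
          UKILQ.rho_smul θ Q hθ N h q
        have h2 : h (ρ q : N) ∈ (f.map (algebraMap (𝓞 F) N)).roots := by
          rw [← h1]
          exact (ρ _).2
        have h3 := he h hW (ρ q) h2
        rw [← h3]
        congr 2
        exact Subtype.ext h1
      refine Nat.card_congr ((Equiv.subtypeEquiv (ρ.trans e)
        (q := fun x : {x // x ∈ (R.map (algebraMap (𝓞 F) N)).roots} => h (x : N) = x)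
        fun q => ?_).trans ?_)
      · constructor
        · intro h1
          have h2 := hequi q
          rw [h1] at h2
          exact h2.symm
        · intro h1
          have h2 := hequi q
          have h3 : (e (ρ ((AlgEquiv.restrictNormalHom L h : L ≃ₐ[F] L) • q)) : N) = e (ρ q) :=
            h2.trans h1
          exact ρ.injective (e.injective (Subtype.ext h3))
      · refine ⟨fun x => ⟨x.1.1, (hroot _).mpr x.1.2, x.2⟩,
          fun κ => ⟨⟨κ.1, (hroot _).mp κ.2.1⟩, κ.2.2⟩, fun x => rfl, fun κ => rfl⟩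

end StarkC
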