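import Pool.Agent.StarkU.Stmts
import Pool.Agent.Stark.RBasic
import Pool.Agent.Stark.CMB

/-!
# The algebraic part of the unramified reduction (module UALG)
-/

open NumberField IsDedekindDomain
open scoped TensorProduct Classical

namespace StarkC
namespace UALG

section grp

variable {G : Type} [Group G] [Fintype G]

theorem spanQ_mono {P P' : ∀ H : Subgroup G, (H →* ℂˣ) → Prop} (h : ∀ H ψ, P H ψ → P' H ψ) :
    SpanQ (G := G) P ≤ SpanQ (G := G) P' := by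
  unfold SpanQ
  exact Submodule.span_mono (fun f ⟨H, ψ, h1, h2⟩ => ⟨H, ψ, h H ψ h1, h2⟩)

theorem indFun_conj (H : Subgroup G) (f : G → ℂ) (x g : G) :
    indFun H f (x⁻¹ * g * x) = indFun H f g := by
  unfold indFun
  congr 1
  refine Fintype.sum_equiv (Equiv.mulLeft x) _ _ fun y => ?_
  have h : y⁻¹ * (x⁻¹ * g * x) * y = (x * y)⁻¹ * g * (x * y) := by group
  rw [h]
  rfl

theorem spanQ_class {P : ∀ H : Subgroup G, (H →* ℂˣ) → Prop} {f : G → ℂ}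
    (hf : f ∈ SpanQ (G := G) P) (x g : G) : f (x⁻¹ * g * x) = f g := by
  unfold SpanQ at hf
  induction hf using Submodule.span_induction with
  | mem f h =>
    obtain ⟨H, ψ, -, rfl⟩ := h
    exact indFun_conj H _ x g
  | zero => rfl
  | add f f' _ _ h h' => rw [Pi.add_apply, Pi.add_apply, h, h']
  | smul r f _ h => rw [Pi.smul_apply, Pi.smul_apply, h]

theorem extZ_invol {H : Subgroup G} (ψ : H →* ℂˣ) (c : G) (hc : c * c = 1) :
    ∃ r : ℤ, extZ ψ c = (r : ℂ) := by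
  unfold extZ
  split_ifs with h
  · have h1 : ψ ⟨c, h⟩ * ψ ⟨c, h⟩ = 1 := by
      rw [← map_mul]
      have : (⟨c, h⟩ : H) * ⟨c, h⟩ = 1 := Subtype.ext hc
      rw [this, map_one]
    have h2 : ((ψ ⟨c, h⟩ : ℂˣ) : ℂ) * ((ψ ⟨c, h⟩ : ℂˣ) : ℂ) = 1 := by
      rw [← Units.val_mul, h1, Units.val_one]
    rcases mul_self_eq_one_iff.1 h2 with h3 | h3
    · exact ⟨1, by rw [h3]; simp⟩
    · exact ⟨-1, by rw [h3]; simp⟩
  · exact ⟨0, by simp⟩

theorem spanQ_invol {P : ∀ H : Subgroup G, (H →* ℂˣ) → Prop} {f : G → ℂ}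
    (hf : f ∈ SpanQ (G := G) P) (c : G) (hc : c * c = 1) : ∃ r : ℚ, f c = (r : ℂ) := by
  unfold SpanQ at hf
  induction hf using Submodule.span_induction with
  | mem f h =>
    obtain ⟨H, ψ, -, rfl⟩ := h
    have h1 : ∀ x : G, ∃ r : ℤ,
        (if x⁻¹ * c * x ∈ H then extZ ψ (x⁻¹ * c * x) else 0) = (r : ℂ) := by
      intro x
      split_ifs
      · refine extZ_invol ψ _ ?_
        have : x⁻¹ * c * x * (x⁻¹ * c * x) = x⁻¹ * (c * c) * x := by group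
        rw [this, hc]
        group
      · exact ⟨0, by simp⟩
    choose r hr using h1
    refine ⟨(∑ x, (r x : ℚ)) / (Nat.card H : ℚ), ?_⟩
    unfold indFun
    rw [Finset.sum_congr rfl fun x _ => hr x]
    push_cast
    rfl
  | zero => exact ⟨0, by simp⟩
  | add f f' _ _ h h' =>
    obtain ⟨r, hr⟩ := h
    obtain ⟨r', hr'⟩ := h'
    exact ⟨r + r', by rw [Pi.add_apply, hr, hr']; push_cast; rfl⟩
  | smul q f _ h =>
    obtain ⟨r, hr⟩ := h
    exact ⟨q * r, by rw [Pi.smul_apply, hr, Rat.smul_def]; push_cast; rfl⟩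

theorem indFun_extZ_one (H : Subgroup G) :
    indFun H (extZ (1 : H →* ℂˣ)) = indFun H (fun _ => 1) := by
  apply CMB.indFun_congr
  intro g hg
  have := CMB.extZ_apply (1 : H →* ℂˣ) ⟨g, hg⟩
  rw [MonoidHom.one_apply, Units.val_one] at this
  exact this

theorem one_mem : (fun _ : G => (1 : ℂ)) ∈ SpanQ (G := G) (fun _ _ => True) := by
  refine Submodule.subset_span ⟨⊤, 1, trivial, ?_⟩
  rw [indFun_extZ_one]
  funext g
  unfold indFun
  have h1 : ∑ x : G, (if x⁻¹ * g * x ∈ (⊤ : Subgroup G) then (1 : ℂ) else 0) =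
      (Nat.card G : ℂ) := by
    rw [Finset.sum_congr rfl fun x _ => if_pos (Subgroup.mem_top _), Finset.sum_const,
      Finset.card_univ, nsmul_eq_mul, mul_one, Nat.card_eq_fintype_card]
  have h2 : Nat.card (⊤ : Subgroup G) = Nat.card G := Subgroup.card_top
  rw [h1, h2, div_self]
  exact_mod_cast Nat.card_pos.ne'

theorem of_art (hA : Stmt_UART) {P : ∀ H : Subgroup G, (H →* ℂˣ) → Prop} (f : G → ℂ)
    (hcl : ∀ x g, f (x⁻¹ * g * x) = f g)
    (h : ∀ g : G, indFun (Subgroup.zpowers g) f ∈ SpanQ (G := G) P) : f ∈ SpanQ (G := G) P := by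
  obtain ⟨a, ha⟩ := hA G
  have h1 : f = ∑ g, a g • indFun (Subgroup.zpowers g) f := by
    funext x
    rw [Finset.sum_apply]
    calc f x = f x * 1 := (mul_one _).symm
      _ = f x * ∑ g : G, (a g : ℂ) * indFun (Subgroup.zpowers g) (fun _ => 1) x := by rw [← ha x]
      _ = ∑ g, (a g • indFun (Subgroup.zpowers g) f) x := by
        rw [Finset.mul_sum]
        refine Finset.sum_congr rfl fun g _ => ?_
        rw [Pi.smul_apply, CMB.indFun_class _ f hcl, Rat.smul_def]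
        ring
  rw [h1]
  exact Submodule.sum_mem _ fun g _ => Submodule.smul_mem _ _ (h g)

theorem cyc_step (hC : Stmt_UCYC) (hM : Stmt_UMACK) (hI : Stmt_UIND) (g : G) (f : G → ℂ)
    (hf : f ∈ SpanQ (G := G) (fun _ _ => True)) (J : Subgroup G)
    (hJ : ∀ x ∈ Subgroup.zpowers g, ∀ a : ℕ, a.Coprime (orderOf x) → x ^ a * x⁻¹ ∈ J →
      f (x ^ a) = f x) :
    indFun (Subgroup.zpowers g) f ∈ SpanQ (G := G) (fun H ψ => H ≤ Subgroup.zpowers g ∧
      ∀ h : H, (h : G) ∈ J → ψ h = 1) := by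
  have h1 := hM G (Subgroup.zpowers g) f hf
  have h2 := hC (Subgroup.zpowers g) (fun d : Subgroup.zpowers g => f (d : G))
    (J.comap (Subgroup.zpowers g).subtype) inferInstance h1 (by
      intro x a ha hx
      refine hJ x x.2 a ?_ hx
      rwa [Subgroup.orderOf_coe])
  have h3 := hI G (Subgroup.zpowers g) f _ h2
  refine spanQ_mono ?_ h3
  rintro H ψ ⟨B, ν, hν, rfl, hψ⟩
  refine ⟨Subgroup.map_subtype_le _, ?_⟩
  rintro ⟨h, b, hb, rfl⟩ hh
  rw [hψ ⟨b, hb⟩ _ rfl]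
  exact hν _ hh

end grp

/-! ### Primes and complex conjugations -/

section arith

theorem aboveT_mono {N : Type} [Field N] [NumberField N] {T T' : Finset ℕ} (h : T ⊆ T')
    {w : HeightOneSpectrum (𝓞 N)} (hw : AboveT T w) : AboveT T' w := by
  obtain ⟨p, hp, h2⟩ := hw
  exact ⟨p, h hp, h2⟩

theorem aboveT_under {L N : Type} [Field L] [NumberField L] [Field N] [NumberField N]
    [Algebra L N] (T : Finset ℕ) (w : HeightOneSpectrum (𝓞 N)) :
    AboveT T (w.under (𝓞 L)) ↔ AboveT T w := by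
  unfold AboveT
  simp only [RB.natCast_mem_under]

theorem aboveT_mv {N : Type} [Field N] [NumberField N] (T : Finset ℕ) (g : N ≃ₐ[ℚ] N)
    (w : HeightOneSpectrum (𝓞 N)) (hw : AboveT T w) : AboveT T (STB.mv (g : N ≃+* N) w) := by
  obtain ⟨p, hp, h2, h3⟩ := hw
  refine ⟨p, hp, h2, ?_⟩
  have h4 := (RB.mv_eq_iff (g : N ≃+* N) w _).1 rfl _ h3
  rwa [map_natCast] at h4

/-- decomposition group -/
def decS {N : Type} [Field N] [NumberField N] (w : HeightOneSpectrum (𝓞 N)) :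
    Subgroup (N ≃ₐ[ℚ] N) where
  carrier := {g | Dec w g}
  mul_mem' := fun ha hb => RB.dec_mul ha hb
  one_mem' := RB.dec_one w
  inv_mem' := fun ha => RB.dec_inv ha

/-- inertia group -/
def inS {N : Type} [Field N] [NumberField N] (w : HeightOneSpectrum (𝓞 N)) :
    Subgroup (N ≃ₐ[ℚ] N) where
  carrier := {g | FrobPow N w 1 g}
  mul_mem' := by
    intro a b ha hb x y hy
    have h1 := hb x (STB.oMap (b : N ≃+* N) x) rfl
    have h2 := ha (STB.oMap (b : N ≃+* N) x) y hy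
    rw [pow_one] at h1 h2 ⊢
    have h3 := w.asIdeal.add_mem h2 h1
    rwa [sub_add_sub_cancel] at h3
  one_mem' := by
    intro x y hy
    have : y = x := RingOfIntegers.ext hy
    rw [this, pow_one, sub_self]
    exact w.asIdeal.zero_mem
  inv_mem' := by
    intro a ha x y hy
    have h1 := ha y x (by
      show (x : N) = a (y : N)
      rw [hy]
      show (x : N) = a (a⁻¹ (x : N))
      rw [← AlgEquiv.mul_apply, mul_inv_cancel, AlgEquiv.one_apply])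
    rw [pow_one] at h1 ⊢
    have h2 := w.asIdeal.neg_mem h1
    rwa [neg_sub] at h2

theorem cc_sq {N : Type} [Field N] [NumberField N] {c : N ≃ₐ[ℚ] N} (h : IsCC c) : c * c = 1 := by
  obtain ⟨Φ, hΦ⟩ := h
  ext x
  exact ComplexEmbedding.isConj_apply_apply hΦ x

theorem cc_i {N : Type} [Field N] [NumberField N] {c : N ≃ₐ[ℚ] N} (h : IsCC c) (i : N)
    (hi : i ^ 2 = -1) : c i = -i := by
  obtain ⟨Φ, hΦ⟩ := h
  have h1 : (c i) ^ 2 = i ^ 2 := by rw [← map_pow, hi, map_neg, map_one]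
  rcases sq_eq_sq_iff_eq_or_eq_neg.1 h1 with h2 | h2
  · exfalso
    have h3 : star (Φ i) = Φ i := by
      have := hΦ.eq i
      rw [h2] at this
      exact this.symm
    have h4 : (Φ i) ^ 2 = -1 := by rw [← map_pow, hi, map_neg, map_one]
    have h5 : (Φ i).im = 0 := by
      have := congrArg Complex.im h3
      simp only [Complex.star_def, Complex.conj_im] at this
      linarith
    have h6 := congrArg Complex.re h4
    rw [pow_two, Complex.mul_re, h5] at h6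
    simp only [mul_zero, sub_zero, Complex.neg_re, Complex.one_re] at h6
    nlinarith [mul_self_nonneg (Φ i).re]
  · exact h2

theorem cc_ne_one {N : Type} [Field N] [NumberField N] {c : N ≃ₐ[ℚ] N} (h : IsCC c)
    (hi : ∃ i : N, i ^ 2 = -1) : c ≠ 1 := by
  rintro rfl
  obtain ⟨i, hi⟩ := hi
  have h1 := cc_i h i hi
  rw [AlgEquiv.one_apply] at h1
  have h2 : i = 0 := self_eq_neg.1 h1
  rw [h2] at hi
  norm_num at hi

theorem cc_conj {N : Type} [Field N] [NumberField N] [IsGalois ℚ N] {c c' : N ≃ₐ[ℚ] N}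
    (h : IsCC c) (h' : IsCC c') : ∃ x : N ≃ₐ[ℚ] N, c' = x⁻¹ * c * x := by
  obtain ⟨Φ0, h0⟩ := h
  obtain ⟨Φ, hc⟩ := h'
  obtain ⟨ν, hν⟩ := NumberField.ComplexEmbedding.exists_comp_symm_eq_of_comp_eq (k := ℚ) Φ0 Φ
    (Subsingleton.elim _ _)
  have h1 : ComplexEmbedding.IsConj (Φ0.comp (ν.symm : N →+* N)) (ν.symm⁻¹ * c * ν.symm) :=
    ComplexEmbedding.IsConj.comp h0 ν.symm
  rw [hν] at h1
  exact ⟨ν.symm, hc.ext h1⟩

theorem cc_restrict {L N : Type} [Field L] [NumberField L] [IsGalois ℚ L] [Field N]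
    [NumberField N] [IsGalois ℚ N] [Algebra L N] {c : N ≃ₐ[ℚ] N} (h : IsCC c) :
    IsCC (AlgEquiv.restrictNormalHom L c : L ≃ₐ[ℚ] L) := CMB.isCC_restrict h

end arith

/-! ### The case distinction -/

section main

variable {N₁ N₂ N : Type} [Field N₁] [NumberField N₁] [IsGalois ℚ N₁] [Field N₂] [NumberField N₂]
  [IsGalois ℚ N₂] [Field N] [NumberField N] [IsGalois ℚ N] [Algebra N₁ N₂] [Algebra N₁ N]
  [Algebra N₂ N] [IsScalarTower N₁ N₂ N]

theorem res12 (g : N ≃ₐ[ℚ] N) :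
    (AlgEquiv.restrictNormalHom N₁ (AlgEquiv.restrictNormalHom N₂ g : N₂ ≃ₐ[ℚ] N₂) :
      N₁ ≃ₐ[ℚ] N₁) = AlgEquiv.restrictNormalHom N₁ g :=
  (IsScalarTower.AlgEquiv.restrictNormalHom_comp_apply N₁ N₂ g).symm

theorem star (T₁ : Finset ℕ)
    (hFK : ∀ (h : N ≃ₐ[ℚ] N) (P Q : HeightOneSpectrum (𝓞 N)), Dec P h → Dec Q h →
      AboveT T₁ P → AboveT T₁ Q → P.under (𝓞 N₂) ≠ Q.under (𝓞 N₂) →
      (AlgEquiv.restrictNormalHom N₂ h : N₂ ≃ₐ[ℚ] N₂) = 1)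
    (g h : N ≃ₐ[ℚ] N) (hh : h ∈ Subgroup.zpowers g) (W : HeightOneSpectrum (𝓞 N)) (hW : Dec W h)
    (hT : AboveT T₁ W) (hne : (AlgEquiv.restrictNormalHom N₁ h : N₁ ≃ₐ[ℚ] N₁) ≠ 1) :
    Dec (W.under (𝓞 N₂)) (AlgEquiv.restrictNormalHom N₂ g : N₂ ≃ₐ[ℚ] N₂) := by
  have hcomm : g * h * g⁻¹ = h := by
    obtain ⟨k, rfl⟩ := Subgroup.mem_zpowers_iff.1 hh
    rw [← zpow_one_add, ← zpow_neg_one g, ← zpow_add]
    congr 1
    ring
  have h1 : Dec (STB.mv (g : N ≃+* N) W) (h : N ≃ₐ[ℚ] N) := by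
    have := RB.dec_conj hW g
    rwa [hcomm] at this
  have h2 : AboveT T₁ (STB.mv (g : N ≃+* N) W) := aboveT_mv T₁ g W hT
  apply RB.dec_of_under
  by_contra h3
  have h4 := hFK h _ _ h1 hW h2 hT h3
  apply hne
  rw [← res12 (N₂ := N₂), h4, map_one]

theorem typeA_span (hART : Stmt_UART) (hCYC : Stmt_UCYC) (hMK : Stmt_UMACK) (hIND : Stmt_UIND)
    (hINF : Stmt_UINFL) (T T₀ T₁ : Finset ℕ) (hT01 : T ⊆ T₀) (hT12 : T₀ ⊆ T₁)
    (f₁ : (N₁ ≃ₐ[ℚ] N₁) → ℂ) (hf₁ : f₁ ∈ SpanQ (G := N₁ ≃ₐ[ℚ] N₁) (fun _ _ => True))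
    (hi : ∃ i : N₁, i ^ 2 = -1) (hcc : ∀ c, IsCC c → f₁ c = 0)
    (hU1 : ∀ (W : HeightOneSpectrum (𝓞 N₁)) (x : N₁ ≃ₐ[ℚ] N₁) (a : ℕ), Dec W x →
      a.Coprime (orderOf x) → AboveT T₀ W → f₁ (x ^ a) = f₁ x)
    (hU2 : ∀ (W : HeightOneSpectrum (𝓞 N₁)) (x : N₁ ≃ₐ[ℚ] N₁) (a : ℕ), Dec W x →
      a.Coprime (orderOf x) → FrobPow N₁ W 1 (x ^ a * x⁻¹ : N₁ ≃ₐ[ℚ] N₁) → f₁ (x ^ a) = f₁ x)
    (hram : ∀ W : HeightOneSpectrum (𝓞 N₁), ¬ AboveT T₁ W → ∀ g : N₁ ≃ₐ[ℚ] N₁,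
      FrobPow N₁ W 1 g → g = 1)
    (hFK12 : ∀ (h : N₂ ≃ₐ[ℚ] N₂) (P Q : HeightOneSpectrum (𝓞 N₂)), Dec P h → Dec Q h →
      AboveT T₁ P → AboveT T₁ Q → P.under (𝓞 N₁) ≠ Q.under (𝓞 N₁) →
      (AlgEquiv.restrictNormalHom N₁ h : N₁ ≃ₐ[ℚ] N₁) = 1)
    (hFKI : ∀ (c : N₂ ≃ₐ[ℚ] N₂) (W : HeightOneSpectrum (𝓞 N₂)), IsCC c → Dec W c →
      AboveT T₁ W → (AlgEquiv.restrictNormalHom N₁ c : N₁ ≃ₐ[ℚ] N₁) = 1)
    (hFK : ∀ (h : N ≃ₐ[ℚ] N) (P Q : HeightOneSpectrum (𝓞 N)), Dec P h → Dec Q h →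
      AboveT T₁ P → AboveT T₁ Q → P.under (𝓞 N₂) ≠ Q.under (𝓞 N₂) →
      (AlgEquiv.restrictNormalHom N₂ h : N₂ ≃ₐ[ℚ] N₂) = 1)
    (hCEN : ∀ g c : N ≃ₐ[ℚ] N, IsCC c → g * c = c * g →
      (AlgEquiv.restrictNormalHom N₁ g : N₁ ≃ₐ[ℚ] N₁) = 1 ∨
        (AlgEquiv.restrictNormalHom N₁ g : N₁ ≃ₐ[ℚ] N₁) = AlgEquiv.restrictNormalHom N₁ c) :
    (fun g : N ≃ₐ[ℚ] N => f₁ (AlgEquiv.restrictNormalHom N₁ g)) ∈
      SpanQ (G := N ≃ₐ[ℚ] N) (fun H ψ => TypeA T H ψ) := by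
  set f : (N ≃ₐ[ℚ] N) → ℂ := fun g => f₁ (AlgEquiv.restrictNormalHom N₁ g) with hfdef
  have hf : f ∈ SpanQ (G := N ≃ₐ[ℚ] N) (fun _ _ => True) :=
    spanQ_mono (fun _ _ _ => trivial)
      (hINF (N ≃ₐ[ℚ] N) (N₁ ≃ₐ[ℚ] N₁) (AlgEquiv.restrictNormalHom N₁) f₁ _
        (AlgEquiv.restrictNormalHom_surjective N) hf₁)
  refine of_art hART f (fun x g => spanQ_class hf x g) fun g => ?_
  -- primes with nontrivial inertia on `N₁` are above `T₁`
  have hab : ∀ (W : HeightOneSpectrum (𝓞 N)) (h : N ≃ₐ[ℚ] N),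
      (AlgEquiv.restrictNormalHom N₁ h : N₁ ≃ₐ[ℚ] N₁) ≠ 1 →
      (FrobPow N W 1 h ∨ (AboveT T W ∧ Dec W h)) → AboveT T₁ W ∧ Dec W h := by
    rintro W h hne (h1 | ⟨h1, h2⟩)
    · refine ⟨?_, RB.dec_of_frob h1⟩
      by_contra h3
      refine hne (hram (W.under (𝓞 N₁)) ?_ _ (RB.frob_restrict h1))
      rwa [aboveT_under]
    · exact ⟨aboveT_mono (hT01.trans hT12) h1, h2⟩
  have hcN : ∀ c : N ≃ₐ[ℚ] N, IsCC c →
      (AlgEquiv.restrictNormalHom N₁ c : N₁ ≃ₐ[ℚ] N₁) ≠ 1 := fun c hc =>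
    cc_ne_one (cc_restrict hc) hi
  by_cases hcase : ∃ (W : HeightOneSpectrum (𝓞 N)) (h : N ≃ₐ[ℚ] N), h ∈ Subgroup.zpowers g ∧
      (AlgEquiv.restrictNormalHom N₁ h : N₁ ≃ₐ[ℚ] N₁) ≠ 1 ∧
      (FrobPow N W 1 h ∨ (AboveT T W ∧ Dec W h))
  · -- case 1
    obtain ⟨W, h, hh, hne, hor⟩ := hcase
    obtain ⟨hW1, hWd⟩ := hab W h hne hor
    have hg2 := star (N₁ := N₁) T₁ hFK g h hh W hWd hW1 hne
    have hg2' : ∀ x ∈ Subgroup.zpowers g,
        Dec (W.under (𝓞 N₂)) (AlgEquiv.restrictNormalHom N₂ x : N₂ ≃ₐ[ℚ] N₂) := by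
      intro x hx
      have h1 : AlgEquiv.restrictNormalHom N₂ g ∈ decS (W.under (𝓞 N₂)) := hg2
      obtain ⟨k, rfl⟩ := Subgroup.mem_zpowers_iff.1 hx
      have h2 := (decS (W.under (𝓞 N₂))).zpow_mem h1 k
      rw [← map_zpow] at h2
      exact h2
    have hg1' : ∀ x ∈ Subgroup.zpowers g,
        Dec (W.under (𝓞 N₁)) (AlgEquiv.restrictNormalHom N₁ x : N₁ ≃ₐ[ℚ] N₁) := by
      intro x hx
      have h1 := RB.dec_restrict (L := N₁) (hg2' x hx)
      rw [res12, RB.under_under] at h1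
      exact h1
    -- the subgroup `J`
    obtain ⟨J, hJ, hJ2, hJ3⟩ : ∃ J : Subgroup (N ≃ₐ[ℚ] N),
        (∀ x ∈ Subgroup.zpowers g, ∀ a : ℕ, a.Coprime (orderOf x) → x ^ a * x⁻¹ ∈ J →
          f (x ^ a) = f x) ∧
        (∀ x : N ≃ₐ[ℚ] N, FrobPow N₁ (W.under (𝓞 N₁)) 1
          (AlgEquiv.restrictNormalHom N₁ x : N₁ ≃ₐ[ℚ] N₁) → x ∈ J) ∧
        (AboveT T₀ (W.under (𝓞 N₁)) → ∀ x, x ∈ J) := by
      by_cases hT0 : AboveT T₀ (W.under (𝓞 N₁))
      · refine ⟨⊤, fun x hx a ha _ => ?_, fun _ _ => Subgroup.mem_top _, fun _ _ =>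
          Subgroup.mem_top _⟩
        have h1 := hU1 (W.under (𝓞 N₁)) (AlgEquiv.restrictNormalHom N₁ x) a (hg1' x hx)
          (ha.coprime_dvd_right (orderOf_map_dvd _ x)) hT0
        rw [← map_pow] at h1
        exact h1
      · refine ⟨(inS (W.under (𝓞 N₁))).comap (AlgEquiv.restrictNormalHom N₁),
          fun x hx a ha hJ => ?_, fun x hx => hx, fun h => absurd h hT0⟩
        have h2 : FrobPow N₁ (W.under (𝓞 N₁)) 1
            (AlgEquiv.restrictNormalHom N₁ (x ^ a * x⁻¹) : N₁ ≃ₐ[ℚ] N₁) := hJ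
        rw [map_mul, map_pow, map_inv] at h2
        have h1 := hU2 (W.under (𝓞 N₁)) (AlgEquiv.restrictNormalHom N₁ x) a (hg1' x hx)
          (ha.coprime_dvd_right (orderOf_map_dvd _ x)) h2
        rw [← map_pow] at h1
        exact h1
    refine spanQ_mono ?_ (cyc_step hCYC hMK hIND g f hf J hJ)
    rintro B ν ⟨hB, hν⟩
    have hJ1 : ∀ x : N ≃ₐ[ℚ] N,
        (AlgEquiv.restrictNormalHom N₁ x : N₁ ≃ₐ[ℚ] N₁) = 1 → x ∈ J := by
      intro x hx
      refine hJ2 x ?_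
      rw [hx]
      exact (inS (W.under (𝓞 N₁))).one_mem
    have hkey : ∀ (W' : HeightOneSpectrum (𝓞 N)) (h' : B),
        (AlgEquiv.restrictNormalHom N₁ (h' : N ≃ₐ[ℚ] N) : N₁ ≃ₐ[ℚ] N₁) ≠ 1 →
        AboveT T₁ W' → Dec W' (h' : N ≃ₐ[ℚ] N) → W'.under (𝓞 N₁) = W.under (𝓞 N₁) := by
      intro W' h' hne' hW' hd'
      have h3 := star (N₁ := N₁) T₁ hFK g h' (hB h'.2) W' hd' hW' hne'
      have h4 : Dec (W'.under (𝓞 N₂))
          (AlgEquiv.restrictNormalHom N₂ (h' : N ≃ₐ[ℚ] N) : N₂ ≃ₐ[ℚ] N₂) :=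
        RB.dec_restrict hd'
      have h5 := hg2' h' (hB h'.2)
      by_contra h6
      apply hne'
      have h7 := hFK12 _ _ _ h4 h5 ((aboveT_under T₁ W').2 hW') ((aboveT_under T₁ W).2 hW1) (by
        rw [RB.under_under, RB.under_under]
        exact h6)
      rwa [res12] at h7
    refine ⟨fun c hc hcC => ?_, fun W' h' hF => ?_, fun W' h' hT' hd' => ?_⟩
    · have h1 := hFKI _ (W.under (𝓞 N₂)) (cc_restrict (L := N₂) hcC) (hg2' c (hB hc))
        ((aboveT_under T₁ W).2 hW1)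
      rw [res12] at h1
      exact hcN c hcC h1
    · refine hν h' ?_
      by_cases h1 : (AlgEquiv.restrictNormalHom N₁ (h' : N ≃ₐ[ℚ] N) : N₁ ≃ₐ[ℚ] N₁) = 1
      · exact hJ1 _ h1
      · obtain ⟨h2, h3⟩ := hab W' h' h1 (Or.inl hF)
        have h4 := hkey W' h' h1 h2 h3
        refine hJ2 _ ?_
        rw [← h4]
        exact RB.frob_restrict hF
    · refine hν h' ?_
      by_cases h1 : (AlgEquiv.restrictNormalHom N₁ (h' : N ≃ₐ[ℚ] N) : N₁ ≃ₐ[ℚ] N₁) = 1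
      · exact hJ1 _ h1
      · obtain ⟨h2, h3⟩ := hab W' h' h1 (Or.inr ⟨hT', hd'⟩)
        have h4 := hkey W' h' h1 h2 h3
        refine hJ3 ?_ _
        rw [← h4, aboveT_under]
        exact aboveT_mono hT01 hT'
  · have hcase' : ∀ (W : HeightOneSpectrum (𝓞 N)) (h : N ≃ₐ[ℚ] N), h ∈ Subgroup.zpowers g →
        (FrobPow N W 1 h ∨ (AboveT T W ∧ Dec W h)) →
        (AlgEquiv.restrictNormalHom N₁ h : N₁ ≃ₐ[ℚ] N₁) = 1 := by
      intro W h hh hor
      by_contra hne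
      exact hcase ⟨W, h, hh, hne, hor⟩
    by_cases hC : ∃ c ∈ Subgroup.zpowers g, IsCC c
    · -- case 3
      obtain ⟨c, hc, hcC⟩ := hC
      have h1 : ∀ x ∈ Subgroup.zpowers g,
          (AlgEquiv.restrictNormalHom N₁ x : N₁ ≃ₐ[ℚ] N₁) ≠ 1 → f x = 0 := by
        intro x hx hne
        have hcomm : x * c = c * x := by
          obtain ⟨k, rfl⟩ := Subgroup.mem_zpowers_iff.1 hx
          obtain ⟨m, rfl⟩ := Subgroup.mem_zpowers_iff.1 hc
          rw [← zpow_add, ← zpow_add, add_comm]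
        rcases hCEN x c hcC hcomm with h2 | h2
        · exact absurd h2 hne
        · show f₁ (AlgEquiv.restrictNormalHom N₁ x) = 0
          rw [h2]
          exact hcc _ (cc_restrict hcC)
      obtain ⟨r, hr⟩ := spanQ_invol hf₁ 1 (by rw [one_mul])
      set C₀ : Subgroup (N ≃ₐ[ℚ] N) := Subgroup.zpowers g ⊓
        (AlgEquiv.restrictNormalHom N₁ : (N ≃ₐ[ℚ] N) →* (N₁ ≃ₐ[ℚ] N₁)).ker with hC0
      have h2 : indFun (Subgroup.zpowers g) f =
          (r * (Nat.card C₀ : ℚ) / (Nat.card (Subgroup.zpowers g) : ℚ)) •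
            indFun C₀ (extZ (1 : C₀ →* ℂˣ)) := by
        rw [indFun_extZ_one]
        funext y
        rw [Pi.smul_apply, Rat.smul_def]
        unfold indFun
        have h3 : ∀ x : N ≃ₐ[ℚ] N, (if x⁻¹ * y * x ∈ Subgroup.zpowers g then f (x⁻¹ * y * x)
            else 0) = (r : ℂ) * (if x⁻¹ * y * x ∈ C₀ then (1 : ℂ) else 0) := by
          intro x
          by_cases hx : x⁻¹ * y * x ∈ Subgroup.zpowers g
          · rw [if_pos hx]
            by_cases hx2 : (AlgEquiv.restrictNormalHom N₁ (x⁻¹ * y * x) : N₁ ≃ₐ[ℚ] N₁) = 1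
            · have hx3 : x⁻¹ * y * x ∈ C₀ := ⟨hx, hx2⟩
              rw [if_pos hx3, mul_one, ← hr]
              show f₁ (AlgEquiv.restrictNormalHom N₁ (x⁻¹ * y * x)) = f₁ 1
              rw [hx2]
            · have hx3 : x⁻¹ * y * x ∉ C₀ := fun h => hx2 h.2
              rw [if_neg hx3, mul_zero]
              exact h1 _ hx hx2
          · have hx3 : x⁻¹ * y * x ∉ C₀ := fun h => hx h.1
            rw [if_neg hx, if_neg hx3, mul_zero]
        rw [Finset.sum_congr rfl fun x _ => h3 x, ← Finset.mul_sum]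
        have h4 : (Nat.card C₀ : ℂ) ≠ 0 := by exact_mod_cast Nat.card_pos.ne'
        have h5 : (Nat.card (Subgroup.zpowers g) : ℂ) ≠ 0 := by exact_mod_cast Nat.card_pos.ne'
        push_cast
        field_simp
      rw [h2]
      refine Submodule.smul_mem _ _ (Submodule.subset_span ⟨C₀, 1, ?_, rfl⟩)
      refine ⟨fun c' hc' hcC' => hcN c' hcC' hc'.2, fun _ _ _ => rfl, fun _ _ _ _ => rfl⟩
    · -- case 2
      refine spanQ_mono ?_ (cyc_step hCYC hMK hIND g f hf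
        (AlgEquiv.restrictNormalHom N₁ : (N ≃ₐ[ℚ] N) →* (N₁ ≃ₐ[ℚ] N₁)).ker ?_)
      · rintro B ν ⟨hB, hν⟩
        refine ⟨fun c hc hcC => hC ⟨c, hB hc, hcC⟩, fun W' h' hF => ?_, fun W' h' hT' hd' => ?_⟩
        · exact hν h' (hcase' W' h' (hB h'.2) (Or.inl hF))
        · exact hν h' (hcase' W' h' (hB h'.2) (Or.inr ⟨hT', hd'⟩))
      · intro x hx a ha hk
        show f₁ (AlgEquiv.restrictNormalHom N₁ (x ^ a)) = f₁ (AlgEquiv.restrictNormalHom N₁ x)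
        have h1 : (AlgEquiv.restrictNormalHom N₁ (x ^ a * x⁻¹) : N₁ ≃ₐ[ℚ] N₁) = 1 := hk
        rw [map_mul, map_inv, mul_inv_eq_one] at h1
        rw [h1]

end main

/-! ### The constant function -/

theorem exists_cc (N : Type) [Field N] [NumberField N] [IsGalois ℚ N] :
    ∃ c : N ≃ₐ[ℚ] N, IsCC c := by
  obtain ⟨Φ⟩ : Nonempty (N →+* ℂ) := inferInstance
  obtain ⟨ν, hν⟩ := NumberField.ComplexEmbedding.exists_comp_symm_eq_of_comp_eq (k := ℚ) Φ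
    (ComplexEmbedding.conjugate Φ) (Subsingleton.elim _ _)
  exact ⟨ν.symm, Φ, hν.symm⟩

theorem one_AB (N : Type) [Field N] [NumberField N] [IsGalois ℚ N] (T : Finset ℕ)
    (hi : ∃ i : N, i ^ 2 = -1) :
    (fun _ : N ≃ₐ[ℚ] N => (1 : ℂ)) ∈
      SpanQ (G := N ≃ₐ[ℚ] N) (fun H ψ => TypeA T H ψ ∨ TypeB H ψ) := by
  obtain ⟨i, hi⟩ := hi
  have hi0 : i ≠ 0 := by
    rintro rfl
    norm_num at hi
  have hne : i ≠ -i := fun h => hi0 (self_eq_neg.1 h)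
  have hpm : ∀ g : N ≃ₐ[ℚ] N, g i = i ∨ g i = -i := by
    intro g
    have h1 : (g i) ^ 2 = i ^ 2 := by rw [← map_pow, hi, map_neg, map_one]
    exact sq_eq_sq_iff_eq_or_eq_neg.1 h1
  let eps : (N ≃ₐ[ℚ] N) →* ℂˣ :=
    { toFun := fun g => if g i = i then 1 else -1
      map_one' := by rw [if_pos (AlgEquiv.one_apply i)]
      map_mul' := by
        intro g h
        rcases hpm g with hg | hg <;> rcases hpm h with hh | hh
        · have h3 : (g * h) i = i := by rw [AlgEquiv.mul_apply, hh, hg]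
          rw [if_pos h3, if_pos hg, if_pos hh, one_mul]
        · have h3 : (g * h) i = -i := by rw [AlgEquiv.mul_apply, hh, map_neg, hg]
          have h4 : ¬ (g * h) i = i := fun h => hne (by rw [← h3, h])
          have h5 : ¬ h i = i := fun h => hne (by rw [← hh, h])
          rw [if_neg h4, if_pos hg, if_neg h5, one_mul]
        · have h3 : (g * h) i = -i := by rw [AlgEquiv.mul_apply, hh, hg]
          have h4 : ¬ (g * h) i = i := fun h => hne (by rw [← h3, h])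
          have h5 : ¬ g i = i := fun h => hne (by rw [← hg, h])
          rw [if_neg h4, if_neg h5, if_pos hh, mul_one]
        · have h3 : (g * h) i = i := by rw [AlgEquiv.mul_apply, hh, map_neg, hg, neg_neg]
          have h5 : ¬ g i = i := fun h => hne (by rw [← hg, h])
          have h6 : ¬ h i = i := fun h => hne (by rw [← hh, h])
          rw [if_pos h3, if_neg h5, if_neg h6]
          simp }
  have heps : ∀ g, eps g = if g i = i then 1 else -1 := fun _ => rfl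
  have h12 : ∀ g, eps g = 1 ∨ eps g = -1 := by
    intro g
    rw [heps]
    split_ifs
    · exact Or.inl rfl
    · exact Or.inr rfl
  have hccm : ∀ c : N ≃ₐ[ℚ] N, IsCC c → eps c = -1 := by
    intro c hc
    rw [heps, if_neg]
    intro h
    exact hne (by rw [← cc_i hc i hi, h])
  have h11 : (-1 : ℂˣ) ≠ 1 := by
    intro h
    have := congrArg (fun u : ℂˣ => (u : ℂ)) h
    norm_num at this
  obtain ⟨c0, hc0⟩ := exists_cc N
  have hc0' : eps c0 ≠ 1 := by rw [hccm c0 hc0]; exact h11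
  have h1 : (fun _ : N ≃ₐ[ℚ] N => (1 : ℂ)) = indFun eps.ker (extZ (1 : eps.ker →* ℂˣ)) -
      indFun (⊤ : Subgroup (N ≃ₐ[ℚ] N)) (extZ (eps.comp (⊤ : Subgroup (N ≃ₐ[ℚ] N)).subtype)) := by
    funext g
    rw [Pi.sub_apply, indFun_extZ_one, CMB.half eps h12 c0 hc0' g]
    have h2 : indFun (⊤ : Subgroup (N ≃ₐ[ℚ] N))
        (extZ (eps.comp (⊤ : Subgroup (N ≃ₐ[ℚ] N)).subtype)) g = ((eps g : ℂˣ) : ℂ) := by
      have h3 : indFun (⊤ : Subgroup (N ≃ₐ[ℚ] N))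
          (extZ (eps.comp (⊤ : Subgroup (N ≃ₐ[ℚ] N)).subtype)) =
          indFun (⊤ : Subgroup (N ≃ₐ[ℚ] N)) (fun x => ((eps x : ℂˣ) : ℂ)) := by
        apply CMB.indFun_congr
        intro x hx
        exact CMB.extZ_apply (eps.comp (⊤ : Subgroup (N ≃ₐ[ℚ] N)).subtype) ⟨x, hx⟩
      rw [h3, CMB.indFun_class _ (fun x => ((eps x : ℂˣ) : ℂ))]
      · have h4 : indFun (⊤ : Subgroup (N ≃ₐ[ℚ] N)) (fun _ => 1) g = 1 := by
          unfold indFun
          rw [Finset.sum_congr rfl fun x _ => if_pos (Subgroup.mem_top _), Finset.sum_const,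
            Finset.card_univ, nsmul_eq_mul, mul_one, Subgroup.card_top,
            Nat.card_eq_fintype_card, div_self]
          exact_mod_cast Fintype.card_ne_zero
        rw [h4, mul_one]
      · intro x g
        rw [map_mul, map_mul, map_inv, mul_comm, ← mul_assoc, mul_inv_cancel, one_mul]
    rw [h2]
    ring
  rw [h1]
  refine Submodule.sub_mem _ (Submodule.subset_span ⟨_, _, Or.inl ?_, rfl⟩)
    (Submodule.subset_span ⟨_, _, Or.inr ?_, rfl⟩)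
  · refine ⟨fun c hc hcC => ?_, fun _ _ _ => rfl, fun _ _ _ _ => rfl⟩
    have h2 : eps c = 1 := hc
    rw [hccm c hcC] at h2
    exact h11 h2
  · intro c hcC
    refine ⟨Subgroup.mem_top _, ?_⟩
    show ((eps c : ℂˣ) : ℂ) = -1
    rw [hccm c hcC]
    simp

theorem typeB_infl (hINF : Stmt_UINFL) {N₁ N : Type} [Field N₁] [NumberField N₁] [IsGalois ℚ N₁]
    [Field N] [NumberField N] [IsGalois ℚ N] [Algebra N₁ N] (Ψ : (N₁ ≃ₐ[ℚ] N₁) → ℂ)
    (hΨ : Ψ ∈ SpanQ (G := N₁ ≃ₐ[ℚ] N₁) (fun H ψ => TypeB H ψ)) :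
    (fun g : N ≃ₐ[ℚ] N => Ψ (AlgEquiv.restrictNormalHom N₁ g)) ∈
      SpanQ (G := N ≃ₐ[ℚ] N) (fun H ψ => TypeB H ψ) := by
  refine spanQ_mono ?_ (hINF (N ≃ₐ[ℚ] N) (N₁ ≃ₐ[ℚ] N₁) (AlgEquiv.restrictNormalHom N₁) Ψ _
    (AlgEquiv.restrictNormalHom_surjective N) hΨ)
  rintro H' ψ' ⟨H, ψ, hB, rfl, hψ⟩ c hc
  obtain ⟨h1, h2⟩ := hB _ (cc_restrict (L := N₁) hc)
  refine ⟨h1, ?_⟩
  rw [hψ ⟨c, h1⟩ ⟨_, h1⟩ rfl]
  exact h2

end UALG

theorem UALG_thm (hART : Stmt_UART) (hCYC : Stmt_UCYC) (hMK : Stmt_UMACK) (hIND : Stmt_UIND)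
    (hINF : Stmt_UINFL) (hEXT : Stmt_UEXT) (hRAM : Stmt_URAM) (hFK : Stmt_UFK)
    (hFKI : Stmt_UFKI) (hCEN : Stmt_UCEN) (hGLOB : Stmt_UGLOB) : Stmt_UALG := by
  intro L _ _ _ T χ hχ
  -- adjoin `i`
  obtain ⟨L', _, _, _, _, hsp⟩ := hEXT L (Polynomial.X ^ 2 + 1)
    (Polynomial.Monic.ne_zero (by monicity!))
  have hi : ∃ i : L', i ^ 2 = -1 := by
    have h1 : ((Polynomial.X ^ 2 + 1 : Polynomial L).map (algebraMap L L')).degree ≠ 0 := by
      rw [Polynomial.degree_map]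
      have : (Polynomial.X ^ 2 + 1 : Polynomial L).degree = 2 := by compute_degree!
      rw [this]
      norm_num
    obtain ⟨i, hi⟩ := hsp.exists_eval_eq_zero h1
    refine ⟨i, ?_⟩
    rw [Polynomial.eval_map, Polynomial.eval₂_add, Polynomial.eval₂_pow, Polynomial.eval₂_X,
      Polynomial.eval₂_one] at hi
    exact eq_neg_of_add_eq_zero_left hi
  set χ' : (L' ≃ₐ[ℚ] L') → ℂ := fun g => χ (AlgEquiv.restrictNormalHom L g) with hχ'
  have hχ2 : χ' ∈ SpanQ (G := L' ≃ₐ[ℚ] L') (fun _ _ => True) :=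
    UALG.spanQ_mono (fun _ _ _ => trivial)
      (hINF (L' ≃ₐ[ℚ] L') (L ≃ₐ[ℚ] L) (AlgEquiv.restrictNormalHom L) χ _
        (AlgEquiv.restrictNormalHom_surjective L') hχ)
  obtain ⟨Tr, hTr⟩ := hRAM L'
  obtain ⟨N₁, _, _, _, _, Ψ, hΨ, hloc⟩ := hGLOB L' (T ∪ Tr) χ' hχ2
  have hi1 : ∃ i : N₁, i ^ 2 = -1 := by
    obtain ⟨i, hi⟩ := hi
    exact ⟨algebraMap L' N₁ i, by rw [← map_pow, hi, map_neg, map_one]⟩
  -- the function `f₀` and the constant
  set f₀ : (N₁ ≃ₐ[ℚ] N₁) → ℂ := fun g => χ' (AlgEquiv.restrictNormalHom L' g) - Ψ g with hf₀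
  have hf₀m : f₀ ∈ SpanQ (G := N₁ ≃ₐ[ℚ] N₁) (fun _ _ => True) := by
    refine Submodule.sub_mem _ (UALG.spanQ_mono (fun _ _ _ => trivial)
      (hINF (N₁ ≃ₐ[ℚ] N₁) (L' ≃ₐ[ℚ] L') (AlgEquiv.restrictNormalHom L') χ' _
        (AlgEquiv.restrictNormalHom_surjective N₁) hχ2))
      (UALG.spanQ_mono (fun _ _ _ => trivial) hΨ)
  obtain ⟨c0, hc0⟩ := UALG.exists_cc N₁
  obtain ⟨r, hr⟩ := UALG.spanQ_invol hf₀m c0 (UALG.cc_sq hc0)
  set f₁ : (N₁ ≃ₐ[ℚ] N₁) → ℂ := fun g => f₀ g - (r : ℂ) with hf₁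
  have hf₁m : f₁ ∈ SpanQ (G := N₁ ≃ₐ[ℚ] N₁) (fun _ _ => True) := by
    have h1 : f₁ = f₀ - r • (fun _ : N₁ ≃ₐ[ℚ] N₁ => (1 : ℂ)) := by
      funext g
      rw [Pi.sub_apply, Pi.smul_apply, Rat.smul_def, mul_one]
    rw [h1]
    exact Submodule.sub_mem _ hf₀m (Submodule.smul_mem _ _ UALG.one_mem)
  have hcc : ∀ c, IsCC c → f₁ c = 0 := by
    intro c hc
    obtain ⟨x, rfl⟩ := UALG.cc_conj hc0 hc
    show f₀ _ - (r : ℂ) = 0
    rw [UALG.spanQ_class hf₀m, hr, sub_self]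
  obtain ⟨Tr1, hTr1⟩ := hRAM N₁
  -- the tower
  obtain ⟨Na, _, _, _, _, hNa⟩ := hFK N₁ ((T ∪ Tr) ∪ Tr1)
  obtain ⟨N₂, _, _, _, _, hN2⟩ := hFKI Na ((T ∪ Tr) ∪ Tr1)
  let a12 : Algebra N₁ N₂ := ((algebraMap Na N₂).comp (algebraMap N₁ Na)).toAlgebra
  have t1 : IsScalarTower N₁ Na N₂ := IsScalarTower.of_algebraMap_eq fun x => rfl
  obtain ⟨Nb, _, _, _, _, hNb⟩ := hFK N₂ ((T ∪ Tr) ∪ Tr1)
  let a1b : Algebra N₁ Nb := ((algebraMap N₂ Nb).comp (algebraMap N₁ N₂)).toAlgebra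
  obtain ⟨N, _, _, _, _, hN⟩ := hCEN Nb
  let a2N : Algebra N₂ N := ((algebraMap Nb N).comp (algebraMap N₂ Nb)).toAlgebra
  have t2 : IsScalarTower N₂ Nb N := IsScalarTower.of_algebraMap_eq fun x => rfl
  let a1N : Algebra N₁ N := ((algebraMap N₂ N).comp (algebraMap N₁ N₂)).toAlgebra
  have t3 : IsScalarTower N₁ N₂ N := IsScalarTower.of_algebraMap_eq fun x => rfl
  have t4 : IsScalarTower N₁ Nb N := IsScalarTower.of_algebraMap_eq fun x => rfl
  let aL'N : Algebra L' N := ((algebraMap N₁ N).comp (algebraMap L' N₁)).toAlgebra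
  have t5 : IsScalarTower L' N₁ N := IsScalarTower.of_algebraMap_eq fun x => rfl
  let aLN : Algebra L N := ((algebraMap L' N).comp (algebraMap L L')).toAlgebra
  have t6 : IsScalarTower L L' N := IsScalarTower.of_algebraMap_eq fun x => rfl
  refine ⟨N, inferInstance, inferInstance, aLN, inferInstance, ?_⟩
  have hA := UALG.typeA_span (N₁ := N₁) (N₂ := N₂) (N := N) hART hCYC hMK hIND hINF T (T ∪ Tr)
    ((T ∪ Tr) ∪ Tr1) Finset.subset_union_left Finset.subset_union_left f₁ hf₁m hi1 hcc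
    (by
      intro W x a hW ha hT
      have h1 := (hloc W x a hW ha).1 hT
      show χ' _ - Ψ _ - (r : ℂ) = χ' _ - Ψ _ - (r : ℂ)
      linear_combination -h1)
    (by
      intro W x a hW ha hF
      by_cases hT : AboveT (T ∪ Tr) W
      · have h1 := (hloc W x a hW ha).1 hT
        show χ' _ - Ψ _ - (r : ℂ) = χ' _ - Ψ _ - (r : ℂ)
        linear_combination -h1
      · have h1 := (hloc W x a hW ha).2 hT hF
        have h2 : (AlgEquiv.restrictNormalHom L' (x ^ a * x⁻¹) : L' ≃ₐ[ℚ] L') = 1 := by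
          refine hTr (W.under (𝓞 L')) ?_ _ (RB.frob_restrict hF)
          rw [UALG.aboveT_under]
          exact fun h => hT (UALG.aboveT_mono Finset.subset_union_right h)
        rw [map_mul, map_inv, mul_inv_eq_one] at h2
        show χ' _ - Ψ _ - (r : ℂ) = χ' _ - Ψ _ - (r : ℂ)
        rw [h1, h2])
    (by
      intro W hW g hg
      exact hTr1 W (fun h => hW (UALG.aboveT_mono Finset.subset_union_right h)) g hg)
    (by
      intro h P Q hP hQ hTP hTQ hne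
      have h1 := hNa (AlgEquiv.restrictNormalHom Na h) (P.under (𝓞 Na)) (Q.under (𝓞 Na))
        (RB.dec_restrict hP) (RB.dec_restrict hQ) ((UALG.aboveT_under _ _).2 hTP)
        ((UALG.aboveT_under _ _).2 hTQ) (by
          rw [RB.under_under, RB.under_under]
          exact hne)
      rwa [UALG.res12] at h1)
    (by
      intro c W hc hW hT
      have h1 := hN2 c W hc hW hT
      rw [← UALG.res12 (N₂ := Na), h1, map_one])
    (by
      intro h P Q hP hQ hTP hTQ hne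
      have h1 := hNb (AlgEquiv.restrictNormalHom Nb h) (P.under (𝓞 Nb)) (Q.under (𝓞 Nb))
        (RB.dec_restrict hP) (RB.dec_restrict hQ) ((UALG.aboveT_under _ _).2 hTP)
        ((UALG.aboveT_under _ _).2 hTQ) (by
          rw [RB.under_under, RB.under_under]
          exact hne)
      rwa [UALG.res12] at h1)
    (by
      intro g c hc hgc
      rcases hN g c hc hgc with h1 | h1
      · left
        rw [← UALG.res12 (N₂ := Nb), h1, map_one]
      · right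
        rw [← UALG.res12 (N₁ := N₁) (N₂ := Nb) g, h1, UALG.res12])
  have hB := UALG.typeB_infl (N := N) hINF Ψ hΨ
  have hiN : ∃ i : N, i ^ 2 = -1 := by
    obtain ⟨i, hi⟩ := hi1
    exact ⟨algebraMap N₁ N i, by rw [← map_pow, hi, map_neg, map_one]⟩
  have hone := UALG.one_AB N T hiN
  have hsum : (fun g : N ≃ₐ[ℚ] N => χ (AlgEquiv.restrictNormalHom L g)) =
      (fun g : N ≃ₐ[ℚ] N => f₁ (AlgEquiv.restrictNormalHom N₁ g)) +
        (fun g : N ≃ₐ[ℚ] N => Ψ (AlgEquiv.restrictNormalHom N₁ g)) +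
        r • (fun _ : N ≃ₐ[ℚ] N => (1 : ℂ)) := by
    funext g
    rw [Pi.add_apply, Pi.add_apply, Pi.smul_apply, Rat.smul_def, mul_one]
    show χ (AlgEquiv.restrictNormalHom L g) =
      χ (AlgEquiv.restrictNormalHom L (AlgEquiv.restrictNormalHom L'
        (AlgEquiv.restrictNormalHom N₁ g : N₁ ≃ₐ[ℚ] N₁) : L' ≃ₐ[ℚ] L')) -
        Ψ (AlgEquiv.restrictNormalHom N₁ g) - (r : ℂ) + Ψ (AlgEquiv.restrictNormalHom N₁ g) +
        (r : ℂ)
    rw [UALG.res12 (N₁ := L'), UALG.res12 (N₁ := L)]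
    ring
  rw [hsum]
  exact Submodule.add_mem _ (Submodule.add_mem _ (UALG.spanQ_mono (fun _ _ h => Or.inl h) hA)
    (UALG.spanQ_mono (fun _ _ h => Or.inr h) hB)) (Submodule.smul_mem _ _ hone)

end StarkC
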