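import Pool.Agent.StarkU.Stmts

/-!
# `UART`: Artin's induction theorem for the trivial character

See `PAPER.md`.
-/

open NumberField IsDedekindDomain
open scoped TensorProduct Classical

namespace StarkC

namespace UART

variable {G : Type} [Group G] [Fintype G]

/-- The number of `h` which generate the same cyclic group as `g`. -/
noncomputable def ph (g : G) : ℕ :=
  (Finset.univ.filter (fun h : G => Subgroup.zpowers h = Subgroup.zpowers g)).card

/-- The number of `y` such that `y⁻¹ x y` generates the same cyclic group as `g`. -/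
noncomputable def F (g : G) : G → ℂ := fun x =>
  ∑ y : G, if Subgroup.zpowers (y⁻¹ * x * y) = Subgroup.zpowers g then (1 : ℂ) else 0

/-- The span of the permutation characters of cyclic subgroups. -/
noncomputable def V (G : Type) [Group G] [Fintype G] : Submodule ℚ (G → ℂ) :=
  Submodule.span ℚ (Set.range (fun g : G => indFun (Subgroup.zpowers g) (fun _ => (1 : ℂ))))

theorem ph_pos (g : G) : 0 < ph g :=
  Finset.card_pos.mpr ⟨g, by simp⟩

theorem ph_congr {g h : G} (e : Subgroup.zpowers h = Subgroup.zpowers g) : ph h = ph g := by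
  unfold ph
  rw [e]

theorem F_congr {g h : G} (e : Subgroup.zpowers h = Subgroup.zpowers g) : F h = F g := by
  funext x
  unfold F
  rw [e]

theorem sum_ph (z : G) :
    ∑ h : G, (if Subgroup.zpowers z = Subgroup.zpowers h then (1 : ℂ) / (ph h : ℂ) else 0) = 1 := by
  have h1 : ∀ h : G, (if Subgroup.zpowers z = Subgroup.zpowers h then (1 : ℂ) / (ph h : ℂ) else 0) =
      (if Subgroup.zpowers h = Subgroup.zpowers z then (1 : ℂ) / (ph z : ℂ) else 0) := by
    intro h
    by_cases e : Subgroup.zpowers h = Subgroup.zpowers z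
    · rw [if_pos e, if_pos e.symm, ph_congr e]
    · rw [if_neg e, if_neg (fun e' => e e'.symm)]
  rw [Finset.sum_congr rfl (fun h _ => h1 h), ← Finset.sum_filter, Finset.sum_const, nsmul_eq_mul]
  have hp : (ph z : ℂ) ≠ 0 := by exact_mod_cast (ph_pos z).ne'
  show ((ph z : ℕ) : ℂ) * (1 / (ph z : ℂ)) = 1
  field_simp

/-- The decomposition of the permutation character of a cyclic group. -/
theorem ind_eq (g x : G) :
    (Nat.card (Subgroup.zpowers g) : ℂ) * indFun (Subgroup.zpowers g) (fun _ => (1 : ℂ)) x =
      ∑ h : G, (if h ∈ Subgroup.zpowers g then (1 : ℂ) / (ph h : ℂ) * F h x else 0) := by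
  have hc : (Nat.card (Subgroup.zpowers g) : ℂ) ≠ 0 := by
    exact_mod_cast (Nat.card_pos (α := Subgroup.zpowers g)).ne'
  have h1 : (Nat.card (Subgroup.zpowers g) : ℂ) *
      indFun (Subgroup.zpowers g) (fun _ => (1 : ℂ)) x =
      ∑ y : G, if y⁻¹ * x * y ∈ Subgroup.zpowers g then (1 : ℂ) else 0 := by
    unfold indFun
    field_simp
  rw [h1]
  have h2 : ∀ h : G, (if h ∈ Subgroup.zpowers g then (1 : ℂ) / (ph h : ℂ) * F h x else 0) =
      ∑ y : G, (if h ∈ Subgroup.zpowers g then
        (if Subgroup.zpowers (y⁻¹ * x * y) = Subgroup.zpowers h then (1 : ℂ) / (ph h : ℂ) else 0)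
        else 0) := by
    intro h
    by_cases e : h ∈ Subgroup.zpowers g
    · simp only [if_pos e]
      unfold F
      rw [Finset.mul_sum]
      refine Finset.sum_congr rfl fun y _ => ?_
      split_ifs <;> simp
    · simp only [if_neg e, Finset.sum_const_zero]
  rw [Finset.sum_congr rfl (fun h _ => h2 h), Finset.sum_comm]
  refine Finset.sum_congr rfl fun y _ => ?_
  by_cases e : y⁻¹ * x * y ∈ Subgroup.zpowers g
  · rw [if_pos e]
    refine (sum_ph (y⁻¹ * x * y)).symm.trans (Finset.sum_congr rfl fun h _ => ?_)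
    by_cases e' : Subgroup.zpowers (y⁻¹ * x * y) = Subgroup.zpowers h
    · have h3 : h ∈ Subgroup.zpowers g := by
        have h4 : Subgroup.zpowers h ≤ Subgroup.zpowers g := by
          rw [← e']
          exact (Subgroup.zpowers_le).mpr e
        exact h4 (Subgroup.mem_zpowers h)
      rw [if_pos h3]
    · rw [if_neg e', ite_self]
  · rw [if_neg e]
    symm
    refine Finset.sum_eq_zero fun h _ => ?_
    by_cases e' : Subgroup.zpowers (y⁻¹ * x * y) = Subgroup.zpowers h
    · have h3 : h ∉ Subgroup.zpowers g := by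
        intro h4
        apply e
        have h5 : Subgroup.zpowers (y⁻¹ * x * y) ≤ Subgroup.zpowers g := by
          rw [e']
          exact (Subgroup.zpowers_le).mpr h4
        exact h5 (Subgroup.mem_zpowers _)
      rw [if_neg h3]
    · rw [if_neg e']
      simp

theorem mem_V (g : G) : F g ∈ V G := by
  induction' hn : Nat.card (Subgroup.zpowers g) using Nat.strong_induction_on with n ih generalizing g
  -- the sum over the generators of the cyclic group is `F g`
  have hsplit : F g = (Nat.card (Subgroup.zpowers g) : ℚ) •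
      indFun (Subgroup.zpowers g) (fun _ => (1 : ℂ)) -
      ∑ h ∈ Finset.univ.filter (fun h : G => h ∈ Subgroup.zpowers g ∧
        Subgroup.zpowers h ≠ Subgroup.zpowers g), ((1 : ℚ) / (ph h : ℚ)) • F h := by
    funext x
    have h1 := ind_eq g x
    have h2 : ∑ h : G, (if h ∈ Subgroup.zpowers g then (1 : ℂ) / (ph h : ℂ) * F h x else 0) =
        ∑ h : G, (if Subgroup.zpowers g = Subgroup.zpowers h then
          (1 : ℂ) / (ph h : ℂ) else 0) * F g x +
        ∑ h : G, (if h ∈ Subgroup.zpowers g ∧ Subgroup.zpowers h ≠ Subgroup.zpowers g then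
          (1 : ℂ) / (ph h : ℂ) * F h x else 0) := by
      rw [← Finset.sum_add_distrib]
      refine Finset.sum_congr rfl fun h _ => ?_
      by_cases e : Subgroup.zpowers g = Subgroup.zpowers h
      · have h3 : h ∈ Subgroup.zpowers g := by
          rw [e]
          exact Subgroup.mem_zpowers h
        rw [if_pos h3, if_pos e, if_neg (fun h4 => h4.2 e.symm), F_congr e, add_zero]
      · rw [if_neg e, zero_mul, zero_add]
        by_cases h3 : h ∈ Subgroup.zpowers g
        · rw [if_pos h3, if_pos ⟨h3, fun e' => e e'.symm⟩]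
        · rw [if_neg h3, if_neg (fun h4 => h3 h4.1)]
    rw [h2, ← Finset.sum_mul, sum_ph, one_mul] at h1
    simp only [Pi.sub_apply, Pi.smul_apply, Finset.sum_apply, Rat.smul_def]
    rw [Finset.sum_filter]
    push_cast
    rw [h1]
    ring
  rw [hsplit]
  refine Submodule.sub_mem _ (Submodule.smul_mem _ _ (Submodule.subset_span ⟨g, rfl⟩)) ?_
  refine Submodule.sum_mem _ fun h hh => Submodule.smul_mem _ _ ?_
  rw [Finset.mem_filter] at hh
  refine ih _ ?_ h rfl
  rw [← hn]
  have hle : Subgroup.zpowers h ≤ Subgroup.zpowers g := (Subgroup.zpowers_le).mpr hh.2.1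
  have hlt : (Subgroup.zpowers h : Set G) ⊂ (Subgroup.zpowers g : Set G) := by
    refine lt_of_le_of_ne hle ?_
    intro e
    exact hh.2.2 (SetLike.coe_injective e)
  exact Set.ncard_lt_ncard hlt (Set.toFinite _)

theorem one_mem : (fun _ : G => (1 : ℂ)) ∈ V G := by
  have hG : (Fintype.card G : ℂ) ≠ 0 := by
    exact_mod_cast (Fintype.card_pos (α := G)).ne'
  have h1 : (fun _ : G => (1 : ℂ)) = ((1 : ℚ) / (Fintype.card G : ℚ)) •
      ∑ h : G, ((1 : ℚ) / (ph h : ℚ)) • F h := by
    funext x
    simp only [Pi.smul_apply, Finset.sum_apply, Rat.smul_def]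
    push_cast
    have h2 : ∑ h : G, (1 : ℂ) / (ph h : ℂ) * F h x = (Fintype.card G : ℂ) := by
      have h3 : ∀ h : G, (1 : ℂ) / (ph h : ℂ) * F h x = ∑ y : G,
          (if Subgroup.zpowers (y⁻¹ * x * y) = Subgroup.zpowers h then
            (1 : ℂ) / (ph h : ℂ) else 0) := by
        intro h
        unfold F
        rw [Finset.mul_sum]
        refine Finset.sum_congr rfl fun y _ => ?_
        split_ifs <;> simp
      rw [Finset.sum_congr rfl (fun h _ => h3 h), Finset.sum_comm,
        Finset.sum_congr rfl (fun y _ => sum_ph (y⁻¹ * x * y))]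
      simp
    rw [h2]
    field_simp
  rw [h1]
  exact Submodule.smul_mem _ _ (Submodule.sum_mem _ fun h _ =>
    Submodule.smul_mem _ _ (mem_V h))

end UART

theorem UART_thm : Stmt_UART := by
  intro G _ _
  obtain ⟨a, ha⟩ := (Submodule.mem_span_range_iff_exists_fun ℚ).mp (UART.one_mem (G := G))
  refine ⟨a, fun x => ?_⟩
  have h := congrFun ha x
  simp only [Finset.sum_apply, Pi.smul_apply, Rat.smul_def] at h
  exact h.symm

end StarkC
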