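import Pool.Agent.StarkU.Stmts
import Pool.Agent.Stark.AR1

/-!
# The centraliser of a complex conjugation (module UCEN)
-/

open NumberField
open scoped Classical

namespace StarkC.UCEN

/-- The stabiliser element attached to `h`. -/
noncomputable def th (M : Type) [Field M] [NumberField M] [IsGalois ℚ M] (h : M ≃ₐ[ℚ] M) : M :=
  (AR1.exists_theta ℚ M (Subgroup.zpowers h)).choose

theorem th_spec (M : Type) [Field M] [NumberField M] [IsGalois ℚ M] (h g : M ≃ₐ[ℚ] M) :
    g (th M h) = th M h ↔ g ∈ Subgroup.zpowers h :=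
  (AR1.exists_theta ℚ M (Subgroup.zpowers h)).choose_spec g

/-- The elements whose square roots are adjoined. -/
noncomputable def el (M : Type) [Field M] [NumberField M] [IsGalois ℚ M]
    (p : (M ≃ₐ[ℚ] M) × ((M →+* ℂ) × (M →+* ℂ))) : M :=
  th M p.1 - ((AR1.qb (p.2.1 (th M p.1)).re (p.2.2 (th M p.1)).re : ℚ) : M)

/-- The polynomial which is split. -/
noncomputable def pol (M : Type) [Field M] [NumberField M] [IsGalois ℚ M] : Polynomial M :=
  ∏ p : (M ≃ₐ[ℚ] M) × ((M →+* ℂ) × (M →+* ℂ)), (Polynomial.X ^ 2 - Polynomial.C (el M p))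

theorem pol_ne (M : Type) [Field M] [NumberField M] [IsGalois ℚ M] : pol M ≠ 0 := by
  apply Finset.prod_ne_zero_iff.mpr
  intro p _
  exact (Polynomial.monic_X_pow_sub_C _ two_ne_zero).ne_zero

theorem root {M N : Type} [Field M] [NumberField M] [IsGalois ℚ M] [Field N] [NumberField N]
    [Algebra M N] (hN : ((pol M).map (algebraMap M N)).Splits)
    (p : (M ≃ₐ[ℚ] M) × ((M →+* ℂ) × (M →+* ℂ))) :
    ∃ b : N, b ^ 2 = algebraMap M N (el M p) := by
  have h1 : ((Polynomial.X ^ 2 - Polynomial.C (el M p) : Polynomial M).map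
      (algebraMap M N)).Splits := by
    apply hN.of_dvd
    · exact (Polynomial.map_ne_zero_iff (algebraMap M N).injective).mpr (pol_ne M)
    · apply Polynomial.map_dvd
      exact Finset.dvd_prod_of_mem _ (Finset.mem_univ p)
  have h2 : ((Polynomial.X ^ 2 - Polynomial.C (el M p) : Polynomial M).map
      (algebraMap M N)).degree ≠ 0 := by
    rw [Polynomial.degree_map, Polynomial.degree_X_pow_sub_C (by norm_num)]
    norm_num
  obtain ⟨b, hb⟩ := h1.exists_eval_eq_zero h2
  refine ⟨b, ?_⟩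
  simp only [Polynomial.map_sub, Polynomial.map_pow, Polynomial.map_X, Polynomial.map_C,
    Polynomial.eval_sub, Polynomial.eval_pow, Polynomial.eval_X, Polynomial.eval_C] at hb
  exact sub_eq_zero.mp hb

end StarkC.UCEN

namespace StarkC

open StarkC.AR1 StarkC.UCEN

theorem UCEN_thm (hE : Stmt_UEXT) : Stmt_UCEN := by
  intro M _ _ _
  obtain ⟨N, _, _, _, _, hN⟩ := hE M (pol M) (pol_ne M)
  refine ⟨N, inferInstance, inferInstance, inferInstance, inferInstance, ?_⟩
  intro g c hc hgc
  obtain ⟨Φ, hconj⟩ := hc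
  have hcc : c * c = 1 := by
    ext x
    apply Φ.injective
    have h1 : Φ (c (c x)) = star (Φ (c x)) := hconj.eq (c x)
    have h2 : Φ (c x) = star (Φ x) := hconj.eq x
    rw [h2, star_star] at h1
    exact h1
  set h0 : M ≃ₐ[ℚ] M := AlgEquiv.restrictNormalHom M c with hh0
  have hh0sq : h0 ^ 2 = 1 := by
    rw [hh0, ← map_pow, sq, hcc, map_one]
  have hres : ∀ (g : N ≃ₐ[ℚ] N) (x : M),
      algebraMap M N ((AlgEquiv.restrictNormalHom M g) x) = g (algebraMap M N x) :=
    fun g x => AlgEquiv.restrictNormal_commutes g M x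
  set θ : M := th M h0 with hθ
  have hcθ : h0 θ = θ := (th_spec M h0 h0).mpr (Subgroup.mem_zpowers h0)
  have hcu' : ∀ x : N, c (g x) = g (c x) := fun x => by
    have := DFunLike.congr_fun hgc x
    exact this.symm
  set t : N := algebraMap M N θ with ht
  have hct : c t = t := by rw [ht, ← hres, ← hh0, hcθ]
  have hreal : ∀ x : N, c x = x → ((Φ x).re : ℂ) = Φ x := by
    intro x hx
    have h1 : Φ (c x) = (starRingEnd ℂ) (Φ x) := hconj.eq x
    rw [hx] at h1
    exact Complex.conj_eq_iff_re.mp h1.symm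
  have key : ∀ τ₁ τ₂ : M →+* ℂ, ∃ b : N,
      b ^ 2 = t - ((qb (τ₁ θ).re (τ₂ θ).re : ℚ) : N) := by
    intro τ₁ τ₂
    obtain ⟨y, hy⟩ := root hN (h0, (τ₁, τ₂))
    refine ⟨y, ?_⟩
    rw [hy, el, map_sub, map_ratCast]
  have hgθ : (AlgEquiv.restrictNormalHom M g) θ = θ := by
    by_contra hne
    have hne2 : (Φ t).re ≠ (Φ (g t)).re := by
      intro h
      have h1 : Φ t = Φ (g t) := by
        rw [← hreal t hct, ← hreal (g t) (by rw [hcu', hct]), h]
      have h2 := Φ.injective h1
      rw [ht, ← hres] at h2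
      exact hne ((algebraMap M N).injective h2).symm
    rcases lt_or_gt_of_ne hne2 with hlt | hlt
    · obtain ⟨b, hb⟩ := key (Φ.comp (algebraMap M N))
        ((Φ.comp (g : N →+* N)).comp (algebraMap M N))
      have hs := qb_spec hlt
      exact core Φ c g hconj hgc t hct _ b hb (Or.inl hs)
    · obtain ⟨b, hb⟩ := key ((Φ.comp (g : N →+* N)).comp (algebraMap M N))
        (Φ.comp (algebraMap M N))
      have hs := qb_spec hlt
      exact core Φ c g hconj hgc t hct _ b hb (Or.inr hs)
  obtain ⟨k, hk⟩ := Subgroup.mem_zpowers_iff.mp ((th_spec M h0 _).mp hgθ)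
  rcases Int.even_or_odd' k with ⟨j, hj | hj⟩
  · left
    rw [← hk, hj, zpow_mul, zpow_ofNat, hh0sq, one_zpow]
  · right
    rw [← hk, hj, zpow_add, zpow_mul, zpow_ofNat, hh0sq, one_zpow, one_mul, zpow_one]

end StarkC
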