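import Pool.Agent.StarkU.Stmts

/-!
# Module UCYC (MP_46b841_nt): virtual characters of a cyclic group with restricted values
-/

open scoped Classical

namespace StarkC

namespace UCYC

open Polynomial

/-! ### Cyclotomic descent -/

theorem exists_root_aux (n : ℕ) (hn : 0 < n) [NeZero n] (L : Type) [Field L] [Algebra ℚ L]
    [IsCyclotomicExtension {n} ℚ L] : ∃ ζ : ℂ, IsPrimitiveRoot ζ n ∧
    ∀ m : ℕ, m ∣ n → 0 < m → ∀ F : ℚ[X],
      (∀ a : ℕ, a.Coprime n → (m : ℤ) ∣ (a : ℤ) - 1 → aeval (ζ ^ a) F = aeval ζ F) →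
      ∃ P : ℚ[X], ∀ a : ℕ, a.Coprime n → aeval (ζ ^ a) F = aeval ((ζ ^ (n / m)) ^ a) P := by
  set z : L := IsCyclotomicExtension.zeta n ℚ L with hz
  have hzp : IsPrimitiveRoot z n := IsCyclotomicExtension.zeta_spec n ℚ L
  have : IsGalois ℚ L := IsCyclotomicExtension.isGalois {n} ℚ L
  have : FiniteDimensional ℚ L := IsCyclotomicExtension.finiteDimensional {n} ℚ L
  have : CharZero L := algebraRat.charZero L
  obtain ⟨φ⟩ : Nonempty (L →ₐ[ℚ] ℂ) := ⟨IsAlgClosed.lift⟩
  have hφ : Function.Injective φ := φ.toRingHom.injective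
  have hζ : IsPrimitiveRoot (φ z) n := hzp.map_of_injective hφ
  refine ⟨φ z, hζ, ?_⟩
  intro m hm hm0 F hF
  obtain ⟨r, hr⟩ := hm
  have hr0 : 0 < r := by
    rcases Nat.eq_zero_or_pos r with h | h
    · rw [h, mul_zero] at hr
      omega
    · exact h
  have hnm : n / m = r := by
    rw [hr]
    exact Nat.mul_div_cancel_left r hm0
  rw [hnm]
  have hae : ∀ (a : ℕ) (G : ℚ[X]), φ (aeval (z ^ a) G) = aeval ((φ z) ^ a) G := by
    intro a G
    rw [← map_pow, aeval_algHom_apply]
  -- the element is in the subfield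
  have hy : aeval z F ∈ IntermediateField.adjoin ℚ {z ^ r} := by
    rw [← IsGalois.fixedField_fixingSubgroup (IntermediateField.adjoin ℚ {z ^ r})]
    rw [IntermediateField.mem_fixedField_iff]
    intro σ hσ
    rw [IntermediateField.mem_fixingSubgroup_iff] at hσ
    have h1 : σ (z ^ r) = z ^ r := hσ _ (IntermediateField.mem_adjoin_simple_self ℚ _)
    have h2 : (σ z) ^ n = 1 := by rw [← map_pow, hzp.pow_eq_one, map_one]
    obtain ⟨a, _, ha⟩ := hzp.eq_pow_of_pow_eq_one h2
    have h3 : IsPrimitiveRoot (z ^ a) n := by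
      rw [ha]
      exact hzp.map_of_injective σ.injective
    have h4 : a.Coprime n := (hzp.pow_iff_coprime hn a).1 h3
    have h5 : (m : ℤ) ∣ (a : ℤ) - 1 := by
      rw [map_pow, ← ha, ← pow_mul] at h1
      have hunit : z ≠ 0 := hzp.ne_zero hn.ne'
      have h6 : z ^ ((a : ℤ) * r - r) = 1 := by
        rw [zpow_sub₀ hunit]
        have e1 : z ^ ((a : ℤ) * r) = z ^ (a * r) := by
          rw [← zpow_natCast z (a * r)]
          push_cast
          rfl
        rw [e1, zpow_natCast, h1, div_self (pow_ne_zero _ hunit)]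
      rw [hzp.zpow_eq_one_iff_dvd] at h6
      have h7 : ((m : ℤ) * r) ∣ ((a : ℤ) - 1) * r := by
        have e2 : ((n : ℕ) : ℤ) = (m : ℤ) * r := by rw [hr]; push_cast; ring
        rw [← e2]
        convert h6 using 1
        ring
      exact (mul_dvd_mul_iff_right (by exact_mod_cast hr0.ne')).1 h7
    have h8 := hF a h4 h5
    have h9 : σ (aeval z F) = aeval (z ^ a) F := by
      rw [ha]
      exact (aeval_algHom_apply σ.toAlgHom z F).symm
    rw [h9]
    apply hφ
    rw [hae, h8]
    have := hae 1 F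
    rw [pow_one, pow_one] at this
    exact this.symm
  have hy' : aeval z F ∈ (IntermediateField.adjoin ℚ {z ^ r}).toSubalgebra := hy
  rw [IntermediateField.adjoin_simple_toSubalgebra_of_isAlgebraic
    (Algebra.IsAlgebraic.isAlgebraic _), Algebra.adjoin_singleton_eq_range_aeval] at hy'
  obtain ⟨P, hP⟩ := hy'
  have hP : aeval (z ^ r) P = aeval z F := hP
  refine ⟨P, ?_⟩
  intro a ha
  set Q : ℚ[X] := F - P.comp (X ^ r) with hQ
  have h1 : aeval z Q = 0 := by
    rw [hQ, map_sub, aeval_comp, map_pow, aeval_X, hP, sub_self]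
  have h2 : minpoly ℚ z ∣ Q := minpoly.dvd ℚ z h1
  have hmin : ∀ (K : Type) [Field K] [Algebra ℚ K] (y : K), IsPrimitiveRoot y n →
      minpoly ℚ y = cyclotomic n ℚ := by
    intro K _ _ y hy
    symm
    apply minpoly.eq_of_irreducible_of_monic (cyclotomic.irreducible_rat hn) _
      (cyclotomic.monic n ℚ)
    rw [aeval_def, ← eval_map, map_cyclotomic]
    exact hy.isRoot_cyclotomic hn
  rw [hmin L z hzp, ← hmin ℂ _ ((hζ.pow_iff_coprime hn a).2 ha)] at h2
  obtain ⟨R, hR⟩ := h2
  have h3 : aeval ((φ z) ^ a) Q = 0 := by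
    rw [hR, map_mul, minpoly.aeval, zero_mul]
  rw [hQ, map_sub, aeval_comp, map_pow, aeval_X, sub_eq_zero] at h3
  rw [h3, ← pow_mul, ← pow_mul, mul_comm]

theorem exists_root (n : ℕ) (hn : 0 < n) : ∃ ζ : ℂ, IsPrimitiveRoot ζ n ∧
    ∀ m : ℕ, m ∣ n → 0 < m → ∀ F : ℚ[X],
      (∀ a : ℕ, a.Coprime n → (m : ℤ) ∣ (a : ℤ) - 1 → aeval (ζ ^ a) F = aeval ζ F) →
      ∃ P : ℚ[X], ∀ a : ℕ, a.Coprime n → aeval (ζ ^ a) F = aeval ((ζ ^ (n / m)) ^ a) P := by
  have : NeZero n := ⟨hn.ne'⟩
  have : NeZero ((n : ℕ) : ℚ) := ⟨by exact_mod_cast hn.ne'⟩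
  have h3 := CyclotomicField.isCyclotomicExtension n ℚ
  exact @exists_root_aux n hn _ (CyclotomicField n ℚ) _ _ h3

/-! ### Functions on the cyclic group -/

variable {C : Type} [Group C] [Fintype C]

omit [Fintype C] in
theorem comm_of_cyclic (h : IsCyclic C) (x y : C) : x * y = y * x := by
  obtain ⟨g, hg⟩ := h.exists_generator
  obtain ⟨i, rfl⟩ := hg x
  obtain ⟨j, rfl⟩ := hg y
  exact zpow_mul_comm g i j

theorem indFun_eq (h : IsCyclic C) (B : Subgroup C) (ν : B →* ℂˣ) (x : C) :
    indFun B (extZ ν) x = ((Fintype.card C : ℂ) / (Nat.card B : ℂ)) * extZ ν x := by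
  unfold indFun
  have h1 : ∀ y : C, y⁻¹ * x * y = x := by
    intro y
    rw [mul_assoc, comm_of_cyclic h x y, ← mul_assoc, inv_mul_cancel, one_mul]
  simp only [h1]
  have h2 : (if x ∈ B then extZ ν x else 0) = extZ ν x := by
    unfold extZ
    split_ifs <;> rfl
  rw [h2, Finset.sum_const, Finset.card_univ, nsmul_eq_mul]
  ring

/-- the target space -/
noncomputable abbrev TT (J : Subgroup C) : Submodule ℚ (C → ℂ) :=
  SpanQ (G := C) (fun B ν => ∀ b : B, (b : C) ∈ J → ν b = 1)

theorem ext_mem (h : IsCyclic C) (J B : Subgroup C) (ν : B →* ℂˣ)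
    (hν : ∀ b : B, (b : C) ∈ J → ν b = 1) : (extZ ν : C → ℂ) ∈ TT J := by
  have h1 : (extZ ν : C → ℂ) =
      (((Nat.card B : ℚ) / (Fintype.card C : ℚ))) • indFun B (extZ ν) := by
    funext x
    rw [Pi.smul_apply, indFun_eq h, Rat.smul_def]
    have h2 : (Nat.card B : ℂ) ≠ 0 := by exact_mod_cast Nat.card_pos.ne'
    have h3 : (Fintype.card C : ℂ) ≠ 0 := by exact_mod_cast Fintype.card_pos.ne'
    push_cast
    field_simp
  rw [h1]
  exact Submodule.smul_mem _ _ (Submodule.subset_span ⟨B, ν, hν, rfl⟩)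

/-- indicator of the generators of `B` -/
noncomputable def th (B : Subgroup C) (x : C) : ℂ := if Subgroup.zpowers x = B then 1 else 0

theorem ext_th_mem (h : IsCyclic C) (J : Subgroup C) (N : ℕ) : ∀ (B : Subgroup C),
    Nat.card B ≤ N → ∀ (ν : B →* ℂˣ), (∀ b : B, (b : C) ∈ J → ν b = 1) →
    (fun x => extZ ν x * th B x) ∈ TT J := by
  have : Fintype (Subgroup C) := Fintype.ofFinite _
  induction N with
  | zero =>
    intro B hB
    have := Nat.card_pos (α := B)
    omega
  | succ N ih =>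
    intro B hB ν hν
    have h1 : (fun x => extZ ν x * th B x) = (extZ ν : C → ℂ) -
        ∑ B' ∈ Finset.univ.filter (fun B' : Subgroup C => B' < B),
          (fun x => extZ ν x * th B' x) := by
      funext x
      rw [Pi.sub_apply, Finset.sum_apply]
      by_cases hx : x ∈ B
      · rcases lt_or_eq_of_le (show Subgroup.zpowers x ≤ B by
          rwa [Subgroup.zpowers_le]) with hlt | heq
        · rw [Finset.sum_eq_single (Subgroup.zpowers x)]
          · unfold th
            rw [if_neg hlt.ne, if_pos rfl]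
            ring
          · intro B' _ hne
            unfold th
            rw [if_neg (fun h => hne h.symm), mul_zero]
          · intro hn
            exact absurd (show Subgroup.zpowers x ∈ Finset.univ.filter
              (fun B' : Subgroup C => B' < B) from
                Finset.mem_filter.2 ⟨Finset.mem_univ _, hlt⟩) hn
        · rw [Finset.sum_eq_zero]
          · unfold th
            rw [if_pos heq]
            ring
          · intro B' hB'
            unfold th
            rw [if_neg, mul_zero]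
            intro h2
            rw [Finset.mem_filter, ← h2, heq] at hB'
            exact lt_irrefl _ hB'.2
      · have h2 : extZ ν x = 0 := by
          unfold extZ
          rw [dif_neg hx]
        rw [h2]
        simp
    rw [h1]
    apply Submodule.sub_mem _ (ext_mem h J B ν hν)
    apply Submodule.sum_mem
    intro B' hB'
    rw [Finset.mem_filter] at hB'
    have hlt := hB'.2
    have hcard : Nat.card B' < Nat.card B := by
      apply lt_of_le_of_ne (Nat.card_le_card_of_injective _ (Subgroup.inclusion_injective hlt.le))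
      intro heq
      exact hlt.ne (Subgroup.eq_of_le_of_card_ge hlt.le heq.ge)
    have h2 := ih B' (by omega) (ν.comp (Subgroup.inclusion hlt.le)) (by
      intro b hb
      exact hν _ hb)
    convert h2 using 1
    funext x
    by_cases hx : Subgroup.zpowers x = B'
    · have hxB' : x ∈ B' := by
        rw [← hx]
        exact Subgroup.mem_zpowers x
      have e1 : extZ ν x = extZ (ν.comp (Subgroup.inclusion hlt.le)) x := by
        unfold extZ
        rw [dif_pos hxB', dif_pos (hlt.le hxB')]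
        rfl
      rw [e1]
    · have e1 : th B' x = 0 := by
        unfold th
        rw [if_neg hx]
      rw [e1, mul_zero, mul_zero]

/-- values on the generators of a cyclic subgroup -/
theorem exists_F (h : IsCyclic C) (x₀ : C) (ζ : ℂ) (hζ : IsPrimitiveRoot ζ (orderOf x₀))
    (f : C → ℂ) (hf : f ∈ SpanQ (G := C) (fun _ _ => True)) :
    ∃ F : ℚ[X], ∀ a : ℕ, a.Coprime (orderOf x₀) → f (x₀ ^ a) = aeval (ζ ^ a) F := by
  have : NeZero (orderOf x₀) := ⟨(orderOf_pos x₀).ne'⟩
  unfold SpanQ at hf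
  induction hf using Submodule.span_induction with
  | mem f hf =>
    obtain ⟨B, ν, -, rfl⟩ := hf
    by_cases hx : x₀ ∈ B
    · have h1 : (((ν ⟨x₀, hx⟩ : ℂˣ) : ℂ)) ^ (orderOf x₀) = 1 := by
        rw [← Units.val_pow_eq_pow_val, ← map_pow]
        have : (⟨x₀, hx⟩ : B) ^ orderOf x₀ = 1 := by
          apply Subtype.ext
          simp [pow_orderOf_eq_one]
        rw [this, map_one, Units.val_one]
      obtain ⟨j, _, hj⟩ := hζ.eq_pow_of_pow_eq_one h1
      refine ⟨Polynomial.C ((Fintype.card C : ℚ) / (Nat.card B : ℚ)) * X ^ j, ?_⟩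
      intro a _
      rw [indFun_eq h]
      have h2 : extZ ν (x₀ ^ a) = (((ν ⟨x₀, hx⟩ : ℂˣ) : ℂ)) ^ a := by
        unfold extZ
        rw [dif_pos (B.pow_mem hx a), ← Units.val_pow_eq_pow_val, ← map_pow]
        rfl
      rw [h2, ← hj, map_mul, aeval_C, map_pow, aeval_X]
      have h3 : (algebraMap ℚ ℂ) ((Fintype.card C : ℚ) / (Nat.card B : ℚ)) =
          (Fintype.card C : ℂ) / (Nat.card B : ℂ) := by
        rw [eq_ratCast]
        push_cast
        rfl
      rw [h3, ← pow_mul, ← pow_mul, mul_comm j a]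
    · refine ⟨0, ?_⟩
      intro a ha
      rw [indFun_eq h, map_zero]
      have h2 : x₀ ^ a ∉ B := by
        intro h3
        apply hx
        have h4 : x₀ ∈ Subgroup.zpowers (x₀ ^ a) := by
          rw [mem_zpowers_pow_iff]
          exact ha
        exact (Subgroup.zpowers_le.2 h3) h4
      have h3 : extZ ν (x₀ ^ a) = 0 := by
        unfold extZ
        rw [dif_neg h2]
      rw [h3, mul_zero]
  | zero => exact ⟨0, fun a _ => by simp⟩
  | add f g _ _ hf hg =>
    obtain ⟨F, hF⟩ := hf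
    obtain ⟨G, hG⟩ := hg
    exact ⟨F + G, fun a ha => by rw [Pi.add_apply, hF a ha, hG a ha, map_add]⟩
  | smul q f _ hf =>
    obtain ⟨F, hF⟩ := hf
    exact ⟨q • F, fun a ha => by rw [Pi.smul_apply, hF a ha, map_smul]⟩

theorem f_th_mem (h : IsCyclic C) (f : C → ℂ) (J : Subgroup C)
    (hf : f ∈ SpanQ (G := C) (fun _ _ => True))
    (hJ : ∀ (x : C) (a : ℕ), a.Coprime (orderOf x) → x ^ a * x⁻¹ ∈ J → f (x ^ a) = f x)
    (x₀ : C) : (fun x => f x * th (Subgroup.zpowers x₀) x) ∈ TT J := by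
  set n := orderOf x₀ with hn
  have hn0 : 0 < n := orderOf_pos x₀
  obtain ⟨ζ, hζ, hdesc⟩ := exists_root n hn0
  obtain ⟨F, hF⟩ := exists_F h x₀ ζ hζ f hf
  -- the order modulo `J`
  have hex : ∃ m : ℕ, 0 < m ∧ x₀ ^ m ∈ J := ⟨n, hn0, by
    rw [hn, pow_orderOf_eq_one]
    exact J.one_mem⟩
  set m := Nat.find hex with hm
  obtain ⟨hm0, hmJ⟩ := Nat.find_spec hex
  rw [← hm] at hm0 hmJ
  have hdvd : ∀ j : ℤ, x₀ ^ j ∈ J ↔ (m : ℤ) ∣ j := by
    intro j
    constructor
    · intro hj
      have h1 : x₀ ^ (j % m) ∈ J := by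
        have h2 : j % m = j - m * (j / m) := by
          have := Int.emod_add_mul_ediv j m
          linarith
        rw [h2, zpow_sub, zpow_mul, zpow_natCast]
        exact J.mul_mem hj (J.inv_mem (J.zpow_mem hmJ _))
      have h3 : 0 ≤ j % m := Int.emod_nonneg _ (by exact_mod_cast hm0.ne')
      have h4 : j % m < m := Int.emod_lt_of_pos _ (by exact_mod_cast hm0)
      obtain ⟨r, hr⟩ := Int.eq_ofNat_of_zero_le h3
      rw [hr, zpow_natCast] at h1
      by_cases h5 : r = 0
      · rw [h5] at hr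
        exact Int.dvd_of_emod_eq_zero (by simpa using hr)
      · exfalso
        have h6 := Nat.find_min hex (m := r) (by rw [← hm]; omega)
        exact h6 ⟨Nat.pos_of_ne_zero h5, h1⟩
    · rintro ⟨k, rfl⟩
      rw [zpow_mul, zpow_natCast]
      exact J.zpow_mem hmJ _
  have hmn : m ∣ n := by
    have h1 := (hdvd (n : ℤ)).1 (by
      rw [zpow_natCast, hn, pow_orderOf_eq_one]
      exact J.one_mem)
    exact_mod_cast h1
  obtain ⟨P, hP⟩ := hdesc m hmn hm0 F (by
    intro a ha hma
    rw [← hF a ha]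
    have h1 := hF 1 (Nat.coprime_one_left n)
    rw [pow_one, pow_one] at h1
    rw [← h1]
    apply hJ x₀ a ha
    have h2 := (hdvd ((a : ℤ) - 1)).2 hma
    rw [zpow_sub, zpow_one, zpow_natCast] at h2
    exact h2)
  set ω := ζ ^ (n / m) with hω
  have hωm : IsPrimitiveRoot ω m := by
    apply hζ.pow hn0
    exact (Nat.div_mul_cancel hmn).symm
  obtain ⟨ωu, hωu⟩ : ∃ ωu : ℂˣ, (ωu : ℂ) = ω := ⟨(hωm.isUnit hm0.ne').unit, rfl⟩
  have hωum : ωu ^ m = 1 := by
    apply Units.ext
    rw [Units.val_pow_eq_pow_val, hωu, hωm.pow_eq_one, Units.val_one]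
  -- the character
  set B := Subgroup.zpowers x₀ with hB
  have hgen : ∀ x : B, x ∈ Subgroup.zpowers (⟨x₀, Subgroup.mem_zpowers x₀⟩ : B) := by
    rintro ⟨x, hx⟩
    obtain ⟨j, hj⟩ := hx
    exact ⟨j, Subtype.ext (by simpa using hj)⟩
  have hord : orderOf ωu ∣ orderOf (⟨x₀, Subgroup.mem_zpowers x₀⟩ : B) := by
    rw [orderOf_dvd_iff_pow_eq_one]
    have h1 : orderOf (⟨x₀, Subgroup.mem_zpowers x₀⟩ : B) = n := by
      rw [hn]
      exact Subgroup.orderOf_mk x₀ _
    rw [h1]
    obtain ⟨r, hr⟩ := hmn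
    rw [hr, pow_mul, hωum, one_pow]
  obtain ⟨lam, hlam⟩ : ∃ lam : B →* ℂˣ, lam ⟨x₀, Subgroup.mem_zpowers x₀⟩ = ωu :=
    ⟨monoidHomOfForallMemZpowers hgen hord, monoidHomOfForallMemZpowers_apply_gen hgen hord⟩
  have hlamJ : ∀ b : B, (b : C) ∈ J → lam b = 1 := by
    rintro ⟨x, hx⟩ hxJ
    obtain ⟨j, hj⟩ := hx
    have hj : x₀ ^ j = x := hj
    have h1 : (⟨x, ⟨j, hj⟩⟩ : B) = (⟨x₀, Subgroup.mem_zpowers x₀⟩ : B) ^ j :=
      Subtype.ext (by simpa using hj.symm)
    have h2 : x₀ ^ j ∈ J := by rw [hj]; exact hxJ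
    rw [hdvd] at h2
    obtain ⟨k, hk⟩ := h2
    have h3 : lam ⟨x, ⟨j, hj⟩⟩ = 1 := by
      rw [h1, map_zpow, hlam, hk, zpow_mul, zpow_natCast, hωum, one_zpow]
    exact h3
  -- the decomposition
  have hdec : (fun x => f x * th B x) =
      ∑ i ∈ P.support, (P.coeff i) • (fun x => extZ (lam ^ i) x * th B x) := by
    funext x
    rw [Finset.sum_apply]
    by_cases hx : Subgroup.zpowers x = B
    · have h1 : x ∈ B := by
        rw [← hx]
        exact Subgroup.mem_zpowers x
      obtain ⟨a, ha⟩ : ∃ a : ℕ, x₀ ^ a = x := by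
        have h2 : x ∈ Submonoid.powers x₀ := by
          exact mem_powers_iff_mem_zpowers.2 h1
        exact h2
      have hcop : a.Coprime n := by
        have h2 : x₀ ∈ Subgroup.zpowers (x₀ ^ a) := by
          rw [ha, hx]
          exact Subgroup.mem_zpowers x₀
        rw [mem_zpowers_pow_iff] at h2
        exact h2
      have h3 : f x = ∑ i ∈ P.support, ((P.coeff i : ℚ) : ℂ) * (ω ^ a) ^ i := by
        rw [← ha, hF a hcop, hP a hcop, aeval_def, eval₂_eq_sum, Polynomial.sum_def]
        rfl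
      rw [h3, Finset.sum_mul]
      apply Finset.sum_congr rfl
      intro i _
      have h4 : extZ (lam ^ i) x = (ω ^ a) ^ i := by
        unfold extZ
        rw [dif_pos h1]
        have h5 : (⟨x, h1⟩ : B) = (⟨x₀, Subgroup.mem_zpowers x₀⟩ : B) ^ a :=
          Subtype.ext (by simpa using ha.symm)
        rw [h5, MonoidHom.pow_apply, map_pow, hlam, Units.val_pow_eq_pow_val,
          Units.val_pow_eq_pow_val, hωu]
      rw [Pi.smul_apply, h4, Rat.smul_def]
      ring
    · have h1 : th B x = 0 := by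
        unfold th
        rw [if_neg hx]
      rw [h1, mul_zero, Finset.sum_eq_zero]
      intro i _
      rw [Pi.smul_apply, h1, mul_zero, smul_zero]
  rw [hdec]
  apply Submodule.sum_mem
  intro i _
  apply Submodule.smul_mem
  apply ext_th_mem h J (Nat.card B) B le_rfl
  intro b hb
  rw [MonoidHom.pow_apply, hlamJ b hb, one_pow]

end UCYC

theorem UCYC_thm : Stmt_UCYC := by
  intro C _ _ f J h hf hJ
  have : Fintype (Subgroup C) := Fintype.ofFinite _
  have h1 : f = ∑ B : Subgroup C, (fun x => f x * UCYC.th B x) := by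
    funext x
    rw [Finset.sum_apply, Finset.sum_eq_single (Subgroup.zpowers x)]
    · unfold UCYC.th
      rw [if_pos rfl, mul_one]
    · intro B _ hne
      unfold UCYC.th
      rw [if_neg (fun h => hne h.symm), mul_zero]
    · intro hn
      exact absurd (Finset.mem_univ _) hn
  rw [h1]
  apply Submodule.sum_mem
  intro B _
  by_cases hB : ∃ x₀ : C, Subgroup.zpowers x₀ = B
  · obtain ⟨x₀, rfl⟩ := hB
    exact UCYC.f_th_mem h f J hf hJ x₀
  · have h2 : (fun x => f x * UCYC.th B x) = 0 := by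
      funext x
      unfold UCYC.th
      rw [if_neg (fun h => hB ⟨x, h⟩), mul_zero]
      rfl
    rw [h2]
    exact Submodule.zero_mem _

end StarkC
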