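import Pool.Agent.StarkU.Stmts
import Pool.Agent.Stark.RBasic

/-!
# UDATA: the fields and groups used in the realisation of local characters
-/

open NumberField IsDedekindDomain
open scoped TensorProduct Classical Pointwise

set_option linter.unusedSectionVars false

namespace StarkC

namespace UDATA

/-! ### The quadratic character attached to a root of `X ^ 2 - X + p` -/

section Omega

variable {N : Type} [Field N] [NumberField N]

theorem om_alt {p : ℕ} {ω : N} (hω : ω ^ 2 - ω + (p : N) = 0) (g : N ≃ₐ[ℚ] N) :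
    g ω = ω ∨ g ω = 1 - ω := by
  have h1 : (g ω) ^ 2 - g ω + (p : N) = 0 := by
    have := congrArg g hω
    simpa using this
  have h2 : (g ω - ω) * (g ω - (1 - ω)) = 0 := by linear_combination h1 - hω
  rcases mul_eq_zero.1 h2 with h | h
  · left; exact sub_eq_zero.1 h
  · right; exact sub_eq_zero.1 h

theorem om_ne {p : ℕ} (hp : 0 < p) {ω : N} (hω : ω ^ 2 - ω + (p : N) = 0) : 1 - ω ≠ ω := by
  intro h
  have h1 : (2 * ω - 1) ^ 2 + ((4 * p - 1 : ℕ) : N) = 0 := by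
    rw [Nat.cast_sub (by omega)]
    push_cast
    linear_combination 4 * hω
  have h2 : 2 * ω - 1 = 0 := by linear_combination -h
  rw [h2] at h1
  have h3 : ((4 * p - 1 : ℕ) : N) = 0 := by simpa using h1
  have h4 : 4 * p - 1 = 0 := by exact_mod_cast h3
  omega

theorem exists_eta {p : ℕ} (hp : 0 < p) {ω : N} (hω : ω ^ 2 - ω + (p : N) = 0) :
    ∃ η : (N ≃ₐ[ℚ] N) →* ℂˣ, (∀ g : N ≃ₐ[ℚ] N, g ω = ω → η g = 1) ∧
      ∀ g : N ≃ₐ[ℚ] N, g ω = 1 - ω → η g = -1 := by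
  have hne := om_ne hp hω
  let f : (N ≃ₐ[ℚ] N) → ℂˣ := fun g => if g ω = ω then 1 else -1
  have hf1 : ∀ g : N ≃ₐ[ℚ] N, g ω = ω → f g = 1 := fun g hg => if_pos hg
  have hf2 : ∀ g : N ≃ₐ[ℚ] N, g ω = 1 - ω → f g = -1 := fun g hg =>
    if_neg (by rw [hg]; exact hne)
  refine ⟨⟨⟨f, hf1 1 rfl⟩, ?_⟩, hf1, hf2⟩
  intro g h
  show f (g * h) = f g * f h
  rcases om_alt hω g with hg | hg <;> rcases om_alt hω h with hh | hh
  · rw [hf1 g hg, hf1 h hh, hf1 (g * h), one_mul]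
    rw [AlgEquiv.mul_apply, hh, hg]
  · rw [hf1 g hg, hf2 h hh, hf2 (g * h), one_mul]
    rw [AlgEquiv.mul_apply, hh, map_sub, map_one, hg]
  · rw [hf2 g hg, hf1 h hh, hf2 (g * h), mul_one]
    rw [AlgEquiv.mul_apply, hh, hg]
  · rw [hf2 g hg, hf2 h hh, hf1 (g * h), neg_mul_neg, one_mul]
    rw [AlgEquiv.mul_apply, hh, map_sub, map_one, hg]
    ring

omit [NumberField N] in
theorem om_int {p : ℕ} {ω : N} (hω : ω ^ 2 - ω + (p : N) = 0) :
    ∃ o : 𝓞 N, (o : N) = ω ∧ o * (1 - o) = (p : 𝓞 N) := by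
  have h1 : IsIntegral ℤ ω := by
    refine ⟨Polynomial.X ^ 2 - Polynomial.X + Polynomial.C (p : ℤ), ?_, ?_⟩
    · have : (Polynomial.X ^ 2 - Polynomial.X + Polynomial.C (p : ℤ) : Polynomial ℤ) =
          Polynomial.X ^ (1 + 1) + (- Polynomial.X + Polynomial.C (p : ℤ)) := by ring
      rw [this]
      apply Polynomial.monic_X_pow_add
      compute_degree!
    · simpa using hω
  obtain ⟨o, ho⟩ : ∃ o : 𝓞 N, (o : N) = ω := ⟨⟨ω, h1⟩, rfl⟩
  refine ⟨o, ho, ?_⟩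
  apply RingOfIntegers.ext
  have : ((o * (1 - o) : 𝓞 N) : N) = (o : N) * (1 - (o : N)) := rfl
  rw [this, ho]
  have h2 : (((p : ℕ) : 𝓞 N) : N) = (p : N) := map_natCast (algebraMap (𝓞 N) N) p
  rw [h2]
  linear_combination -hω

theorem om_dec {p : ℕ} {ω : N} (hω : ω ^ 2 - ω + (p : N) = 0) (W : HeightOneSpectrum (𝓞 N))
    (hW : (p : 𝓞 N) ∈ W.asIdeal) (h : N ≃ₐ[ℚ] N) (hh : Dec W h) : h ω = ω := by
  rcases om_alt hω h with h1 | h1
  · exact h1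
  exfalso
  obtain ⟨o, ho, hop⟩ := om_int hω
  have hprime := W.isPrime
  have hnot : ¬ (o ∈ W.asIdeal ∧ 1 - o ∈ W.asIdeal) := by
    rintro ⟨ha, hb⟩
    have := W.asIdeal.add_mem ha hb
    rw [add_sub_cancel] at this
    exact hprime.ne_top ((Ideal.eq_top_iff_one _).2 this)
  have h2 : ((1 - o : 𝓞 N) : N) = 1 - ω := by
    rw [← ho]; rfl
  have e1 : ((1 - o : 𝓞 N) : N) = h (o : N) := by rw [h2, ho, h1]
  have e2 : (o : N) = h ((1 - o : 𝓞 N) : N) := by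
    rw [h2, map_sub, map_one, h1, ho]; ring
  rw [← hop] at hW
  rcases hprime.mem_or_mem hW with h3 | h3
  · exact hnot ⟨h3, hh _ _ e1 h3⟩
  · exact hnot ⟨hh _ _ e2 h3, h3⟩

theorem om_cc {p : ℕ} (hp : 0 < p) {ω : N} (hω : ω ^ 2 - ω + (p : N) = 0) (c : N ≃ₐ[ℚ] N)
    (hc : IsCC c) : c ω = 1 - ω := by
  rcases om_alt hω c with h1 | h1
  · exfalso
    obtain ⟨Φ, hΦ⟩ := hc
    have h2 : Φ (c ω) = (starRingEnd ℂ) (Φ ω) := hΦ.eq ω
    rw [h1] at h2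
    obtain ⟨r, hr⟩ := Complex.conj_eq_iff_real.1 h2.symm
    have h3 := congrArg Φ hω
    simp only [map_add, map_sub, map_pow, map_natCast, map_zero] at h3
    rw [hr] at h3
    have h4 : r ^ 2 - r + (p : ℝ) = 0 := by exact_mod_cast h3
    have h5 : (1 : ℝ) ≤ p := by exact_mod_cast hp
    nlinarith [sq_nonneg (2 * r - 1)]
  · exact h1

end Omega

/-! ### Restriction -/

section Restrict

theorem restrict_restrict (E L₀ N : Type) [Field E] [NumberField E] [IsGalois ℚ E] [Field L₀]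
    [NumberField L₀] [IsGalois ℚ L₀] [Field N] [NumberField N] [Algebra E L₀] [Algebra E N]
    [Algebra L₀ N] [IsScalarTower E L₀ N] (g : N ≃ₐ[ℚ] N) :
    AlgEquiv.restrictNormalHom E (AlgEquiv.restrictNormalHom L₀ g : L₀ ≃ₐ[ℚ] L₀) =
      (AlgEquiv.restrictNormalHom E g : E ≃ₐ[ℚ] E) := by
  ext x
  apply (algebraMap E N).injective
  have h1 := AlgEquiv.restrictNormal_commutes g E x
  have h2 := AlgEquiv.restrictNormal_commutes
    (AlgEquiv.restrictNormalHom L₀ g : L₀ ≃ₐ[ℚ] L₀) E x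
  have h3 := AlgEquiv.restrictNormal_commutes g L₀ (algebraMap E L₀ x)
  have h4 := congrArg (algebraMap L₀ N) h2
  rw [← IsScalarTower.algebraMap_apply] at h4
  refine h4.trans ?_
  refine h3.trans ?_
  rw [← IsScalarTower.algebraMap_apply]
  exact h1.symm

theorem cc_restrict (E N : Type) [Field E] [NumberField E] [IsGalois ℚ E] [Field N]
    [NumberField N] [Algebra E N] (hE : ∀ v : InfinitePlace E, v.IsReal) (c : N ≃ₐ[ℚ] N)
    (hc : IsCC c) : (AlgEquiv.restrictNormalHom E c : E ≃ₐ[ℚ] E) = 1 := by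
  obtain ⟨Φ, hΦ⟩ := hc
  have h1 : ComplexEmbedding.IsReal (Φ.comp (algebraMap E N)) :=
    InfinitePlace.isReal_mk_iff.1 (hE (InfinitePlace.mk (Φ.comp (algebraMap E N))))
  ext x
  apply (algebraMap E N).injective
  refine (AlgEquiv.restrictNormal_commutes c E x).trans ?_
  apply Φ.injective
  rw [hΦ.eq]
  have := congrArg (fun f : E →+* ℂ => f x) h1
  exact this

theorem cc_comp (L₀ N : Type) [Field L₀] [NumberField L₀] [IsGalois ℚ L₀] [Field N]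
    [NumberField N] [Algebra L₀ N] (c : N ≃ₐ[ℚ] N)
    (hc : IsCC c) : IsCC (AlgEquiv.restrictNormalHom L₀ c : L₀ ≃ₐ[ℚ] L₀) := by
  obtain ⟨Φ, hΦ⟩ := hc
  refine ⟨Φ.comp (algebraMap L₀ N), ?_⟩
  ext x
  have h1 : Φ (algebraMap L₀ N ((AlgEquiv.restrictNormalHom L₀ c : L₀ ≃ₐ[ℚ] L₀) x)) =
      Φ (c (algebraMap L₀ N x)) := congrArg Φ (AlgEquiv.restrictNormal_commutes c L₀ x)
  have h2 := hΦ.eq (algebraMap L₀ N x)
  rw [h2] at h1
  exact h1.symm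

end Restrict

/-! ### Automorphisms over an intermediate field -/

section OverF

variable (F N : Type) [Field F] [NumberField F] [Field N] [NumberField N] [Algebra F N]

/-- A `ℚ`-automorphism fixing `F` as an `F`-automorphism. -/
noncomputable def toF (g : N ≃ₐ[ℚ] N)
    (hg : ∀ x : F, g (algebraMap F N x) = algebraMap F N x) : N ≃ₐ[F] N :=
  AlgEquiv.ofRingEquiv (f := (g : N ≃+* N)) hg

theorem toF_apply (g : N ≃ₐ[ℚ] N)
    (hg : ∀ x : F, g (algebraMap F N x) = algebraMap F N x) (x : N) : toF F N g hg x = g x := rfl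

theorem toF_restrict (L₀ : Type) [Field L₀] [NumberField L₀] [IsGalois ℚ L₀] [Algebra F L₀]
    [IsGalois F L₀] [Algebra L₀ N] [IsScalarTower F L₀ N] (g : N ≃ₐ[ℚ] N)
    (hg : ∀ x : F, g (algebraMap F N x) = algebraMap F N x)
    (h : (AlgEquiv.restrictNormalHom L₀ (toF F N g hg) : L₀ ≃ₐ[F] L₀) = 1) :
    (AlgEquiv.restrictNormalHom L₀ g : L₀ ≃ₐ[ℚ] L₀) = 1 := by
  ext x
  apply (algebraMap L₀ N).injective
  have h1 := AlgEquiv.restrictNormal_commutes g L₀ x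
  have h2 := AlgEquiv.restrictNormal_commutes (toF F N g hg) L₀ x
  have h3 : (toF F N g hg).restrictNormal L₀ x = x := congrArg (fun e : L₀ ≃ₐ[F] L₀ => e x) h
  rw [h3] at h2
  refine h1.trans ?_
  exact h2.symm

/-- transitivity of `Gal(N/F)` on the primes above a prime of `F` -/
theorem exists_mv [IsGalois F N] (W W' : HeightOneSpectrum (𝓞 N))
    (h : W.under (𝓞 F) = W'.under (𝓞 F)) : ∃ s : N ≃ₐ[F] N, STB.mv (s : N ≃+* N) W = W' := by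
  have h2 : W.asIdeal.LiesOver (W.under (𝓞 F)).asIdeal := ⟨rfl⟩
  have h3 : W'.asIdeal.LiesOver (W'.under (𝓞 F)).asIdeal := ⟨rfl⟩
  rw [← h] at h3
  have := W.isPrime
  have := W'.isPrime
  obtain ⟨σ, hσ⟩ := Ideal.exists_smul_eq_of_isGaloisGroup (W.under (𝓞 F)).asIdeal W.asIdeal
    W'.asIdeal (N ≃ₐ[F] N)
  refine ⟨σ, ?_⟩
  apply HeightOneSpectrum.ext
  ext x
  rw [← hσ, Ideal.mem_pointwise_smul_iff_inv_smul_mem, STB.mem_mv]
  rfl

end OverF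

/-! ### The core -/

section Core

variable (L E L₀ N F : Type) [Field L] [NumberField L] [IsGalois ℚ L] [Field E] [NumberField E]
  [IsGalois ℚ E] [Field L₀] [NumberField L₀] [IsGalois ℚ L₀] [Field N] [NumberField N]
  [IsGalois ℚ N] [Field F] [NumberField F] [Algebra L L₀] [Algebra E L₀] [Algebra L N]
  [Algebra E N] [Algebra L₀ N] [IsScalarTower L L₀ N] [IsScalarTower E L₀ N] [Algebra F E]
  [Algebra F L₀] [Algebra F N] [IsScalarTower F E L₀] [IsScalarTower F L₀ N]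
  [IsScalarTower F E N] [IsGalois F L₀] [IsGalois F N]

theorem exists_over (v : HeightOneSpectrum (𝓞 L₀)) :
    ∃ w : HeightOneSpectrum (𝓞 N), w.under (𝓞 L₀) = v := by
  obtain ⟨P, hP, hPv⟩ := v.asIdeal.exists_ideal_over_prime_of_isIntegral_of_isDomain (S := 𝓞 N)
    (by simp)
  refine ⟨⟨P, hP, ?_⟩, HeightOneSpectrum.ext hPv⟩
  rintro rfl
  exact v.ne_bot (by rw [← hPv]; simp)

theorem core (T T' : Finset ℕ) (hTT' : T ⊆ T') (p : ℕ) (hp : p.Prime) (hpT : p ∈ T)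
    (W₁ : HeightOneSpectrum (𝓞 L₀)) (hpW₁ : (p : 𝓞 L₀) ∈ W₁.asIdeal)
    (B : Subgroup (L ≃ₐ[ℚ] L)) (ψ : B →* ℂˣ) (B' : Subgroup (E ≃ₐ[ℚ] E)) (ψ₁ : B' →* ℂˣ)
    (hB' : ∀ h : L₀ ≃ₐ[ℚ] L₀, Dec W₁ h →
      ((AlgEquiv.restrictNormalHom E h : E ≃ₐ[ℚ] E) ∈ B' ↔
        (AlgEquiv.restrictNormalHom L h : L ≃ₐ[ℚ] L) ∈ B))
    (hψ₁ : ∀ (h : L₀ ≃ₐ[ℚ] L₀) (b' : B') (b : B), Dec W₁ h →
      AlgEquiv.restrictNormalHom E h = (b' : E ≃ₐ[ℚ] E) →
      AlgEquiv.restrictNormalHom L h = (b : L ≃ₐ[ℚ] L) → ψ₁ b' = ψ b)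
    (hF : ∀ g : E ≃ₐ[ℚ] E, g ∈ B' ↔ ∀ x : F, g (algebraMap F E x) = algebraMap F E x)
    (ω : L₀) (hω : ω ^ 2 - ω + (p : L₀) = 0)
    (hE : ∀ v : InfinitePlace E, v.IsReal)
    (R : Polynomial F) (hRm : R.Monic) (hRd : 0 < R.natDegree)
    (hRr : ∀ (Φ : F →+* ℂ) (z : ℂ), Polynomial.eval₂ Φ z R = 0 → z.im = 0)
    (hRs : (R.map (algebraMap F N)).Splits)
    (hRW : ∀ (W : HeightOneSpectrum (𝓞 N)) (h : N ≃ₐ[F] N), Dec W h → AboveT T' W →
          (W.under (𝓞 F) = W₁.under (𝓞 F) → ∀ κ : N, Polynomial.aeval κ R = 0 → h κ = κ) ∧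
          (W.under (𝓞 F) ≠ W₁.under (𝓞 F) → ∀ κ : N, Polynomial.aeval κ R = 0 →
            (h κ = κ ↔ AlgEquiv.restrictNormalHom L₀ h = 1)))
    (hram : ∀ w : HeightOneSpectrum (𝓞 L₀), ¬ AboveT T' w → ∀ g : L₀ ≃ₐ[ℚ] L₀,
      FrobPow L₀ w 1 g → g = 1) :
    ∃ (H₀ : Subgroup (N ≃ₐ[ℚ] N)) (ψ₀ : H₀ →* ℂˣ) (Z : Finset N)
      (W₀ : HeightOneSpectrum (𝓞 N)),
      W₀.under (𝓞 L) = W₁.under (𝓞 L) ∧
      (∀ h : N ≃ₐ[ℚ] N, Dec W₀ h → (h ∈ H₀ ↔ AlgEquiv.restrictNormalHom L h ∈ B)) ∧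
      (∀ (h : H₀) (b : B), Dec W₀ (h : N ≃ₐ[ℚ] N) →
        AlgEquiv.restrictNormalHom L (h : N ≃ₐ[ℚ] N) = (b : L ≃ₐ[ℚ] L) → ψ₀ h = ψ b) ∧
      Z.Nonempty ∧ (∀ h ∈ H₀, ∀ κ ∈ Z, h κ ∈ Z) ∧
      (∀ c : N ≃ₐ[ℚ] N, IsCC c →
        (∃ h : c ∈ H₀, ((ψ₀ ⟨c, h⟩ : ℂˣ) : ℂ) = -1) ∧ ∀ κ ∈ Z, c κ = κ) ∧
      (∀ (W : HeightOneSpectrum (𝓞 N)) (h : H₀), Dec W (h : N ≃ₐ[ℚ] N) → AboveT T W →
        ((∃ s ∈ H₀, STB.mv (s : N ≃+* N) W₀ = W) → ∀ κ ∈ Z, (h : N ≃ₐ[ℚ] N) κ = κ) ∧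
        ((¬ ∃ s ∈ H₀, STB.mv (s : N ≃+* N) W₀ = W) → ∀ κ ∈ Z, (h : N ≃ₐ[ℚ] N) κ = κ →
          ψ₀ h = 1 ∧ ∀ κ' ∈ Z, (h : N ≃ₐ[ℚ] N) κ' = κ')) ∧
      (∀ W : HeightOneSpectrum (𝓞 N), ¬ AboveT T W →
        (∀ h : H₀, Dec W (h : N ≃ₐ[ℚ] N) → ∀ κ ∈ Z, (h : N ≃ₐ[ℚ] N) κ = κ →
          ψ₀ h = 1 ∧ ∀ κ' ∈ Z, (h : N ≃ₐ[ℚ] N) κ' = κ') ∨
        (∀ h : H₀, FrobPow N W 1 (h : N ≃ₐ[ℚ] N) → ψ₀ h = 1)) := by
  obtain ⟨W₀, hW₀⟩ := exists_over L₀ N W₁
  obtain ⟨η, hη1, hη2⟩ := exists_eta hp.pos hω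
  -- the group
  let rE : (N ≃ₐ[ℚ] N) →* (E ≃ₐ[ℚ] E) := AlgEquiv.restrictNormalHom E
  let r₀ : (N ≃ₐ[ℚ] N) →* (L₀ ≃ₐ[ℚ] L₀) := AlgEquiv.restrictNormalHom L₀
  let H₀ : Subgroup (N ≃ₐ[ℚ] N) := B'.comap rE
  let ψ₀ : H₀ →* ℂˣ :=
    (ψ₁.comp (rE.subgroupComap B')) * ((η.comp r₀).comp H₀.subtype)
  have hψ₀ : ∀ h : H₀, ψ₀ h = ψ₁ ⟨rE h, h.2⟩ * η (r₀ h) := fun h => rfl
  have hEE : ∀ g : N ≃ₐ[ℚ] N, AlgEquiv.restrictNormalHom E (r₀ g) = rE g := fun g =>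
    restrict_restrict E L₀ N g
  have hLL : ∀ g : N ≃ₐ[ℚ] N, AlgEquiv.restrictNormalHom L (r₀ g) =
      (AlgEquiv.restrictNormalHom L g : L ≃ₐ[ℚ] L) := fun g => restrict_restrict L L₀ N g
  have hmem : ∀ g : N ≃ₐ[ℚ] N, g ∈ H₀ ↔ ∀ x : F, g (algebraMap F N x) = algebraMap F N x := by
    intro g
    have h1 : g ∈ H₀ ↔ rE g ∈ B' := Iff.rfl
    rw [h1, hF]
    refine forall_congr' fun x => ?_
    have h2 : g (algebraMap E N (algebraMap F E x)) = algebraMap E N (rE g (algebraMap F E x)) :=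
      (AlgEquiv.restrictNormal_commutes g E (algebraMap F E x)).symm
    rw [IsScalarTower.algebraMap_apply F E N x, h2]
    exact ⟨fun h => by rw [h], fun h => (algebraMap E N).injective h⟩
  -- the roots
  let Z : Finset N := (R.map (algebraMap F N)).roots.toFinset
  have hZ : ∀ κ : N, κ ∈ Z ↔ Polynomial.aeval κ R = 0 := by
    intro κ
    have hne : R.map (algebraMap F N) ≠ 0 := (hRm.map _).ne_zero
    rw [Multiset.mem_toFinset, Polynomial.mem_roots hne, Polynomial.IsRoot, Polynomial.eval_map,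
      Polynomial.aeval_def]
  -- trivial restriction to `L₀`
  have htriv : ∀ h : H₀, r₀ h = 1 → ψ₀ h = 1 := by
    intro h h1
    rw [hψ₀, h1, map_one, mul_one]
    have h2 : (⟨rE h, h.2⟩ : B') = 1 := by
      apply Subtype.ext
      show rE h = 1
      rw [← hEE, h1, map_one]
    rw [h2, map_one]
  -- the key property at the primes above `T'`
  have hkey : ∀ (W : HeightOneSpectrum (𝓞 N)) (h : H₀), Dec W (h : N ≃ₐ[ℚ] N) → AboveT T' W →
      W.under (𝓞 F) ≠ W₁.under (𝓞 F) → ∀ κ ∈ Z, (h : N ≃ₐ[ℚ] N) κ = κ →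
      ψ₀ h = 1 ∧ ∀ κ' ∈ Z, (h : N ≃ₐ[ℚ] N) κ' = κ' := by
    intro W h hd hW hne κ hκ hh
    have hfix := (hmem h).1 h.2
    have h1 := (hRW W (toF F N h hfix) hd hW).2 hne
    have h2 := (h1 κ ((hZ κ).1 hκ)).1 hh
    refine ⟨htriv h (toF_restrict F N L₀ h hfix h2), fun κ' hκ' => ?_⟩
    exact (h1 κ' ((hZ κ').1 hκ')).2 h2
  have hW₀F : W₀.under (𝓞 F) = W₁.under (𝓞 F) := by
    rw [← hW₀]
    exact (RB.under_under (L := F) (L₁ := L₀) W₀).symm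
  have hdec₀ : ∀ h : N ≃ₐ[ℚ] N, Dec W₀ h → Dec W₁ (r₀ h) := by
    intro h hh
    have := RB.dec_restrict (K := ℚ) (L := L₀) hh
    rw [hW₀] at this
    exact this
  have hconj : ∀ W : HeightOneSpectrum (𝓞 N), (∃ s ∈ H₀, STB.mv (s : N ≃+* N) W₀ = W) ↔
      W.under (𝓞 F) = W₁.under (𝓞 F) := by
    intro W
    constructor
    · rintro ⟨s, hs, rfl⟩
      have hfix := (hmem s).1 hs
      have h1 := STB.under_mv (K := F) (toF F N s hfix) W₀
      rw [hW₀F] at h1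
      exact h1
    · intro h
      obtain ⟨s, hs⟩ := exists_mv F N W₀ W (hW₀F.trans h.symm)
      refine ⟨s.restrictScalars ℚ, ?_, hs⟩
      rw [hmem]
      intro x
      exact s.commutes x
  refine ⟨H₀, ψ₀, Z, W₀, ?_, ?_, ?_, ?_, ?_, ?_, ?_, ?_⟩
  · rw [← hW₀]
    exact (RB.under_under (L := L) (L₁ := L₀) W₀).symm
  · intro h hh
    rw [← hLL, ← hB' (r₀ h) (hdec₀ h hh), hEE]
    exact Iff.rfl
  · intro h b hh hb
    rw [hψ₀, hη1 (r₀ h) (om_dec hω W₁ hpW₁ _ (hdec₀ h hh)), mul_one]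
    refine hψ₁ (r₀ h) _ b (hdec₀ h hh) (hEE h) ?_
    rw [hLL]
    exact hb
  · have h1 : Multiset.card (R.map (algebraMap F N)).roots = (R.map (algebraMap F N)).natDegree :=
      (Polynomial.splits_iff_card_roots.1 hRs)
    rw [Polynomial.natDegree_map] at h1
    have h2 : (R.map (algebraMap F N)).roots ≠ 0 := by
      intro h3
      rw [h3, Multiset.card_zero] at h1
      omega
    obtain ⟨κ, hκ⟩ := Multiset.exists_mem_of_ne_zero h2
    exact ⟨κ, Multiset.mem_toFinset.2 hκ⟩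
  · intro h hh κ hκ
    rw [hZ] at hκ ⊢
    have hfix := (hmem h).1 hh
    have h1 := Polynomial.aeval_algHom_apply (toF F N h hfix : N →ₐ[F] N) κ R
    rw [hκ, map_zero] at h1
    exact h1
  · intro c hc
    refine ⟨?_, ?_⟩
    · have h1 : rE c = 1 := cc_restrict E N hE c hc
      have h2 : c ∈ H₀ := by
        show rE c ∈ B'
        rw [h1]
        exact B'.one_mem
      refine ⟨h2, ?_⟩
      rw [hψ₀]
      have h3 : (⟨rE ((⟨c, h2⟩ : H₀) : N ≃ₐ[ℚ] N), h2⟩ : B') = 1 := Subtype.ext h1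
      have h4 : r₀ ((⟨c, h2⟩ : H₀) : N ≃ₐ[ℚ] N) ω = 1 - ω :=
        om_cc hp.pos hω _ (cc_comp L₀ N c hc)
      rw [h3, map_one, one_mul, hη2 _ h4]
      simp
    · intro κ hκ
      rw [hZ] at hκ
      obtain ⟨Φ, hΦ⟩ := hc
      apply Φ.injective
      rw [hΦ.eq]
      have h1 : Polynomial.eval₂ (Φ.comp (algebraMap F N)) (Φ κ) R = 0 := by
        rw [← Polynomial.hom_eval₂, ← Polynomial.aeval_def, hκ, map_zero]
      exact Complex.conj_eq_iff_im.2 (hRr _ _ h1)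
  · intro W h hd hW
    have hW' : AboveT T' W := by
      obtain ⟨q, hq, h1⟩ := hW
      exact ⟨q, hTT' hq, h1⟩
    rw [hconj W]
    refine ⟨?_, ?_⟩
    · intro heq κ hκ
      have hfix := (hmem h).1 h.2
      exact (hRW W (toF F N h hfix) hd hW').1 heq κ ((hZ κ).1 hκ)
    · intro hne
      exact hkey W h hd hW' hne
  · intro W hW
    by_cases hW' : AboveT T' W
    · left
      intro h hd
      refine hkey W h hd hW' ?_
      intro heq
      apply hW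
      refine ⟨p, hpT, hp, ?_⟩
      rw [← RB.natCast_mem_under (L := F), heq, RB.natCast_mem_under]
      exact hpW₁
    · right
      intro h hf
      apply htriv
      refine hram (W.under (𝓞 L₀)) ?_ _ (RB.frob_restrict (K := ℚ) (L := L₀) hf)
      rintro ⟨q, hq, hq1, hq2⟩
      exact hW' ⟨q, hq, hq1, (RB.natCast_mem_under (L := L₀) W q).1 hq2⟩

end Core

/-! ### The local character transported to the totally real field -/

theorem transport (L E L₀ : Type) [Field L] [NumberField L] [IsGalois ℚ L] [Field E]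
    [NumberField E] [IsGalois ℚ E] [Field L₀] [NumberField L₀] [IsGalois ℚ L₀] [Algebra L L₀]
    [Algebra E L₀] (W₁ : HeightOneSpectrum (𝓞 L₀)) (B : Subgroup (L ≃ₐ[ℚ] L)) (ψ : B →* ℂˣ)
    (hh : ∀ h : L₀ ≃ₐ[ℚ] L₀, Dec W₁ h →
      (AlgEquiv.restrictNormalHom L h = 1 ↔ AlgEquiv.restrictNormalHom E h = 1)) :
    ∃ (B' : Subgroup (E ≃ₐ[ℚ] E)) (ψ₁ : B' →* ℂˣ),
      (∀ h : L₀ ≃ₐ[ℚ] L₀, Dec W₁ h →
        ((AlgEquiv.restrictNormalHom E h : E ≃ₐ[ℚ] E) ∈ B' ↔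
          (AlgEquiv.restrictNormalHom L h : L ≃ₐ[ℚ] L) ∈ B)) ∧
      (∀ (h : L₀ ≃ₐ[ℚ] L₀) (b' : B') (b : B), Dec W₁ h →
        AlgEquiv.restrictNormalHom E h = (b' : E ≃ₐ[ℚ] E) →
        AlgEquiv.restrictNormalHom L h = (b : L ≃ₐ[ℚ] L) → ψ₁ b' = ψ b) := by
  let rE : (L₀ ≃ₐ[ℚ] L₀) →* (E ≃ₐ[ℚ] E) := AlgEquiv.restrictNormalHom E
  let rL : (L₀ ≃ₐ[ℚ] L₀) →* (L ≃ₐ[ℚ] L) := AlgEquiv.restrictNormalHom L
  let D : Subgroup (L₀ ≃ₐ[ℚ] L₀) :=
    { carrier := {h | Dec W₁ h}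
      mul_mem' := fun ha hb => RB.dec_mul ha hb
      one_mem' := RB.dec_one W₁
      inv_mem' := fun ha => RB.dec_inv ha }
  let D₀ : Subgroup (L₀ ≃ₐ[ℚ] L₀) := D ⊓ B.comap rL
  let f : D₀ →* D₀.map rE := rE.subgroupMap D₀
  have hf : Function.Surjective f := rE.subgroupMap_surjective D₀
  let g : D₀ →* ℂˣ := ψ.comp ((rL.subgroupComap B).comp (Subgroup.inclusion inf_le_right))
  have hg : f.ker ≤ g.ker := by
    intro h hk
    rw [MonoidHom.mem_ker] at hk ⊢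
    have h1 : rE (h : L₀ ≃ₐ[ℚ] L₀) = 1 := congrArg Subtype.val hk
    have h2 : rL (h : L₀ ≃ₐ[ℚ] L₀) = 1 := (hh h h.2.1).2 h1
    show ψ ⟨rL (h : L₀ ≃ₐ[ℚ] L₀), h.2.2⟩ = 1
    have h3 : (⟨rL (h : L₀ ≃ₐ[ℚ] L₀), h.2.2⟩ : B) = 1 := Subtype.ext h2
    rw [h3, map_one]
  refine ⟨D₀.map rE, MonoidHom.liftOfSurjective f hf ⟨g, hg⟩, ?_, ?_⟩
  · intro h hd
    constructor
    · rintro ⟨h', hh', he⟩
      have h1 : Dec W₁ (h'⁻¹ * h : L₀ ≃ₐ[ℚ] L₀) := RB.dec_mul (RB.dec_inv hh'.1) hd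
      have h2 : rE (h'⁻¹ * h) = 1 := by
        rw [map_mul, map_inv, he]
        exact inv_mul_cancel _
      have h3 : rL (h'⁻¹ * h) = 1 := (hh _ h1).2 h2
      rw [map_mul, map_inv, inv_mul_eq_one] at h3
      show rL h ∈ B
      rw [← h3]
      exact hh'.2
    · intro hb
      exact ⟨h, ⟨hd, hb⟩, rfl⟩
  · intro h b' b hd he hb
    have hB : rL h ∈ B := by
      show AlgEquiv.restrictNormalHom L h ∈ B
      rw [hb]
      exact b.2
    have h1 : b' = f ⟨h, hd, hB⟩ := Subtype.ext he.symm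
    have h2 := MonoidHom.liftOfRightInverse_comp_apply f _ (Function.rightInverse_surjInv hf)
      ⟨g, hg⟩ ⟨h, hd, hB⟩
    rw [h1]
    refine h2.trans ?_
    show ψ ⟨rL h, hB⟩ = ψ b
    congr 1
    exact Subtype.ext hb

end UDATA

theorem UDATA_thm (hH : Stmt_UHAT) (hK : Stmt_UKIL) (hC : Stmt_UCOMP) (hX : Stmt_UEXT)
    (hR : Stmt_URAM) : Stmt_UDATA := by
  intro L _ _ _ T w B ψ hw hB
  obtain ⟨p, hpT, hp, hpw⟩ := hw
  obtain ⟨E, _, _, _, hEr, hEh⟩ := hH L p hp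
  obtain ⟨N₀, _, _, aQ, _, _, _, t1, t2⟩ := hC ℚ L E
  clear t1 t2 aQ
  obtain ⟨L₀, _, _, _, _, hsplit⟩ := hX N₀
    (Polynomial.X ^ 2 - Polynomial.X + Polynomial.C (p : N₀)) (by
      have : (Polynomial.X ^ 2 - Polynomial.X + Polynomial.C (p : N₀)).Monic := by
        have h : (Polynomial.X ^ 2 - Polynomial.X + Polynomial.C (p : N₀) : Polynomial N₀) =
            Polynomial.X ^ (1 + 1) + (- Polynomial.X + Polynomial.C (p : N₀)) := by ring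
        rw [h]
        apply Polynomial.monic_X_pow_add
        compute_degree!
      exact this.ne_zero)
  obtain ⟨ω, hω⟩ : ∃ ω : L₀, ω ^ 2 - ω + (p : L₀) = 0 := by
    have hdeg : (Polynomial.X ^ 2 - Polynomial.X + Polynomial.C (p : N₀)).natDegree = 2 := by
      compute_degree!
    have h1 := Polynomial.Splits.exists_eval_eq_zero hsplit (by
      rw [Polynomial.degree_map]
      intro h2
      rw [Polynomial.degree_eq_natDegree (by
        intro h3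
        rw [h3] at hdeg
        simp at hdeg), hdeg] at h2
      norm_num at h2)
    obtain ⟨ω, hω⟩ := h1
    refine ⟨ω, ?_⟩
    simpa using hω
  let aL : Algebra L L₀ := ((algebraMap N₀ L₀).comp (algebraMap L N₀)).toAlgebra
  let aE : Algebra E L₀ := ((algebraMap N₀ L₀).comp (algebraMap E N₀)).toAlgebra
  obtain ⟨W₁, hW₁⟩ := UDATA.exists_over L L₀ w
  have hpW₁ : (p : 𝓞 L₀) ∈ W₁.asIdeal := by
    rw [← RB.natCast_mem_under (L := L), hW₁]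
    exact hpw
  obtain ⟨B', ψ₁, hB', hψ₁⟩ := UDATA.transport L E L₀ W₁ B ψ
    (fun h hh => hEh L₀ W₁ h hpW₁ hh)
  obtain ⟨Tr, hTr⟩ := hR L₀
  let F : IntermediateField ℚ E := IntermediateField.fixedField B'
  have hFn : NumberField F := inferInstance
  have hFL : IsGalois F L₀ := IsGalois.tower_top_of_isGalois ℚ F L₀
  have hFr : ∀ v : InfinitePlace F, v.IsReal := by
    intro v
    obtain ⟨v', rfl⟩ := InfinitePlace.comap_surjective (K := E) v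
    exact (hEr v').comap _
  obtain ⟨R, hRm, hRd, hRr, hRN⟩ := hK F L₀ (W₁.under (𝓞 F)) (T ∪ Tr) hFr
  obtain ⟨N, _, _, _, _, hNs⟩ := hX L₀ (R.map (algebraMap F L₀)) (hRm.map _).ne_zero
  let bL : Algebra L N := ((algebraMap L₀ N).comp (algebraMap L L₀)).toAlgebra
  let bE : Algebra E N := ((algebraMap L₀ N).comp (algebraMap E L₀)).toAlgebra
  have s1 : IsScalarTower L L₀ N := IsScalarTower.of_algebraMap_eq' rfl
  have s2 : IsScalarTower E L₀ N := IsScalarTower.of_algebraMap_eq' rfl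
  have s3 : IsScalarTower F L₀ N := IsScalarTower.of_algebraMap_eq' rfl
  have hFN : IsGalois F N := IsGalois.tower_top_of_isGalois ℚ F N
  rw [Polynomial.map_map, ← IsScalarTower.algebraMap_eq] at hNs
  obtain ⟨H₀, ψ₀, Z, W₀, h1, h2⟩ := UDATA.core L E L₀ N F T (T ∪ Tr) Finset.subset_union_left
    p hp hpT W₁ hpW₁ B ψ B' ψ₁ hB' hψ₁ (by
      intro g
      have h3 : F.fixingSubgroup = B' := IntermediateField.fixingSubgroup_fixedField B'
      rw [← h3, IntermediateField.mem_fixingSubgroup_iff]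
      exact ⟨fun h x => h x x.2, fun h x hx => h ⟨x, hx⟩⟩) ω hω hEr R hRm
    (by rw [hRd]; exact Module.finrank_pos) hRr hNs (hRN N hNs) (by
      intro w hw g hg
      refine hTr w ?_ g hg
      rintro ⟨q, hq, h4⟩
      exact hw ⟨q, Finset.mem_union_right _ hq, h4⟩)
  exact ⟨N, inferInstance, inferInstance, inferInstance, inferInstance, H₀, ψ₀, Z, W₀,
    h1.trans hW₁, h2⟩

end StarkC
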