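import Pool.Agent.StarkU.Stmts
import Pool.Agent.Stark.RStmts
import Pool.Agent.Stark.RFKS
import Pool.Agent.Stark.RFIN
import Pool.Agent.Stark.RBasic

/-!
# Modules UEXT, UCOMP, URAM, UFK
-/

open NumberField IsDedekindDomain
open scoped TensorProduct Classical

namespace StarkC

/-- MODULE UEXT -/
theorem UEXT_thm : Stmt_UEXT := by
  intro M _ _ P _
  obtain ⟨N, i1, i2, i3, i4, i5, i6, hs⟩ := RFKS.split_ext ℚ M P
  have h3 : i3 = @DivisionRing.toRatAlgebra N _ _ := Subsingleton.elim _ _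
  subst h3
  exact ⟨N, i1, i2, i4, i6, hs⟩

namespace UEXT

theorem finite_dim (L M : Type) [Field L] [NumberField L] [Field M] [NumberField M]
    [Algebra L M] : Module.Finite L M := by
  have : IsScalarTower ℚ L M := inferInstance
  exact Module.Finite.of_restrictScalars_finite ℚ L M

/-- a prime contains a prime factor of its norm -/
theorem exists_prime {N : Type} [Field N] [NumberField N] (w : HeightOneSpectrum (𝓞 N)) :
    ∃ p : ℕ, p ∈ (Ideal.absNorm w.asIdeal).primeFactors ∧ (p : 𝓞 N) ∈ w.asIdeal := by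
  have h0 : Ideal.absNorm w.asIdeal ≠ 0 := by
    rw [Ne, Ideal.absNorm_eq_zero_iff]
    exact w.ne_bot
  have hmem : ((Ideal.absNorm w.asIdeal : ℕ) : 𝓞 N) ∈ w.asIdeal := Ideal.absNorm_mem _
  have key : ∀ l : List ℕ, ((l.prod : ℕ) : 𝓞 N) ∈ w.asIdeal →
      ∃ p ∈ l, (p : 𝓞 N) ∈ w.asIdeal := by
    intro l
    induction l with
    | nil =>
      intro h
      exfalso
      have h1 : (1 : 𝓞 N) ∈ w.asIdeal := by simpa using h
      exact w.isPrime.ne_top ((Ideal.eq_top_iff_one _).2 h1)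
    | cons a l ih =>
      intro h
      rw [List.prod_cons, Nat.cast_mul] at h
      rcases w.isPrime.mem_or_mem h with h | h
      · exact ⟨a, List.mem_cons_self, h⟩
      · obtain ⟨p, hp, hpw⟩ := ih h
        exact ⟨p, List.mem_cons_of_mem _ hp, hpw⟩
  rw [← Nat.prod_primeFactorsList h0] at hmem
  obtain ⟨p, hp, hpw⟩ := key _ hmem
  exact ⟨p, by rwa [Nat.mem_primeFactors_iff_mem_primeFactorsList], hpw⟩

end UEXT

/-- MODULE UCOMP -/
theorem UCOMP_thm : Stmt_UCOMP := by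
  intro L M₁ M₂ _ _ _ _ _ _ _ _
  have hfin : Module.Finite L M₂ := UEXT.finite_dim L M₂
  let pb : PowerBasis L M₂ := Field.powerBasisOfFiniteOfSeparable L M₂
  have hint : IsIntegral L pb.gen := Algebra.IsIntegral.isIntegral _
  have hP : (minpoly L pb.gen).map (algebraMap L M₁) ≠ 0 :=
    (Polynomial.map_ne_zero_iff (algebraMap L M₁).injective).2 (minpoly.ne_zero hint)
  obtain ⟨N, i1, i2, i4, i6, hs⟩ := UEXT_thm M₁ _ hP
  let iL : Algebra L N := ((algebraMap M₁ N).comp (algebraMap L M₁)).toAlgebra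
  have ht : IsScalarTower L M₁ N := IsScalarTower.of_algebraMap_eq' rfl
  have hs' : ((minpoly L pb.gen).map (algebraMap L N)).Splits := by
    rw [Polynomial.map_map] at hs
    exact hs
  obtain ⟨y, hy⟩ := hs'.exists_eval_eq_zero (by
    rw [Polynomial.degree_map]
    exact (minpoly.degree_pos hint).ne')
  have hy' : Polynomial.aeval y (minpoly L pb.gen) = 0 := by
    rw [Polynomial.aeval_def, ← Polynomial.eval_map]
    exact hy
  let f : M₂ →ₐ[L] N := pb.lift y hy'
  let iM : Algebra M₂ N := f.toRingHom.toAlgebra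
  have ht2 : IsScalarTower L M₂ N := IsScalarTower.of_algebraMap_eq fun x => (f.commutes x).symm
  exact ⟨N, i1, i2, iL, i4, iM, i6, ht, ht2⟩

/-- MODULE URAM -/
theorem URAM_thm : Stmt_URAM := by
  intro N _ _ _
  have h1 : ∀ g : N ≃ₐ[ℚ] N, {w : HeightOneSpectrum (𝓞 N) | g ≠ 1 ∧ FrobPow N w 1 g}.Finite := by
    intro g
    by_cases hg : g = 1
    · refine Set.finite_empty.subset fun w hw => ?_
      exact absurd hg hw.1
    · obtain ⟨x, hx⟩ := RFINaux.exists_ne hg
      refine (RFINaux.fin_mem hx).subset fun w hw => ?_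
      have := hw.2 x (RFINaux.im g x) rfl
      rw [pow_one] at this
      exact this
  have h3 := Set.finite_iUnion h1
  refine ⟨h3.toFinset.biUnion fun w => (Ideal.absNorm w.asIdeal).primeFactors, ?_⟩
  intro w hw g hg
  by_contra hne
  apply hw
  obtain ⟨p, hp, hpw⟩ := UEXT.exists_prime w
  refine ⟨p, ?_, Nat.prime_of_mem_primeFactors hp, hpw⟩
  rw [Finset.mem_biUnion]
  refine ⟨w, ?_, hp⟩
  rw [Set.Finite.mem_toFinset, Set.mem_iUnion]
  exact ⟨g, hne, hg⟩

/-- MODULE UFK -/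
theorem UFK_thm (hR : Stmt_RFKS) : Stmt_UFK := by
  intro M _ _ _ T
  have h2 : ∀ p : ℕ, {w : HeightOneSpectrum (𝓞 M) | p.Prime ∧ (p : 𝓞 M) ∈ w.asIdeal}.Finite := by
    intro p
    by_cases hp : p.Prime
    · refine (RFINaux.fin_mem (a := (p : 𝓞 M)) (by exact_mod_cast hp.ne_zero)).subset
        fun w hw => hw.2
    · refine Set.finite_empty.subset fun w hw => ?_
      exact absurd hw.1 hp
  have h4 : (⋃ p ∈ T, {w : HeightOneSpectrum (𝓞 M) | p.Prime ∧ (p : 𝓞 M) ∈ w.asIdeal}).Finite :=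
    T.finite_toSet.biUnion fun p _ => h2 p
  obtain ⟨N, i1, i2, i3, i4, i5, i6, hN⟩ := hR ℚ M h4.toFinset
  have h3 : i3 = @DivisionRing.toRatAlgebra N _ _ := Subsingleton.elim _ _
  subst h3
  refine ⟨N, i1, i2, i4, i6, ?_⟩
  have hmem : ∀ P : HeightOneSpectrum (𝓞 N), AboveT T P → P.under (𝓞 M) ∈ h4.toFinset := by
    rintro P ⟨p, hpT, hp, hpP⟩
    rw [Set.Finite.mem_toFinset, Set.mem_iUnion₂]
    exact ⟨p, hpT, hp, (RB.natCast_mem_under P p).2 hpP⟩
  intro h P Q hP hQ hPT hQT hne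
  exact hN h P Q hP hQ (hmem P hPT) (hmem Q hQT) hne

end StarkC
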