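import Pool.Agent.StarkU.Stmts
import Pool.Agent.Stark.RBasic

/-!
# F. K. Schmidt's theorem at a finite level for a finite and an archimedean place
-/

set_option linter.unusedSectionVars false

open NumberField IsDedekindDomain
open scoped TensorProduct Classical

namespace StarkC

namespace UFKI

open Polynomial

theorem exists_moved {K L : Type} [Field K] [Field L] [NumberField L] [Algebra K L]
    (s : L ≃ₐ[K] L) (hs : s ≠ 1) : ∃ θ : 𝓞 L, s (θ : L) ≠ (θ : L) := by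
  by_contra hcon
  push Not at hcon
  apply hs
  ext x
  obtain ⟨a, b, _, rfl⟩ := IsFractionRing.div_surjective (A := 𝓞 L) x
  rw [map_div₀]
  have ha : s (algebraMap (𝓞 L) L a) = algebraMap (𝓞 L) L a := hcon a
  have hb : s (algebraMap (𝓞 L) L b) = algebraMap (𝓞 L) L b := hcon b
  rw [ha, hb]
  rfl

/-- the valuation of a natural number at a prime above `p` -/
theorem val_nat_lt {N : Type} [Field N] [NumberField N] (W : HeightOneSpectrum (𝓞 N)) (p n : ℕ)
    (hp : p.Prime) (hpW : (p : 𝓞 N) ∈ W.asIdeal) (hn : n ≠ 0) :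
    W.valuation N (p : N) ^ n < W.valuation N (n : N) := by
  have hcast : ∀ q : ℕ, (q : N) = algebraMap (𝓞 N) N (q : 𝓞 N) := fun q =>
    (map_natCast (algebraMap (𝓞 N) N) q).symm
  obtain ⟨k, m, hm, hk⟩ := Nat.exists_eq_pow_mul_and_not_dvd hn p hp.ne_one
  have hkn : k < n := by
    have h1 : p ^ k ≤ n := by
      rw [hk]
      exact Nat.le_mul_of_pos_right _ (Nat.pos_of_ne_zero (by rintro rfl; simp at hm))
    exact (Nat.lt_pow_self hp.one_lt).trans_le h1
  have hmW : (m : 𝓞 N) ∉ W.asIdeal := by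
    intro hmem
    have hcop : Nat.Coprime p m := (Nat.Prime.coprime_iff_not_dvd hp).2 hm
    have h1 : (Nat.gcd p m : ℤ) = p * Nat.gcdA p m + m * Nat.gcdB p m := Nat.gcd_eq_gcd_ab p m
    rw [hcop] at h1
    have h2 : (1 : 𝓞 N) = (p : 𝓞 N) * ((Nat.gcdA p m : ℤ) : 𝓞 N) +
        (m : 𝓞 N) * ((Nat.gcdB p m : ℤ) : 𝓞 N) := by
      have h3 := congrArg (fun z : ℤ => (z : 𝓞 N)) h1
      push_cast at h3
      exact_mod_cast h3
    have h4 : (1 : 𝓞 N) ∈ W.asIdeal := by
      rw [h2]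
      exact W.asIdeal.add_mem (W.asIdeal.mul_mem_right _ hpW) (W.asIdeal.mul_mem_right _ hmem)
    exact W.isPrime.ne_top ((Ideal.eq_top_iff_one _).2 h4)
  have hvm : W.valuation N (m : N) = 1 := by
    rw [hcast]
    refine le_antisymm (W.valuation_le_one _) (not_lt.1 fun hlt => hmW ?_)
    exact (HeightOneSpectrum.valuation_lt_one_iff_mem W _).1 hlt
  have hvp : W.valuation N (p : N) < 1 := by
    rw [hcast]
    exact (HeightOneSpectrum.valuation_lt_one_iff_mem W _).2 hpW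
  have hvp0 : 0 < W.valuation N (p : N) := by
    rw [zero_lt_iff, Valuation.ne_zero_iff]
    exact_mod_cast hp.ne_zero
  have h5 : W.valuation N (n : N) = W.valuation N (p : N) ^ k := by
    have h6 : (n : N) = (p : N) ^ k * (m : N) := by
      rw [hk]
      push_cast
      ring
    rw [h6, map_mul, map_pow, hvm, mul_one]
  rw [h5]
  exact pow_lt_pow_right_of_lt_one₀ hvp0 hvp hkn

/-- a complex number with a positive real square is real -/
theorem real_of_sq (z : ℂ) (r : ℝ) (hr : 0 < r) (hz : z ^ 2 = (r : ℂ)) : star z = z := by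
  have h1 := congrArg Complex.re hz
  have h2 := congrArg Complex.im hz
  simp only [pow_two, Complex.mul_re, Complex.mul_im, Complex.ofReal_re, Complex.ofReal_im] at h1 h2
  have h3 : z.im = 0 := by
    by_contra him
    have h4 : z.re = 0 := by
      have : z.re * z.im = 0 := by linarith
      rcases mul_eq_zero.1 this with h | h
      · exact h
      · exact absurd h him
    rw [h4] at h1
    nlinarith [mul_self_nonneg z.im]
  exact Complex.conj_eq_iff_im.2 h3

theorem key (M : Type) [Field M] [NumberField M] [IsGalois ℚ M] (T : Finset ℕ)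
    (h : M ≃ₐ[ℚ] M) (hh : h * h = 1) (h1 : h ≠ 1) :
    ∃ K : M[X], K.Monic ∧ K.natDegree = 2 ∧
      ∀ (N : Type) [Field N] [NumberField N] [Algebra M N] [IsGalois ℚ N] (κ : N),
        (K.map (algebraMap M N)).eval κ = 0 →
        ∀ (c : N ≃ₐ[ℚ] N) (W : HeightOneSpectrum (𝓞 N)), IsCC c → Dec W c → AboveT T W →
          AlgEquiv.restrictNormalHom M c ≠ h := by
  obtain ⟨θ, hθ⟩ := exists_moved h h1
  -- the conjugate of `θ`
  set θ' : 𝓞 M := STB.oMap (h : M ≃+* M) θ with hθ'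
  have hθ'v : ((θ' : 𝓞 M) : M) = h (θ : M) := rfl
  have hhθ' : h ((θ' : 𝓞 M) : M) = (θ : M) := by
    rw [hθ'v]
    have := AlgEquiv.congr_fun hh (θ : M)
    exact this
  set δ : 𝓞 M := θ - θ' with hδ
  have hδ0 : δ ≠ 0 := by
    intro h0
    apply hθ
    have h2 : θ = θ' := sub_eq_zero.1 h0
    rw [← hθ'v, ← h2]
  -- a natural number divisible by `δ ^ 2`
  set n : ℕ := Ideal.absNorm (Ideal.span {δ ^ 2}) with hn
  have hn0 : n ≠ 0 := by
    rw [hn, Ne, Ideal.absNorm_eq_zero_iff, Ideal.span_singleton_eq_bot]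
    exact pow_ne_zero 2 hδ0
  obtain ⟨x, hx⟩ : ∃ x : 𝓞 M, (n : 𝓞 M) = δ ^ 2 * x := by
    have h2 : (n : 𝓞 M) ∈ Ideal.span {δ ^ 2} := Ideal.absNorm_mem _
    rw [Ideal.mem_span_singleton'] at h2
    obtain ⟨x, hx⟩ := h2
    exact ⟨x, by rw [← hx]; ring⟩
  -- a bound for the embeddings of `θ`
  obtain ⟨B, hB⟩ := Finite.exists_le (fun Φ : M →+* ℂ => ‖Φ (θ : M)‖ ^ 2)
  set m : ℕ := ⌈B⌉₊ + 1 with hm
  have hmB : ∀ Φ : M →+* ℂ, ‖Φ (θ : M)‖ ^ 2 < (m : ℝ) := by
    intro Φ
    have h2 : B ≤ (⌈B⌉₊ : ℝ) := Nat.le_ceil B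
    have h3 : ‖Φ (θ : M)‖ ^ 2 ≤ B := hB Φ
    rw [hm]
    push_cast
    linarith
  set Q : ℕ := ∏ p ∈ T.filter Nat.Prime, p with hQ
  have hQ0 : 0 < Q := Finset.prod_pos fun p hp => (Finset.mem_filter.1 hp).2.pos
  set b : M := -((θ : M) + (θ' : M)) with hb
  set c₀ : M := (θ : M) * (θ' : M) - (m : M) * (Q : M) ^ n with hc₀
  have hdeg : (X ^ 2 + C b * X + C c₀ : M[X]).natDegree = 2 := by
    compute_degree!
  refine ⟨X ^ 2 + C b * X + C c₀, ?_, hdeg, ?_⟩
  · monicity!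
  intro N _ _ _ _ κ hκ c W hcc hdec hT hres
  obtain ⟨Φ, hΦ⟩ := hcc
  have hc : ∀ y : M, c (algebraMap M N y) = algebraMap M N (h y) := by
    intro y
    rw [← hres]
    exact (AlgEquiv.restrictNormal_commutes c M y).symm
  set i := algebraMap M N with hi
  have hroot : κ ^ 2 + i b * κ + i c₀ = 0 := by
    have h2 : ((X ^ 2 + C b * X + C c₀ : M[X]).map i).eval κ = κ ^ 2 + i b * κ + i c₀ := by
      simp
    rw [← h2]
    exact hκ
  have hcb : c (i b) = i b := by
    rw [hc, hb, map_neg, map_add, hhθ', ← hθ'v, add_comm]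
  -- the square of `2 κ + b`
  have hsq : (2 * κ + i b) ^ 2 = (i (θ : M) - i (θ' : M)) ^ 2 + 4 * ((m : N) * (Q : N) ^ n) := by
    have h2 : i c₀ = i (θ : M) * i (θ' : M) - (m : N) * (Q : N) ^ n := by
      rw [hc₀, map_sub, map_mul, map_mul, map_pow, map_natCast, map_natCast]
    have h3 : i b = -(i (θ : M) + i (θ' : M)) := by rw [hb, map_neg, map_add]
    have h4 : (2 * κ + i b) ^ 2 = 4 * (κ ^ 2 + i b * κ + i c₀) + (i b) ^ 2 - 4 * i c₀ := by ring
    rw [h4, hroot, h2, h3]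
    ring
  have hΦθ : Φ (i (θ' : M)) = star (Φ (i (θ : M))) := by
    rw [← hΦ.eq, hc, hθ'v]
  have hreal : star (Φ (2 * κ + i b)) = Φ (2 * κ + i b) := by
    refine real_of_sq _ (4 * ((m : ℝ) * (Q : ℝ) ^ n - (Φ (i (θ : M))).im ^ 2)) ?_ ?_
    · have h2 := hmB (Φ.comp i)
      have h3 : (Φ (i (θ : M))).im ^ 2 ≤ ‖Φ (i (θ : M))‖ ^ 2 := by
        rw [← sq_abs]
        exact pow_le_pow_left₀ (abs_nonneg _) (Complex.abs_im_le_norm _) 2
      have h4 : (1 : ℝ) ≤ (Q : ℝ) ^ n := one_le_pow₀ (by exact_mod_cast hQ0)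
      have h5 : (m : ℝ) ≤ (m : ℝ) * (Q : ℝ) ^ n := le_mul_of_one_le_right (by positivity) h4
      have h6 : (Φ.comp i) (θ : M) = Φ (i (θ : M)) := rfl
      rw [h6] at h2
      linarith
    · rw [← map_pow, hsq, map_add, map_pow, map_sub, hΦθ, map_mul, map_mul, map_pow, map_natCast,
        map_natCast]
      have h2 : Φ (i (θ : M)) - star (Φ (i (θ : M))) = 2 * (Φ (i (θ : M))).im * Complex.I := by
        apply Complex.ext <;> simp
        ring
      have h4 : Φ 4 = 4 := map_ofNat Φ 4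
      rw [h2, h4, mul_pow, Complex.I_sq]
      push_cast
      ring
  have hcκ : c κ = κ := by
    have h2 : Φ (c (2 * κ + i b)) = Φ (2 * κ + i b) := by rw [hΦ.eq, hreal]
    have h3 : c (2 * κ + i b) = 2 * κ + i b := Φ.injective h2
    rw [map_add, hcb, map_mul, map_ofNat] at h3
    have h4 : (2 : N) * c κ = 2 * κ := add_right_cancel h3
    exact mul_left_cancel₀ two_ne_zero h4
  -- the factorisation
  have hfac : (i (θ : M) - κ) * (i (θ : M) - (-(i b) - κ)) = -((m : N) * (Q : N) ^ n) := by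
    have h2 : i c₀ = i (θ : M) * i (θ' : M) - (m : N) * (Q : N) ^ n := by
      rw [hc₀, map_sub, map_mul, map_mul, map_pow, map_natCast, map_natCast]
    have h3 : i b = -(i (θ : M) + i (θ' : M)) := by rw [hb, map_neg, map_add]
    have h4 : (i (θ : M) - κ) * (i (θ : M) - (-(i b) - κ)) =
        (i (θ : M)) ^ 2 + i b * i (θ : M) + i c₀ - (κ ^ 2 + i b * κ + i c₀) := by ring
    rw [h4, hroot, h2, h3]
    ring
  obtain ⟨p, hpT, hp, hpW⟩ := hT
  set v := W.valuation N with hv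
  have hint : ∀ y : 𝓞 M, v (i (y : M)) ≤ 1 := fun y =>
    W.valuation_le_one (algebraMap (𝓞 M) (𝓞 N) y)
  have hnat : ∀ q : ℕ, v (q : N) ≤ 1 := fun q => by
    rw [← map_natCast (algebraMap (𝓞 N) N) q]
    exact W.valuation_le_one _
  have hvQ : v (-((m : N) * (Q : N) ^ n)) ≤ v (p : N) ^ n := by
    rw [Valuation.map_neg, map_mul, map_pow]
    have h2 : v (Q : N) ≤ v (p : N) := by
      have h3 : Q = p * ∏ q ∈ (T.filter Nat.Prime).erase p, q := by
        rw [hQ, Finset.mul_prod_erase _ (fun q => q) (Finset.mem_filter.2 ⟨hpT, hp⟩)]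
      rw [h3]
      push_cast
      rw [map_mul]
      calc v (p : N) * v (∏ q ∈ (T.filter Nat.Prime).erase p, (q : N)) ≤ v (p : N) * 1 := by
            refine mul_le_mul' le_rfl ?_
            rw [map_prod]
            exact Finset.prod_le_one' fun q _ => hnat q
        _ = _ := mul_one _
    calc v (m : N) * v (Q : N) ^ n ≤ 1 * v (p : N) ^ n := mul_le_mul' (hnat m) (pow_le_pow_left' h2 n)
      _ = _ := one_mul _
  -- one of the two roots is close to `θ`
  have hclose : ∀ y : N, c y = y → v (i (θ : M) - y) ^ 2 ≤ v (p : N) ^ n → False := by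
    intro y hy hle
    have h2 : v (i (θ' : M) - y) = v (i (θ : M) - y) := by
      have h3 : i (θ' : M) - y = c (i (θ : M) - y) := by rw [map_sub, hc, hy, hθ'v]
      rw [h3]
      exact RB.val_dec hdec _
    have h4 : v (i ((δ : 𝓞 M) : M)) ≤ v (i (θ : M) - y) := by
      have h5 : i ((δ : 𝓞 M) : M) = (i (θ : M) - y) - (i (θ' : M) - y) := by
        have h6 : ((δ : 𝓞 M) : M) = (θ : M) - (θ' : M) := rfl
        rw [h6, map_sub]
        ring
      rw [h5]
      refine (Valuation.map_sub _ _ _).trans (max_le le_rfl (le_of_eq h2))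
    have h7 : v (n : N) ≤ v (p : N) ^ n := by
      have h8 : (n : N) = (i ((δ : 𝓞 M) : M)) ^ 2 * i ((x : 𝓞 M) : M) := by
        have h9 : (n : M) = ((δ : 𝓞 M) : M) ^ 2 * ((x : 𝓞 M) : M) := by
          have h10 := congrArg (algebraMap (𝓞 M) M) hx
          rw [map_natCast, map_mul, map_pow] at h10
          exact h10
        rw [← map_natCast i, h9, map_mul, map_pow]
      rw [h8, map_mul, map_pow]
      calc v (i ((δ : 𝓞 M) : M)) ^ 2 * v (i ((x : 𝓞 M) : M)) ≤ v (i (θ : M) - y) ^ 2 * 1 :=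
            mul_le_mul' (pow_le_pow_left' h4 2) (hint x)
        _ = v (i (θ : M) - y) ^ 2 := mul_one _
        _ ≤ _ := hle
    exact absurd h7 (not_le.2 (val_nat_lt W p n hp hpW hn0))
  have hprod : v (i (θ : M) - κ) ^ 2 * v (i (θ : M) - (-(i b) - κ)) ^ 2 ≤
      v (p : N) ^ n * v (p : N) ^ n := by
    have h2 : v (i (θ : M) - κ) * v (i (θ : M) - (-(i b) - κ)) ≤ v (p : N) ^ n := by
      rw [← map_mul, hfac]
      exact hvQ
    rw [← mul_pow, pow_two]
    exact mul_le_mul' h2 h2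
  rcases le_or_gt (v (i (θ : M) - κ) ^ 2) (v (p : N) ^ n) with hle | hgt
  · exact hclose κ hcκ hle
  · refine hclose (-(i b) - κ) (by rw [map_sub, map_neg, hcb, hcκ]) ?_
    by_contra hcon
    rw [not_le] at hcon
    exact absurd hprod (not_le.2 (mul_lt_mul'' hgt hcon zero_le zero_le))

end UFKI

open UFKI Polynomial in
theorem UFKI_thm (hE : Stmt_UEXT) : Stmt_UFKI := by
  intro M _ _ _ T
  have hk : ∀ h : M ≃ₐ[ℚ] M, ∃ K : M[X], K.Monic ∧ (h * h = 1 → h ≠ 1 → K.natDegree = 2 ∧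
      ∀ (N : Type) [Field N] [NumberField N] [Algebra M N] [IsGalois ℚ N] (κ : N),
        (K.map (algebraMap M N)).eval κ = 0 →
        ∀ (c : N ≃ₐ[ℚ] N) (W : HeightOneSpectrum (𝓞 N)), IsCC c → Dec W c → AboveT T W →
          AlgEquiv.restrictNormalHom M c ≠ h) := by
    intro h
    by_cases hc : h * h = 1 ∧ h ≠ 1
    · obtain ⟨K, h1, h2, h3⟩ := key M T h hc.1 hc.2
      exact ⟨K, h1, fun _ _ => ⟨h2, h3⟩⟩
    · exact ⟨1, monic_one, fun h1 h2 => absurd ⟨h1, h2⟩ hc⟩
  choose K hK1 hK2 using hk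
  have hP : (∏ h : M ≃ₐ[ℚ] M, K h) ≠ 0 := (monic_prod_of_monic _ _ fun h _ => hK1 h).ne_zero
  obtain ⟨N, fN, nN, aN, gN, hspl⟩ := hE M (∏ h : M ≃ₐ[ℚ] M, K h) hP
  refine ⟨N, fN, nN, aN, gN, ?_⟩
  intro c W hcc hdec hT
  by_contra hne
  set h := AlgEquiv.restrictNormalHom M c with hh
  have hhh : h * h = 1 := by
    have h1 : c * c = 1 := by
      obtain ⟨Φ, hΦ⟩ := hcc
      ext x
      exact ComplexEmbedding.isConj_apply_apply hΦ x
    rw [hh, ← map_mul, h1, map_one]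
  obtain ⟨hd, hK3⟩ := hK2 h hhh hne
  have hdvd : (K h).map (algebraMap M N) ∣ (∏ h : M ≃ₐ[ℚ] M, K h).map (algebraMap M N) :=
    Polynomial.map_dvd _ (Finset.dvd_prod_of_mem _ (Finset.mem_univ h))
  have hs : ((K h).map (algebraMap M N)).Splits :=
    hspl.of_dvd ((Polynomial.map_ne_zero_iff (algebraMap M N).injective).2 hP) hdvd
  obtain ⟨κ, hκ⟩ := hs.exists_eval_eq_zero (by
    rw [Polynomial.degree_map]
    intro h0
    have h5 : (K h).natDegree = 0 := natDegree_eq_of_degree_eq_some (n := 0) (by exact_mod_cast h0)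
    rw [h5] at hd
    exact absurd hd (by norm_num))
  exact hK3 N κ hκ c W hcc hdec hT hh.symm

end StarkC
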