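import Pool.Agent.StarkU.UKILa

/-!
# Module UKIL: the auxiliary polynomial over a totally real field
-/

open NumberField IsDedekindDomain
open scoped TensorProduct Classical

namespace StarkC

namespace UKIL

open Polynomial

section Real

variable {F : Type} [Field F] [NumberField F]

/-- A bound for the coefficients of a polynomial under all real embeddings. -/
theorem exists_bound (P : F[X]) : ∃ C : ℝ, ∀ (r : F →+* ℝ) (k : ℕ), |(P.map r).coeff k| ≤ C := by
  refine ⟨∑ Φ : F →+* ℂ, ∑ k ∈ Finset.range (P.natDegree + 1), ‖Φ (P.coeff k)‖, fun r k => ?_⟩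
  rw [coeff_map]
  by_cases hk : k ∈ Finset.range (P.natDegree + 1)
  · have h1 : |r (P.coeff k)| = ‖(Complex.ofRealHom.comp r) (P.coeff k)‖ := by
      rw [RingHom.comp_apply, Complex.ofRealHom_eq_coe, Complex.norm_real, Real.norm_eq_abs]
    rw [h1]
    refine le_trans ?_ (Finset.single_le_sum
      (f := fun Φ : F →+* ℂ => ∑ k ∈ Finset.range (P.natDegree + 1), ‖Φ (P.coeff k)‖)
      (fun Φ _ => Finset.sum_nonneg fun k _ => norm_nonneg _)
      (Finset.mem_univ (Complex.ofRealHom.comp r)))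
    exact Finset.single_le_sum (f := fun k => ‖(Complex.ofRealHom.comp r) (P.coeff k)‖)
      (fun k _ => norm_nonneg _) hk
  · have h0 : P.coeff k = 0 := by
      apply coeff_eq_zero_of_natDegree_lt
      rw [Finset.mem_range] at hk
      omega
    rw [h0, map_zero, abs_zero]
    exact Finset.sum_nonneg fun Φ _ => Finset.sum_nonneg fun k _ => norm_nonneg _

/-- All roots of `∏ (X - Y j) + g` are real under all embeddings of the totally real field. -/
theorem real_roots (hR : Stmt_UROOT) (hF : ∀ v : InfinitePlace F, v.IsReal) (n : ℕ) (g : F[X])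
    (hg : g.degree < (n : WithBot ℕ)) : ∃ Y₀ : ℕ, ∀ Y : ℕ, Y₀ ≤ Y → ∀ (Φ : F →+* ℂ) (z : ℂ),
      Polynomial.eval₂ Φ z ((∏ j ∈ Finset.range n, (X - C ((Y : F) * (j : F)))) + g) = 0 →
        z.im = 0 := by
  obtain ⟨C₀, hC⟩ := exists_bound g
  obtain ⟨Y₀, hY⟩ := hR n C₀
  refine ⟨Y₀, fun Y hYY Φ z hz => ?_⟩
  have hreal : ComplexEmbedding.IsReal Φ := InfinitePlace.isReal_mk_iff.1 (hF (InfinitePlace.mk Φ))
  set r : F →+* ℝ := hreal.embedding with hr
  have hΦ : Φ = Complex.ofRealHom.comp r := by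
    ext x
    exact (ComplexEmbedding.IsReal.coe_embedding_apply hreal x).symm
  obtain ⟨t, -, ht⟩ := hY Y hYY (g.map r) ((degree_map_le).trans_lt hg) (fun k => hC r k)
  rw [hΦ, ← Polynomial.eval₂_map, Polynomial.map_add, Polynomial.map_prod] at hz
  have h1 : ∀ j ∈ Finset.range n, ((X - C ((Y : F) * (j : F)) : F[X])).map r =
      (X - C ((Y : ℝ) * (j : ℝ))) := by
    intro j _
    rw [Polynomial.map_sub, Polynomial.map_X, Polynomial.map_C, map_mul, map_natCast, map_natCast]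
  rw [Finset.prod_congr rfl h1, ht, Polynomial.eval₂_finsetProd, Finset.prod_eq_zero_iff] at hz
  obtain ⟨i, -, hi⟩ := hz
  rw [Polynomial.eval₂_sub, Polynomial.eval₂_X, Polynomial.eval₂_C, sub_eq_zero] at hi
  rw [hi]
  exact Complex.ofReal_im _

end Real

section Local

variable {F N : Type} [Field F] [NumberField F] [Field N] [NumberField N] [Algebra F N]

theorem natCast_io (m : ℕ) : io F N (m : 𝓞 F) = (m : N) := map_natCast _ m

/-- the size of `m` at the primes above `T` -/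
theorem val_m (T : Finset ℕ) (d n : ℕ) (hd : d ≠ 0) (W : HeightOneSpectrum (𝓞 N))
    (hW : AboveT T W) :
    W.valuation N (((∏ p ∈ T.filter Nat.Prime, p) * d ^ n : ℕ) : N) <
      W.valuation N (d : N) ^ n := by
  obtain ⟨p, hp, hpp, hpW⟩ := hW
  have h1 : W.valuation N ((∏ p ∈ T.filter Nat.Prime, p : ℕ) : N) < 1 := by
    have h2 : ((∏ p ∈ T.filter Nat.Prime, p : ℕ) : N) =
        (algebraMap (𝓞 N) N ((∏ p ∈ T.filter Nat.Prime, p : ℕ) : 𝓞 N)) := (map_natCast _ _).symm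
    rw [h2, HeightOneSpectrum.valuation_lt_one_iff_mem]
    have h3 : p ∣ ∏ p ∈ T.filter Nat.Prime, p :=
      Finset.dvd_prod_of_mem (fun p => p) (Finset.mem_filter.2 ⟨hp, hpp⟩)
    exact W.asIdeal.mem_of_dvd (by exact_mod_cast Nat.cast_dvd_cast (α := 𝓞 N) h3) hpW
  have h0 : W.valuation N (d : N) ≠ 0 := by
    rw [Ne, map_eq_zero]
    exact_mod_cast hd
  rw [Nat.cast_mul, Nat.cast_pow, map_mul, map_pow]
  have h4 : 0 < W.valuation N (d : N) ^ n := zero_lt_iff.2 (pow_ne_zero _ h0)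
  calc W.valuation N ((∏ p ∈ T.filter Nat.Prime, p : ℕ) : N) * W.valuation N (d : N) ^ n
      < 1 * W.valuation N (d : N) ^ n := mul_lt_mul_of_pos_right h1 h4
    _ = W.valuation N (d : N) ^ n := one_mul _

/-- the coefficients of the difference -/
theorem coeff_lt (W : HeightOneSpectrum (𝓞 N)) {n : ℕ}
    {c : WithZero (Multiplicative ℤ)} {m Y z : 𝓞 F} (hmY : m ∣ Y)
    (hz : W.valuation N (io F N z) ≤ W.valuation N (io F N m))
    (hm : W.valuation N (io F N m) < c) (P R₁ B : (𝓞 F)[X]) (hP : P - R₁ = C z * B) (k : ℕ) :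
    W.valuation N ((P.map (io F N) -
      (((∏ j ∈ Finset.range n, (X - C (Y * (j : 𝓞 F)))) + (R₁ - X ^ n)).map (io F N))).coeff k)
      < c := by
  rw [← Polynomial.map_sub, coeff_map]
  have h1 : P - ((∏ j ∈ Finset.range n, (X - C (Y * (j : 𝓞 F)))) + (R₁ - X ^ n)) =
      C z * B - ((∏ j ∈ Finset.range n, (X - C (Y * (j : 𝓞 F)))) - X ^ n) := by
    rw [← hP]; ring
  rw [h1, coeff_sub, coeff_C_mul, map_sub, map_mul]
  refine lt_of_le_of_lt (Valuation.map_sub _ _ _) (max_lt ?_ ?_)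
  · rw [map_mul]
    refine lt_of_le_of_lt (mul_le_of_le_one_right' (val_io_le_one W _)) (lt_of_le_of_lt hz hm)
  · exact lt_of_le_of_lt (val_io_le_of_dvd W (hmY.trans (dvd_coeff Y n k))) hm

end Local

end UKIL

open Polynomial in
theorem UKIL_thm (hR : Stmt_UROOT) (hK : Stmt_UKRA) : Stmt_UKIL := by
  intro F L _ _ _ _ _ _ v₀ T hF
  obtain ⟨θ, hθ⟩ := UKIL.exists_theta F L
  obtain ⟨R0, hR0m, hR0n, hR0⟩ := UKIL.exists_R0 θ hθ
  obtain ⟨n, hn⟩ : ∃ n, n = Module.finrank F L := ⟨_, rfl⟩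
  rw [← hn] at hR0n
  obtain ⟨d, hd0, hdg, hdi⟩ := UKIL.exists_d θ hθ n
  obtain ⟨m, hm⟩ : ∃ m : ℕ, m = (∏ p ∈ T.filter Nat.Prime, p) * d ^ n := ⟨_, rfl⟩
  have hm0 : m ≠ 0 := by
    rw [hm]
    refine mul_ne_zero ?_ (pow_ne_zero _ hd0)
    rw [Finset.prod_ne_zero_iff]
    intro p hp
    exact (Finset.mem_filter.1 hp).2.ne_zero
  obtain ⟨e, he0, heu⟩ := UKIL.crt v₀ ((m : ℕ) : 𝓞 F) (by exact_mod_cast hm0)
  obtain ⟨P0, hP0⟩ : ∃ P0 : (𝓞 F)[X], P0 = ∏ j ∈ Finset.range n, (X - C ((j : ℕ) : 𝓞 F)) :=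
    ⟨_, rfl⟩
  have hP0m := UKIL.monic_prod (A := 𝓞 F) n (fun j => ((j : ℕ) : 𝓞 F))
  rw [← hP0] at hP0m
  obtain ⟨R1, hR1⟩ : ∃ R1 : (𝓞 F)[X], R1 = C e * P0 + C (1 - e) * R0 := ⟨_, rfl⟩
  have hR1m := UKIL.monic_comb e hP0m.1 hR0m hP0m.2 hR0n
  rw [← hR1] at hR1m
  have hg := UKIL.degree_sub_lt hR1m.1 hR1m.2
  obtain ⟨Y₀, hY₀⟩ := UKIL.real_roots hR hF n ((R1 - X ^ n).map (algebraMap (𝓞 F) F))
    (degree_map_le.trans_lt hg)
  obtain ⟨Y, hY⟩ : ∃ Y : ℕ, Y = m * (Y₀ + 1) := ⟨_, rfl⟩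
  have hYY : Y₀ ≤ Y := by
    rw [hY]
    have : 1 ≤ m := Nat.one_le_iff_ne_zero.2 hm0
    nlinarith
  obtain ⟨R, hRd⟩ : ∃ R : (𝓞 F)[X], R = (∏ j ∈ Finset.range n,
    (X - C (((Y : ℕ) : 𝓞 F) * ((j : ℕ) : 𝓞 F)))) + (R1 - X ^ n) := ⟨_, rfl⟩
  have hprod := UKIL.monic_prod (A := 𝓞 F) n (fun j => ((Y : ℕ) : 𝓞 F) * ((j : ℕ) : 𝓞 F))
  have hRm := UKIL.monic_add hprod.1 hprod.2 hg
  rw [← hRd] at hRm
  refine ⟨R.map (algebraMap (𝓞 F) F), hRm.1.map _, ?_, ?_, ?_⟩
  · rw [hRm.1.natDegree_map, hRm.2, hn]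
  · intro Φ z hz
    apply hY₀ Y hYY Φ z
    rw [hRd, Polynomial.map_add, Polynomial.map_prod] at hz
    have h1 : ∀ j ∈ Finset.range n, ((X - C (((Y : ℕ) : 𝓞 F) * ((j : ℕ) : 𝓞 F)) : (𝓞 F)[X])).map
        (algebraMap (𝓞 F) F) = (X - C (((Y : ℕ) : F) * ((j : ℕ) : F))) := by
      intro j _
      rw [Polynomial.map_sub, Polynomial.map_X, Polynomial.map_C, map_mul, map_natCast,
        map_natCast]
    rwa [Finset.prod_congr rfl h1] at hz
  · intro N _ _ _ _ _ _ hspl W h hdec hab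
    have hmapN : (R.map (algebraMap (𝓞 F) F)).map (algebraMap F N) = R.map (UKIL.io F N) := by
      rw [Polynomial.map_map]; rfl
    rw [hmapN] at hspl
    obtain ⟨β, hβ⟩ := UKIL.exists_roots (hRm.1.map (UKIL.io F N))
      ((hRm.1.natDegree_map _).trans hRm.2) hspl
    have hroot : ∀ κ : N, aeval κ (R.map (algebraMap (𝓞 F) F)) = 0 ↔ ∃ j, κ = β j := by
      intro κ
      rw [aeval_def, ← eval_map, hmapN, hβ, eval_prod, Finset.prod_eq_zero_iff]
      simp only [eval_sub, eval_X, eval_C, Finset.mem_univ, true_and, sub_eq_zero]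
    have hhroot : ∀ j, ∃ j', h (β j) = β j' := by
      intro j
      rw [← hroot]
      have h1 : aeval (β j) (R.map (algebraMap (𝓞 F) F)) = 0 := (hroot _).2 ⟨j, rfl⟩
      have h2 := aeval_algHom_apply (h : N →ₐ[F] N) (β j) (R.map (algebraMap (𝓞 F) F))
      rw [h1, map_zero] at h2
      exact h2
    have hv : ∀ y, W.valuation N (h y) = W.valuation N y := fun y => RB.val_dec hdec y
    have hvm : W.valuation N (UKIL.io F N ((m : ℕ) : 𝓞 F)) < W.valuation N (d : N) ^ n := by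
      rw [UKIL.natCast_io, hm]
      exact UKIL.val_m T d n hd0 W hab
    have hmY : ((m : ℕ) : 𝓞 F) ∣ ((Y : ℕ) : 𝓞 F) := by
      rw [hY, Nat.cast_mul]
      exact dvd_mul_right _ _
    have hvL : ∀ a b : 𝓞 L, a ∣ b →
        W.valuation N (UKIL.io L N b) ≤ W.valuation N (UKIL.io L N a) :=
      fun a b hab => UKIL.val_io_le_of_dvd W hab
    constructor
    · intro hW κ hκ
      obtain ⟨s₀, hs₀, hs₁⟩ := he0
      rw [← hW] at hs₀
      have hz := UKIL.val_le W hs₀ hs₁
      have hPR : P0 - R1 = C (1 - e) * (P0 - R0) := by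
        rw [hR1, C_sub, C_1]; ring
      have hs0 := hK N _ (W.valuation N) n (fun i => ((i : ℕ) : N)) β
        (W.valuation N (d : N)) ?_ ?_ ?_
      · obtain ⟨s, hs⟩ := hs0
        obtain ⟨j, rfl⟩ := (hroot κ).1 hκ
        obtain ⟨i, rfl⟩ := s.surjective j
        rw [UKIL.fix_iff (W.valuation N) hs h (fun x y => map_sub h x y) hv
          (fun i => ⟨i, map_natCast h _⟩) hhroot]
        exact map_natCast h _
      · intro i
        rw [← UKIL.natCast_io (F := F)]
        exact UKIL.val_io_le_one W _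
      · intro i j hij
        have h1 := hvL _ _ (hdi (i : ℕ) (j : ℕ) i.2 j.2 (fun h => hij (Fin.ext h)))
        rw [map_sub, UKIL.natCast_io, UKIL.natCast_io, UKIL.natCast_io] at h1
        exact h1
      · intro k
        have h1 := UKIL.coeff_lt (n := n) W hmY hz hvm P0 R1 (P0 - R0) hPR k
        rw [← hRd, hβ, hP0, Polynomial.map_prod] at h1
        have h2 : ∀ j ∈ Finset.range n, ((X - C ((j : ℕ) : 𝓞 F) : (𝓞 F)[X])).map
            (UKIL.io F N) = (X - C ((j : ℕ) : N)) := by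
          intro j _
          rw [Polynomial.map_sub, Polynomial.map_X, Polynomial.map_C, map_natCast]
        rw [Finset.prod_congr rfl h2, Finset.prod_range] at h1
        exact h1
    · intro hW κ hκ
      obtain ⟨s₀, hs₀, hs₁⟩ := heu _ hW
      have hz := UKIL.val_le W hs₀ hs₁
      have hPR : R0 - R1 = C e * (R0 - P0) := by
        rw [hR1, C_sub, C_1]; ring
      have hcard : Fintype.card (L ≃ₐ[F] L) = n := by
        rw [hn, ← Nat.card_eq_fintype_card, IsGalois.card_aut_eq_finrank]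
      obtain ⟨ε⟩ : Nonempty (Fin n ≃ (L ≃ₐ[F] L)) := ⟨(Fintype.equivFinOfCardEq hcard).symm⟩
      have hact : ∀ g : L ≃ₐ[F] L, h (algebraMap L N (g (θ : L))) =
          algebraMap L N ((AlgEquiv.restrictNormalHom L h * g : L ≃ₐ[F] L) (θ : L)) := by
        intro g
        rw [AlgEquiv.mul_apply]
        exact (AlgEquiv.restrictNormal_commutes h L (g (θ : L))).symm
      have hs0 := hK N _ (W.valuation N) n (fun i => algebraMap L N ((ε i) (θ : L))) β
        (W.valuation N (d : N)) ?_ ?_ ?_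
      · obtain ⟨s, hs⟩ := hs0
        obtain ⟨j, rfl⟩ := (hroot κ).1 hκ
        obtain ⟨i, rfl⟩ := s.surjective j
        rw [UKIL.fix_iff (W.valuation N) hs h (fun x y => map_sub h x y) hv
          (fun i => ⟨ε.symm (AlgEquiv.restrictNormalHom L h * ε i), by
            rw [hact, Equiv.apply_symm_apply]⟩) hhroot]
        rw [hact]
        constructor
        · intro h1
          have h2 := (algebraMap L N).injective h1
          have h3 : ((ε i)⁻¹ * (AlgEquiv.restrictNormalHom L h * ε i) : L ≃ₐ[F] L) (θ : L) =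
              (θ : L) := by
            rw [AlgEquiv.mul_apply, h2, ← AlgEquiv.mul_apply, inv_mul_cancel, AlgEquiv.one_apply]
          have h4 := inv_mul_eq_one.1 (hθ _ h3)
          exact (mul_eq_right.1 h4.symm)
        · intro h1
          rw [h1, one_mul]
      · intro i
        exact W.valuation_le_one (algebraMap (𝓞 L) (𝓞 N) (STB.oMap ((ε i : L ≃ₐ[F] L) : L ≃+* L) θ))
      · intro i j hij
        have h1 := hvL _ _ (hdg (ε i) (ε j) (fun h => hij (ε.injective h)))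
        rw [map_sub, UKIL.natCast_io] at h1
        exact h1
      · intro k
        have h1 := UKIL.coeff_lt (n := n) W hmY hz hvm R0 R1 (R0 - P0) hPR k
        have h2 : R0.map (UKIL.io F N) = (R0.map (UKIL.io F L)).map (algebraMap L N) := by
          rw [Polynomial.map_map]
          congr 1
          ext x
          exact IsScalarTower.algebraMap_apply F L N (x : F)
        rw [← hRd, hβ, h2, hR0, Polynomial.map_prod] at h1
        simp only [Polynomial.map_sub, Polynomial.map_X, Polynomial.map_C] at h1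
        rw [← Equiv.prod_comp ε] at h1
        exact h1

end StarkC
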