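import Pool.Agent.StarkU.Stmts

/-!
# The local computation: a sum over a double coset
-/

open scoped Classical

namespace StarkC

namespace ULOCG

/-- sums along a surjective homomorphism -/
theorem sum_surj {A B : Type} [Group A] [Fintype A] [Group B] [Fintype B] (f : A →* B)
    (hf : Function.Surjective f) (F : B → ℂ) :
    ∑ a, F (f a) = (Nat.card f.ker : ℂ) * ∑ b, F b := by
  have h1 : ∀ b : B, (Finset.univ.filter (fun a => f a = b)).card = Nat.card f.ker := by
    intro b
    rw [MonoidHom.card_fiber_eq_of_mem_range f (hf b) (hf 1), Nat.card_eq_fintype_card,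
      Fintype.card_subtype]
    congr 1
    ext a
    simp [MonoidHom.mem_ker]
  calc ∑ a, F (f a) = ∑ b, ∑ a ∈ Finset.univ.filter (fun a => f a = b), F (f a) :=
        (Finset.sum_fiberwise Finset.univ f (fun a => F (f a))).symm
    _ = ∑ b, (Nat.card f.ker : ℂ) * F b := by
        refine Finset.sum_congr rfl fun b _ => ?_
        have h2 : ∑ a ∈ Finset.univ.filter (fun a => f a = b), F (f a) =
            ∑ _a ∈ Finset.univ.filter (fun a => f a = b), F b :=
          Finset.sum_congr rfl fun a ha => by rw [(Finset.mem_filter.mp ha).2]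
        rw [h2, Finset.sum_const, h1 b, nsmul_eq_mul]
    _ = _ := by rw [Finset.mul_sum]

/-- the number of representations of an element of a double coset -/
theorem card_rep {G : Type} [Group G] [Fintype G] (H D : Subgroup G) (z d₀ s₀ : G)
    (hd : d₀ ∈ D) (hs : s₀ ∈ H) :
    (Finset.univ.filter (fun p : D × H => z * (p.1 : G) * (p.2 : G) = z * d₀ * s₀)).card =
      Nat.card (H ⊓ D : Subgroup G) := by
  rw [← Fintype.card_subtype, ← Nat.card_eq_fintype_card]
  symm
  refine Nat.card_congr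
    { toFun := fun u => ⟨(⟨d₀ * (u : G), D.mul_mem hd u.2.2⟩,
        ⟨(u : G)⁻¹ * s₀, H.mul_mem (H.inv_mem u.2.1) hs⟩), by simp [mul_assoc]⟩
      invFun := fun p => ⟨d₀⁻¹ * (p.1.1 : G), ?_, D.mul_mem (D.inv_mem hd) p.1.1.2⟩
      left_inv := ?_
      right_inv := ?_ }
  · have h1 := p.2
    have h2 : (p.1.1 : G) * (p.1.2 : G) = d₀ * s₀ := by
      have h3 : z * ((p.1.1 : G) * (p.1.2 : G)) = z * (d₀ * s₀) := by
        simpa [mul_assoc] using h1
      exact mul_left_cancel h3
    have h3 : d₀⁻¹ * (p.1.1 : G) = s₀ * (p.1.2 : G)⁻¹ := by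
      rw [eq_mul_inv_iff_mul_eq, mul_assoc, h2]
      simp
    rw [h3]
    exact H.mul_mem hs (H.inv_mem p.1.2.2)
  · intro u
    ext
    simp
  · intro p
    have h1 := p.2
    have h2 : (p.1.1 : G) * (p.1.2 : G) = d₀ * s₀ := by
      have h3 : z * ((p.1.1 : G) * (p.1.2 : G)) = z * (d₀ * s₀) := by
        simpa [mul_assoc] using h1
      exact mul_left_cancel h3
    apply Subtype.ext
    apply Prod.ext
    · apply Subtype.ext
      simp
    · apply Subtype.ext
      show (d₀⁻¹ * (p.1.1 : G))⁻¹ * s₀ = (p.1.2 : G)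
      rw [mul_inv_rev, inv_inv, mul_assoc, ← h2]
      simp

/-- a sum over a double coset -/
theorem sum_double {G : Type} [Group G] [Fintype G] (H D : Subgroup G) (z : G) (t : G → ℂ)
    (ht : ∀ y, ∀ s ∈ H, t (y * s) = t y) :
    (Nat.card (H ⊓ D : Subgroup G) : ℂ) *
        (∑ y : G, if ∃ d ∈ D, ∃ s ∈ H, y = z * d * s then t y else 0) =
      (Nat.card H : ℂ) * ∑ d : D, t (z * d) := by
  have h1 : ∑ p : D × H, t (z * (p.1 : G) * (p.2 : G)) = (Nat.card H : ℂ) * ∑ d : D, t (z * d) := by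
    rw [Fintype.sum_prod_type, Finset.mul_sum]
    refine Finset.sum_congr rfl fun d _ => ?_
    have h2 : ∑ s : H, t (z * (d : G) * (s : G)) = ∑ _s : H, t (z * d) :=
      Finset.sum_congr rfl fun s _ => ht _ _ s.2
    rw [h2, Finset.sum_const, Finset.card_univ, nsmul_eq_mul, Nat.card_eq_fintype_card]
  rw [← h1, ← Finset.sum_fiberwise Finset.univ
    (fun p : D × H => z * (p.1 : G) * (p.2 : G)) (fun p => t (z * (p.1 : G) * (p.2 : G))),
    Finset.mul_sum]
  refine Finset.sum_congr rfl fun y _ => ?_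
  have h2 : ∑ p ∈ Finset.univ.filter (fun p : D × H => z * (p.1 : G) * (p.2 : G) = y),
      t (z * (p.1 : G) * (p.2 : G)) =
      ∑ _p ∈ Finset.univ.filter (fun p : D × H => z * (p.1 : G) * (p.2 : G) = y), t y :=
    Finset.sum_congr rfl fun p hp => by rw [(Finset.mem_filter.mp hp).2]
  rw [h2, Finset.sum_const, nsmul_eq_mul]
  by_cases hy : ∃ d ∈ D, ∃ s ∈ H, y = z * d * s
  · rw [if_pos hy]
    obtain ⟨d, hd, s, hs, rfl⟩ := hy
    rw [card_rep H D z d s hd hs]
  · rw [if_neg hy, mul_zero]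
    have h3 : (Finset.univ.filter (fun p : D × H => z * (p.1 : G) * (p.2 : G) = y)) = ∅ := by
      apply Finset.filter_eq_empty_iff.mpr
      intro p _ hp
      exact hy ⟨p.1, p.1.2, p.2, p.2.2, hp.symm⟩
    rw [h3]
    simp

/-- the extension by zero of a linear character is a class function on the subgroup -/
theorem extZ_conj {G : Type} [Group G] {H : Subgroup G} (ψ : H →* ℂˣ) (g s : G) (hs : s ∈ H) :
    extZ ψ (s⁻¹ * g * s) = extZ ψ g := by
  have hiff : s⁻¹ * g * s ∈ H ↔ g ∈ H := by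
    constructor
    · intro h
      have h1 := H.mul_mem (H.mul_mem hs h) (H.inv_mem hs)
      have h2 : s * (s⁻¹ * g * s) * s⁻¹ = g := by group
      rwa [h2] at h1
    · intro h
      exact H.mul_mem (H.mul_mem (H.inv_mem hs) h) hs
  unfold extZ
  by_cases hg : g ∈ H
  · have hg' := hiff.mpr hg
    rw [dif_pos hg, dif_pos hg']
    have h1 : (⟨s⁻¹ * g * s, hg'⟩ : H) = (⟨s, hs⟩ : H)⁻¹ * ⟨g, hg⟩ * ⟨s, hs⟩ := by
      ext
      simp
    rw [h1, map_mul, map_mul, map_inv]
    congr 1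
    rw [mul_comm, ← mul_assoc, mul_inv_cancel, one_mul]
  · have hg' : s⁻¹ * g * s ∉ H := fun h => hg (hiff.mp h)
    rw [dif_neg hg, dif_neg hg']

end ULOCG

open ULOCG in
/-- **Module ULOCG.** -/
theorem ULOCG_thm : Stmt_ULOCG := by
  intro G G' _ _ _ _ r H₀ D B ψ₀ ψ z₀ x hB hDB hψ hx
  have hBpos : (Nat.card B : ℂ) ≠ 0 := by
    exact_mod_cast (Nat.card_pos (α := B)).ne'
  have hHpos : (Nat.card H₀ : ℂ) ≠ 0 := by
    exact_mod_cast (Nat.card_pos (α := H₀)).ne'
  have hHDpos : (Nat.card (H₀ ⊓ D : Subgroup G) : ℂ) ≠ 0 := by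
    exact_mod_cast (Nat.card_pos (α := (H₀ ⊓ D : Subgroup G))).ne'
  set T : G' → ℂ := fun y => extZ ψ (y⁻¹ * r x * y) with hT
  -- the local sum
  have hloc : ∀ d : D, extZ ψ₀ ((z₀ * (d : G))⁻¹ * x * (z₀ * (d : G))) =
      T (r z₀ * r (d : G)) := by
    intro d
    have he : (z₀ * (d : G))⁻¹ * x * (z₀ * (d : G)) ∈ D := by
      have h1 : (z₀ * (d : G))⁻¹ * x * (z₀ * (d : G)) =
          (d : G)⁻¹ * (z₀⁻¹ * x * z₀) * (d : G) := by group
      rw [h1]
      exact D.mul_mem (D.mul_mem (D.inv_mem d.2) hx) d.2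
    have hr : r ((z₀ * (d : G))⁻¹ * x * (z₀ * (d : G))) =
        (r z₀ * r (d : G))⁻¹ * r x * (r z₀ * r (d : G)) := by
      simp [map_mul]
    rw [hT]
    beta_reduce
    rw [← hr]
    generalize (z₀ * (d : G))⁻¹ * x * (z₀ * (d : G)) = e at he
    unfold extZ
    by_cases h : e ∈ H₀
    · have h' : r e ∈ B := (hDB e he).mp h
      rw [dif_pos h, dif_pos h']
      congr 1
      exact hψ ⟨e, h⟩ ⟨r e, h'⟩ he rfl
    · have h' : r e ∉ B := fun h' => h ((hDB e he).mpr h')
      rw [dif_neg h, dif_neg h']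
  set f : D →* (D.map r) := r.subgroupMap D with hf
  have hfs : Function.Surjective f := r.subgroupMap_surjective D
  have h1 := sum_double H₀ D z₀ (fun y => extZ ψ₀ (y⁻¹ * x * y)) (by
    intro y s hs
    have h1 : (y * s)⁻¹ * x * (y * s) = s⁻¹ * (y⁻¹ * x * y) * s := by group
    rw [h1]
    exact extZ_conj ψ₀ _ s hs)
  have h2 : ∑ d : D, extZ ψ₀ ((z₀ * (d : G))⁻¹ * x * (z₀ * (d : G))) =
      (Nat.card f.ker : ℂ) * ∑ b : D.map r, T (r z₀ * (b : G')) := by
    rw [← sum_surj f hfs (fun b => T (r z₀ * (b : G')))]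
    refine Finset.sum_congr rfl fun d _ => ?_
    rw [hloc d]
    rfl
  -- the right side
  have h3 : (∑ y : G', if (r z₀)⁻¹ * y ∈ D.map r then T y else 0) =
      ∑ b : D.map r, T (r z₀ * (b : G')) := by
    have h4 : (∑ y : G', if (r z₀)⁻¹ * y ∈ D.map r then T y else 0) =
        ∑ y : G', if y ∈ D.map r then T (r z₀ * y) else 0 := by
      symm
      refine Fintype.sum_equiv (Equiv.mulLeft (r z₀)) _ _ fun y => ?_
      simp
    rw [h4, ← Finset.sum_filter]
    refine Finset.sum_subtype _ ?_ (fun y => T (r z₀ * y))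
    intro y
    simp
  -- the number of elements
  have hcard : (Nat.card (H₀ ⊓ D : Subgroup G) : ℂ) = (Nat.card f.ker : ℂ) * (Nat.card B : ℂ) := by
    let φ : (H₀ ⊓ D : Subgroup G) →* B :=
      { toFun := fun u => ⟨r (u : G), (hDB _ u.2.2).mp u.2.1⟩
        map_one' := by
          apply Subtype.ext
          simp
        map_mul' := by
          intro a b
          apply Subtype.ext
          simp }
    have hφ : Function.Surjective φ := by
      intro b
      obtain ⟨d, hd, hdb⟩ := hB b.2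
      refine ⟨⟨d, (hDB d hd).mpr ?_, hd⟩, ?_⟩
      · rw [hdb]
        exact b.2
      · apply Subtype.ext
        exact hdb
    have h5 := sum_surj φ hφ (fun _ => 1)
    simp only [Finset.sum_const, Finset.card_univ, nsmul_eq_mul, mul_one] at h5
    rw [Nat.card_eq_fintype_card, h5, ← Nat.card_eq_fintype_card (α := B)]
    congr 2
    refine Nat.card_congr
      { toFun := fun u => ⟨⟨((u : (H₀ ⊓ D : Subgroup G)) : G), u.1.2.2⟩, ?_⟩
        invFun := fun u => ⟨⟨((u : D) : G), ?_⟩, ?_⟩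
        left_inv := ?_
        right_inv := ?_ }
    · have h6 := u.2
      rw [MonoidHom.mem_ker] at h6 ⊢
      have h7 : r ((u : (H₀ ⊓ D : Subgroup G)) : G) = 1 := congrArg Subtype.val h6
      apply Subtype.ext
      exact h7
    · have h6 := u.2
      rw [MonoidHom.mem_ker] at h6
      have h7 : r ((u : D) : G) = 1 := congrArg Subtype.val h6
      refine ⟨(hDB _ u.1.2).mpr ?_, u.1.2⟩
      rw [h7]
      exact B.one_mem
    · have h6 := u.2
      rw [MonoidHom.mem_ker] at h6 ⊢
      have h7 : r ((u : D) : G) = 1 := congrArg Subtype.val h6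
      apply Subtype.ext
      exact h7
    · intro u
      rfl
    · intro u
      rfl
  have hk : (Nat.card f.ker : ℂ) ≠ 0 := by
    exact_mod_cast (Nat.card_pos (α := f.ker)).ne'
  beta_reduce at h1
  rw [h2, hcard] at h1
  rw [h3, div_eq_div_iff hHpos hBpos]
  have h8 : (Nat.card f.ker : ℂ) * ((∑ y : G, if ∃ d ∈ D, ∃ s ∈ H₀, y = z₀ * d * s then
      extZ ψ₀ (y⁻¹ * x * y) else 0) * (Nat.card B : ℂ)) =
      (Nat.card f.ker : ℂ) * ((∑ b : D.map r, T (r z₀ * (b : G'))) * (Nat.card H₀ : ℂ)) := by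
    linear_combination h1
  exact mul_left_cancel₀ hk h8

end StarkC
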