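import Pool.Agent.StarkU.Stmts
import Pool.Agent.Stark.BRA
import Pool.Agent.Stark.CMB

/-!
# Restriction, induction and inflation of rational combinations of monomial characters
-/

open scoped Classical

namespace StarkC

namespace UMACK

theorem extZ_comap {G G' : Type} [Group G] [Group G'] (r : G' →* G) (H : Subgroup G)
    (ψ : H →* ℂˣ) (g : G') : extZ (ψ.comp (r.subgroupComap H)) g = extZ ψ (r g) := by
  unfold extZ
  by_cases h : r g ∈ H
  · have h2 : g ∈ H.comap r := h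
    rw [dif_pos h, dif_pos h2]
    rfl
  · have h2 : g ∉ H.comap r := h
    rw [dif_neg h, dif_neg h2]

theorem mem_SpanQ_of {G : Type} [Group G] [Fintype G] {P : ∀ H : Subgroup G, (H →* ℂˣ) → Prop}
    (H : Subgroup G) (ψ : H →* ℂˣ) (h : P H ψ) : indFun H (extZ ψ) ∈ SpanQ P :=
  Submodule.subset_span ⟨H, ψ, h, rfl⟩

theorem SpanQ_le {G G' : Type} [Group G] [Fintype G] [Group G'] [Fintype G']
    {P : ∀ H : Subgroup G, (H →* ℂˣ) → Prop} {P' : ∀ H : Subgroup G', (H →* ℂˣ) → Prop}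
    (F : (G → ℂ) →ₗ[ℚ] (G' → ℂ))
    (h : ∀ (H : Subgroup G) (ψ : H →* ℂˣ), P H ψ → F (indFun H (extZ ψ)) ∈ SpanQ P')
    {f : G → ℂ} (hf : f ∈ SpanQ P) : F f ∈ SpanQ P' := by
  have h1 : SpanQ P ≤ (SpanQ P').comap F := by
    rw [SpanQ, Submodule.span_le]
    rintro _ ⟨H, ψ, hP, rfl⟩
    exact h H ψ hP
  exact h1 hf

theorem mackey {G : Type} [Group G] [Fintype G] (D H : Subgroup G) (ψ : H →* ℂˣ) (d : D) :
    indFun H (extZ ψ) (d : G) = ∑ x : G,
      (((Nat.card (H.comap ((MulAut.conj x⁻¹).toMonoidHom.comp D.subtype)) : ℚ) /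
        ((Nat.card H : ℚ) * (Nat.card D : ℚ)) : ℚ) : ℂ) *
      indFun (H.comap ((MulAut.conj x⁻¹).toMonoidHom.comp D.subtype))
        (extZ (ψ.comp (((MulAut.conj x⁻¹).toMonoidHom.comp D.subtype).subgroupComap H))) d := by
  have hH : (Nat.card H : ℂ) ≠ 0 := by exact_mod_cast Nat.card_pos.ne'
  have hD : (Nat.card D : ℂ) ≠ 0 := by exact_mod_cast Nat.card_pos.ne'
  have e1 : ∀ x : G, (((Nat.card (H.comap ((MulAut.conj x⁻¹).toMonoidHom.comp D.subtype)) : ℚ) /
        ((Nat.card H : ℚ) * (Nat.card D : ℚ)) : ℚ) : ℂ) *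
      indFun (H.comap ((MulAut.conj x⁻¹).toMonoidHom.comp D.subtype))
        (extZ (ψ.comp (((MulAut.conj x⁻¹).toMonoidHom.comp D.subtype).subgroupComap H))) d =
      (∑ y : D, extZ ψ (((y : G) * x)⁻¹ * (d : G) * ((y : G) * x))) /
        ((Nat.card H : ℂ) * (Nat.card D : ℂ)) := by
    intro x
    have hB : (Nat.card (H.comap ((MulAut.conj x⁻¹).toMonoidHom.comp D.subtype)) : ℂ) ≠ 0 := by
      exact_mod_cast Nat.card_pos.ne'
    rw [BRA.indFun_extZ]
    push_cast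
    have e2 : ∑ y : D, extZ (ψ.comp (((MulAut.conj x⁻¹).toMonoidHom.comp
        D.subtype).subgroupComap H)) (y⁻¹ * d * y) =
        ∑ y : D, extZ ψ (((y : G) * x)⁻¹ * (d : G) * ((y : G) * x)) := by
      refine Finset.sum_congr rfl fun y _ => ?_
      rw [extZ_comap]
      congr 1
      show x⁻¹ * (((y⁻¹ * d * y : D)) : G) * x⁻¹⁻¹ = _
      simp only [Subgroup.coe_mul, Subgroup.coe_inv, mul_inv_rev, mul_assoc, inv_inv]
    rw [e2]
    field_simp
  rw [Finset.sum_congr rfl fun x _ => e1 x, ← Finset.sum_div, Finset.sum_comm]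
  have e3 : ∀ y : D, ∑ x : G, extZ ψ (((y : G) * x)⁻¹ * (d : G) * ((y : G) * x)) =
      ∑ x : G, extZ ψ (x⁻¹ * (d : G) * x) := fun y =>
    Equiv.sum_comp (Equiv.mulLeft (y : G)) (fun x => extZ ψ (x⁻¹ * (d : G) * x))
  rw [Finset.sum_congr rfl fun y _ => e3 y, Finset.sum_const, Finset.card_univ, nsmul_eq_mul,
    ← Nat.card_eq_fintype_card, BRA.indFun_extZ]
  field_simp

end UMACK

theorem UMACK_thm : Stmt_UMACK := by
  intro G _ _ D f hf
  refine UMACK.SpanQ_le (LinearMap.funLeft ℚ ℂ (fun d : D => (d : G))) ?_ hf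
  intro H ψ _
  have e : LinearMap.funLeft ℚ ℂ (fun d : D => (d : G)) (indFun H (extZ ψ)) = ∑ x : G,
      ((Nat.card (H.comap ((MulAut.conj x⁻¹).toMonoidHom.comp D.subtype)) : ℚ) /
        ((Nat.card H : ℚ) * (Nat.card D : ℚ)) : ℚ) •
      indFun (H.comap ((MulAut.conj x⁻¹).toMonoidHom.comp D.subtype))
        (extZ (ψ.comp (((MulAut.conj x⁻¹).toMonoidHom.comp D.subtype).subgroupComap H))) := by
    funext d
    rw [Finset.sum_apply]
    show indFun H (extZ ψ) (d : G) = _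
    rw [UMACK.mackey]
    refine Finset.sum_congr rfl fun x _ => ?_
    rw [Pi.smul_apply, Rat.smul_def]
  rw [e]
  exact Submodule.sum_mem _ fun x _ => Submodule.smul_mem _ _ (UMACK.mem_SpanQ_of _ _ trivial)

theorem UIND_thm : Stmt_UIND := by
  intro G _ _ C f P hf
  have e : indFun C f = (BRA.indL C).toAddMonoidHom.toRatLinearMap (fun c : C => f (c : G)) :=
    (BRA.indFun_ext0 C f).symm
  rw [e]
  refine UMACK.SpanQ_le _ ?_ hf
  intro B ν hB
  have e2 : (BRA.indL C).toAddMonoidHom.toRatLinearMap (indFun B (extZ ν)) =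
      indFun (B.map C.subtype) (extZ (BRA.psi' C B ν)) := BRA.indL_mon C B ν
  rw [e2]
  refine UMACK.mem_SpanQ_of _ _ ⟨B, ν, hB, rfl, ?_⟩
  intro b h hbh
  show ν ((B.equivMapOfInjective C.subtype C.subtype_injective).symm h) = ν b
  congr 1
  rw [MulEquiv.symm_apply_eq]
  exact Subtype.ext hbh

theorem UINFL_thm : Stmt_UINFL := by
  intro G' G _ _ _ _ r f P hr hf
  refine UMACK.SpanQ_le (LinearMap.funLeft ℚ ℂ r) ?_ hf
  intro H ψ hP
  have e : LinearMap.funLeft ℚ ℂ r (indFun H (extZ ψ)) =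
      indFun (H.comap r) (extZ (ψ.comp (r.subgroupComap H))) := by
    funext g
    show indFun H (extZ ψ) (r g) = _
    rw [CMB.indFun_infl r hr]
    exact congrFun (congrArg (indFun (H.comap r))
      (funext fun x => (UMACK.extZ_comap r H ψ x).symm)) g
  rw [e]
  refine UMACK.mem_SpanQ_of _ _ ⟨H, ψ, hP, rfl, ?_⟩
  intro h' h hh
  show ψ ⟨r (h' : G'), h'.2⟩ = ψ h
  congr 1
  exact Subtype.ext hh.symm

end StarkC
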