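import Pool.Agent.StarkU.Stmts

/-!
# Real polynomials with real simple roots

`UROOT_thm`: the polynomial `∏ (X - Y j) + g` has `n` different real roots when `Y` is large in
terms of `n` and of the coefficients of `g`.
-/

open Polynomial

namespace StarkC
namespace UROOT

/-- The value of the main product at `Y (k - 1/2)`. -/
noncomputable def M (n : ℕ) (Y : ℝ) (k : ℕ) : ℝ :=
  ∏ j ∈ Finset.range n, (Y * ((k : ℝ) - 1 / 2) - Y * (j : ℝ))

lemma M_abs (n : ℕ) (Y : ℝ) (hY : 0 ≤ Y) (k : ℕ) : (Y / 2) ^ n ≤ |M n Y k| := by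
  unfold M
  rw [Finset.abs_prod]
  have h : ∀ j ∈ Finset.range n, Y / 2 ≤ |Y * ((k : ℝ) - 1 / 2) - Y * (j : ℝ)| := by
    intro j _
    have h1 : Y * ((k : ℝ) - 1 / 2) - Y * (j : ℝ) = Y * ((k : ℝ) - 1 / 2 - j) := by ring
    rw [h1, abs_mul, abs_of_nonneg hY]
    have h2 : (1 / 2 : ℝ) ≤ |(k : ℝ) - 1 / 2 - j| := by
      rcases Nat.lt_or_ge j k with hjk | hjk
      · have h3 : (j : ℝ) + 1 ≤ k := by exact_mod_cast hjk
        rw [abs_of_nonneg (by linarith)]
        linarith
      · have h3 : (k : ℝ) ≤ j := by exact_mod_cast hjk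
        rw [abs_of_nonpos (by linarith)]
        linarith
    calc Y / 2 = Y * (1 / 2) := by ring
      _ ≤ Y * |(k : ℝ) - 1 / 2 - j| := mul_le_mul_of_nonneg_left h2 hY
  calc (Y / 2) ^ n = ∏ _j ∈ Finset.range n, (Y / 2) := by
        rw [Finset.prod_const, Finset.card_range]
    _ ≤ _ := Finset.prod_le_prod (fun _ _ => by positivity) h

lemma M_sign (n : ℕ) (Y : ℝ) (hY : 0 < Y) (k : ℕ) (hk : k < n) :
    M n Y k * M n Y (k + 1) < 0 := by
  unfold M
  rw [← Finset.prod_mul_distrib, ← Finset.mul_prod_erase _ _ (Finset.mem_range.2 hk)]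
  apply mul_neg_of_neg_of_pos
  · push_cast
    have : (Y * ((k : ℝ) - 1 / 2) - Y * (k : ℝ)) * (Y * ((k : ℝ) + 1 - 1 / 2) - Y * (k : ℝ)) =
        - (Y ^ 2 / 4) := by ring
    rw [this]
    have : 0 < Y ^ 2 := by positivity
    linarith
  · apply Finset.prod_pos
    intro j hj
    have hjk : j ≠ k := Finset.ne_of_mem_erase hj
    push_cast
    have h1 : (Y * ((k : ℝ) - 1 / 2) - Y * (j : ℝ)) * (Y * ((k : ℝ) + 1 - 1 / 2) - Y * (j : ℝ)) =
        Y ^ 2 * (((k : ℝ) - j) ^ 2 - 1 / 4) := by ring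
    rw [h1]
    have h2 : 0 < Y ^ 2 := by positivity
    have h3 : (1 : ℝ) ≤ ((k : ℝ) - j) ^ 2 := by
      rcases Nat.lt_or_gt_of_ne hjk with h | h
      · have h4 : (j : ℝ) + 1 ≤ k := by exact_mod_cast h
        nlinarith
      · have h4 : (k : ℝ) + 1 ≤ j := by exact_mod_cast h
        nlinarith
    exact mul_pos h2 (by linarith)

lemma eval_main (n : ℕ) (Y : ℝ) (x : ℝ) :
    (∏ j ∈ Finset.range n, (X - Polynomial.C (Y * (j : ℝ)))).eval x =
      ∏ j ∈ Finset.range n, (x - Y * (j : ℝ)) := by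
  rw [eval_prod]
  exact Finset.prod_congr rfl (fun j _ => by simp)

lemma g_bound (n : ℕ) (c : ℝ) (hc : 0 ≤ c) (g : ℝ[X]) (hg : g.degree < (n : WithBot ℕ))
    (hC : ∀ k, |g.coeff k| ≤ c) (Z : ℝ) (hZ : 1 ≤ Z) (x : ℝ) (hx : |x| ≤ Z) :
    |g.eval x| * Z ≤ n * c * Z ^ n := by
  rcases Nat.eq_zero_or_pos n with hn | hn
  · subst hn
    have : g = 0 := by
      rw [← Polynomial.degree_eq_bot]
      have h1 : g.degree < ((0 : ℕ) : WithBot ℕ) := hg
      simpa using h1
    subst this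
    simp
  · have hnd : g.natDegree < n := by
      rcases eq_or_ne g 0 with h0 | h0
      · subst h0; simpa using hn
      · exact (Polynomial.natDegree_lt_iff_degree_lt h0).2 hg
    rw [Polynomial.eval_eq_sum_range' hnd]
    have hZ0 : 0 ≤ Z := by linarith
    calc |∑ i ∈ Finset.range n, g.coeff i * x ^ i| * Z
        ≤ (∑ i ∈ Finset.range n, |g.coeff i * x ^ i|) * Z :=
          mul_le_mul_of_nonneg_right (Finset.abs_sum_le_sum_abs _ _) hZ0
      _ ≤ (∑ _i ∈ Finset.range n, c * Z ^ (n - 1)) * Z := by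
          apply mul_le_mul_of_nonneg_right _ hZ0
          apply Finset.sum_le_sum
          intro i hi
          rw [abs_mul, abs_pow]
          have hi' : i ≤ n - 1 := by
            have := Finset.mem_range.1 hi
            omega
          have h1 : |x| ^ i ≤ Z ^ (n - 1) :=
            (pow_le_pow_left₀ (abs_nonneg x) hx i).trans (pow_le_pow_right₀ hZ hi')
          exact mul_le_mul (hC i) h1 (by positivity) hc
      _ = n * c * Z ^ n := by
          rw [Finset.sum_const, Finset.card_range, nsmul_eq_mul]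
          have : Z ^ n = Z ^ (n - 1) * Z := by
            rw [← pow_succ]
            congr 1
            omega
          rw [this]
          ring

/-- a root between two points with different signs of the main term. -/
lemma root_between (P : ℝ[X]) (a b m₁ m₂ : ℝ) (hab : a < b) (hm : m₁ * m₂ < 0)
    (h1 : |P.eval a - m₁| < |m₁|) (h2 : |P.eval b - m₂| < |m₂|) :
    ∃ t, a < t ∧ t < b ∧ P.eval t = 0 := by
  have hcont : ContinuousOn (fun x => P.eval x) (Set.Icc a b) := P.continuous.continuousOn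
  rcases lt_or_ge 0 m₁ with hp | hp
  · have hn : m₂ < 0 := by
      by_contra h
      have : 0 ≤ m₁ * m₂ := mul_nonneg hp.le (not_lt.1 h)
      linarith
    rw [abs_of_pos hp] at h1
    rw [abs_of_neg hn] at h2
    have e1 := (abs_lt.1 h1).1
    have e2 := (abs_lt.1 h2).2
    obtain ⟨t, ht, hte⟩ := intermediate_value_Ioo' hab.le hcont
      (show (0 : ℝ) ∈ Set.Ioo (P.eval b) (P.eval a) from ⟨by linarith, by linarith⟩)
    exact ⟨t, ht.1, ht.2, hte⟩
  · have hp' : m₁ < 0 := by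
      rcases hp.lt_or_eq with h | h
      · exact h
      · rw [h] at hm; simp at hm
    have hn : 0 < m₂ := by
      by_contra h
      have : 0 ≤ m₁ * m₂ := mul_nonneg_of_nonpos_of_nonpos hp (not_lt.1 h)
      linarith
    rw [abs_of_neg hp'] at h1
    rw [abs_of_pos hn] at h2
    have e1 := (abs_lt.1 h1).2
    have e2 := (abs_lt.1 h2).1
    obtain ⟨t, ht, hte⟩ := intermediate_value_Ioo hab.le hcont
      (show (0 : ℝ) ∈ Set.Ioo (P.eval a) (P.eval b) from ⟨by linarith, by linarith⟩)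
    exact ⟨t, ht.1, ht.2, hte⟩

end UROOT

open UROOT in
theorem UROOT_thm : Stmt_UROOT := by
  intro n C
  obtain ⟨Y₀, hY₀⟩ := exists_nat_gt (2 ^ n * (n * |C| * (n + 1 : ℝ) ^ n) + 1)
  refine ⟨Y₀, fun Y hY g hg hC => ?_⟩
  have hYr : (2 : ℝ) ^ n * (n * |C| * (n + 1 : ℝ) ^ n) + 1 < Y :=
    hY₀.trans_le (by exact_mod_cast hY)
  have hc : ∀ k, |g.coeff k| ≤ |C| := fun k => (hC k).trans (le_abs_self C)
  have hnn : (0 : ℝ) ≤ 2 ^ n * (n * |C| * (n + 1 : ℝ) ^ n) := by positivity
  have hY1 : (1 : ℝ) < Y := by linarith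
  have hY0 : (0 : ℝ) < Y := by linarith
  set P : ℝ[X] := (∏ j ∈ Finset.range n, (X - Polynomial.C ((Y : ℝ) * (j : ℝ)))) + g with hP
  set x : ℕ → ℝ := fun k => (Y : ℝ) * ((k : ℝ) - 1 / 2) with hx
  -- the main term dominates
  have hdom : ∀ k, k ≤ n → |P.eval (x k) - M n Y k| < |M n Y k| := by
    intro k hk
    have e : P.eval (x k) - M n Y k = g.eval (x k) := by
      rw [hP, eval_add, eval_main]
      unfold M
      ring
    rw [e]
    have hZ : (1 : ℝ) ≤ (n + 1) * Y := by nlinarith [(Nat.cast_nonneg n : (0 : ℝ) ≤ n)]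
    have hxk : |x k| ≤ (n + 1) * Y := by
      have hkr : (k : ℝ) ≤ n := by exact_mod_cast hk
      have hk0 : (0 : ℝ) ≤ k := Nat.cast_nonneg k
      rw [hx]
      simp only
      rw [abs_mul, abs_of_pos hY0, mul_comm ((n : ℝ) + 1)]
      apply mul_le_mul_of_nonneg_left _ hY0.le
      rw [abs_le]
      constructor <;> linarith
    have hb := g_bound n |C| (abs_nonneg C) g hg hc ((n + 1) * Y) hZ (x k) hxk
    refine lt_of_lt_of_le ?_ (M_abs n Y hY0.le k)
    have hZ0 : 0 < ((n : ℝ) + 1) * Y := by linarith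
    -- |g| * ((n+1) Y) ≤ n |C| (n+1)^n Y^n
    have h3 : |g.eval (x k)| * Y ≤ |g.eval (x k)| * ((n + 1) * Y) := by
      apply mul_le_mul_of_nonneg_left _ (abs_nonneg _)
      nlinarith [(Nat.cast_nonneg n : (0 : ℝ) ≤ n)]
    have h4 : (n : ℝ) * |C| * ((n + 1) * Y) ^ n = (n * |C| * (n + 1 : ℝ) ^ n) * Y ^ n := by
      rw [mul_pow]; ring
    have h5 : |g.eval (x k)| * Y < (Y / 2 : ℝ) ^ n * Y := by
      have h6 : (Y / 2 : ℝ) ^ n * (2 ^ n * (n * |C| * (n + 1 : ℝ) ^ n)) =
          (n * |C| * (n + 1 : ℝ) ^ n) * Y ^ n := by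
        rw [div_pow]
        field_simp
      have h7 : (Y / 2 : ℝ) ^ n * (2 ^ n * (n * |C| * (n + 1 : ℝ) ^ n)) < (Y / 2 : ℝ) ^ n * Y := by
        apply mul_lt_mul_of_pos_left (by linarith)
        positivity
      linarith
    exact lt_of_mul_lt_mul_right h5 hY0.le
  have hroot : ∀ k : Fin n, ∃ t, x k < t ∧ t < x (k + 1) ∧ P.eval t = 0 := by
    intro k
    have hk : (k : ℕ) < n := k.2
    have h := root_between P (x k) (x (k + 1)) (M n Y k) (M n Y (k + 1))
      (by rw [hx]; push_cast; nlinarith) (M_sign n Y hY0 k hk) (hdom k hk.le)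
      (hdom (k + 1) hk)
    exact h
  choose t ht1 ht2 ht3 using hroot
  have hxmono : Monotone x := by
    intro a b hab
    have : (a : ℝ) ≤ b := by exact_mod_cast hab
    rw [hx]
    simp only
    apply mul_le_mul_of_nonneg_left _ hY0.le
    linarith
  have hlt : ∀ i j : Fin n, i < j → t i < t j := by
    intro i j hij
    have h1 : x ((i : ℕ) + 1) ≤ x j := hxmono (by exact_mod_cast hij)
    exact (ht2 i).trans_le (h1.trans (ht1 j).le)
  have hinj : Function.Injective t := by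
    intro i j hij
    rcases lt_trichotomy i j with h | h | h
    · exact absurd hij (hlt i j h).ne
    · exact h
    · exact absurd hij.symm (hlt j i h).ne
  refine ⟨t, hinj, ?_⟩
  have hmd : (∏ j ∈ Finset.range n, (X - Polynomial.C ((Y : ℝ) * (j : ℝ)))).degree =
      ((n : ℕ) : WithBot ℕ) := by
    rw [degree_prod]
    simp only [degree_X_sub_C]
    simp
  have hmm : (∏ j ∈ Finset.range n, (X - Polynomial.C ((Y : ℝ) * (j : ℝ)))).Monic :=
    monic_prod_of_monic _ _ (fun j _ => monic_X_sub_C _)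
  have hPm : P.Monic := by
    rw [hP]
    exact hmm.add_of_left (by rw [hmd]; exact hg)
  have hPd : P.degree = ((n : ℕ) : WithBot ℕ) := by
    rw [hP, degree_add_eq_left_of_degree_lt (by rw [hmd]; exact hg), hmd]
  have hQm : (∏ i : Fin n, (X - Polynomial.C (t i))).Monic :=
    monic_prod_of_monic _ _ (fun j _ => monic_X_sub_C _)
  have hQd : (∏ i : Fin n, (X - Polynomial.C (t i))).degree = ((n : ℕ) : WithBot ℕ) := by
    rw [degree_prod]
    simp
  refine Polynomial.eq_of_degree_le_of_eval_index_eq (s := (Finset.univ : Finset (Fin n)))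
    (v := t) (hinj.injOn) ?_ ?_ ?_ ?_
  · rw [hPd]; simp
  · rw [hPd, hQd]
  · rw [hPm.leadingCoeff, hQm.leadingCoeff]
  · intro i _
    rw [ht3 i, eval_prod]
    symm
    apply Finset.prod_eq_zero (Finset.mem_univ i)
    simp

end StarkC
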