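import Pool.Agent.Stark.RPOLY
import Pool.Agent.Stark.RFKS
import Pool.Agent.StarkU.UART
import Pool.Agent.StarkU.UCYC
import Pool.Agent.StarkU.UMACK
import Pool.Agent.StarkU.ULOCG
import Pool.Agent.StarkU.UROOT
import Pool.Agent.StarkU.UKRA
import Pool.Agent.StarkU.UEXT
import Pool.Agent.StarkU.UFKI
import Pool.Agent.StarkU.UCEN
import Pool.Agent.StarkU.UHAT
import Pool.Agent.StarkU.UKIL
import Pool.Agent.StarkU.UDATA
import Pool.Agent.StarkU.UREAL
import Pool.Agent.StarkU.UGLOB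
import Pool.Agent.StarkU.UALG

/-!
# Slot C: the algebraic part, closed
-/

namespace StarkC

namespace ALLU

theorem ufk : Stmt_UFK := UFK_thm (RFKS_thm RPOLY_thm)
theorem uhat : Stmt_UHAT := UHAT_thm UROOT_thm UKRA_thm
theorem ukil : Stmt_UKIL := UKIL_thm UROOT_thm UKRA_thm
theorem udata : Stmt_UDATA := UDATA_thm uhat ukil UCOMP_thm UEXT_thm URAM_thm
theorem ureal : Stmt_UREAL := UREAL_thm udata ULOCG_thm
theorem uglob : Stmt_UGLOB := UGLOB_thm ureal UCOMP_thm UMACK_thm UINFL_thm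
theorem ualg : Stmt_UALG :=
  UALG_thm UART_thm UCYC_thm UMACK_thm UIND_thm UINFL_thm UEXT_thm URAM_thm ufk
    (UFKI_thm UEXT_thm) (UCEN_thm UEXT_thm) uglob

end ALLU

end StarkC
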