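import Pool.Agent.StarkT.ALLI
import Pool.Agent.Stark.GOOD
import Pool.Agent.StarkU.UALG
import Pool.Agent.StarkU.FAITH

/-!
# Reduction of Stark's conjecture up to roots of unity (slot C): the main step
-/

open NumberField IsDedekindDomain
open scoped TensorProduct Classical

namespace StarkC

namespace CMAIN

section grp

variable {G : Type} [Group G] [Fintype G]

/-- clearing denominators -/
theorem clear {P : ∀ H : Subgroup G, (H →* ℂˣ) → Prop} {f : G → ℂ} (h : f ∈ SpanQ (G := G) P) :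
    ∃ M : ℕ, 0 < M ∧ (fun g => (M : ℂ) * f g) ∈ CMB.GS P := by
  unfold SpanQ at h
  induction h using Submodule.span_induction with
  | mem x hx =>
    obtain ⟨H, ψ, hP, rfl⟩ := hx
    refine ⟨1, one_pos, ?_⟩
    have : (fun g => ((1 : ℕ) : ℂ) * indFun H (extZ ψ) g) = indFun H (extZ ψ) := by
      funext g
      rw [Nat.cast_one, one_mul]
    rw [this]
    exact CMB.mem_GS_of H ψ hP
  | zero =>
    refine ⟨1, one_pos, ?_⟩
    have : (fun g : G => ((1 : ℕ) : ℂ) * (0 : G → ℂ) g) = 0 := by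
      funext g
      rw [Pi.zero_apply, mul_zero]
    rw [this]
    exact Submodule.zero_mem _
  | add x y _ _ hx hy =>
    obtain ⟨a, ha, hx⟩ := hx
    obtain ⟨b, hb, hy⟩ := hy
    refine ⟨a * b, Nat.mul_pos ha hb, ?_⟩
    have : (fun g => ((a * b : ℕ) : ℂ) * (x + y) g) =
        (b : ℤ) • (fun g => (a : ℂ) * x g) + (a : ℤ) • (fun g => (b : ℂ) * y g) := by
      funext g
      show ((a * b : ℕ) : ℂ) * (x g + y g) =
        (b : ℤ) • ((a : ℂ) * x g) + (a : ℤ) • ((b : ℂ) * y g)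
      rw [zsmul_eq_mul, zsmul_eq_mul]
      push_cast
      ring
    rw [this]
    exact Submodule.add_mem _ (Submodule.smul_mem _ _ hx) (Submodule.smul_mem _ _ hy)
  | smul q x _ hx =>
    obtain ⟨a, ha, hx⟩ := hx
    refine ⟨a * q.den, Nat.mul_pos ha q.den_pos, ?_⟩
    have : (fun g => ((a * q.den : ℕ) : ℂ) * (q • x) g) = q.num • (fun g => (a : ℂ) * x g) := by
      funext g
      have hq : ((q.den : ℕ) : ℂ) * ((q : ℚ) : ℂ) = ((q.num : ℤ) : ℂ) := by
        have h1 : (q : ℚ) * (q.den : ℚ) = (q.num : ℚ) := Rat.mul_den_eq_num q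
        have h2 : ((((q : ℚ) * (q.den : ℚ) : ℚ)) : ℂ) = ((q.num : ℚ) : ℂ) := by rw [h1]
        push_cast at h2
        rw [mul_comm]
        exact h2
      have h3 : (q • x) g = ((q : ℚ) : ℂ) * x g := by
        rw [Pi.smul_apply, Rat.smul_def]
      rw [h3, Pi.smul_apply, zsmul_eq_mul, ← hq]
      push_cast
      ring
    rw [this]
    exact Submodule.smul_mem _ _ hx

theorem character_mem (V : Type) [AddCommGroup V] [Module ℂ V] [Module.Finite ℂ V]
    (ρ : Representation ℂ G V) : ρ.character ∈ SpanQ (G := G) (fun _ _ => True) := by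
  obtain ⟨m, H, ψ, n, hχ⟩ := ALLT.bra G V ρ
  have h : ρ.character = ∑ i, ((n i : ℤ) : ℚ) • indFun (H i) (extZ (ψ i)) := by
    funext g
    rw [hχ, Finset.sum_apply]
    refine Finset.sum_congr rfl fun i _ => ?_
    rw [Pi.smul_apply, Rat.smul_def]
    push_cast
    ring
  rw [h]
  exact Submodule.sum_mem _ fun i _ => Submodule.smul_mem _ _
    (Submodule.subset_span ⟨H i, ψ i, trivial, rfl⟩)

end grp

section

variable {N : Type} [Field N] [NumberField N] [IsGalois ℚ N]

theorem coe_symm (H : Subgroup (N ≃ₐ[ℚ] N)) (τ : N ≃ₐ[IntermediateField.fixedField H] N) :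
    (⇑(((IntermediateField.subgroupEquivAlgEquiv H).symm τ : H) : N ≃ₐ[ℚ] N) : N → N) = ⇑τ :=
  funext fun x => GOOD.symm_apply H τ x

/-- the field of a type (B) pair is totally real -/
theorem totallyReal (H : Subgroup (N ≃ₐ[ℚ] N)) (hH : ∀ c : N ≃ₐ[ℚ] N, IsCC c → c ∈ H) :
    IsTotallyReal (IntermediateField.fixedField H) := by
  constructor
  intro v
  rw [InfinitePlace.isReal_iff, ComplexEmbedding.isReal_iff]
  obtain ⟨Φ, hΦ⟩ : ∃ Φ : N →+* ℂ,
      Φ.comp (algebraMap (IntermediateField.fixedField H) N) = v.embedding :=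
    ⟨ComplexEmbedding.lift N v.embedding, ComplexEmbedding.lift_comp_algebraMap N v.embedding⟩
  have h1 : (ComplexEmbedding.conjugate Φ).comp (algebraMap ℚ N) = Φ.comp (algebraMap ℚ N) :=
    Subsingleton.elim _ _
  obtain ⟨ν, hν⟩ := NumberField.ComplexEmbedding.exists_comp_symm_eq_of_comp_eq (k := ℚ) Φ
    (ComplexEmbedding.conjugate Φ) h1.symm
  have hc : ComplexEmbedding.IsConj Φ ν.symm := hν.symm
  have hm : ν.symm ∈ H := hH _ ⟨Φ, hc⟩
  rw [← hΦ]
  refine RingHom.ext fun x => ?_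
  show star (Φ (algebraMap (IntermediateField.fixedField H) N x)) =
    Φ (algebraMap (IntermediateField.fixedField H) N x)
  rw [← hc.eq]
  congr 1
  exact x.2 ⟨ν.symm, hm⟩

end

/-- The two classes imply Stark's conjecture over `ℚ` up to roots of unity. -/
theorem starkPQ (hU : Stmt_UALG) (T : Finset ℕ)
    (hA : ∀ (K L : Type) [Field K] [NumberField K] [Field L] [NumberField L] [Algebra K L]
      [IsGalois K L], ClassA T K L)
    (hB : ∀ (K L : Type) [Field K] [NumberField K] [Field L] [NumberField L] [Algebra K L]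
      [IsGalois K L], ClassB K L) : StarkPQ (fun M => 0 < M) := by
  intro L _ _ _ S φ Θ V V' _ _ _ _ _ _ ρ ρ' σ hφ hσ
  obtain ⟨N, _, _, _, _, hN⟩ := hU L T ρ.character (character_mem V ρ)
  obtain ⟨M, hM, hGS⟩ := clear hN
  obtain ⟨m, H, ψ, n, hP, hsum⟩ := CMB.of_mem_GS hGS
  obtain ⟨φ', Θ', hφ', hR⟩ := ALLT.infl ℚ L N S φ Θ hφ
  have h3 : ∃ M' : ℕ, 0 < M' ∧ StarkMulAt M' (S : Set (HeightOneSpectrum (𝓞 ℚ)))
      (aboveSet ℚ N S) Θ' (ρ.comp (AlgEquiv.restrictNormalHom L) :
        Representation ℂ (N ≃ₐ[ℚ] N) V) (ρ'.comp (AlgEquiv.restrictNormalHom L) :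
        Representation ℂ (N ≃ₐ[ℚ] N) V') σ := by
    refine ALLT.indp_all (fun M => 0 < M) one_pos (fun a b ha hb => Nat.mul_pos ha hb) ℚ N S φ' Θ'
      V V' (ρ.comp (AlgEquiv.restrictNormalHom L)) (ρ'.comp (AlgEquiv.restrictNormalHom L)) σ M
      m H ψ n hM hφ' (fun g => hσ _) hsum (fun i => ?_)
    obtain ⟨S', hS'⟩ := IND.exists_S' (IntermediateField.fixedField (H i))
      (S : Set (HeightOneSpectrum (𝓞 ℚ))) S.finite_toSet
    have hφ2 := IND.isPhiTheta_sub (IntermediateField.fixedField (H i)) hφ'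
    have hlin : ∃ Mi : ℕ, 0 < Mi ∧ StarkMulAt Mi
        (S' : Set (HeightOneSpectrum (𝓞 (IntermediateField.fixedField (H i)))))
        (aboveSet ℚ N S) Θ' (linRep (liftChar (H i) (ψ i)))
        (linRep (twist σ (liftChar (H i) (ψ i)))) σ := by
      rcases hP i with ⟨hc, hur, htr⟩ | hB'
      · refine FAITH.ofA ALLT.infl ALLT.exph ALLT.sindp_all LINF_thm T hA
          (IntermediateField.fixedField (H i)) N (liftChar (H i) (ψ i))
          (GOOD.totallyComplex (H i) hc) ?_ ?_ σ S' _ hS' φ' Θ' hφ2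
        · intro w g hg
          rw [← coe_symm] at hg
          exact hur w _ hg
        · intro w hw g hg
          rw [← coe_symm] at hg
          exact htr w _ hw hg
      · refine FAITH.ofB ALLT.infl ALLT.exph ALLT.sindp_all LINF_thm hB
          (IntermediateField.fixedField (H i)) N (liftChar (H i) (ψ i))
          (totallyReal (H i) fun c hc => (hB' c hc).1) ?_ σ S' _ hS' φ' Θ' hφ2
        intro Φ c hc
        obtain ⟨h1, h2⟩ := hB' _ ⟨Φ, GOOD.isConj_symm (H i) c Φ hc⟩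
        exact h2
    obtain ⟨Mi, hMi, hst⟩ := hlin
    exact ⟨Mi, S', hMi, hS', hst⟩
  obtain ⟨M', hM', f, f', hf, hf', hE⟩ := h3
  refine ⟨M', hM', f, f', ⟨hf.1, fun s hs => ?_⟩, ⟨hf'.1, fun s hs => ?_⟩, ?_⟩
  · rw [hf.2 s hs, MAIN.logL_infl LINF_thm]
  · rw [hf'.2 s hs, MAIN.logL_infl LINF_thm]
  · rw [hR V ρ, hR V' ρ'] at hE
    exact hE

/-- The two classes imply Stark's conjecture up to roots of unity. -/
theorem starkP (hU : Stmt_UALG) (T : Finset ℕ)
    (hA : ∀ (K L : Type) [Field K] [NumberField K] [Field L] [NumberField L] [Algebra K L]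
      [IsGalois K L], ClassA T K L)
    (hB : ∀ (K L : Type) [Field K] [NumberField K] [Field L] [NumberField L] [Algebra K L]
      [IsGalois K L], ClassB K L) : StarkP (fun M => 0 < M) :=
  ALLT.baseq_all _ one_pos (fun a b ha hb => Nat.mul_pos ha hb) (starkPQ hU T hA hB)

end CMAIN

end StarkC
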