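import Pool.Agent.Stark.PDefs

/-!
# Stark's conjecture up to roots of unity, characters with values in `ℚ(ζ_n)`: definitions
-/

open NumberField IsDedekindDomain
open scoped Classical

namespace StarkV

open StarkP

/-- The direct sum of `m` copies of the representation `ρ`; its character is `m χ` if `χ` is the
character of `ρ`. -/
noncomputable def copies {G V : Type} [Group G] [AddCommGroup V] [Module ℂ V] (m : ℕ)
    (ρ : Representation ℂ G V) : Representation ℂ G (Fin m → V) where
  toFun g := (ρ g).compLeft (Fin m)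
  map_one' := by ext; simp
  map_mul' a b := by ext; simp

/-- Stark's assertion up to a root of unity, for a given `S` and all `φ`: there is an `m ≥ 1` such
that `A_S(m χ, φ)^σ = A_S((m χ)^σ, φ)`, where `χ`, `χ^σ` are the characters of `ρ`, `ρ'`. -/
def StarkRat {K L : Type} [Field K] [NumberField K] [Field L] [NumberField L] [Algebra K L]
    {V V' : Type} [AddCommGroup V] [Module ℂ V] [AddCommGroup V'] [Module ℂ V']
    (S : Finset (HeightOneSpectrum (𝓞 K))) (ρ : Representation ℂ (L ≃ₐ[K] L) V)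
    (ρ' : Representation ℂ (L ≃ₐ[K] L) V') (σ : ℂ ≃+* ℂ) : Prop :=
  ∀ Θ : ((L → ℝ) →₀ ℂ) →ₗ[ℂ] ((L → ℝ) →₀ ℂ), IsTheta K (aboveSet K L S) Θ →
    ∃ m : ℕ, 0 < m ∧ StarkAt S (aboveSet K L S) Θ (copies m ρ) (copies m ρ') σ

/-- The field `ℚ(ζ_n)` generated by the `n`-th roots of unity in `ℂ`. -/
noncomputable def cycField (n : ℕ) : IntermediateField ℚ ℂ :=
  IntermediateField.adjoin ℚ {z : ℂ | z ^ n = 1}

/-- The assertion `StarkRat` for the given `σ`, for `Gal(L/K)`, all `S` and all characters `χ`,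
`χ^σ` of representations on the spaces `V`, `V'` such that the values of `χ` lie in `ℚ(ζ_n)`. -/
def StarkSpacesCyc (n : ℕ) (σ : ℂ ≃+* ℂ) (K L V V' : Type) [Field K] [NumberField K] [Field L]
    [NumberField L] [Algebra K L] [AddCommGroup V] [Module ℂ V] [AddCommGroup V'] [Module ℂ V'] :
    Prop :=
  ∀ (ρ : Representation ℂ (L ≃ₐ[K] L) V) (ρ' : Representation ℂ (L ≃ₐ[K] L) V'),
    (∀ g, ρ'.character g = σ (ρ.character g)) → (∀ g, ρ.character g ∈ cycField n) →
    ∀ S : Finset (HeightOneSpectrum (𝓞 K)), StarkRat S ρ ρ' σ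

/-- Stark's conjecture up to roots of unity for the automorphism `σ` and all characters with
values in `ℚ(ζ_n)`, for all finite Galois extensions of number fields, all `S` and `φ`. -/
def StarkCyclotomic (n : ℕ) (σ : ℂ ≃+* ℂ) : Prop :=
  ∀ (K L V V' : Type) [Field K] [NumberField K] [Field L] [NumberField L] [Algebra K L]
    [IsGalois K L] [AddCommGroup V] [Module ℂ V] [Module.Finite ℂ V]
    [AddCommGroup V'] [Module ℂ V'] [Module.Finite ℂ V'], StarkSpacesCyc n σ K L V V'

/-- `g` maps the prime `w` into itself (for an automorphism `g`: `g` lies in the decomposition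
group of `w`). -/
def FixesPrime {L : Type} [Field L] [NumberField L] (w : HeightOneSpectrum (𝓞 L)) (g : L → L) :
    Prop :=
  ∀ x y : 𝓞 L, (y : L) = g (x : L) → x ∈ w.asIdeal → y ∈ w.asIdeal

/-- There is an extension `N` of `L` which is Galois over `ℚ`, cyclic over `K`, and contains a
copy of `E`. -/
def InCyclic (E K L : Type) [Field E] [Field K] [Field L] [Algebra K L] : Prop :=
  ∃ (N : Type) (_ : Field N) (_ : NumberField N) (_ : Algebra K N) (_ : Algebra L N)
    (_ : IsScalarTower K L N) (_ : IsGalois ℚ N), IsCyclic (N ≃ₐ[K] N) ∧ Nonempty (E →+* N)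

/-- If `K` is totally complex, all inertia groups of `L/K` are trivial, the decomposition groups
of the primes of `L` above the prime numbers in `T` are trivial and `L` is contained in a field `N`
as in `InCyclic`, then `StarkRat` holds with `S = S_∞` for `σ` and all injective linear characters
`ψ` of `Gal(L/K)` with `ψ ^ n = 1`. -/
def StarkLinearA (E : Type) [Field E] (T : Finset ℕ) (n : ℕ) (σ : ℂ ≃+* ℂ) (K L : Type) [Field K]
    [NumberField K] [Field L] [NumberField L] [Algebra K L] : Prop :=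
  IsTotallyComplex K →
    (∀ (w : HeightOneSpectrum (𝓞 L)) (g : L ≃ₐ[K] L), FrobPow L w 1 g → g = 1) →
    (∀ w : HeightOneSpectrum (𝓞 L), (∃ p ∈ T, p.Prime ∧ (p : 𝓞 L) ∈ w.asIdeal) →
      ∀ g : L ≃ₐ[K] L, FixesPrime w g → g = 1) →
    InCyclic E K L →
    ∀ ψ : (L ≃ₐ[K] L) →* ℂˣ, Function.Injective ψ → ψ ^ n = 1 →
      StarkRat ∅ (linRep ψ) (linRep (twist σ ψ)) σ

/-- Class (A): the assertion `StarkLinearA` for all finite Galois extensions `L/K` of number
fields. -/
def ClassA (E : Type) [Field E] (T : Finset ℕ) (n : ℕ) (σ : ℂ ≃+* ℂ) : Prop :=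
  ∀ (K L : Type) [Field K] [NumberField K] [Field L] [NumberField L] [Algebra K L] [IsGalois K L],
    StarkLinearA E T n σ K L

/-- If `K` is totally real then `StarkRat` holds with `S = S_∞` for `σ` and all injective linear
characters `ψ` of `Gal(L/K)` with values in `ℚ(ζ_n)` and with `ψ(c) = -1` for all complex
conjugations `c`. -/
def StarkLinearB (n : ℕ) (σ : ℂ ≃+* ℂ) (K L : Type) [Field K] [NumberField K] [Field L]
    [NumberField L] [Algebra K L] : Prop :=
  IsTotallyReal K → ∀ ψ : (L ≃ₐ[K] L) →* ℂˣ, Function.Injective ψ →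
    (∀ g, (ψ g : ℂ) ∈ cycField n) →
    (∀ (Φ : L →+* ℂ) (c : L ≃ₐ[K] L), ComplexEmbedding.IsConj Φ c → (ψ c : ℂ) = -1) →
    StarkRat ∅ (linRep ψ) (linRep (twist σ ψ)) σ

/-- Class (B): the assertion `StarkLinearB` for all finite Galois extensions `L/K` of number
fields. -/
def ClassB (n : ℕ) (σ : ℂ ≃+* ℂ) : Prop :=
  ∀ (K L : Type) [Field K] [NumberField K] [Field L] [NumberField L] [Algebra K L] [IsGalois K L],
    StarkLinearB n σ K L

end StarkV
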