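import Pool.Agent.StarkT.PBridgeT
import Pool.Agent.StarkU.PDefsV
import Pool.Agent.StarkU.CNMAIN

/-!
# Bridge between the two forms of the definitions: values in `ℚ(ζ_n)`
-/

open NumberField IsDedekindDomain
open scoped TensorProduct Classical

namespace StarkVB

section

variable {K L : Type} [Field K] [NumberField K] [Field L] [NumberField L] [Algebra K L]
  [IsGalois K L]

theorem starkRat_iff (S : Finset (HeightOneSpectrum (𝓞 K)))
    {V V' : Type} [AddCommGroup V] [Module ℂ V] [Module.Finite ℂ V] [AddCommGroup V']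
    [Module ℂ V'] [Module.Finite ℂ V']
    (ρ : Representation ℂ (L ≃ₐ[K] L) V) (ρ' : Representation ℂ (L ≃ₐ[K] L) V')
    (σ : ℂ ≃+* ℂ) :
    StarkV.StarkRat S ρ ρ' σ ↔
    ∀ (φ : StarkC.XQ L (StarkC.aboveSet K L S) ≃ₗ[ℚ] StarkC.QU L (StarkC.aboveSet K L S))
      (Θ : StarkC.XC L (StarkC.aboveSet K L S) →ₗ[ℂ] StarkC.XC L (StarkC.aboveSet K L S)),
      StarkC.IsPhiTheta K (StarkC.aboveSet K L S) φ Θ →
      ∃ M : ℕ, 0 < M ∧ StarkC.StarkMulAt M (S : Set (HeightOneSpectrum (𝓞 K)))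
        (StarkC.aboveSet K L S) Θ ρ ρ' σ := by
  unfold StarkV.StarkRat
  rw [StarkB.aboveSet_eq]
  exact StarkB.starkMul_iff (fun M => 0 < M) S ρ ρ' σ

end

theorem starkCyclotomic_iff (n : ℕ) (σ : ℂ ≃+* ℂ) :
    StarkV.StarkCyclotomic n σ ↔ StarkC.StarkKn n σ := by
  constructor
  · intro h K L _ _ _ _ _ _ S φ Θ V V' _ _ _ _ _ _ ρ ρ' hφ hχ hval
    exact (starkRat_iff S ρ ρ' σ).1 (h K L V V' ρ ρ' hχ hval S) φ Θ hφ
  · intro h K L V V' _ _ _ _ _ _ _ _ _ _ _ _ ρ ρ' hχ hval S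
    exact (starkRat_iff S ρ ρ' σ).2 fun φ Θ hφ => h K L S φ Θ V V' ρ ρ' hφ hχ hval

theorem classA_iff (E : Type) [Field E] (T : Finset ℕ) (n : ℕ) (σ : ℂ ≃+* ℂ) :
    StarkV.ClassA E T n σ ↔
      ∀ (K L : Type) [Field K] [NumberField K] [Field L] [NumberField L] [Algebra K L]
        [IsGalois K L], StarkC.ClassAn E T n σ K L := by
  constructor
  · intro h K L _ _ _ _ _ _ hK h1 h2 h3 ψ hψ hn φ Θ hφ
    exact (starkRat_iff ∅ (StarkP.linRep ψ) (StarkP.linRep (StarkP.twist σ ψ)) σ).1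
      (h K L hK h1 h2 h3 ψ hψ hn) φ Θ hφ
  · intro h K L _ _ _ _ _ _ hK h1 h2 h3 ψ hψ hn
    exact (starkRat_iff ∅ (StarkP.linRep ψ) (StarkP.linRep (StarkP.twist σ ψ)) σ).2
      fun φ Θ hφ => h K L hK h1 h2 h3 ψ hψ hn φ Θ hφ

theorem classB_iff (n : ℕ) (σ : ℂ ≃+* ℂ) :
    StarkV.ClassB n σ ↔
      ∀ (K L : Type) [Field K] [NumberField K] [Field L] [NumberField L] [Algebra K L]
        [IsGalois K L], StarkC.ClassBn n σ K L := by
  constructor
  · intro h K L _ _ _ _ _ _ hK ψ hψ hn h1 φ Θ hφ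
    exact (starkRat_iff ∅ (StarkP.linRep ψ) (StarkP.linRep (StarkP.twist σ ψ)) σ).1
      (h K L hK ψ hψ hn h1) φ Θ hφ
  · intro h K L _ _ _ _ _ _ hK ψ hψ hn h1
    exact (starkRat_iff ∅ (StarkP.linRep ψ) (StarkP.linRep (StarkP.twist σ ψ)) σ).2
      fun φ Θ hφ => h K L hK ψ hψ hn h1 φ Θ hφ

/-- The reduction, printable form, from `UALGN`. -/
theorem main (hU : StarkC.Stmt_UALGN) (hC : StarkC.Stmt_UCOMP) (E : Type) [Field E]
    [NumberField E] (T : Finset ℕ) (n : ℕ) (hn : 0 < n) (σ : ℂ ≃+* ℂ) :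
    StarkV.StarkCyclotomic n σ ↔ StarkV.ClassA E T n σ ∧ StarkV.ClassB n σ := by
  constructor
  · intro h
    refine ⟨fun K L _ _ _ _ _ _ _ _ _ _ ψ _ hψ => ?_, fun K L _ _ _ _ _ _ _ ψ _ hψ _ => ?_⟩
    · refine h K L ℂ ℂ (StarkP.linRep ψ) (StarkP.linRep (StarkP.twist σ ψ)) (fun g => ?_)
        (fun g => ?_) ∅
      · exact (StarkC.MAIN.linRep_character (StarkC.twist σ ψ) g).trans
          (congrArg σ (StarkC.MAIN.linRep_character ψ g)).symm
      · have h1 : (StarkP.linRep ψ).character g = (ψ g : ℂ) := StarkC.MAIN.linRep_character ψ g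
        rw [h1]
        refine IntermediateField.subset_adjoin ℚ _ ?_
        show ((ψ g : ℂˣ) : ℂ) ^ n = 1
        rw [← Units.val_pow_eq_pow_val, ← MonoidHom.pow_apply, hψ]
        rfl
    · refine h K L ℂ ℂ (StarkP.linRep ψ) (StarkP.linRep (StarkP.twist σ ψ)) (fun g => ?_)
        (fun g => ?_) ∅
      · exact (StarkC.MAIN.linRep_character (StarkC.twist σ ψ) g).trans
          (congrArg σ (StarkC.MAIN.linRep_character ψ g)).symm
      · have h1 : (StarkP.linRep ψ).character g = (ψ g : ℂ) := StarkC.MAIN.linRep_character ψ g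
        rw [h1]
        exact hψ g
  · rintro ⟨hA, hB⟩
    rw [starkCyclotomic_iff]
    exact StarkC.CNMAIN.starkKn n hn σ (StarkC.CNMAIN.starkQn hU hC E T n hn σ
      ((classA_iff E T n σ).1 hA) ((classB_iff n σ).1 hB))

end StarkVB
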