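import Pool.Agent.StarkU.UHATS
import Pool.Agent.StarkU.UKILQ
import Pool.Agent.StarkU.UEXT
import Pool.Agent.StarkU.SDATA
import Pool.Agent.StarkU.SREAL
import Pool.Agent.StarkU.SSTEP
import Pool.Agent.StarkI.SP
import Pool.Agent.StarkI.PULL

/-!
# `SSTEP`, closed
-/

namespace StarkC

namespace ALLS

theorem sdata : Stmt_SDATA := SDATA_thm UHATS_thm UKILQ_thm UCOMP_thm UEXT_thm URAM_thm
theorem sreal : Stmt_SREAL := SREAL_thm sdata SP_thm IPULL_thm
theorem sstep : Stmt_SSTEP := SSTEP_thm sreal UCOMP_thm UEXT_thm URAM_thm IPULL_thm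

end ALLS

end StarkC
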