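import Pool.Agent.Stark.PDefs

/-!
# Stark's conjecture up to roots of unity, unramified characters: definitions
-/

open NumberField IsDedekindDomain
open scoped Classical

namespace StarkP

/-- The direct sum of `n` copies of the representation `ρ`; its character is `n χ` if `χ` is the
character of `ρ`. -/
noncomputable def nCopies {G V : Type} [Group G] [AddCommGroup V] [Module ℂ V] (n : ℕ)
    (ρ : Representation ℂ G V) : Representation ℂ G (Fin n → V) where
  toFun g := (ρ g).compLeft (Fin n)
  map_one' := by ext; simp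
  map_mul' a b := by ext; simp

/-- `g` maps the prime `w` into itself (for an automorphism `g`: `g` lies in the decomposition
group of `w`). -/
def FixesPrime {L : Type} [Field L] [NumberField L] (w : HeightOneSpectrum (𝓞 L)) (g : L → L) :
    Prop :=
  ∀ x y : 𝓞 L, (y : L) = g (x : L) → x ∈ w.asIdeal → y ∈ w.asIdeal

/-- Stark's assertion up to a root of unity, for a given `S` and all `φ`: there is an `n ≥ 1` such
that `A_S(n χ, φ)^σ = A_S((n χ)^σ, φ)`, where `χ`, `χ^σ` are the characters of `ρ`, `ρ'`. -/
def StarkRat {K L : Type} [Field K] [NumberField K] [Field L] [NumberField L] [Algebra K L]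
    {V V' : Type} [AddCommGroup V] [Module ℂ V] [AddCommGroup V'] [Module ℂ V']
    (S : Finset (HeightOneSpectrum (𝓞 K))) (ρ : Representation ℂ (L ≃ₐ[K] L) V)
    (ρ' : Representation ℂ (L ≃ₐ[K] L) V') (σ : ℂ ≃+* ℂ) : Prop :=
  ∀ Θ : ((L → ℝ) →₀ ℂ) →ₗ[ℂ] ((L → ℝ) →₀ ℂ), IsTheta K (aboveSet K L S) Θ →
    ∃ n : ℕ, 0 < n ∧ StarkAt S (aboveSet K L S) Θ (nCopies n ρ) (nCopies n ρ') σ

/-- The assertion `StarkRat` for `Gal(L/K)`, all `S`, all `σ` and all characters `χ`, `χ^σ` of
representations on the spaces `V`, `V'`. -/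
def StarkSpacesRat (K L V V' : Type) [Field K] [NumberField K] [Field L] [NumberField L]
    [Algebra K L] [AddCommGroup V] [Module ℂ V] [AddCommGroup V'] [Module ℂ V'] : Prop :=
  ∀ (ρ : Representation ℂ (L ≃ₐ[K] L) V) (ρ' : Representation ℂ (L ≃ₐ[K] L) V') (σ : ℂ ≃+* ℂ),
    (∀ g, ρ'.character g = σ (ρ.character g)) →
    ∀ S : Finset (HeightOneSpectrum (𝓞 K)), StarkRat S ρ ρ' σ

/-- **Stark's conjecture up to roots of unity**: for all finite Galois extensions of number fields,
all `S`, `φ`, all automorphisms of `ℂ` and all characters `χ` Stark's assertion holds for `n χ`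
with some `n ≥ 1`. -/
def StarkConjectureRat : Prop :=
  ∀ (K L V V' : Type) [Field K] [NumberField K] [Field L] [NumberField L] [Algebra K L]
    [IsGalois K L] [AddCommGroup V] [Module ℂ V] [Module.Finite ℂ V]
    [AddCommGroup V'] [Module ℂ V'] [Module.Finite ℂ V'], StarkSpacesRat K L V V'

/-- If `K` is totally complex, all inertia groups of `L/K` are trivial and the decomposition groups
of the primes of `L` above the prime numbers in `T` are trivial, then `StarkRat` holds with
`S = S_∞` for all injective linear characters of `Gal(L/K)` and all `σ`. -/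
def StarkLinearUnr (T : Finset ℕ) (K L : Type) [Field K] [NumberField K] [Field L]
    [NumberField L] [Algebra K L] : Prop :=
  IsTotallyComplex K →
    (∀ (w : HeightOneSpectrum (𝓞 L)) (g : L ≃ₐ[K] L), FrobPow L w 1 g → g = 1) →
    (∀ w : HeightOneSpectrum (𝓞 L), (∃ p ∈ T, p.Prime ∧ (p : 𝓞 L) ∈ w.asIdeal) →
      ∀ g : L ≃ₐ[K] L, FixesPrime w g → g = 1) →
    ∀ (ψ : (L ≃ₐ[K] L) →* ℂˣ) (σ : ℂ ≃+* ℂ), Function.Injective ψ →
      StarkRat ∅ (linRep ψ) (linRep (twist σ ψ)) σ

/-- Stark's conjecture up to roots of unity, with `S = S_∞`, for the faithful characters of the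
unramified cyclic extensions `L/K` of totally complex fields in which all primes above the prime
numbers in `T` split completely. -/
def StarkUnramified (T : Finset ℕ) : Prop :=
  ∀ (K L : Type) [Field K] [NumberField K] [Field L] [NumberField L] [Algebra K L] [IsGalois K L],
    StarkLinearUnr T K L

/-- If `K` is totally real then `StarkRat` holds with `S = S_∞` for all `σ` and all injective
linear characters `ψ` of `Gal(L/K)` with `ψ(c) = -1` for all complex conjugations `c`. -/
def StarkLinearTotOdd (K L : Type) [Field K] [NumberField K] [Field L] [NumberField L]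
    [Algebra K L] : Prop :=
  IsTotallyReal K → ∀ (ψ : (L ≃ₐ[K] L) →* ℂˣ) (σ : ℂ ≃+* ℂ), Function.Injective ψ →
    (∀ (Φ : L →+* ℂ) (c : L ≃ₐ[K] L), ComplexEmbedding.IsConj Φ c → (ψ c : ℂ) = -1) →
    StarkRat ∅ (linRep ψ) (linRep (twist σ ψ)) σ

/-- Stark's conjecture up to roots of unity, with `S = S_∞`, for the faithful totally odd linear
characters over totally real fields. -/
def StarkTotallyOdd : Prop :=
  ∀ (K L : Type) [Field K] [NumberField K] [Field L] [NumberField L] [Algebra K L] [IsGalois K L],
    StarkLinearTotOdd K L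

end StarkP
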