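import Pool.Agent.StarkT.PBridgeT
import Pool.Agent.StarkU.PDefsU
import Pool.Agent.StarkU.CMAIN

/-!
# Bridge between the two forms of the definitions: unramified characters
-/

open NumberField IsDedekindDomain
open scoped TensorProduct Classical

namespace StarkB

section

variable {K L : Type} [Field K] [NumberField K] [Field L] [NumberField L] [Algebra K L]
  [IsGalois K L]

theorem starkRat_iff (S : Finset (HeightOneSpectrum (𝓞 K)))
    {V V' : Type} [AddCommGroup V] [Module ℂ V] [Module.Finite ℂ V] [AddCommGroup V']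
    [Module ℂ V'] [Module.Finite ℂ V']
    (ρ : Representation ℂ (L ≃ₐ[K] L) V) (ρ' : Representation ℂ (L ≃ₐ[K] L) V')
    (σ : ℂ ≃+* ℂ) :
    StarkP.StarkRat S ρ ρ' σ ↔
    ∀ (φ : StarkC.XQ L (StarkC.aboveSet K L S) ≃ₗ[ℚ] StarkC.QU L (StarkC.aboveSet K L S))
      (Θ : StarkC.XC L (StarkC.aboveSet K L S) →ₗ[ℂ] StarkC.XC L (StarkC.aboveSet K L S)),
      StarkC.IsPhiTheta K (StarkC.aboveSet K L S) φ Θ →
      ∃ M : ℕ, 0 < M ∧ StarkC.StarkMulAt M (S : Set (HeightOneSpectrum (𝓞 K)))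
        (StarkC.aboveSet K L S) Θ ρ ρ' σ := by
  unfold StarkP.StarkRat
  rw [aboveSet_eq]
  exact starkMul_iff (fun M => 0 < M) S ρ ρ' σ

end

theorem starkConjectureRat_iff :
    StarkP.StarkConjectureRat ↔ StarkC.StarkP (fun M => 0 < M) := by
  constructor
  · intro h K L _ _ _ _ _ _ S φ Θ V V' _ _ _ _ _ _ ρ ρ' σ hφ hχ
    exact (starkRat_iff S ρ ρ' σ).1 (h K L V V' ρ ρ' σ hχ S) φ Θ hφ
  · intro h K L V V' _ _ _ _ _ _ _ _ _ _ _ _ ρ ρ' σ hχ S
    exact (starkRat_iff S ρ ρ' σ).2 fun φ Θ hφ => h K L S φ Θ V V' ρ ρ' σ hφ hχ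

theorem starkUnramified_iff (T : Finset ℕ) :
    StarkP.StarkUnramified T ↔
      ∀ (K L : Type) [Field K] [NumberField K] [Field L] [NumberField L] [Algebra K L]
        [IsGalois K L], StarkC.ClassA T K L := by
  constructor
  · intro h K L _ _ _ _ _ _ hK h1 h2 ψ hψ φ Θ σ hφ
    exact (starkRat_iff ∅ (StarkP.linRep ψ) (StarkP.linRep (StarkP.twist σ ψ)) σ).1
      (h K L hK h1 h2 ψ σ hψ) φ Θ hφ
  · intro h K L _ _ _ _ _ _ hK h1 h2 ψ σ hψ
    exact (starkRat_iff ∅ (StarkP.linRep ψ) (StarkP.linRep (StarkP.twist σ ψ)) σ).2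
      fun φ Θ hφ => h K L hK h1 h2 ψ hψ φ Θ σ hφ

theorem starkTotallyOdd_iff :
    StarkP.StarkTotallyOdd ↔
      ∀ (K L : Type) [Field K] [NumberField K] [Field L] [NumberField L] [Algebra K L]
        [IsGalois K L], StarkC.ClassB K L := by
  constructor
  · intro h K L _ _ _ _ _ _ hK ψ hψ h1 φ Θ σ hφ
    exact (starkRat_iff ∅ (StarkP.linRep ψ) (StarkP.linRep (StarkP.twist σ ψ)) σ).1
      (h K L hK ψ σ hψ h1) φ Θ hφ
  · intro h K L _ _ _ _ _ _ hK ψ σ hψ h1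
    exact (starkRat_iff ∅ (StarkP.linRep ψ) (StarkP.linRep (StarkP.twist σ ψ)) σ).2
      fun φ Θ hφ => h K L hK ψ hψ h1 φ Θ σ hφ

/-- The reduction, printable form, from `UALG`. -/
theorem starkRat_main (hU : StarkC.Stmt_UALG) (T : Finset ℕ) :
    StarkP.StarkConjectureRat ↔ StarkP.StarkUnramified T ∧ StarkP.StarkTotallyOdd := by
  constructor
  · intro h
    refine ⟨fun K L _ _ _ _ _ _ _ _ _ ψ σ _ => ?_, fun K L _ _ _ _ _ _ _ ψ σ _ _ => ?_⟩
    · refine h K L ℂ ℂ (StarkP.linRep ψ) (StarkP.linRep (StarkP.twist σ ψ)) σ (fun g => ?_) ∅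
      exact (StarkC.MAIN.linRep_character (StarkC.twist σ ψ) g).trans
        (congrArg σ (StarkC.MAIN.linRep_character ψ g)).symm
    · refine h K L ℂ ℂ (StarkP.linRep ψ) (StarkP.linRep (StarkP.twist σ ψ)) σ (fun g => ?_) ∅
      exact (StarkC.MAIN.linRep_character (StarkC.twist σ ψ) g).trans
        (congrArg σ (StarkC.MAIN.linRep_character ψ g)).symm
  · rintro ⟨hA, hB⟩
    rw [starkConjectureRat_iff]
    exact StarkC.CMAIN.starkP hU T ((starkUnramified_iff T).1 hA) (starkTotallyOdd_iff.1 hB)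

end StarkB
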