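import Pool.Agent.Stark.RDefs
import Pool.Agent.Stark.Stmts
import Pool.Agent.Stark.STB

/-!
# Stark's conjecture up to roots of unity, reduction to unramified characters: statements

See `PAPER.md`.
-/

open NumberField IsDedekindDomain
open scoped TensorProduct Classical

namespace StarkC

/-! ### Definitions -/

/-- `w` lies above a prime number in `T`. -/
def AboveT {N : Type} [Field N] [NumberField N] (T : Finset ℕ)
    (w : HeightOneSpectrum (𝓞 N)) : Prop :=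
  ∃ p ∈ T, p.Prime ∧ (p : 𝓞 N) ∈ w.asIdeal

/-- The `ℚ`-span of the class functions induced from linear characters `ψ` of subgroups `H` with
`P H ψ`. -/
noncomputable def SpanQ {G : Type} [Group G] [Fintype G]
    (P : ∀ H : Subgroup G, (H →* ℂˣ) → Prop) : Submodule ℚ (G → ℂ) :=
  Submodule.span ℚ {f | ∃ (H : Subgroup G) (ψ : H →* ℂˣ), P H ψ ∧ f = indFun H (extZ ψ)}

/-- Type (A): `N^H` is totally complex, `ψ` is unramified everywhere and trivial on the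
decomposition groups of the primes above `T`. -/
def TypeA {N : Type} [Field N] [NumberField N] (T : Finset ℕ) (H : Subgroup (N ≃ₐ[ℚ] N))
    (ψ : H →* ℂˣ) : Prop :=
  (∀ c ∈ H, ¬ IsCC c) ∧
    (∀ (W : HeightOneSpectrum (𝓞 N)) (h : H), FrobPow N W 1 (h : N ≃ₐ[ℚ] N) → ψ h = 1) ∧
    ∀ (W : HeightOneSpectrum (𝓞 N)) (h : H), AboveT T W → Dec W (h : N ≃ₐ[ℚ] N) → ψ h = 1

/-- Type (B): `N^H` is totally real and `ψ` is totally odd. -/
def TypeB {N : Type} [Field N] [NumberField N] (H : Subgroup (N ≃ₐ[ℚ] N)) (ψ : H →* ℂˣ) : Prop :=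
  ∀ c : N ≃ₐ[ℚ] N, IsCC c → ∃ h : c ∈ H, ((ψ ⟨c, h⟩ : ℂˣ) : ℂ) = -1

/-- The local relation between a function `Ψ` on `Gal(N/ℚ)` and functions `τ w` on `Gal(L/ℚ)`. -/
def LocRel {L N : Type} [Field L] [NumberField L] [IsGalois ℚ L] [Field N] [NumberField N]
    [Algebra L N] (T : Finset ℕ) (Ψ : (N ≃ₐ[ℚ] N) → ℂ)
    (τ : HeightOneSpectrum (𝓞 L) → (L ≃ₐ[ℚ] L) → ℂ) : Prop :=
  ∀ (W : HeightOneSpectrum (𝓞 N)) (x : N ≃ₐ[ℚ] N) (a : ℕ), Dec W x → a.Coprime (orderOf x) →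
    (AboveT T W → Ψ (x ^ a) - Ψ x =
      τ (W.under (𝓞 L)) (AlgEquiv.restrictNormalHom L (x ^ a)) -
        τ (W.under (𝓞 L)) (AlgEquiv.restrictNormalHom L x)) ∧
    (¬ AboveT T W → FrobPow N W 1 (x ^ a * x⁻¹ : N ≃ₐ[ℚ] N) → Ψ (x ^ a) = Ψ x)

/-- The local function attached to a linear character `ψ` of a subgroup `B` of the decomposition
group of `w`: for `d` in the decomposition group of `w' = y w` it is the value at `y⁻¹ d y` of the
character of the decomposition group of `w` induced from `ψ`. -/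
noncomputable def locInd {L : Type} [Field L] [NumberField L] (w : HeightOneSpectrum (𝓞 L))
    (B : Subgroup (L ≃ₐ[ℚ] L)) (ψ : B →* ℂˣ) (w' : HeightOneSpectrum (𝓞 L))
    (d : L ≃ₐ[ℚ] L) : ℂ :=
  (∑ y : L ≃ₐ[ℚ] L, if STB.mv (y : L ≃+* L) w = w' then extZ ψ (y⁻¹ * d * y) else 0) /
    (Nat.card B : ℂ)

/-! ### Group theory -/

/-- Artin's induction theorem for the trivial character. -/
def Stmt_UART : Prop :=
  ∀ (G : Type) [Group G] [Fintype G], ∃ a : G → ℚ, ∀ x : G,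
    (1 : ℂ) = ∑ g : G, (a g : ℂ) * indFun (Subgroup.zpowers g) (fun _ => 1) x

/-- Virtual characters of a cyclic group with restricted values. -/
def Stmt_UCYC : Prop :=
  ∀ (C : Type) [Group C] [Fintype C] (f : C → ℂ) (J : Subgroup C), IsCyclic C →
    f ∈ SpanQ (G := C) (fun _ _ => True) →
    (∀ (x : C) (a : ℕ), a.Coprime (orderOf x) → x ^ a * x⁻¹ ∈ J → f (x ^ a) = f x) →
    f ∈ SpanQ (G := C) (fun B ν => ∀ b : B, (b : C) ∈ J → ν b = 1)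

/-- Restriction to a subgroup (Mackey). -/
def Stmt_UMACK : Prop :=
  ∀ (G : Type) [Group G] [Fintype G] (D : Subgroup G) (f : G → ℂ),
    f ∈ SpanQ (G := G) (fun _ _ => True) →
    (fun d : D => f (d : G)) ∈ SpanQ (G := D) (fun _ _ => True)

/-- Induction from a subgroup. -/
def Stmt_UIND : Prop :=
  ∀ (G : Type) [Group G] [Fintype G] (C : Subgroup G) (f : G → ℂ)
    (P : ∀ B : Subgroup C, (B →* ℂˣ) → Prop), (fun c : C => f (c : G)) ∈ SpanQ (G := C) P →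
    indFun C f ∈ SpanQ (G := G) (fun H ψ => ∃ (B : Subgroup C) (ν : B →* ℂˣ), P B ν ∧
      H = B.map C.subtype ∧ ∀ (b : B) (h : H), (h : G) = ((b : C) : G) → ψ h = ν b)

/-- Inflation. -/
def Stmt_UINFL : Prop :=
  ∀ (G' G : Type) [Group G'] [Fintype G'] [Group G] [Fintype G] (r : G' →* G) (f : G → ℂ)
    (P : ∀ H : Subgroup G, (H →* ℂˣ) → Prop), Function.Surjective r → f ∈ SpanQ (G := G) P →
    (fun g => f (r g)) ∈ SpanQ (G := G') (fun H' ψ' => ∃ (H : Subgroup G) (ψ : H →* ℂˣ), P H ψ ∧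
      H' = H.comap r ∧ ∀ (h' : H') (h : H), (h : G) = r (h' : G') → ψ' h' = ψ h)

/-- The local computation: a sum over the double coset `z₀ D H₀`. -/
def Stmt_ULOCG : Prop :=
  ∀ (G G' : Type) [Group G] [Fintype G] [Group G'] [Fintype G'] (r : G →* G')
    (H₀ D : Subgroup G) (B : Subgroup G') (ψ₀ : H₀ →* ℂˣ) (ψ : B →* ℂˣ) (z₀ x : G),
    B ≤ D.map r → (∀ d ∈ D, (d ∈ H₀ ↔ r d ∈ B)) →
    (∀ (h : H₀) (b : B), (h : G) ∈ D → r (h : G) = (b : G') → ψ₀ h = ψ b) →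
    z₀⁻¹ * x * z₀ ∈ D →
    (∑ y : G, if ∃ d ∈ D, ∃ s ∈ H₀, y = z₀ * d * s then extZ ψ₀ (y⁻¹ * x * y) else 0) /
        (Nat.card H₀ : ℂ) =
      (∑ y : G', if (r z₀)⁻¹ * y ∈ D.map r then extZ ψ (y⁻¹ * r x * y) else 0) /
        (Nat.card B : ℂ)

/-! ### Polynomials -/

/-- Real polynomials with real simple roots. -/
def Stmt_UROOT : Prop :=
  ∀ (n : ℕ) (C : ℝ), ∃ Y₀ : ℕ, ∀ Y : ℕ, Y₀ ≤ Y → ∀ g : Polynomial ℝ, g.degree < (n : WithBot ℕ) →
    (∀ k, |g.coeff k| ≤ C) →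
    ∃ t : Fin n → ℝ, Function.Injective t ∧
      (∏ j ∈ Finset.range n, (Polynomial.X - Polynomial.C ((Y : ℝ) * (j : ℝ)))) + g =
        ∏ i, (Polynomial.X - Polynomial.C (t i))

/-- Continuity of roots for a valuation (`α i`, `β i` the roots of two polynomials whose
coefficients are close). -/
def Stmt_UKRA : Prop :=
  ∀ (N Γ₀ : Type) [Field N] [LinearOrderedCommGroupWithZero Γ₀] (v : Valuation N Γ₀) (n : ℕ)
    (α β : Fin n → N) (δ : Γ₀), (∀ i, v (α i) ≤ 1) → (∀ i j, i ≠ j → δ ≤ v (α i - α j)) →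
    (∀ k, v (((∏ i, (Polynomial.X - Polynomial.C (α i))) -
      ∏ i, (Polynomial.X - Polynomial.C (β i))).coeff k) < δ ^ n) →
    ∃ s : Equiv.Perm (Fin n), ∀ i j, v (α i - β j) < δ ↔ j = s i

/-! ### Number fields -/

/-- Splitting a polynomial in a field which is Galois over `ℚ`. -/
def Stmt_UEXT : Prop :=
  ∀ (M : Type) [Field M] [NumberField M] (P : Polynomial M), P ≠ 0 →
    ∃ (N : Type) (_ : Field N) (_ : NumberField N) (_ : Algebra M N) (_ : IsGalois ℚ N),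
      (P.map (algebraMap M N)).Splits

/-- Composites. -/
def Stmt_UCOMP : Prop :=
  ∀ (L M₁ M₂ : Type) [Field L] [NumberField L] [Field M₁] [NumberField M₁] [Field M₂]
    [NumberField M₂] [Algebra L M₁] [Algebra L M₂],
    ∃ (N : Type) (_ : Field N) (_ : NumberField N) (_ : Algebra L N) (_ : Algebra M₁ N)
      (_ : Algebra M₂ N) (_ : IsGalois ℚ N), IsScalarTower L M₁ N ∧ IsScalarTower L M₂ N

/-- Only finitely many prime numbers ramify. -/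
def Stmt_URAM : Prop :=
  ∀ (N : Type) [Field N] [NumberField N] [IsGalois ℚ N], ∃ T : Finset ℕ,
    ∀ w : HeightOneSpectrum (𝓞 N), ¬ AboveT T w → ∀ g : N ≃ₐ[ℚ] N, FrobPow N w 1 g → g = 1

/-- F. K. Schmidt's theorem at a finite level. -/
def Stmt_UFK : Prop :=
  ∀ (M : Type) [Field M] [NumberField M] [IsGalois ℚ M] (T : Finset ℕ),
    ∃ (N : Type) (_ : Field N) (_ : NumberField N) (_ : Algebra M N) (_ : IsGalois ℚ N),
      ∀ (h : N ≃ₐ[ℚ] N) (P Q : HeightOneSpectrum (𝓞 N)), Dec P h → Dec Q h →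
        AboveT T P → AboveT T Q → P.under (𝓞 M) ≠ Q.under (𝓞 M) →
        AlgEquiv.restrictNormalHom M h = 1

/-- The same for a finite and an archimedean place. -/
def Stmt_UFKI : Prop :=
  ∀ (M : Type) [Field M] [NumberField M] [IsGalois ℚ M] (T : Finset ℕ),
    ∃ (N : Type) (_ : Field N) (_ : NumberField N) (_ : Algebra M N) (_ : IsGalois ℚ N),
      ∀ (c : N ≃ₐ[ℚ] N) (W : HeightOneSpectrum (𝓞 N)), IsCC c → Dec W c → AboveT T W →
        AlgEquiv.restrictNormalHom M c = 1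

/-- The centraliser of a complex conjugation. -/
def Stmt_UCEN : Prop :=
  ∀ (M : Type) [Field M] [NumberField M] [IsGalois ℚ M],
    ∃ (N : Type) (_ : Field N) (_ : NumberField N) (_ : Algebra M N) (_ : IsGalois ℚ N),
      ∀ g c : N ≃ₐ[ℚ] N, IsCC c → g * c = c * g →
        AlgEquiv.restrictNormalHom M g = 1 ∨
          AlgEquiv.restrictNormalHom M g = AlgEquiv.restrictNormalHom M c

/-- A totally real field with the same local behaviour above `p`. -/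
def Stmt_UHAT : Prop :=
  ∀ (L : Type) [Field L] [NumberField L] [IsGalois ℚ L] (p : ℕ), p.Prime →
    ∃ (E : Type) (_ : Field E) (_ : NumberField E) (_ : IsGalois ℚ E),
      (∀ v : InfinitePlace E, v.IsReal) ∧
      ∀ (N : Type) [Field N] [NumberField N] [IsGalois ℚ N] [Algebra L N] [Algebra E N]
        (W : HeightOneSpectrum (𝓞 N)) (h : N ≃ₐ[ℚ] N), (p : 𝓞 N) ∈ W.asIdeal → Dec W h →
        (AlgEquiv.restrictNormalHom L h = 1 ↔ AlgEquiv.restrictNormalHom E h = 1)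

/-- A polynomial `R` over a totally real field `F` with real roots only, whose roots are fixed by
the decomposition groups above `v₀` and generate `L` at the other primes above `T`. -/
def Stmt_UKIL : Prop :=
  ∀ (F L : Type) [Field F] [NumberField F] [Field L] [NumberField L] [Algebra F L] [IsGalois F L]
    (v₀ : HeightOneSpectrum (𝓞 F)) (T : Finset ℕ), (∀ v : InfinitePlace F, v.IsReal) →
    ∃ R : Polynomial F, R.Monic ∧ R.natDegree = Module.finrank F L ∧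
      (∀ (Φ : F →+* ℂ) (z : ℂ), Polynomial.eval₂ Φ z R = 0 → z.im = 0) ∧
      ∀ (N : Type) [Field N] [NumberField N] [Algebra F N] [Algebra L N] [IsScalarTower F L N]
        [IsGalois F N], (R.map (algebraMap F N)).Splits →
        ∀ (W : HeightOneSpectrum (𝓞 N)) (h : N ≃ₐ[F] N), Dec W h → AboveT T W →
          (W.under (𝓞 F) = v₀ → ∀ κ : N, Polynomial.aeval κ R = 0 → h κ = κ) ∧
          (W.under (𝓞 F) ≠ v₀ → ∀ κ : N, Polynomial.aeval κ R = 0 →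
            (h κ = κ ↔ AlgEquiv.restrictNormalHom L h = 1))

/-- The fields and groups used in the realisation of local characters. -/
def Stmt_UDATA : Prop :=
  ∀ (L : Type) [Field L] [NumberField L] [IsGalois ℚ L] (T : Finset ℕ)
    (w : HeightOneSpectrum (𝓞 L)) (B : Subgroup (L ≃ₐ[ℚ] L)) (ψ : B →* ℂˣ),
    AboveT T w → (∀ b ∈ B, Dec w b) →
    ∃ (N : Type) (_ : Field N) (_ : NumberField N) (_ : Algebra L N) (_ : IsGalois ℚ N)
      (H₀ : Subgroup (N ≃ₐ[ℚ] N)) (ψ₀ : H₀ →* ℂˣ) (Z : Finset N)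
      (W₀ : HeightOneSpectrum (𝓞 N)),
      W₀.under (𝓞 L) = w ∧
      (∀ h : N ≃ₐ[ℚ] N, Dec W₀ h → (h ∈ H₀ ↔ AlgEquiv.restrictNormalHom L h ∈ B)) ∧
      (∀ (h : H₀) (b : B), Dec W₀ (h : N ≃ₐ[ℚ] N) →
        AlgEquiv.restrictNormalHom L (h : N ≃ₐ[ℚ] N) = (b : L ≃ₐ[ℚ] L) → ψ₀ h = ψ b) ∧
      Z.Nonempty ∧ (∀ h ∈ H₀, ∀ κ ∈ Z, h κ ∈ Z) ∧
      (∀ c : N ≃ₐ[ℚ] N, IsCC c →
        (∃ h : c ∈ H₀, ((ψ₀ ⟨c, h⟩ : ℂˣ) : ℂ) = -1) ∧ ∀ κ ∈ Z, c κ = κ) ∧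
      (∀ (W : HeightOneSpectrum (𝓞 N)) (h : H₀), Dec W (h : N ≃ₐ[ℚ] N) → AboveT T W →
        ((∃ s ∈ H₀, STB.mv (s : N ≃+* N) W₀ = W) → ∀ κ ∈ Z, (h : N ≃ₐ[ℚ] N) κ = κ) ∧
        ((¬ ∃ s ∈ H₀, STB.mv (s : N ≃+* N) W₀ = W) → ∀ κ ∈ Z, (h : N ≃ₐ[ℚ] N) κ = κ →
          ψ₀ h = 1 ∧ ∀ κ' ∈ Z, (h : N ≃ₐ[ℚ] N) κ' = κ')) ∧
      (∀ W : HeightOneSpectrum (𝓞 N), ¬ AboveT T W →
        (∀ h : H₀, Dec W (h : N ≃ₐ[ℚ] N) → ∀ κ ∈ Z, (h : N ≃ₐ[ℚ] N) κ = κ →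
          ψ₀ h = 1 ∧ ∀ κ' ∈ Z, (h : N ≃ₐ[ℚ] N) κ' = κ') ∨
        (∀ h : H₀, FrobPow N W 1 (h : N ≃ₐ[ℚ] N) → ψ₀ h = 1))

/-- Realisation of the local function attached to `(w, B, ψ)`. -/
def Stmt_UREAL : Prop :=
  ∀ (L : Type) [Field L] [NumberField L] [IsGalois ℚ L] (T : Finset ℕ)
    (w : HeightOneSpectrum (𝓞 L)) (B : Subgroup (L ≃ₐ[ℚ] L)) (ψ : B →* ℂˣ),
    AboveT T w → (∀ b ∈ B, Dec w b) →
    ∃ (N : Type) (_ : Field N) (_ : NumberField N) (_ : Algebra L N) (_ : IsGalois ℚ N)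
      (Ψ : (N ≃ₐ[ℚ] N) → ℂ), Ψ ∈ SpanQ (G := N ≃ₐ[ℚ] N) (fun H ψ => TypeB H ψ) ∧
        LocRel T Ψ (locInd w B ψ)

/-- Realisation of the restriction of `χ` to all decomposition groups above `T`. -/
def Stmt_UGLOB : Prop :=
  ∀ (L : Type) [Field L] [NumberField L] [IsGalois ℚ L] (T : Finset ℕ) (χ : (L ≃ₐ[ℚ] L) → ℂ),
    χ ∈ SpanQ (G := L ≃ₐ[ℚ] L) (fun _ _ => True) →
    ∃ (N : Type) (_ : Field N) (_ : NumberField N) (_ : Algebra L N) (_ : IsGalois ℚ N)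
      (Ψ : (N ≃ₐ[ℚ] N) → ℂ), Ψ ∈ SpanQ (G := N ≃ₐ[ℚ] N) (fun H ψ => TypeB H ψ) ∧
        LocRel T Ψ (fun _ : HeightOneSpectrum (𝓞 L) => χ)

/-- The algebraic part of the theorem. -/
def Stmt_UALG : Prop :=
  ∀ (L : Type) [Field L] [NumberField L] [IsGalois ℚ L] (T : Finset ℕ) (χ : (L ≃ₐ[ℚ] L) → ℂ),
    χ ∈ SpanQ (G := L ≃ₐ[ℚ] L) (fun _ _ => True) →
    ∃ (N : Type) (_ : Field N) (_ : NumberField N) (_ : Algebra L N) (_ : IsGalois ℚ N),
      (fun g : N ≃ₐ[ℚ] N => χ (AlgEquiv.restrictNormalHom L g)) ∈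
        SpanQ (G := N ≃ₐ[ℚ] N) (fun H ψ => TypeA T H ψ ∨ TypeB H ψ)

end StarkC
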