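import Pool.Agent.StarkU.Stmts
import Pool.Agent.StarkI.SStmts

/-!
# Stark's conjecture, integral unramified reduction: the module SSTEP, statements

See `PAPER_SSTEP.md`.
-/

open NumberField IsDedekindDomain
open scoped TensorProduct Classical

namespace StarkC

/-- UHATS: as UHAT, and the primes of `T` other than `l` split completely in the totally real
field. -/
def Stmt_UHATS : Prop :=
  ∀ (L : Type) [Field L] [NumberField L] [IsGalois ℚ L] (l : ℕ) (T : Finset ℕ), l.Prime →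
    ∃ (E : Type) (_ : Field E) (_ : NumberField E) (_ : IsGalois ℚ E),
      (∀ v : InfinitePlace E, v.IsReal) ∧
      (∀ (W : HeightOneSpectrum (𝓞 E)) (h : E ≃ₐ[ℚ] E), AboveT T W → (l : 𝓞 E) ∉ W.asIdeal →
        Dec W h → h = 1) ∧
      ∀ (N : Type) [Field N] [NumberField N] [IsGalois ℚ N] [Algebra L N] [Algebra E N]
        (W : HeightOneSpectrum (𝓞 N)) (h : N ≃ₐ[ℚ] N), (l : 𝓞 N) ∈ W.asIdeal → Dec W h →
        (AlgEquiv.restrictNormalHom L h = 1 ↔ AlgEquiv.restrictNormalHom E h = 1)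

/-- UKILQ: as UKIL, for the fixed field of a subgroup `Q`. -/
def Stmt_UKILQ : Prop :=
  ∀ (F L : Type) [Field F] [NumberField F] [Field L] [NumberField L] [Algebra F L] [IsGalois F L]
    (Q : Subgroup (L ≃ₐ[F] L)) (v₀ : HeightOneSpectrum (𝓞 F)) (T : Finset ℕ),
    (∀ v : InfinitePlace F, v.IsReal) →
    ∃ R : Polynomial F, R.Monic ∧ R.natDegree = Q.index ∧ R.Separable ∧
      (∀ (Φ : F →+* ℂ) (z : ℂ), Polynomial.eval₂ Φ z R = 0 → z.im = 0) ∧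
      ∀ (N : Type) [Field N] [NumberField N] [Algebra F N] [Algebra L N] [IsScalarTower F L N]
        [IsGalois F N], (R.map (algebraMap F N)).Splits →
        ∀ (W : HeightOneSpectrum (𝓞 N)) (h : N ≃ₐ[F] N), Dec W h → AboveT T W →
          (W.under (𝓞 F) = v₀ → ∀ κ : N, Polynomial.aeval κ R = 0 → h κ = κ) ∧
          (W.under (𝓞 F) ≠ v₀ →
            (Nat.card {κ : N // Polynomial.aeval κ R = 0 ∧ h κ = κ} : ℂ) =
              indFun Q (fun _ => 1) (AlgEquiv.restrictNormalHom L h))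

/-- SDATA: the fields and groups used in SREAL. -/
def Stmt_SDATA : Prop :=
  ∀ (L : Type) [Field L] [NumberField L] [IsGalois ℚ L] (T : Finset ℕ) (l : ℕ), l ∈ T → l.Prime →
    ∀ w : HeightOneSpectrum (𝓞 L), (l : 𝓞 L) ∈ w.asIdeal →
    ∃ (N : Type) (_ : Field N) (_ : NumberField N) (_ : Algebra L N) (_ : IsGalois ℚ N)
      (T' : Finset ℕ) (H₀ : Subgroup (N ≃ₐ[ℚ] N)) (θ : H₀ →* decGrp ℚ w) (η : H₀ →* ℂˣ)
      (Z : Subgroup (decGrp ℚ w) → Finset N) (W₀ : HeightOneSpectrum (𝓞 N)),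
      T ⊆ T' ∧ W₀.under (𝓞 L) = w ∧ (∀ Q, (Z Q).card = Q.index) ∧
      (∀ Q, ∀ h ∈ H₀, ∀ κ ∈ Z Q, h κ ∈ Z Q) ∧
      (∀ c : N ≃ₐ[ℚ] N, IsCC c → ∃ h : c ∈ H₀, θ ⟨c, h⟩ = 1 ∧ ((η ⟨c, h⟩ : ℂˣ) : ℂ) = -1 ∧
        ∀ Q, ∀ κ ∈ Z Q, c κ = κ) ∧
      (∀ (W : HeightOneSpectrum (𝓞 N)) (g : N ≃ₐ[ℚ] N), Dec W g →
        (∃ s ∈ H₀, STB.mv (s : N ≃+* N) W₀ = W) → ∃ h : g ∈ H₀, η ⟨g, h⟩ = 1 ∧
          (∀ Q, ∀ κ ∈ Z Q, g κ = κ) ∧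
          ∃ y : L ≃ₐ[ℚ] L, ((θ ⟨g, h⟩ : decGrp ℚ w) : L ≃ₐ[ℚ] L) =
            y * AlgEquiv.restrictNormalHom L g * y⁻¹) ∧
      (∀ (W : HeightOneSpectrum (𝓞 N)) (h : H₀), Dec W (h : N ≃ₐ[ℚ] N) → AboveT T W →
        (l : 𝓞 N) ∉ W.asIdeal → θ h = 1) ∧
      (∀ (W : HeightOneSpectrum (𝓞 N)) (h : H₀), Dec W (h : N ≃ₐ[ℚ] N) → AboveT T' W →
        (¬ ∃ s ∈ H₀, STB.mv (s : N ≃+* N) W₀ = W) →
        ∀ Q, (((Z Q).filter fun κ => (h : N ≃ₐ[ℚ] N) κ = κ).card : ℂ) =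
          indFun Q (fun _ => 1) (θ h)) ∧
      (∀ (W : HeightOneSpectrum (𝓞 N)) (h : H₀), ¬ AboveT T' W →
        FrobPow N W 1 (h : N ≃ₐ[ℚ] N) → θ h = 1 ∧ η h = 1)

/-- SREAL (REAL' for one prime `l`). -/
def Stmt_SREAL : Prop :=
  ∀ (p : ℕ), p.Prime → ∀ (T : Finset ℕ) (l : ℕ), l ∈ T → l.Prime →
    ∀ (L : Type) [Field L] [NumberField L] [IsGalois ℚ L] (f : (L ≃ₐ[ℚ] L) → ℂ), IsMonComb f →
    (∀ g, PElt p g → f g = 0) →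
    ∃ (N : Type) (_ : Field N) (_ : NumberField N) (_ : Algebra L N) (_ : IsGalois ℚ N)
      (M : ℕ) (Ψ : (N ≃ₐ[ℚ] N) → ℂ), 0 < M ∧ Nat.Coprime p M ∧
      Ψ ∈ CMB.GS (G := N ≃ₐ[ℚ] N) (fun H ψ => Ty3 H ψ) ∧
      (∀ (W : HeightOneSpectrum (𝓞 N)) (x : N ≃ₐ[ℚ] N), Dec W x →
        ((l : 𝓞 N) ∈ W.asIdeal → Ψ x = (M : ℂ) * f (AlgEquiv.restrictNormalHom L x)) ∧
        (AboveT T W → (l : 𝓞 N) ∉ W.asIdeal → Ψ x = 0)) ∧
      ∀ W : HeightOneSpectrum (𝓞 N), ¬ AboveT T W →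
        (fun g : decGrp ℚ W => Ψ g) ∈ CMB.GS (G := decGrp ℚ W) fun B ν =>
          ∀ b : B, FrobPow N W 1 ((b : decGrp ℚ W) : N ≃ₐ[ℚ] N) → ν b = 1

end StarkC
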