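import Pool.Agent.StarkU.UALG

/-!
# Averaging over the residue classes which are `1` modulo `n`
-/

open scoped Classical

namespace StarkC
namespace UAVG

section grp

variable {G : Type} [Group G] [Fintype G]

theorem indFun_pow (H : Subgroup G) (ψ : H →* ℂˣ) (a : ℕ) (ha : a.Coprime (Nat.card G)) (g : G) :
    indFun H (extZ ψ) (g ^ a) = indFun H (extZ (ψ ^ a)) g := by
  unfold indFun
  congr 1
  refine Finset.sum_congr rfl fun x _ => ?_
  have h1 : x⁻¹ * g ^ a * x = (x⁻¹ * g * x) ^ a := by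
    have := conj_pow (i := a) (a := x⁻¹) (b := g)
    rw [inv_inv] at this
    exact this.symm
  rw [h1]
  set y := x⁻¹ * g * x with hy
  have h2 : y ^ a ∈ H ↔ y ∈ H := by
    refine ⟨fun h => ?_, fun h => H.pow_mem h a⟩
    obtain ⟨b, hb⟩ := exists_pow_eq_self_of_coprime (x := y) (n := a)
      (ha.coprime_dvd_right (orderOf_dvd_natCard y))
    rw [← hb]
    exact H.pow_mem h b
  by_cases hyH : y ∈ H
  · rw [if_pos (h2.2 hyH), if_pos hyH]
    have e1 := CMB.extZ_apply ψ (⟨y, hyH⟩ ^ a : H)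
    have e2 := CMB.extZ_apply (ψ ^ a) (⟨y, hyH⟩ : H)
    rw [map_pow] at e1
    rw [MonoidHom.pow_apply] at e2
    exact e1.trans e2.symm
  · rw [if_neg (fun h => hyH (h2.1 h)), if_neg hyH]

end grp

/-! ### Arithmetic -/

theorem sum_moebius (k : ℕ) (hk : k ≠ 0) :
    (∑ d ∈ k.divisors, (ArithmeticFunction.moebius d : ℤ)) = if k = 1 then 1 else 0 := by
  have h := congrFun (congrArg DFunLike.coe ArithmeticFunction.moebius_mul_coe_zeta) k
  rw [ArithmeticFunction.coe_mul_zeta_apply, ArithmeticFunction.one_apply] at h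
  exact h

/-- the number `t d` -/
theorem exists_t (n d : ℕ) (hd : 0 < d) (h : d.Coprime n) : ∃ j : ℕ, j < d ∧ d ∣ 1 + n * j := by
  -- `n * b = 1` modulo `d`
  have hn : IsUnit ((n : ZMod d)) := (ZMod.isUnit_iff_coprime n d).2 h.symm
  obtain ⟨u, hu⟩ := hn
  have : NeZero d := ⟨hd.ne'⟩
  refine ⟨(-(u⁻¹ : (ZMod d)ˣ) : ZMod d).val, ZMod.val_lt _, ?_⟩
  rw [← ZMod.natCast_eq_zero_iff]
  push_cast
  rw [ZMod.natCast_val, ZMod.cast_id, ← hu]
  simp

theorem filter_eq (n m d : ℕ) (hd : 0 < d) (hdm : d ∣ m) (hdn : d.Coprime n) (j₀ : ℕ)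
    (hj₀ : j₀ < d) (h0 : d ∣ 1 + n * j₀) :
    (Finset.range m).filter (fun j => d ∣ 1 + n * j) =
      (Finset.range (m / d)).image (fun i => j₀ + d * i) := by
  obtain ⟨k, rfl⟩ := hdm
  rw [Nat.mul_div_cancel_left k hd]
  ext j
  rw [Finset.mem_filter, Finset.mem_range, Finset.mem_image]
  constructor
  · rintro ⟨h1, h2⟩
    have h3 : (j : ZMod d) = (j₀ : ZMod d) := by
      have e1 : ((1 + n * j : ℕ) : ZMod d) = 0 := (ZMod.natCast_eq_zero_iff _ _).2 h2
      have e2 : ((1 + n * j₀ : ℕ) : ZMod d) = 0 := (ZMod.natCast_eq_zero_iff _ _).2 h0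
      have hn : IsUnit ((n : ZMod d)) := (ZMod.isUnit_iff_coprime n d).2 hdn.symm
      have e3 : (n : ZMod d) * (j : ZMod d) = (n : ZMod d) * (j₀ : ZMod d) := by
        push_cast at e1 e2
        have := e1.trans e2.symm
        exact add_left_cancel this
      exact hn.mul_left_cancel e3
    have h4 : j % d = j₀ := by
      have := (ZMod.natCast_eq_natCast_iff' j j₀ d).1 h3
      rw [this, Nat.mod_eq_of_lt hj₀]
    refine ⟨j / d, ?_, ?_⟩
    · rw [Finset.mem_range]
      exact Nat.div_lt_of_lt_mul h1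
    · show j₀ + d * (j / d) = j
      rw [← h4]
      exact Nat.mod_add_div j d
  · rintro ⟨i, hi, rfl⟩
    rw [Finset.mem_range] at hi
    constructor
    · calc j₀ + d * i < d + d * i := by omega
        _ = d * (i + 1) := by ring
        _ ≤ d * k := Nat.mul_le_mul_left d hi
    · have : 1 + n * (j₀ + d * i) = (1 + n * j₀) + d * (n * i) := by ring
      rw [this]
      exact dvd_add h0 (dvd_mul_right _ _)

theorem sum_d (n m d : ℕ) (hm : 0 < m) (hd : 0 < d) (hdm : d ∣ m) (hdn : d.Coprime n) (j₀ : ℕ)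
    (hj₀ : j₀ < d) (h0 : d ∣ 1 + n * j₀) (z : ℂ) (hz : z ^ m = 1) :
    ∑ j ∈ (Finset.range m).filter (fun j => d ∣ 1 + n * j), z ^ (1 + n * j) =
      ((m / d : ℕ) : ℂ) * (if z ^ (n * d) = 1 then z ^ (1 + n * j₀) else 0) := by
  rw [filter_eq n m d hd hdm hdn j₀ hj₀ h0, Finset.sum_image (by
    intro a _ b _ hab
    have h1 : d * a = d * b := by
      have : j₀ + d * a = j₀ + d * b := hab
      omega
    exact Nat.eq_of_mul_eq_mul_left hd h1)]
  have h1 : ∀ i, z ^ (1 + n * (j₀ + d * i)) = z ^ (1 + n * j₀) * (z ^ (n * d)) ^ i := by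
    intro i
    rw [← pow_mul, ← pow_add]
    congr 1
    ring
  rw [Finset.sum_congr rfl fun i _ => h1 i, ← Finset.mul_sum]
  by_cases hw : z ^ (n * d) = 1
  · rw [if_pos hw, hw]
    simp only [one_pow, Finset.sum_const, Finset.card_range, nsmul_eq_mul, mul_one]
    ring
  · rw [if_neg hw, mul_zero]
    have h2 : (z ^ (n * d)) ^ (m / d) = 1 := by
      rw [← pow_mul]
      have : n * d * (m / d) = m * n := by
        obtain ⟨k, rfl⟩ := hdm
        rw [Nat.mul_div_cancel_left k hd]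
        ring
      rw [this, pow_mul, hz, one_pow]
    have h3 : ∑ i ∈ Finset.range (m / d), (z ^ (n * d)) ^ i = 0 := by
      have := geom_sum_mul (z ^ (n * d)) (m / d)
      rw [h2, sub_self] at this
      rcases mul_eq_zero.1 this with h | h
      · exact h
      · exact absurd (sub_eq_zero.1 h) hw
    rw [h3, mul_zero]

/-- The number `t`: `d ∣ t` and `t = 1` modulo `n`. -/
noncomputable def tn (n d : ℕ) : ℕ :=
  if h : ∃ j : ℕ, j < d ∧ d ∣ 1 + n * j then 1 + n * h.choose else 1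

theorem avg (n m : ℕ) (hm : 0 < m) (z : ℂ) (hz : z ^ m = 1) :
    ∑ j ∈ (Finset.range m).filter (fun j => (1 + n * j).Coprime m), z ^ (1 + n * j) =
      ∑ d ∈ m.divisors.filter (fun d => d.Coprime n),
        ((ArithmeticFunction.moebius d : ℤ) : ℂ) * ((m / d : ℕ) : ℂ) *
          (if z ^ (n * d) = 1 then z ^ (tn n d) else 0) := by
  have h1 : ∑ j ∈ (Finset.range m).filter (fun j => (1 + n * j).Coprime m), z ^ (1 + n * j) =
      ∑ j ∈ Finset.range m, ∑ d ∈ m.divisors, (if d ∣ 1 + n * j then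
        ((ArithmeticFunction.moebius d : ℤ) : ℂ) * z ^ (1 + n * j) else 0) := by
    rw [Finset.sum_filter]
    refine Finset.sum_congr rfl fun j _ => ?_
    rw [← Finset.sum_filter]
    have h2 : m.divisors.filter (fun d => d ∣ 1 + n * j) = (Nat.gcd (1 + n * j) m).divisors := by
      ext d
      rw [Finset.mem_filter, Nat.mem_divisors, Nat.mem_divisors, Nat.dvd_gcd_iff]
      have : Nat.gcd (1 + n * j) m ≠ 0 := (Nat.gcd_pos_of_pos_right _ hm).ne'
      have hm' : m ≠ 0 := hm.ne'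
      tauto
    rw [h2, ← Finset.sum_mul]
    have h3 := sum_moebius (Nat.gcd (1 + n * j) m) (Nat.gcd_pos_of_pos_right _ hm).ne'
    have h4 : (∑ d ∈ (Nat.gcd (1 + n * j) m).divisors, ((ArithmeticFunction.moebius d : ℤ) : ℂ)) =
        if Nat.gcd (1 + n * j) m = 1 then 1 else 0 := by
      rw [← Int.cast_sum, h3]
      split_ifs <;> simp
    rw [h4]
    unfold Nat.Coprime
    split_ifs <;> simp
  rw [h1, Finset.sum_comm, Finset.sum_filter]
  refine Finset.sum_congr rfl fun d hd => ?_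
  rw [Nat.mem_divisors] at hd
  have hd0 : 0 < d := Nat.pos_of_dvd_of_pos hd.1 hm
  rw [← Finset.sum_filter, ← Finset.mul_sum]
  by_cases hdn : d.Coprime n
  · rw [if_pos hdn]
    have hex := exists_t n d hd0 hdn
    have ht : tn n d = 1 + n * hex.choose := by
      unfold tn
      rw [dif_pos hex]
    rw [ht, sum_d n m d hm hd0 hd.1 hdn _ hex.choose_spec.1 hex.choose_spec.2 z hz]
    ring
  · rw [if_neg hdn]
    have : (Finset.range m).filter (fun j => d ∣ 1 + n * j) = ∅ := by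
      rw [Finset.filter_eq_empty_iff]
      intro j _ hj
      apply hdn
      have h5 : Nat.gcd d n ∣ 1 := by
        have h6 : Nat.gcd d n ∣ 1 + n * j := (Nat.gcd_dvd_left d n).trans hj
        have h7 : Nat.gcd d n ∣ n * j := (Nat.gcd_dvd_right d n).trans (dvd_mul_right _ _)
        exact (Nat.dvd_add_left h7).1 h6
      exact Nat.dvd_one.1 h5
    rw [this, Finset.sum_empty, mul_zero]

theorem tn_mod (n d : ℕ) : tn n d ≡ 1 [MOD n] := by
  unfold tn
  split_ifs with h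
  · have : (1 + n * h.choose) % n = 1 % n := Nat.add_mul_mod_self_left 1 n _
    exact this
  · rfl

theorem dvd_tn (n d : ℕ) (hd : 0 < d) (h : d.Coprime n) : d ∣ tn n d := by
  have hex := exists_t n d hd h
  unfold tn
  rw [dif_pos hex]
  exact hex.choose_spec.2

section grp

variable {G : Type} [Group G] [Fintype G]

/-- The subgroup `ψ ^ k = 1` of `H`, as a subgroup of `G`. -/
def sub (H : Subgroup G) (ψ : H →* ℂˣ) (k : ℕ) : Subgroup G := ((ψ ^ k).ker).map H.subtype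

theorem sub_le (H : Subgroup G) (ψ : H →* ℂˣ) (k : ℕ) : sub H ψ k ≤ H :=
  Subgroup.map_subtype_le _

theorem mem_sub (H : Subgroup G) (ψ : H →* ℂˣ) (k : ℕ) (h : H) :
    (h : G) ∈ sub H ψ k ↔ (ψ h) ^ k = 1 := by
  constructor
  · rintro ⟨h', h1, h2⟩
    have h3 : h' = h := Subtype.ext h2
    subst h3
    exact h1
  · intro h1
    exact ⟨h, h1, rfl⟩

/-- The restriction of `ψ ^ t` to the subgroup `sub H ψ k`. -/
def rst (H : Subgroup G) (ψ : H →* ℂˣ) (k t : ℕ) : sub H ψ k →* ℂˣ :=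
  (ψ ^ t).comp (Subgroup.inclusion (sub_le H ψ k))

theorem indFun_sub_eq (H : Subgroup G) (ψ : H →* ℂˣ) (k t : ℕ) :
    indFun H (fun g => if h : g ∈ H then
        (if ((ψ ⟨g, h⟩ : ℂˣ) : ℂ) ^ k = 1 then ((ψ ⟨g, h⟩ : ℂˣ) : ℂ) ^ t else 0) else 0) =
      ((Nat.card (sub H ψ k) : ℚ) / (Nat.card H : ℚ)) • indFun (sub H ψ k)
        (extZ (rst H ψ k t)) := by
  funext g
  rw [Pi.smul_apply, Rat.smul_def]
  unfold indFun
  have h4 : (Nat.card (sub H ψ k) : ℂ) ≠ 0 := by exact_mod_cast Nat.card_pos.ne'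
  have h5 : (Nat.card H : ℂ) ≠ 0 := by exact_mod_cast Nat.card_pos.ne'
  have h6 : ∀ x : G, (if x⁻¹ * g * x ∈ H then (if h : x⁻¹ * g * x ∈ H then
        (if ((ψ ⟨x⁻¹ * g * x, h⟩ : ℂˣ) : ℂ) ^ k = 1 then
          ((ψ ⟨x⁻¹ * g * x, h⟩ : ℂˣ) : ℂ) ^ t else 0) else 0) else 0) =
      if x⁻¹ * g * x ∈ sub H ψ k then extZ (rst H ψ k t) (x⁻¹ * g * x) else 0 := by
    intro x
    by_cases hx : x⁻¹ * g * x ∈ H
    · rw [if_pos hx, dif_pos hx]
      have h7 := mem_sub H ψ k ⟨_, hx⟩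
      have h8 : (ψ ⟨x⁻¹ * g * x, hx⟩) ^ k = 1 ↔ ((ψ ⟨x⁻¹ * g * x, hx⟩ : ℂˣ) : ℂ) ^ k = 1 := by
        rw [← Units.val_pow_eq_pow_val, Units.val_eq_one]
      by_cases h9 : ((ψ ⟨x⁻¹ * g * x, hx⟩ : ℂˣ) : ℂ) ^ k = 1
      · have h10 : x⁻¹ * g * x ∈ sub H ψ k := h7.2 (h8.2 h9)
        rw [if_pos h9, if_pos h10]
        have h11 := CMB.extZ_apply (rst H ψ k t) (⟨_, h10⟩ : sub H ψ k)
        rw [h11]
        unfold rst
        rw [MonoidHom.comp_apply, MonoidHom.pow_apply, Units.val_pow_eq_pow_val]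
        rfl
      · rw [if_neg h9, if_neg (fun h => h9 (h8.1 (h7.1 h)))]
    · rw [if_neg hx, if_neg (fun h => hx (sub_le H ψ k h))]
  rw [Finset.sum_congr rfl fun x _ => h6 x]
  push_cast
  field_simp

/-- The function `h ↦ ψ(h) ^ t` on the subgroup `ψ ^ k = 1` of `H`. -/
noncomputable def W (H : Subgroup G) (ψ : H →* ℂˣ) (k t : ℕ) : G → ℂ := fun g =>
  if h : g ∈ H then
    (if ((ψ ⟨g, h⟩ : ℂˣ) : ℂ) ^ k = 1 then ((ψ ⟨g, h⟩ : ℂˣ) : ℂ) ^ t else 0) else 0

theorem indFun_W (H : Subgroup G) (ψ : H →* ℂˣ) (k t : ℕ) :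
    indFun H (W H ψ k t) =
      ((Nat.card (sub H ψ k) : ℚ) / (Nat.card H : ℚ)) • indFun (sub H ψ k)
        (extZ (rst H ψ k t)) := indFun_sub_eq H ψ k t

/-- The predicate after averaging. -/
def Avg (P : ∀ H : Subgroup G, (H →* ℂˣ) → Prop) (n : ℕ) (B : Subgroup G) (ν : B →* ℂˣ) :
    Prop :=
  ∃ (H : Subgroup G) (ψ : H →* ℂˣ) (hle : B ≤ H) (t : ℕ), P H ψ ∧ t ≡ 1 [MOD n] ∧
    ν = (ψ ^ t).comp (Subgroup.inclusion hle) ∧ ν ^ n = 1 ∧
    ∀ h : H, ψ h ^ n = 1 → (h : G) ∈ B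

/-- The averaging operator. -/
noncomputable def A (n m : ℕ) : (G → ℂ) →ₗ[ℚ] (G → ℂ) where
  toFun f := fun g =>
    ∑ j ∈ (Finset.range m).filter (fun j => (1 + n * j).Coprime m), f (g ^ (1 + n * j))
  map_add' f f' := by
    funext g
    simp only [Pi.add_apply, Finset.sum_add_distrib]
  map_smul' q f := by
    funext g
    simp only [Pi.smul_apply, Finset.smul_sum, RingHom.id_apply]

theorem A_apply (n m : ℕ) (f : G → ℂ) (g : G) : A n m f g =
    ∑ j ∈ (Finset.range m).filter (fun j => (1 + n * j).Coprime m), f (g ^ (1 + n * j)) := rfl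

theorem A_ind (n : ℕ) (H : Subgroup G) (ψ : H →* ℂˣ) :
    A n (Nat.card G) (indFun H (extZ ψ)) =
      ∑ d ∈ (Nat.card G).divisors.filter (fun d => d.Coprime n),
        (((ArithmeticFunction.moebius d : ℤ) : ℚ) * ((Nat.card G / d : ℕ) : ℚ)) •
          indFun H (W H ψ (n * d) (tn n d)) := by
  have hm : 0 < Nat.card G := Nat.card_pos
  funext g
  rw [A_apply, Finset.sum_apply]
  have h1 : ∀ j ∈ (Finset.range (Nat.card G)).filter
      (fun j => (1 + n * j).Coprime (Nat.card G)),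
      indFun H (extZ ψ) (g ^ (1 + n * j)) = indFun H (extZ (ψ ^ (1 + n * j))) g := by
    intro j hj
    exact indFun_pow H ψ _ (Finset.mem_filter.1 hj).2 g
  rw [Finset.sum_congr rfl h1]
  have h2 : ∀ y : G, (∑ j ∈ (Finset.range (Nat.card G)).filter
      (fun j => (1 + n * j).Coprime (Nat.card G)),
      (if y ∈ H then extZ (ψ ^ (1 + n * j)) y else 0)) =
      ∑ d ∈ (Nat.card G).divisors.filter (fun d => d.Coprime n),
        ((ArithmeticFunction.moebius d : ℤ) : ℂ) * ((Nat.card G / d : ℕ) : ℂ) *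
          (if y ∈ H then W H ψ (n * d) (tn n d) y else 0) := by
    intro y
    by_cases hy : y ∈ H
    · have hz : ((ψ ⟨y, hy⟩ : ℂˣ) : ℂ) ^ (Nat.card G) = 1 := by
        rw [← Units.val_pow_eq_pow_val, ← map_pow]
        have : (⟨y, hy⟩ : H) ^ (Nat.card G) = 1 := Subtype.ext pow_card_eq_one'
        rw [this, map_one, Units.val_one]
      have h3 := avg n (Nat.card G) hm _ hz
      have h4 : ∀ j : ℕ, (if y ∈ H then extZ (ψ ^ (1 + n * j)) y else 0) =
          ((ψ ⟨y, hy⟩ : ℂˣ) : ℂ) ^ (1 + n * j) := by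
        intro j
        rw [if_pos hy]
        have := CMB.extZ_apply (ψ ^ (1 + n * j)) (⟨y, hy⟩ : H)
        rw [MonoidHom.pow_apply, Units.val_pow_eq_pow_val] at this
        exact this
      rw [Finset.sum_congr rfl fun j _ => h4 j, h3]
      refine Finset.sum_congr rfl fun d _ => ?_
      rw [if_pos hy]
      unfold W
      rw [dif_pos hy]
    · simp only [if_neg hy, mul_zero, Finset.sum_const_zero]
  have h5 : ∀ j, indFun H (extZ (ψ ^ (1 + n * j))) g =
      (∑ x : G, if x⁻¹ * g * x ∈ H then extZ (ψ ^ (1 + n * j)) (x⁻¹ * g * x) else 0) /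
        (Nat.card H : ℂ) := fun j => rfl
  rw [Finset.sum_congr rfl fun j _ => h5 j, ← Finset.sum_div, Finset.sum_comm]
  rw [Finset.sum_congr rfl fun x _ => h2 (x⁻¹ * g * x), Finset.sum_comm, Finset.sum_div]
  refine Finset.sum_congr rfl fun d _ => ?_
  rw [Pi.smul_apply, Rat.smul_def]
  unfold indFun
  rw [← Finset.mul_sum]
  push_cast
  ring

theorem A_mem {P : ∀ H : Subgroup G, (H →* ℂˣ) → Prop} (n : ℕ) {f : G → ℂ}
    (hf : f ∈ SpanQ (G := G) P) : A n (Nat.card G) f ∈ SpanQ (G := G) (Avg P n) := by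
  unfold SpanQ at hf
  induction hf using Submodule.span_induction with
  | mem f h =>
    obtain ⟨H, ψ, hP, rfl⟩ := h
    rw [A_ind]
    refine Submodule.sum_mem _ fun d hd => Submodule.smul_mem _ _ ?_
    rw [Finset.mem_filter, Nat.mem_divisors] at hd
    have hd0 : 0 < d := Nat.pos_of_dvd_of_pos hd.1.1 Nat.card_pos
    rw [indFun_W]
    refine Submodule.smul_mem _ _ (Submodule.subset_span ⟨_, _, ?_, rfl⟩)
    refine ⟨H, ψ, sub_le H ψ _, tn n d, hP, tn_mod n d, rfl, ?_, ?_⟩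
    · refine MonoidHom.ext fun b => ?_
      rw [MonoidHom.pow_apply, MonoidHom.one_apply]
      unfold rst
      rw [MonoidHom.comp_apply, MonoidHom.pow_apply, ← pow_mul]
      obtain ⟨k, hk⟩ := dvd_tn n d hd0 hd.2
      have h1 : (ψ (Subgroup.inclusion (sub_le H ψ (n * d)) b)) ^ (n * d) = 1 :=
        (mem_sub H ψ (n * d) (Subgroup.inclusion (sub_le H ψ (n * d)) b)).1 b.2
      have h2 : tn n d * n = n * d * k := by rw [hk]; ring
      rw [h2, pow_mul, h1, one_pow]
    · intro h hh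
      rw [mem_sub, pow_mul, hh, one_pow]
  | zero =>
    rw [map_zero]
    exact Submodule.zero_mem _
  | add f f' _ _ h h' =>
    rw [map_add]
    exact Submodule.add_mem _ h h'
  | smul r f _ h =>
    rw [map_smul]
    exact Submodule.smul_mem _ _ h

/-- A function which is invariant under `g ↦ g ^ a`, `a = 1` modulo `n`, is a combination of
functions induced from characters of order dividing `n`. -/
theorem main {P : ∀ H : Subgroup G, (H →* ℂˣ) → Prop} (n : ℕ) {f : G → ℂ}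
    (hf : f ∈ SpanQ (G := G) P)
    (hinv : ∀ (a : ℕ) (g : G), a.Coprime (Nat.card G) → a ≡ 1 [MOD n] → f (g ^ a) = f g) :
    f ∈ SpanQ (G := G) (Avg P n) := by
  have hm : 0 < Nat.card G := Nat.card_pos
  set J := (Finset.range (Nat.card G)).filter (fun j => (1 + n * j).Coprime (Nat.card G))
    with hJ
  have h0 : 0 ∈ J := by
    rw [hJ, Finset.mem_filter, Finset.mem_range]
    refine ⟨hm, ?_⟩
    rw [mul_zero, add_zero]
    exact Nat.coprime_one_left _
  have hc : (J.card : ℚ) ≠ 0 := by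
    exact_mod_cast (Finset.card_pos.2 ⟨0, h0⟩).ne'
  have h1 : A n (Nat.card G) f = (J.card : ℚ) • f := by
    funext g
    rw [A_apply, Pi.smul_apply, Rat.smul_def]
    have h2 : ∀ j ∈ J, f (g ^ (1 + n * j)) = f g := by
      intro j hj
      refine hinv _ g (Finset.mem_filter.1 hj).2 ?_
      have : (1 + n * j) % n = 1 % n := Nat.add_mul_mod_self_left 1 n _
      exact this
    rw [← hJ, Finset.sum_congr rfl h2, Finset.sum_const, nsmul_eq_mul]
    push_cast
    rfl
  have h3 : f = (J.card : ℚ)⁻¹ • A n (Nat.card G) f := by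
    rw [h1, smul_smul, inv_mul_cancel₀ hc, one_smul]
  rw [h3]
  exact Submodule.smul_mem _ _ (A_mem n hf)

end grp

end UAVG
end StarkC
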