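import Pool.Agent.StarkU.Stmts
import Pool.Agent.Stark.RBasic

/-!
# Module UKIL, first part: lemmas
-/

open NumberField IsDedekindDomain
open scoped TensorProduct Classical

namespace StarkC

namespace UKIL

open Polynomial

/-- The coefficients of `∏ (X - Y j) - X ^ n` are divisible by `Y`. -/
theorem dvd_coeff {A : Type} [CommRing A] (Y : A) (n k : ℕ) :
    Y ∣ ((∏ j ∈ Finset.range n, (X - C (Y * (j : A)))) - X ^ n).coeff k := by
  rw [← Ideal.mem_span_singleton, ← Ideal.Quotient.eq_zero_iff_mem, ← Polynomial.coeff_map]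
  have : ((∏ j ∈ Finset.range n, (X - C (Y * (j : A)))) - X ^ n).map
      (Ideal.Quotient.mk (Ideal.span {Y})) = 0 := by
    rw [Polynomial.map_sub, Polynomial.map_prod, Polynomial.map_pow, Polynomial.map_X]
    have h0 : Ideal.Quotient.mk (Ideal.span {Y}) Y = 0 := by
      rw [Ideal.Quotient.eq_zero_iff_mem]
      exact Ideal.mem_span_singleton_self Y
    have h : ∀ j ∈ Finset.range n, (X - C (Y * (j : A))).map
        (Ideal.Quotient.mk (Ideal.span {Y})) = X := by
      intro j _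
      rw [Polynomial.map_sub, Polynomial.map_X, Polynomial.map_C, map_mul, h0, zero_mul,
        Polynomial.C_0, sub_zero]
    rw [Finset.prod_congr rfl h, Finset.prod_const, Finset.card_range, sub_self]
  rw [this, Polynomial.coeff_zero]

theorem monic_prod {A : Type} [CommRing A] [Nontrivial A] (n : ℕ) (f : ℕ → A) :
    (∏ j ∈ Finset.range n, (X - C (f j))).Monic ∧
      (∏ j ∈ Finset.range n, (X - C (f j))).natDegree = n := by
  constructor
  · exact monic_prod_of_monic _ _ fun j _ => monic_X_sub_C _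
  · rw [natDegree_prod_of_monic _ _ fun j _ => monic_X_sub_C _]
    simp

/-- adding a polynomial of smaller degree -/
theorem monic_add {A : Type} [CommRing A] [Nontrivial A] {P g : A[X]} {n : ℕ} (hP : P.Monic)
    (hn : P.natDegree = n) (hg : g.degree < (n : WithBot ℕ)) :
    (P + g).Monic ∧ (P + g).natDegree = n := by
  have h1 : P.degree = (n : WithBot ℕ) := by
    rw [degree_eq_natDegree hP.ne_zero, hn]
  have h2 : g.degree < P.degree := by rw [h1]; exact hg
  refine ⟨hP.add_of_left h2, ?_⟩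
  rw [natDegree_eq_of_degree_eq (degree_add_eq_left_of_degree_lt h2), hn]

/-- `X ^ n` subtracted from a monic polynomial of degree `n` -/
theorem degree_sub_lt {A : Type} [CommRing A] [Nontrivial A] {P : A[X]} {n : ℕ} (hP : P.Monic)
    (hn : P.natDegree = n) : (P - X ^ n).degree < (n : WithBot ℕ) := by
  have h1 : P.degree = (n : WithBot ℕ) := by
    rw [degree_eq_natDegree hP.ne_zero, hn]
  rw [← h1]
  apply Polynomial.degree_sub_lt_left
  · rw [h1, degree_X_pow]
  · exact hP.ne_zero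
  · rw [hP.leadingCoeff, (monic_X_pow n).leadingCoeff]

/-- a convex combination of monic polynomials of degree `n` -/
theorem monic_comb {A : Type} [CommRing A] [Nontrivial A] {P Q : A[X]} {n : ℕ} (e : A)
    (hP : P.Monic) (hQ : Q.Monic) (hPn : P.natDegree = n) (hQn : Q.natDegree = n) :
    (C e * P + C (1 - e) * Q).Monic ∧ (C e * P + C (1 - e) * Q).natDegree = n := by
  have h : C e * P + C (1 - e) * Q = Q + C e * ((P - X ^ n) - (Q - X ^ n)) := by
    rw [C_sub, C_1]; ring
  rw [h]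
  apply monic_add hQ hQn
  refine (degree_mul_le _ _).trans_lt ?_
  refine lt_of_le_of_lt (add_le_add_left degree_C_le _) ?_
  rw [zero_add]
  refine (degree_sub_le _ _).trans_lt ?_
  exact max_lt (degree_sub_lt hP hPn) (degree_sub_lt hQ hQn)

/-- The combinatorial part: `h` fixes a root of `R` iff it fixes the close root. -/
theorem fix_iff {N Γ₀ : Type} [Field N] [LinearOrderedCommGroupWithZero Γ₀] (v : Valuation N Γ₀)
    {n : ℕ} {α β : Fin n → N} {δ : Γ₀} {s : Equiv.Perm (Fin n)}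
    (hs : ∀ i j, v (α i - β j) < δ ↔ j = s i) (h : N → N)
    (hsub : ∀ x y, h (x - y) = h x - h y) (hv : ∀ y, v (h y) = v y)
    (hα : ∀ i, ∃ i', h (α i) = α i') (hβ : ∀ j, ∃ j', h (β j) = β j') (i : Fin n) :
    h (β (s i)) = β (s i) ↔ h (α i) = α i := by
  obtain ⟨i', hi'⟩ := hα i
  obtain ⟨j', hj'⟩ := hβ (s i)
  have h1 : v (α i - β (s i)) < δ := (hs i (s i)).2 rfl
  rw [← hv, hsub, hi', hj'] at h1
  have h2 : j' = s i' := (hs _ _).1 h1
  constructor
  · intro h3
    rw [← hj', h3] at h1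
    have h4 : s i = s i' := (hs _ _).1 h1
    rw [hi', ← s.injective h4]
  · intro h3
    rw [← hi', h3] at h1
    have h4 : j' = s i := (hs _ _).1 h1
    rw [hj', h4]

/-- The roots of a split monic polynomial as a family. -/
theorem exists_roots {N : Type} [Field N] {P : N[X]} {n : ℕ} (hm : P.Monic)
    (hn : P.natDegree = n) (hs : P.Splits) : ∃ β : Fin n → N, P = ∏ i, (X - C (β i)) := by
  have h1 : P = (P.roots.map fun a => X - C a).prod := by
    conv_lhs => rw [hs.eq_prod_roots, hm.leadingCoeff, C_1, one_mul]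
  have h2 : P.roots.toList.length = n := by
    rw [Multiset.length_toList, ← hs.natDegree_eq_card_roots, hn]
  subst h2
  refine ⟨fun i => P.roots.toList.get i, ?_⟩
  conv_lhs => rw [h1, ← Multiset.coe_toList P.roots, Multiset.map_coe, Multiset.prod_coe]
  rw [← List.prod_ofFn]
  congr 1
  conv_lhs => rw [← List.ofFn_get P.roots.toList, List.map_ofFn]
  rfl

/-! ### An approximation of 1 at `v₀` and 0 at the other primes -/

theorem crt {A : Type} [CommRing A] [IsDedekindDomain A] (v₀ : HeightOneSpectrum A) (m : A)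
    (hm : m ≠ 0) : ∃ e : A, (∃ s ∉ v₀.asIdeal, m ∣ s * (1 - e)) ∧
      ∀ u : HeightOneSpectrum A, u ≠ v₀ → ∃ s ∉ u.asIdeal, m ∣ s * e := by
  have hirr : Irreducible v₀.asIdeal := v₀.irreducible
  obtain ⟨a, I, hI, hspan⟩ := WfDvdMonoid.max_power_factor (a₀ := Ideal.span {m})
    (by simpa using hm) hirr
  have hI' : ¬ I ≤ v₀.asIdeal := by rwa [← Ideal.dvd_iff_le]
  have hmax := v₀.isMaximal
  have hsup : v₀.asIdeal ⊔ I = ⊤ := by
    refine hmax.1.2 _ (lt_of_le_of_ne le_sup_left ?_)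
    intro h
    exact hI' (h ▸ le_sup_right)
  have hcop : IsCoprime (v₀.asIdeal ^ a) I := (Ideal.isCoprime_iff_sup_eq.2 hsup).pow_left
  obtain ⟨x, hx, e, he, hxe⟩ := Ideal.isCoprime_iff_exists.1 hcop
  refine ⟨e, ?_, fun u hu => ?_⟩
  · obtain ⟨s, hsI, hs⟩ := SetLike.not_le_iff_exists.1 hI'
    refine ⟨s, hs, ?_⟩
    rw [← hxe, add_sub_cancel_right, ← Ideal.mem_span_singleton, hspan, mul_comm s x]
    exact Ideal.mul_mem_mul hx hsI
  · have h1 : ¬ v₀.asIdeal ^ a ≤ u.asIdeal := by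
      intro h
      have h2 : v₀.asIdeal ≤ u.asIdeal := Ideal.IsPrime.le_of_pow_le (hP := u.isPrime) h
      exact hu (HeightOneSpectrum.ext (hmax.eq_of_le u.isPrime.ne_top h2)).symm
    obtain ⟨s, hs0, hs⟩ := SetLike.not_le_iff_exists.1 h1
    refine ⟨s, hs, ?_⟩
    rw [← Ideal.mem_span_singleton, hspan]
    exact Ideal.mul_mem_mul hs0 he

section Tower

variable {F N : Type} [Field F] [NumberField F] [Field N] [NumberField N] [Algebra F N]

/-- the embedding of the integers of `F` into `N` -/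
noncomputable def io (F N : Type) [Field F] [NumberField F] [Field N] [NumberField N]
    [Algebra F N] : 𝓞 F →+* N := (algebraMap F N).comp (algebraMap (𝓞 F) F)

theorem io_eq (x : 𝓞 F) : io F N x = ((algebraMap (𝓞 F) (𝓞 N) x : 𝓞 N) : N) := rfl

theorem val_io_le_one (W : HeightOneSpectrum (𝓞 N)) (x : 𝓞 F) :
    W.valuation N (io F N x) ≤ 1 := by
  rw [io_eq]
  exact W.valuation_le_one _

theorem val_io_le_of_dvd (W : HeightOneSpectrum (𝓞 N)) {x y : 𝓞 F} (h : x ∣ y) :
    W.valuation N (io F N y) ≤ W.valuation N (io F N x) := by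
  obtain ⟨c, rfl⟩ := h
  rw [map_mul, map_mul]
  exact mul_le_of_le_one_right' (val_io_le_one W c)

theorem val_le (W : HeightOneSpectrum (𝓞 N)) {s m e : 𝓞 F} (hs : s ∉ (W.under (𝓞 F)).asIdeal)
    (h : m ∣ s * e) : W.valuation N (io F N e) ≤ W.valuation N (io F N m) := by
  have h1 : W.valuation N (io F N s) = 1 := by
    refine le_antisymm (val_io_le_one W s) (not_lt.1 ?_)
    rw [io_eq, HeightOneSpectrum.valuation_lt_one_iff_mem]
    rw [HeightOneSpectrum.under_asIdeal, Ideal.mem_comap] at hs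
    exact hs
  have h2 := val_io_le_of_dvd W h
  rwa [map_mul, map_mul, h1, one_mul] at h2

end Tower

/-! ### A primitive element and the discriminant -/

section Prim

variable (F L : Type) [Field F] [NumberField F] [Field L] [NumberField L] [Algebra F L]
  [IsGalois F L]

theorem exists_theta : ∃ θ : 𝓞 L, ∀ g : L ≃ₐ[F] L, g (θ : L) = (θ : L) → g = 1 := by
  obtain ⟨a, ha⟩ := Field.exists_primitive_element F L
  have halg : IsAlgebraic ℤ a :=
    (IsFractionRing.isAlgebraic_iff ℤ ℚ L).2 (Algebra.IsAlgebraic.isAlgebraic a)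
  obtain ⟨m, hm, hint⟩ := halg.exists_integral_multiple
  refine ⟨⟨m • a, hint⟩, fun g hg => ?_⟩
  have h1 : g (m • a) = m • a := hg
  rw [map_zsmul] at h1
  have h2 : g a = a := by
    have h3 : (m : L) * g a = (m : L) * a := by
      rwa [zsmul_eq_mul, zsmul_eq_mul] at h1
    exact mul_left_cancel₀ (by exact_mod_cast hm) h3
  have key : ∀ x ∈ IntermediateField.adjoin F {a}, g x = x := by
    intro x hx
    induction hx using IntermediateField.adjoin_induction with
    | mem x hx =>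
      rw [Set.mem_singleton_iff] at hx
      rw [hx, h2]
    | algebraMap x => exact g.commutes x
    | add x y _ _ hx hy => rw [map_add, hx, hy]
    | inv x _ hx => rw [map_inv₀, hx]
    | mul x y _ _ hx hy => rw [map_mul, hx, hy]
  ext x
  rw [AlgEquiv.one_apply]
  exact key x (by rw [ha]; trivial)

variable {F L}

theorem exists_R0 (θ : 𝓞 L) (hθ : ∀ g : L ≃ₐ[F] L, g (θ : L) = (θ : L) → g = 1) :
    ∃ R : (𝓞 F)[X], R.Monic ∧ R.natDegree = Module.finrank F L ∧
      R.map (io F L) = ∏ g : L ≃ₐ[F] L, (X - C (g (θ : L))) := by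
  have hint : IsIntegral (𝓞 F) (θ : L) := (RingOfIntegers.isIntegral_coe θ).tower_top
  have hintF : IsIntegral F (θ : L) := Algebra.IsIntegral.isIntegral _
  have h1 : minpoly F (θ : L) = (minpoly (𝓞 F) (θ : L)).map (algebraMap (𝓞 F) F) :=
    minpoly.isIntegrallyClosed_eq_field_fractions' F hint
  have hinj : Function.Injective (fun g : L ≃ₐ[F] L => g (θ : L)) := by
    intro g g' hgg
    have h2 : (g'⁻¹ * g : L ≃ₐ[F] L) (θ : L) = (θ : L) := by
      rw [AlgEquiv.mul_apply]
      have : g (θ : L) = g' (θ : L) := hgg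
      rw [this, ← AlgEquiv.mul_apply, inv_mul_cancel, AlgEquiv.one_apply]
    exact (inv_mul_eq_one.1 (hθ _ h2)).symm
  have hdvd : (∏ g : L ≃ₐ[F] L, (X - C (g (θ : L)))) ∣
      (minpoly F (θ : L)).map (algebraMap F L) := by
    apply Finset.prod_dvd_of_coprime
    · intro g _ g' _ hgg
      exact isCoprime_X_sub_C_of_isUnit_sub (sub_ne_zero.2 (fun h => hgg (hinj h))).isUnit
    · intro g _
      rw [dvd_iff_isRoot, IsRoot.def, eval_map, ← aeval_def, ← AlgEquiv.coe_toAlgHom,
        aeval_algHom_apply, minpoly.aeval, map_zero]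
  have hmon : ((minpoly F (θ : L)).map (algebraMap F L)).Monic := (minpoly.monic hintF).map _
  have hmon2 : (∏ g : L ≃ₐ[F] L, (X - C (g (θ : L)))).Monic :=
    monic_prod_of_monic _ _ fun g _ => monic_X_sub_C _
  have hdeg2 : (∏ g : L ≃ₐ[F] L, (X - C (g (θ : L)))).natDegree = Module.finrank F L := by
    rw [natDegree_prod_of_monic _ _ fun g _ => monic_X_sub_C _]
    simp only [natDegree_X_sub_C, Finset.sum_const, Finset.card_univ, smul_eq_mul, mul_one]
    rw [← Nat.card_eq_fintype_card, IsGalois.card_aut_eq_finrank]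
  have hle : ((minpoly F (θ : L)).map (algebraMap F L)).natDegree ≤ Module.finrank F L := by
    rw [natDegree_map]
    exact minpoly.natDegree_le _
  have heq : (minpoly F (θ : L)).map (algebraMap F L) =
      ∏ g : L ≃ₐ[F] L, (X - C (g (θ : L))) := by
    refine (eq_of_monic_of_dvd_of_natDegree_le hmon2 hmon hdvd ?_)
    rw [hdeg2]
    exact hle
  refine ⟨minpoly (𝓞 F) (θ : L), minpoly.monic hint, ?_, ?_⟩
  · rw [← natDegree_map_eq_of_injective (FaithfulSMul.algebraMap_injective (𝓞 F) F), ← h1,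
      ← natDegree_map (algebraMap F L), heq, hdeg2]
  · rw [io, ← Polynomial.map_map, ← h1, heq]

omit [IsGalois F L] in
/-- A nonzero integer divisible by all differences. -/
theorem exists_d (θ : 𝓞 L) (hθ : ∀ g : L ≃ₐ[F] L, g (θ : L) = (θ : L) → g = 1) (n : ℕ) :
    ∃ d : ℕ, d ≠ 0 ∧
      (∀ g g' : L ≃ₐ[F] L, g ≠ g' →
        (STB.oMap (g : L ≃+* L) θ - STB.oMap (g' : L ≃+* L) θ) ∣ (d : 𝓞 L)) ∧
      ∀ i j : ℕ, i < n → j < n → i ≠ j → ((i : 𝓞 L) - (j : 𝓞 L)) ∣ (d : 𝓞 L) := by
  have hne : ∀ g g' : L ≃ₐ[F] L, g ≠ g' →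
      STB.oMap (g : L ≃+* L) θ - STB.oMap (g' : L ≃+* L) θ ≠ 0 := by
    intro g g' hgg h0
    apply hgg
    have h1 : g (θ : L) = g' (θ : L) := by
      have := congrArg (fun y : 𝓞 L => (y : L)) (sub_eq_zero.1 h0)
      exact this
    have h2 : (g'⁻¹ * g : L ≃ₐ[F] L) (θ : L) = (θ : L) := by
      rw [AlgEquiv.mul_apply, h1, ← AlgEquiv.mul_apply, inv_mul_cancel, AlgEquiv.one_apply]
    exact (inv_mul_eq_one.1 (hθ _ h2)).symm
  set D : 𝓞 L := (∏ p ∈ (Finset.univ : Finset ((L ≃ₐ[F] L) × (L ≃ₐ[F] L))).filter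
      (fun p => p.1 ≠ p.2), (STB.oMap (p.1 : L ≃+* L) θ - STB.oMap (p.2 : L ≃+* L) θ)) *
      ((n.factorial : ℕ) : 𝓞 L) with hD
  have hD0 : D ≠ 0 := by
    refine mul_ne_zero ?_ (by exact_mod_cast n.factorial_ne_zero)
    rw [Finset.prod_ne_zero_iff]
    intro p hp
    exact hne _ _ (Finset.mem_filter.1 hp).2
  refine ⟨Ideal.absNorm (Ideal.span {D}), ?_, ?_, ?_⟩
  · rw [Ne, Ideal.absNorm_eq_zero_iff, Ideal.span_singleton_eq_bot]
    exact hD0
  · intro g g' hgg
    refine dvd_trans ?_ (Ideal.mem_span_singleton.1 (Ideal.absNorm_mem (Ideal.span {D})))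
    refine dvd_trans ?_ (dvd_mul_right _ _)
    exact Finset.dvd_prod_of_mem
      (fun p : (L ≃ₐ[F] L) × (L ≃ₐ[F] L) =>
        STB.oMap (p.1 : L ≃+* L) θ - STB.oMap (p.2 : L ≃+* L) θ)
      (Finset.mem_filter.2 ⟨Finset.mem_univ (g, g'), hgg⟩)
  · intro i j hi hj hij
    refine dvd_trans ?_ (Ideal.mem_span_singleton.1 (Ideal.absNorm_mem (Ideal.span {D})))
    refine dvd_trans ?_ (dvd_mul_left _ _)
    have key : ∀ a b : ℕ, a < n → b < n → a < b → ((b : 𝓞 L) - (a : 𝓞 L)) ∣
        ((n.factorial : ℕ) : 𝓞 L) := by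
      intro a b ha hb hab
      have h1 : (b - a) ∣ n.factorial := Nat.dvd_factorial (by omega) (by omega)
      have h2 : ((b : 𝓞 L) - (a : 𝓞 L)) = ((b - a : ℕ) : 𝓞 L) := by
        rw [Nat.cast_sub hab.le]
      rw [h2]
      exact_mod_cast Nat.cast_dvd_cast (α := 𝓞 L) h1
    rcases lt_or_gt_of_ne hij with h | h
    · rw [← neg_dvd, neg_sub]
      exact key i j hi hj h
    · exact key j i hj hi h

end Prim

end UKIL

end StarkC
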