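import Pool.Agent.StarkU.UAVG

/-!
# Characters with values in the field of `n`-th roots of unity
-/

open scoped Classical

namespace StarkC

/-- The field generated by the `n`-th roots of unity. -/
noncomputable def Cyc (n : ℕ) : IntermediateField ℚ ℂ :=
  IntermediateField.adjoin ℚ {z : ℂ | z ^ n = 1}

namespace UVAL

theorem exists_hom (m a : ℕ) (hm : 0 < m) (ha : a.Coprime m) :
    ∃ (K : IntermediateField ℚ ℂ) (τ : K →+* ℂ),
      ∀ z : ℂ, z ^ m = 1 → ∃ h : z ∈ K, τ ⟨z, h⟩ = z ^ a := by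
  set ζ : ℂ := Complex.exp (2 * Real.pi * Complex.I / m) with hζd
  have hζ : IsPrimitiveRoot ζ m := Complex.isPrimitiveRoot_exp m hm.ne'
  have hζa : IsPrimitiveRoot (ζ ^ a) m := hζ.pow_of_coprime a ha
  have hint : IsIntegral ℚ ζ := (hζ.isIntegral hm).tower_top
  have hmin : minpoly ℚ ζ = minpoly ℚ (ζ ^ a) := by
    rw [← Polynomial.cyclotomic_eq_minpoly_rat hζ hm,
      ← Polynomial.cyclotomic_eq_minpoly_rat hζa hm]
  have hroot : ζ ^ a ∈ (minpoly ℚ ζ).aroots ℂ := by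
    rw [Polynomial.mem_aroots]
    refine ⟨minpoly.ne_zero hint, ?_⟩
    rw [hmin]
    exact minpoly.aeval ℚ _
  have hne : NeZero m := ⟨hm.ne'⟩
  refine ⟨IntermediateField.adjoin ℚ {ζ},
    ((IntermediateField.algHomAdjoinIntegralEquiv ℚ hint).symm ⟨ζ ^ a, hroot⟩).toRingHom, ?_⟩
  intro z hz
  obtain ⟨i, _, rfl⟩ := hζ.eq_pow_of_pow_eq_one hz
  have hmem : ζ ∈ IntermediateField.adjoin ℚ ({ζ} : Set ℂ) :=
    IntermediateField.mem_adjoin_simple_self ℚ ζ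
  refine ⟨pow_mem hmem i, ?_⟩
  have h1 : (⟨ζ ^ i, pow_mem hmem i⟩ : IntermediateField.adjoin ℚ ({ζ} : Set ℂ)) =
      (IntermediateField.AdjoinSimple.gen ℚ ζ) ^ i := rfl
  have h2 : ((IntermediateField.algHomAdjoinIntegralEquiv ℚ hint).symm
      ⟨ζ ^ a, hroot⟩).toRingHom (IntermediateField.AdjoinSimple.gen ℚ ζ) = ζ ^ a :=
    IntermediateField.algHomAdjoinIntegralEquiv_symm_apply_gen ℚ hint ⟨ζ ^ a, hroot⟩
  rw [h1, map_pow, h2, ← pow_mul, ← pow_mul, mul_comm]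

section grp

variable {G : Type} [Group G] [Fintype G]

theorem rel_of_span (K : IntermediateField ℚ ℂ) (τ : K →+* ℂ) (a m : ℕ)
    (ha : a.Coprime (Nat.card G)) (hcm : Nat.card G ∣ m)
    (hτ : ∀ z : ℂ, z ^ m = 1 → ∃ h : z ∈ K, τ ⟨z, h⟩ = z ^ a)
    {P : ∀ H : Subgroup G, (H →* ℂˣ) → Prop} {f : G → ℂ} (hf : f ∈ SpanQ (G := G) P) (g : G) :
    ∃ u : K, (u : ℂ) = f g ∧ τ u = f (g ^ a) := by
  unfold SpanQ at hf
  induction hf using Submodule.span_induction with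
  | mem f h =>
    obtain ⟨H, ψ, hP, rfl⟩ := h
    rw [UAVG.indFun_pow H ψ a ha g]
    have h1 : ∀ x : G, ∃ u : K,
        (u : ℂ) = (if x⁻¹ * g * x ∈ H then extZ ψ (x⁻¹ * g * x) else 0) ∧
        τ u = (if x⁻¹ * g * x ∈ H then extZ (ψ ^ a) (x⁻¹ * g * x) else 0) := by
      intro x
      by_cases hx : x⁻¹ * g * x ∈ H
      · have h2 := CMB.extZ_apply ψ (⟨_, hx⟩ : H)
        have h3 := CMB.extZ_apply (ψ ^ a) (⟨_, hx⟩ : H)
        rw [MonoidHom.pow_apply, Units.val_pow_eq_pow_val] at h3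
        have hz : ((ψ ⟨_, hx⟩ : ℂˣ) : ℂ) ^ m = 1 := by
          obtain ⟨k, rfl⟩ := hcm
          have h4 : ((ψ ⟨_, hx⟩ : ℂˣ) : ℂ) ^ (Nat.card G) = 1 := by
            rw [← Units.val_pow_eq_pow_val, ← map_pow]
            have : (⟨x⁻¹ * g * x, hx⟩ : H) ^ (Nat.card G) = 1 := Subtype.ext pow_card_eq_one'
            rw [this, map_one, Units.val_one]
          rw [pow_mul, h4, one_pow]
        obtain ⟨h5, h6⟩ := hτ _ hz
        refine ⟨⟨_, h5⟩, ?_, ?_⟩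
        · rw [if_pos hx]
          exact h2.symm
        · rw [if_pos hx, h6]
          exact h3.symm
      · exact ⟨0, by rw [if_neg hx]; rfl, by rw [if_neg hx, map_zero]⟩
    choose u hu hu' using h1
    refine ⟨(∑ x, u x) / (Nat.card H : K), ?_, ?_⟩
    · unfold indFun
      push_cast
      rw [Finset.sum_congr rfl fun x _ => hu x]
    · unfold indFun
      rw [map_div₀, map_sum, map_natCast, Finset.sum_congr rfl fun x _ => hu' x]
  | zero => exact ⟨0, rfl, map_zero τ⟩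
  | add f f' _ _ h h' =>
    obtain ⟨u, hu, hu'⟩ := h
    obtain ⟨v, hv, hv'⟩ := h'
    exact ⟨u + v, by rw [Pi.add_apply, ← hu, ← hv]; rfl, by rw [map_add, hu', hv']; rfl⟩
  | smul q f _ h =>
    obtain ⟨u, hu, hu'⟩ := h
    refine ⟨(q : K) * u, ?_, ?_⟩
    · rw [Pi.smul_apply, ← hu, Rat.smul_def]
      push_cast
      rfl
    · rw [map_mul, hu', map_ratCast, Pi.smul_apply, Rat.smul_def]

theorem cyc_fix (K : IntermediateField ℚ ℂ) (τ : K →+* ℂ) (a n m : ℕ)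
    (hnm : n ∣ m) (han : a ≡ 1 [MOD n])
    (hτ : ∀ z : ℂ, z ^ m = 1 → ∃ h : z ∈ K, τ ⟨z, h⟩ = z ^ a) (x : ℂ) (hx : x ∈ Cyc n) :
    ∃ h : x ∈ K, τ ⟨x, h⟩ = x := by
  unfold Cyc at hx
  induction hx using IntermediateField.adjoin_induction with
  | mem x hx =>
    have h1 : x ^ n = 1 := hx
    obtain ⟨k, rfl⟩ := hnm
    have h2 : x ^ (n * k) = 1 := by rw [pow_mul, h1, one_pow]
    obtain ⟨h3, h4⟩ := hτ x h2
    refine ⟨h3, ?_⟩
    rw [h4]
    have h5 : x ^ a = x ^ 1 := by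
      rw [pow_eq_pow_mod a h1, pow_eq_pow_mod 1 h1, show a % n = 1 % n from han]
    rw [h5, pow_one]
  | algebraMap q =>
    refine ⟨K.algebraMap_mem q, ?_⟩
    have h1 : (⟨algebraMap ℚ ℂ q, K.algebraMap_mem q⟩ : K) = ((q : ℚ) : K) := by
      apply Subtype.ext
      show algebraMap ℚ ℂ q = (((q : ℚ) : K) : ℂ)
      push_cast
      rfl
    rw [h1, map_ratCast]
    rfl
  | add x y _ _ hx hy =>
    obtain ⟨h1, h2⟩ := hx
    obtain ⟨h3, h4⟩ := hy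
    refine ⟨K.add_mem h1 h3, ?_⟩
    have : (⟨x + y, K.add_mem h1 h3⟩ : K) = ⟨x, h1⟩ + ⟨y, h3⟩ := rfl
    rw [this, map_add, h2, h4]
  | inv x _ hx =>
    obtain ⟨h1, h2⟩ := hx
    refine ⟨K.inv_mem h1, ?_⟩
    have : (⟨x⁻¹, K.inv_mem h1⟩ : K) = (⟨x, h1⟩)⁻¹ := rfl
    rw [this, map_inv₀, h2]
  | mul x y _ _ hx hy =>
    obtain ⟨h1, h2⟩ := hx
    obtain ⟨h3, h4⟩ := hy
    refine ⟨K.mul_mem h1 h3, ?_⟩
    have : (⟨x * y, K.mul_mem h1 h3⟩ : K) = ⟨x, h1⟩ * ⟨y, h3⟩ := rfl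
    rw [this, map_mul, h2, h4]

/-- Virtual characters with values in the field of `n`-th roots of unity. -/
theorem inv_of_values (n : ℕ) (hn : 0 < n) {P : ∀ H : Subgroup G, (H →* ℂˣ) → Prop} {f : G → ℂ}
    (hf : f ∈ SpanQ (G := G) P) (hval : ∀ g, f g ∈ Cyc n) (a : ℕ) (g : G)
    (ha : a.Coprime (Nat.card G)) (han : a ≡ 1 [MOD n]) : f (g ^ a) = f g := by
  have han' : a.Coprime n := by
    have h1 : Nat.gcd a n = Nat.gcd 1 n := Nat.ModEq.gcd_eq han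
    rw [Nat.gcd_one_left] at h1
    exact h1
  obtain ⟨K, τ, hτ⟩ := exists_hom (n * Nat.card G) a (Nat.mul_pos hn Nat.card_pos)
    (Nat.Coprime.mul_right han' ha)
  obtain ⟨u, hu, hu'⟩ := rel_of_span K τ a _ ha (dvd_mul_left _ _) hτ hf g
  obtain ⟨h1, h2⟩ := cyc_fix K τ a n _ (dvd_mul_right _ _) han hτ (f g) (hval g)
  have h3 : u = ⟨f g, h1⟩ := Subtype.ext hu
  rw [← hu', h3, h2]

/-- A sum of values of characters of order dividing `n`. -/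
theorem values_of_pow (n : ℕ) (H : Subgroup G) (ψ : H →* ℂˣ) (hψ : ∀ h : H,
    ((ψ h : ℂˣ) : ℂ) ∈ Cyc n) (g : G) : indFun H (extZ ψ) g ∈ Cyc n := by
  unfold indFun
  refine (Cyc n).div_mem ((Cyc n).sum_mem fun x _ => ?_) ((Cyc n).natCast_mem _)
  split_ifs with hx
  · have h2 := CMB.extZ_apply ψ (⟨_, hx⟩ : H)
    have h3 : extZ ψ (x⁻¹ * g * x) = ((ψ ⟨_, hx⟩ : ℂˣ) : ℂ) := h2
    rw [h3]
    exact hψ _
  · exact (Cyc n).zero_mem

end grp

end UVAL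
end StarkC
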